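import Pool.Agent.MP_a001a6_co.Mg.Game

/-
HINTS.  For k ∈ Icc lo x, r ≤ 2k with IsP (k^2+r): IsN r and IsN (2k^2+r) (isP_block).  Write 2k^2 + r = m^2 + r1 (m = sqrt, r1 ≤ 2m); then -1 < m - √2k < 0.70711, r - r1 = m^2 - 2k^2, and isN_block gives IsP r1 (type A) or IsP (2m^2 + r1) where 2m^2 + r1 = (2k)^2 + (2r - r1).
 Type A: a = r ∈ N-positions in [0,2x+1), b = r1 ∈ P-positions in [0, 283x/100), pair (m,k), c = -0.1464, |m-√2k-c| ≤ 0.8536.
 Type B0 (r1 ≤ 2r): a = 2r - r1 ≤ 4k is an N-position (isP_block at 2k), b = r, a - b = m^2-2k^2, here m^2+m ≥ 2k^2 so m - √2k > -1/2, c = 0.1036, radius 0.6036.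
 Type B1 (2r < r1): 2m^2 + r1 = (2k-1)^2 + a, a = 2r - r1 + 4k - 1 ≤ 4k-2 is an N-position, a - (r+1) = m^2 - 2(k-1)^2, pair (m,k-1), m - √2(k-1) ∈ (√2-1, √2), c = 0.9142 (use T shifted by one: b = r+1).
 In every case |m + √2k' - 2√2z| ≤ 2√2(|k-z|+1), so gw z Ak k ≤ pk * (Kern weight).  The maps (k,r) ↦ (a,b,pair) are injective, so each type is bounded by a Kern sum (take Z = a box of pairs).
 Strips for types B0, B1: l = x/2+1, j = r/l ∈ {0,1,2,3}, T_j = N-positions in [jl,(j+1)l), S = N-positions in [0,4x+1), cut at 2(j+1)l.  B0 has a ≤ 2r < 2(j+1)l (lower part), B1 has a ≥ 2jl + 1.1715 lo - 2.5 ≥ 2(j+1)l (upper part, by hstrip), and B1 forces r < m < 3l so j ≤ 2.  Interval lengths: lower 2(j+1)l, upper 4x+1-2(j+1)l for j ≤ 2; whole 4x+1 for j = 3.  Sum the seven Bnd terms with |lower|+|upper| = |S| ≤ W4, ∑|T_j| ≤ W2 (they are disjoint subsets of N-positions ≤ 2x: intersect T_j with range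 (2x+1)), Cauchy-Schwarz √(ab)+√(cd) ≤ √((a+c)(b+d)), 4l ≤ 2x+4, and √2(√b0+√b1+√b2)+√b3 ≤ √7 √(b0+b1+b2+b3).
-/

namespace Pool.Agent.MP_a001a6_co

open Finset

/-! ### Elementary inequalities -/

theorem window_cs {a b c d : ℝ} (ha : 0 ≤ a) (hb : 0 ≤ b) (hc : 0 ≤ c) (hd : 0 ≤ d) :
    √(a * b) + √(c * d) ≤ √((a + c) * (b + d)) := by
  rw [Real.sqrt_mul ha, Real.sqrt_mul hc]
  refine Real.le_sqrt_of_sq_le ?_
  have h1 := Real.sq_sqrt ha
  have h2 := Real.sq_sqrt hb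
  have h3 := Real.sq_sqrt hc
  have h4 := Real.sq_sqrt hd
  have : (a + c) * (b + d) = (√a ^ 2 + √c ^ 2) * (√b ^ 2 + √d ^ 2) := by rw [h1, h2, h3, h4]
  rw [this]
  nlinarith [sq_nonneg (√a * √d - √c * √b)]

theorem window_sig : 0 ≤ sig := by unfold sig; norm_num

theorem window_lam : 0 ≤ lam := by unfold lam; norm_num

theorem window_bnd_mono {ρ E Δ NA NB NB' a b a' b' : ℝ} (hρ : 0 ≤ ρ) (hE : 0 ≤ E) (hΔ : 0 ≤ Δ)
    (hNA : 0 ≤ NA) (hNB : 0 ≤ NB) (h : NB ≤ NB') (ha : 0 ≤ a) (hb : 0 ≤ b) (ha' : a ≤ a')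
    (hb' : b ≤ b') : Bnd ρ E Δ NA NB a b ≤ Bnd ρ E Δ NA NB' a' b' := by
  have := window_sig
  have := window_lam
  have : 0 ≤ a' := ha.trans ha'
  have : 0 ≤ NB' := hNB.trans h
  unfold Bnd
  gcongr

theorem window_pair {ρ E Δ N1 N2 M l s1 s2 t W : ℝ} (hρ : 0 ≤ ρ) (hE : 0 ≤ E) (hΔ : 0 ≤ Δ)
    (h1 : 0 ≤ N1) (h2 : 0 ≤ N2) (hM : N1 + N2 = M) (hl : 0 ≤ l) (hs1 : 0 ≤ s1) (hs2 : 0 ≤ s2)
    (ht : 0 ≤ t) (hW : s1 + s2 ≤ W) :
    Bnd ρ E Δ N1 l s1 t + Bnd ρ E Δ N2 l s2 t ≤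
      ρ * (sig * W * t + √((lam * M + 2 * Δ) * W) * (√(lam * l + Δ) * √t))
        + E * (√W * (√2 * √t)) := by
  have hsig := window_sig
  have hlam := window_lam
  have hW0 : 0 ≤ W := by linarith
  have a1 : √((lam * N1 + Δ) * s1) + √((lam * N2 + Δ) * s2) ≤ √((lam * M + 2 * Δ) * W) := by
    refine (window_cs (by positivity) hs1 (by positivity) hs2).trans (Real.sqrt_le_sqrt ?_)
    have e : lam * N1 + Δ + (lam * N2 + Δ) = lam * M + 2 * Δ := by rw [← hM]; ring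
    rw [e]
    have : 0 ≤ M := by linarith
    gcongr
  have a2 : √(s1 * t) + √(s2 * t) ≤ √W * (√2 * √t) := by
    refine (window_cs hs1 ht hs2 ht).trans ?_
    rw [← Real.sqrt_mul (by norm_num), ← Real.sqrt_mul hW0]
    refine Real.sqrt_le_sqrt ?_
    rw [← two_mul]
    gcongr
  have a3 : √((lam * l + Δ) * t) = √(lam * l + Δ) * √t := Real.sqrt_mul (by positivity) _
  have a4 : sig * s1 * t + sig * s2 * t ≤ sig * W * t := by
    rw [← add_mul, ← mul_add]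
    gcongr
  have a5 := mul_le_mul_of_nonneg_right a1 (show 0 ≤ √(lam * l + Δ) * √t by positivity)
  have a6 := mul_le_mul_of_nonneg_left (add_le_add a4 a5) hρ
  have a7 := mul_le_mul_of_nonneg_left a2 hE
  unfold Bnd
  rw [a3]
  nlinarith [a6, a7]

theorem window_single {ρ E Δ M l s t W : ℝ} (hρ : 0 ≤ ρ) (hE : 0 ≤ E) (hΔ : 0 ≤ Δ)
    (hM : 0 ≤ M) (hl : 0 ≤ l) (hs : 0 ≤ s) (ht : 0 ≤ t) (hW : s ≤ W) :
    Bnd ρ E Δ M l s t ≤
      ρ * (sig * W * t + √((lam * M + 2 * Δ) * W) * (√(lam * l + Δ) * √t)) + E * (√W * √t) := by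
  have hsig := window_sig
  have hlam := window_lam
  have hW0 : 0 ≤ W := by linarith
  have a3 : √((lam * l + Δ) * t) = √(lam * l + Δ) * √t := Real.sqrt_mul (by positivity) _
  unfold Bnd
  rw [a3, ← Real.sqrt_mul hW0]
  gcongr
  linarith

theorem window_total {ρ E Δ M l L t0 t1 t2 t3 W V : ℝ} (hρ : 0 ≤ ρ) (hE : 0 ≤ E) (hΔ : 0 ≤ Δ)
    (hl : 0 ≤ l) (hL : 4 * l ≤ L) (h0 : 0 ≤ t0) (h1 : 0 ≤ t1) (h2 : 0 ≤ t2)
    (h3 : 0 ≤ t3) (hW : 0 ≤ W) (hV : t0 + t1 + t2 + t3 ≤ V) :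
    (ρ * (sig * W * t0 + √((lam * M + 2 * Δ) * W) * (√(lam * l + Δ) * √t0))
        + E * (√W * (√2 * √t0)))
      + (ρ * (sig * W * t1 + √((lam * M + 2 * Δ) * W) * (√(lam * l + Δ) * √t1))
        + E * (√W * (√2 * √t1)))
      + (ρ * (sig * W * t2 + √((lam * M + 2 * Δ) * W) * (√(lam * l + Δ) * √t2))
        + E * (√W * (√2 * √t2)))
      + (ρ * (sig * W * t3 + √((lam * M + 2 * Δ) * W) * (√(lam * l + Δ) * √t3))
        + E * (√W * √t3))
      ≤ ρ * (sig * V * W + √((lam * M + 2 * Δ) * W) * √((lam * L + 4 * Δ) * V))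
        + √7 * E * √(V * W) := by
  have hsig := window_sig
  have hlam := window_lam
  have hV0 : 0 ≤ V := by linarith
  have e0 := Real.sq_sqrt h0
  have e1 := Real.sq_sqrt h1
  have e2 := Real.sq_sqrt h2
  have e3 := Real.sq_sqrt h3
  have e4 : √2 ^ 2 = (2 : ℝ) := Real.sq_sqrt (by norm_num)
  have a1 : √(lam * l + Δ) * (√t0 + √t1 + √t2 + √t3) ≤ √((lam * L + 4 * Δ) * V) := by
    refine Real.le_sqrt_of_sq_le ?_
    rw [mul_pow, Real.sq_sqrt (by positivity)]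
    have b1 : (√t0 + √t1 + √t2 + √t3) ^ 2 ≤ 4 * V := by
      nlinarith [sq_nonneg (√t0 - √t1), sq_nonneg (√t0 - √t2), sq_nonneg (√t0 - √t3),
        sq_nonneg (√t1 - √t2), sq_nonneg (√t1 - √t3), sq_nonneg (√t2 - √t3)]
    have b2 : lam * (4 * l) ≤ lam * L := by gcongr
    calc (lam * l + Δ) * (√t0 + √t1 + √t2 + √t3) ^ 2 ≤ (lam * l + Δ) * (4 * V) := by gcongr
      _ = (lam * (4 * l) + 4 * Δ) * V := by ring
      _ ≤ (lam * L + 4 * Δ) * V := by gcongr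
  have a2 : √2 * (√t0 + √t1 + √t2) + √t3 ≤ √7 * √V := by
    rw [← Real.sqrt_mul (by norm_num)]
    refine Real.le_sqrt_of_sq_le ?_
    generalize √t0 = u0 at *
    generalize √t1 = u1 at *
    generalize √t2 = u2 at *
    generalize √t3 = u3 at *
    generalize √2 = s at *
    have b1 : (s * (u0 + u1 + u2) + u3) ^ 2
        = 2 * (u0 + u1 + u2) ^ 2 + 2 * s * (u0 + u1 + u2) * u3 + u3 ^ 2 := by
      linear_combination (u0 + u1 + u2) ^ 2 * e4
    have b2 : ∀ u : ℝ, 2 * s * u * u3 ≤ u ^ 2 + 2 * u3 ^ 2 := fun u => by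
      have : (u - s * u3) ^ 2 = u ^ 2 - 2 * s * u * u3 + 2 * u3 ^ 2 := by
        linear_combination u3 ^ 2 * e4
      nlinarith [sq_nonneg (u - s * u3)]
    rw [b1]
    nlinarith [b2 u0, b2 u1, b2 u2, sq_nonneg (u0 - u1), sq_nonneg (u0 - u2), sq_nonneg (u1 - u2)]
  have a3 : sig * W * (t0 + t1 + t2 + t3) ≤ sig * W * V := by gcongr
  have a4 := mul_le_mul_of_nonneg_left a1 (Real.sqrt_nonneg ((lam * M + 2 * Δ) * W))
  have a5 := mul_le_mul_of_nonneg_left (add_le_add a3 a4) hρ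
  have a6 := mul_le_mul_of_nonneg_left a2 (show 0 ≤ E * √W by positivity)
  rw [Real.sqrt_mul hV0]
  nlinarith [a5, a6]

/-! ### From a family of configurations to the kernel bound -/

theorem window_wt {z Ak B c R pk m k' : ℝ} (k : ℕ) (hAk : 0 < Ak) (hB : 0 < B)
    (h1 : |m + √2 * k' - 2 * √2 * z| ≤ 2 * √2 * (|(k : ℝ) - z| + 1))
    (h2 : |m - √2 * k' - c| ≤ R) (hp : Real.exp (Real.pi * (R / B) ^ 2) ≤ pk) :
    gw z Ak k ≤ pk * Real.exp (-Real.pi * ((m + √2 * k' - 2 * √2 * z) / (2 * √2 * Ak)) ^ 2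
      - Real.pi * ((m - √2 * k' - c) / B) ^ 2) := by
  refine le_trans ?_ (mul_le_mul_of_nonneg_right hp (Real.exp_pos _).le)
  rw [← Real.exp_add, gw, Real.exp_le_exp]
  have hs : (0 : ℝ) < 2 * √2 := by positivity
  have a1 : ((m + √2 * k' - 2 * √2 * z) / (2 * √2 * Ak)) ^ 2 ≤ ((|(k : ℝ) - z| + 1) / Ak) ^ 2 := by
    rw [← sq_abs ((m + √2 * k' - 2 * √2 * z) / (2 * √2 * Ak)), abs_div,
      abs_of_pos (show 0 < 2 * √2 * Ak by positivity), ← mul_div_mul_left _ Ak hs.ne']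
    gcongr
  have a2 : ((m - √2 * k' - c) / B) ^ 2 ≤ (R / B) ^ 2 := by
    rw [← sq_abs ((m - √2 * k' - c) / B), abs_div, abs_of_pos hB]
    gcongr
  have := Real.pi_pos
  nlinarith [mul_le_mul_of_nonneg_left a1 this.le, mul_le_mul_of_nonneg_left a2 this.le]

theorem window_inj {z Ak B ρ E Δ : ℝ} (hK : Kern z Ak B ρ E Δ) (c : ℝ) (hc : |c| ≤ 9143 / 10000)
    (S T : Finset ℤ) (a0 b0 : ℤ) (NA NB : ℕ) (hS : ∀ a ∈ S, a0 ≤ a ∧ a < a0 + NA)
    (hT : ∀ b ∈ T, b0 ≤ b ∧ b < b0 + NB) (D : Finset (ℕ × ℕ)) (F : ℕ × ℕ → ℤ × ℤ × ℤ × ℤ)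
    (w : ℕ × ℕ → ℝ) (pk : ℝ) (hpk : 0 ≤ pk) (ha : ∀ d ∈ D, (F d).1 ∈ S)
    (hb : ∀ d ∈ D, (F d).2.1 ∈ T)
    (he : ∀ d ∈ D, (F d).2.2.1 ^ 2 - 2 * (F d).2.2.2 ^ 2 = (F d).1 - (F d).2.1)
    (hinj : Set.InjOn F D)
    (hw : ∀ d ∈ D, w d ≤ pk * Real.exp
      (-Real.pi * ((((F d).2.2.1 : ℝ) + √2 * (F d).2.2.2 - 2 * √2 * z) / (2 * √2 * Ak)) ^ 2
        - Real.pi * ((((F d).2.2.1 : ℝ) - √2 * (F d).2.2.2 - c) / B) ^ 2)) :
    ∑ d ∈ D, w d ≤ pk * Bnd ρ E Δ NA NB S.card T.card := by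
  classical
  set wt : ℤ × ℤ → ℝ := fun p => Real.exp
    (-Real.pi * (((p.1 : ℝ) + √2 * p.2 - 2 * √2 * z) / (2 * √2 * Ak)) ^ 2
      - Real.pi * (((p.1 : ℝ) - √2 * p.2 - c) / B) ^ 2) with hwt
  have h1 := hK c hc S T a0 b0 NA NB hS hT (D.image fun d => (F d).2.2)
  refine (sum_le_sum hw).trans ?_
  rw [← mul_sum]
  refine mul_le_mul_of_nonneg_left (le_trans ?_ h1) hpk
  have h2 : ∑ a ∈ S, ∑ b ∈ T, ∑ p ∈ (D.image fun d => (F d).2.2).filter
      (fun p => p.1 ^ 2 - 2 * p.2 ^ 2 = a - b), wt p =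
      ∑ t ∈ (S ×ˢ T ×ˢ (D.image fun d => (F d).2.2)).filter
        (fun t => t.2.2.1 ^ 2 - 2 * t.2.2.2 ^ 2 = t.1 - t.2.1), wt t.2.2 := by
    rw [sum_filter, sum_product]
    refine sum_congr rfl fun a _ => ?_
    rw [sum_product]
    exact sum_congr rfl fun b _ => sum_filter _ _
  refine le_trans ?_ h2.ge
  have h3 : ∑ d ∈ D, wt (F d).2.2 = ∑ t ∈ D.image F, wt t.2.2 :=
    (sum_image (f := fun t : ℤ × ℤ × ℤ × ℤ => wt t.2.2) hinj).symm
  refine le_trans h3.le (sum_le_sum_of_subset_of_nonneg (fun t ht => ?_)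
    fun _ _ _ => (Real.exp_pos _).le)
  obtain ⟨d, hd, rfl⟩ := mem_image.1 ht
  exact mem_filter.2 ⟨mem_product.2 ⟨ha d hd, mem_product.2 ⟨hb d hd, mem_image_of_mem _ hd⟩⟩,
    he d hd⟩

/-! ### The three types of configurations -/

/-- the integer square root of `2 k ^ 2 + r` -/
def windowM (d : ℕ × ℕ) : ℕ := Nat.sqrt (2 * d.1 ^ 2 + d.2)

/-- the remainder of `2 k ^ 2 + r` -/
def windowR (d : ℕ × ℕ) : ℕ := 2 * d.1 ^ 2 + d.2 - windowM d ^ 2

theorem window_mr (d : ℕ × ℕ) :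
    windowM d ^ 2 + windowR d = 2 * d.1 ^ 2 + d.2 ∧ windowR d ≤ 2 * windowM d := by
  have h1 : windowM d ^ 2 ≤ 2 * d.1 ^ 2 + d.2 := Nat.sqrt_le' _
  have h2 : 2 * d.1 ^ 2 + d.2 < (windowM d + 1) ^ 2 := Nat.lt_succ_sqrt' _
  have h3 : (windowM d + 1) ^ 2 = windowM d ^ 2 + 2 * windowM d + 1 := by ring
  unfold windowR
  omega

theorem window_s1 : (141421 / 100000 : ℝ) < √2 := Real.lt_sqrt_of_sq_lt (by norm_num)

theorem window_s2 : √2 < (141422 / 100000 : ℝ) :=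
  (Real.sqrt_lt' (by norm_num)).2 (by norm_num)

theorem window_real (d : ℕ × ℕ) (hr : d.2 ≤ 2 * d.1) :
    (windowM d : ℝ) ≤ √2 * d.1 + 70711 / 100000 ∧ √2 * d.1 ≤ (windowM d : ℝ) + 1 ∧
      (windowR d ≤ 2 * d.2 → √2 * d.1 ≤ (windowM d : ℝ) + 1 / 2) ∧
      (2 * d.2 < windowR d → (windowM d : ℝ) ≤ √2 * d.1) := by
  obtain ⟨h1, h2⟩ := window_mr d
  have h1' : (windowM d : ℝ) ^ 2 + windowR d = 2 * (d.1 : ℝ) ^ 2 + d.2 := by exact_mod_cast h1
  have h2' : (windowR d : ℝ) ≤ 2 * windowM d := by exact_mod_cast h2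
  have hr' : (d.2 : ℝ) ≤ 2 * d.1 := by exact_mod_cast hr
  have e : (√2 * d.1) ^ 2 = 2 * (d.1 : ℝ) ^ 2 := by rw [mul_pow, Real.sq_sqrt (by norm_num)]
  have s1 := window_s1
  have p1 : (0 : ℝ) ≤ d.1 := Nat.cast_nonneg _
  have p2 : (0 : ℝ) ≤ d.2 := Nat.cast_nonneg _
  have p3 : (0 : ℝ) ≤ windowM d := Nat.cast_nonneg _
  have p4 : (0 : ℝ) ≤ windowR d := Nat.cast_nonneg _
  have p5 : 141421 / 100000 * (d.1 : ℝ) ≤ √2 * d.1 := by gcongr
  refine ⟨(abs_le_of_sq_le_sq' ?_ (by positivity)).2, (abs_le_of_sq_le_sq' ?_ (by positivity)).2,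
    fun h => (abs_le_of_sq_le_sq' ?_ (by positivity)).2,
    fun h => (abs_le_of_sq_le_sq' ?_ (by positivity)).2⟩
  · nlinarith
  · nlinarith
  · have h' : (windowR d : ℝ) ≤ 2 * d.2 := by exact_mod_cast h
    nlinarith
  · have h' : 2 * (d.2 : ℝ) ≤ windowR d := by exact_mod_cast h.le
    nlinarith

theorem window_first {z m k k' : ℝ} (h : |m + √2 * k' - 2 * √2 * k| ≤ 2 * √2) :
    |m + √2 * k' - 2 * √2 * z| ≤ 2 * √2 * (|k - z| + 1) := by
  have e : m + √2 * k' - 2 * √2 * z = (m + √2 * k' - 2 * √2 * k) + 2 * √2 * (k - z) := by ring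
  rw [e]
  refine (abs_add_le _ _).trans ?_
  rw [abs_mul (2 * √2), abs_of_pos (show (0 : ℝ) < 2 * √2 by positivity)]
  linarith

open Classical in
/-- number of N-positions in an interval -/
noncomputable def windowC (u v : ℕ) : ℕ := ((Ico u v).filter IsN).card

theorem windowC_add {u v w : ℕ} (h1 : u ≤ v) (h2 : v ≤ w) :
    windowC u v + windowC v w = windowC u w := by
  classical
  unfold windowC
  rw [← card_union_of_disjoint (disjoint_filter_filter (Ico_disjoint_Ico_consecutive u v w)),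
    ← filter_union, Ico_union_Ico_eq_Ico h1 h2]

theorem windowC_zero (v : ℕ) : windowC 0 v = cN v := by
  unfold windowC cN
  rw [range_eq_Ico]

/-- the admissible pairs (block, offset) -/
def windowD (lo x : ℕ) (d : ℕ × ℕ) : Prop :=
  lo ≤ d.1 ∧ d.1 ≤ x ∧ d.2 ≤ 2 * d.1 ∧ IsP (d.1 ^ 2 + d.2)

theorem window_A {z Ak B ρ E Δ : ℝ} (hK : Kern z Ak B ρ E Δ) (hAk : 0 < Ak) (hB : 0 < B)
    (lo x : ℕ) (hlo : 2000 ≤ lo) (pk : ℝ)
    (hp : Real.exp (Real.pi * (8536 / 10000 / B) ^ 2) ≤ pk) (D : Finset (ℕ × ℕ))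
    (hD : ∀ d ∈ D, windowD lo x d ∧ IsP (windowR d)) :
    ∑ d ∈ D, gw z Ak d.1 ≤ pk * Bnd ρ E Δ ((2 * x + 1 : ℕ) : ℝ) ((283 * x / 100 : ℕ) : ℝ)
      (cN (2 * x + 1)) (cP (283 * x / 100)) := by
  classical
  have s1 := window_s1
  have s2 := window_s2
  have h := window_inj hK (-(1464 / 10000)) (by rw [abs_neg, abs_of_pos] <;> norm_num)
    (((range (2 * x + 1)).filter IsN).image fun n : ℕ => (n : ℤ))
    (((range (283 * x / 100)).filter IsP).image fun n : ℕ => (n : ℤ)) 0 0 (2 * x + 1)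
    (283 * x / 100) ?_ ?_ D
    (fun d => ((d.2 : ℤ), (windowR d : ℤ), (windowM d : ℤ), (d.1 : ℤ))) (fun d => gw z Ak d.1) pk
    ((Real.exp_pos _).le.trans hp) ?_ ?_ ?_ ?_ ?_
  · rwa [card_image_of_injective _ Nat.cast_injective,
      card_image_of_injective _ Nat.cast_injective] at h
  · intro a ha
    obtain ⟨n, hn, rfl⟩ := mem_image.1 ha
    have := mem_range.1 (mem_filter.1 hn).1
    omega
  · intro a ha
    obtain ⟨n, hn, rfl⟩ := mem_image.1 ha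
    have := mem_range.1 (mem_filter.1 hn).1
    omega
  · intro d hd
    obtain ⟨⟨h1, h2, h3, h4⟩, -⟩ := hD d hd
    exact mem_image_of_mem _ (mem_filter.2 ⟨mem_range.2 (by omega),
      (isP_block _ _ (by omega) h3 h4).1⟩)
  · intro d hd
    obtain ⟨⟨h1, h2, h3, h4⟩, h5⟩ := hD d hd
    refine mem_image_of_mem _ (mem_filter.2 ⟨mem_range.2 ?_, h5⟩)
    have a1 := (window_real d h3).1
    have a2 := (window_mr d).2
    have a3 : (d.1 : ℝ) ≤ x := by exact_mod_cast h2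
    have a4 : (2000 : ℝ) ≤ x := by exact_mod_cast hlo.trans (h1.trans h2)
    have a5 : √2 * (d.1 : ℝ) ≤ 141422 / 100000 * x := by gcongr
    have a6 : 100 * (2 * (windowM d : ℝ) + 1) ≤ 283 * x := by linarith
    have a7 : 100 * (2 * windowM d + 1) ≤ 283 * x := by exact_mod_cast a6
    omega
  · intro d _
    have := (window_mr d).1
    zify at this
    simp only
    linarith
  · intro d _ d' _ h
    simp only [Prod.mk.injEq, Nat.cast_inj] at h
    exact Prod.ext h.2.2.2 h.1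
  · intro d hd
    obtain ⟨⟨h1, h2, h3, h4⟩, h5⟩ := hD d hd
    obtain ⟨a1, a2, -, -⟩ := window_real d h3
    simp only [Int.cast_natCast]
    refine window_wt d.1 hAk hB (window_first ?_) ?_ hp
    · rw [abs_le]
      constructor <;> linarith
    · rw [abs_le]
      constructor <;> linarith

theorem window_B0 {z Ak B ρ E Δ : ℝ} (hK : Kern z Ak B ρ E Δ) (hAk : 0 < Ak) (hB : 0 < B)
    (lo x : ℕ) (hlo : 2000 ≤ lo) (pk : ℝ)
    (hp : Real.exp (Real.pi * (6036 / 10000 / B) ^ 2) ≤ pk) (u v l cut : ℕ) (hv : v ≤ u + l)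
    (hcut : 2 * v ≤ cut + 1) (D : Finset (ℕ × ℕ))
    (hD : ∀ d ∈ D, windowD lo x d ∧ ¬ IsP (windowR d) ∧ windowR d ≤ 2 * d.2 ∧ u ≤ d.2 ∧ d.2 < v) :
    ∑ d ∈ D, gw z Ak d.1 ≤ pk * Bnd ρ E Δ cut l (windowC 0 cut) (windowC u v) := by
  classical
  have s1 := window_s1
  have s2 := window_s2
  have h := window_inj hK (1036 / 10000) (by rw [abs_of_pos] <;> norm_num)
    (((Ico 0 cut).filter IsN).image fun n : ℕ => (n : ℤ))
    (((Ico u v).filter IsN).image fun n : ℕ => (n : ℤ)) 0 u cut l ?_ ?_ D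
    (fun d => (((2 * d.2 - windowR d : ℕ) : ℤ), (d.2 : ℤ), (windowM d : ℤ), (d.1 : ℤ)))
    (fun d => gw z Ak d.1) pk ((Real.exp_pos _).le.trans hp) ?_ ?_ ?_ ?_ ?_
  · rwa [card_image_of_injective _ Nat.cast_injective,
      card_image_of_injective _ Nat.cast_injective] at h
  · intro a ha
    obtain ⟨n, hn, rfl⟩ := mem_image.1 ha
    have := mem_Ico.1 (mem_filter.1 hn).1
    omega
  · intro a ha
    obtain ⟨n, hn, rfl⟩ := mem_image.1 ha
    have := mem_Ico.1 (mem_filter.1 hn).1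
    omega
  · intro d hd
    obtain ⟨⟨h1, h2, h3, h4⟩, h5, h6, h7, h8⟩ := hD d hd
    obtain ⟨m1, m2⟩ := window_mr d
    have a1 := (isN_block _ _ m2 (m1 ▸ (isP_block _ _ (by omega) h3 h4).2)).resolve_left h5
    have a2 : 2 * windowM d ^ 2 + windowR d = (2 * d.1) ^ 2 + (2 * d.2 - windowR d) := by
      rw [mul_pow]
      omega
    rw [a2] at a1
    exact mem_image_of_mem _ (mem_filter.2 ⟨mem_Ico.2 (by omega),
      (isP_block _ _ (by omega) (by omega) a1).1⟩)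
  · intro d hd
    obtain ⟨⟨h1, h2, h3, h4⟩, h5, h6, h7, h8⟩ := hD d hd
    exact mem_image_of_mem _ (mem_filter.2 ⟨mem_Ico.2 ⟨h7, h8⟩,
      (isP_block _ _ (by omega) h3 h4).1⟩)
  · intro d hd
    obtain ⟨-, -, h6, -⟩ := hD d hd
    have := (window_mr d).1
    zify at this
    simp only
    rw [Nat.cast_sub h6]
    push_cast
    linarith
  · intro d _ d' _ h
    simp only [Prod.mk.injEq, Nat.cast_inj] at h
    exact Prod.ext h.2.2.2 h.2.1
  · intro d hd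
    obtain ⟨⟨h1, h2, h3, h4⟩, h5, h6, -⟩ := hD d hd
    obtain ⟨a1, -, a2, -⟩ := window_real d h3
    have a3 := a2 h6
    simp only [Int.cast_natCast]
    refine window_wt d.1 hAk hB (window_first ?_) ?_ hp
    · rw [abs_le]
      constructor <;> linarith
    · rw [abs_le]
      constructor <;> linarith

theorem window_B1 {z Ak B ρ E Δ : ℝ} (hK : Kern z Ak B ρ E Δ) (hAk : 0 < Ak) (hB : 0 < B)
    (lo x : ℕ) (hlo : 2000 ≤ lo) (pk : ℝ)
    (hp : Real.exp (Real.pi * (6036 / 10000 / B) ^ 2) ≤ pk) (u l : ℕ)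
    (hstrip : ((2 * l : ℕ) : ℝ) + 5 / 2 ≤ 11715 / 10000 * lo)
    (hcut : 2 * (u + l) ≤ 4 * x + 1) (D : Finset (ℕ × ℕ))
    (hD : ∀ d ∈ D, windowD lo x d ∧ ¬ IsP (windowR d) ∧ 2 * d.2 < windowR d ∧ u ≤ d.2 ∧
      d.2 < u + l) :
    ∑ d ∈ D, gw z Ak d.1 ≤ pk * Bnd ρ E Δ ((4 * x + 1 - 2 * (u + l) : ℕ) : ℝ) l
      (windowC (2 * (u + l)) (4 * x + 1)) (windowC u (u + l)) := by
  classical
  have s1 := window_s1
  have s2 := window_s2
  have key : ∀ d ∈ D, 2 * l + 2 * windowM d + 1 ≤ 4 * d.1 := fun d hd => by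
    obtain ⟨⟨h1, h2, h3, h4⟩, h5, h6, h7, h8⟩ := hD d hd
    have a1 := (window_real d h3).2.2.2 h6
    have a3 : (lo : ℝ) ≤ d.1 := by exact_mod_cast h1
    have a5 : √2 * (d.1 : ℝ) ≤ 141422 / 100000 * d.1 := by gcongr
    have a4 : (0 : ℝ) ≤ d.1 := Nat.cast_nonneg _
    push_cast at hstrip
    have a6 : 2 * (l : ℝ) + 2 * windowM d + 1 ≤ 4 * d.1 := by linarith
    exact_mod_cast a6
  have h := window_inj hK (9142 / 10000) (by rw [abs_of_pos] <;> norm_num)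
    (((Ico (2 * (u + l)) (4 * x + 1)).filter IsN).image fun n : ℕ => (n : ℤ))
    (((Ico u (u + l)).filter IsN).image fun n : ℕ => (n : ℤ) + 1) (2 * (u + l) : ℕ) (u + 1)
    (4 * x + 1 - 2 * (u + l)) l ?_ ?_ D
    (fun d => (((2 * d.2 + 4 * d.1 - windowR d - 1 : ℕ) : ℤ), (d.2 : ℤ) + 1, (windowM d : ℤ),
      (d.1 : ℤ) - 1))
    (fun d => gw z Ak d.1) pk ((Real.exp_pos _).le.trans hp) ?_ ?_ ?_ ?_ ?_
  · rwa [card_image_of_injective _ Nat.cast_injective,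
      card_image_of_injective _ (fun a b h => by simpa using h)] at h
  · intro a ha
    obtain ⟨n, hn, rfl⟩ := mem_image.1 ha
    have := mem_Ico.1 (mem_filter.1 hn).1
    omega
  · intro a ha
    obtain ⟨n, hn, rfl⟩ := mem_image.1 ha
    have := mem_Ico.1 (mem_filter.1 hn).1
    omega
  · intro d hd
    have k1 := key d hd
    obtain ⟨⟨h1, h2, h3, h4⟩, h5, h6, h7, h8⟩ := hD d hd
    obtain ⟨m1, m2⟩ := window_mr d
    have a1 := (isN_block _ _ m2 (m1 ▸ (isP_block _ _ (by omega) h3 h4).2)).resolve_left h5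
    have a0 : (2 * d.1 - 1) ^ 2 + 4 * d.1 = 4 * d.1 ^ 2 + 1 := by
      obtain ⟨j, hj⟩ : ∃ j, d.1 = j + 1 := ⟨d.1 - 1, by omega⟩
      rw [hj, show 2 * (j + 1) - 1 = 2 * j + 1 by omega]
      ring
    have a2 : 2 * windowM d ^ 2 + windowR d
        = (2 * d.1 - 1) ^ 2 + (2 * d.2 + 4 * d.1 - windowR d - 1) := by omega
    rw [a2] at a1
    exact mem_image_of_mem _ (mem_filter.2 ⟨mem_Ico.2 (by omega),
      (isP_block _ _ (by omega) (by omega) a1).1⟩)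
  · intro d hd
    obtain ⟨⟨h1, h2, h3, h4⟩, h5, h6, h7, h8⟩ := hD d hd
    exact mem_image_of_mem (fun n : ℕ => (n : ℤ) + 1) (mem_filter.2 ⟨mem_Ico.2 ⟨h7, h8⟩,
      (isP_block _ _ (by omega) h3 h4).1⟩)
  · intro d hd
    have k1 := key d hd
    obtain ⟨m1, m2⟩ := window_mr d
    have e : ((2 * d.2 + 4 * d.1 - windowR d - 1 : ℕ) : ℤ)
        = 2 * d.2 + 4 * d.1 - windowR d - 1 := by omega
    zify at m1
    simp only
    rw [e]
    linarith
  · intro d _ d' _ h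
    simp only [Prod.mk.injEq, Nat.cast_inj, add_left_inj, sub_left_inj] at h
    exact Prod.ext h.2.2.2 h.2.1
  · intro d hd
    obtain ⟨⟨h1, h2, h3, h4⟩, h5, h6, -⟩ := hD d hd
    obtain ⟨-, a1, -, a2⟩ := window_real d h3
    have a3 := a2 h6
    simp only [Int.cast_natCast, Int.cast_sub, Int.cast_one]
    refine window_wt d.1 hAk hB (window_first ?_) ?_ hp
    · rw [abs_le]
      constructor <;> linarith
    · rw [abs_le]
      constructor <;> linarith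

theorem window_split (D : Finset (ℕ × ℕ)) (w : ℕ × ℕ → ℝ) (l : ℕ) :
    ∑ d ∈ D, w d = ∑ d ∈ D.filter (fun d => d.2 < l), w d
      + ∑ d ∈ D.filter (fun d => l ≤ d.2 ∧ d.2 < 2 * l), w d
      + ∑ d ∈ D.filter (fun d => 2 * l ≤ d.2 ∧ d.2 < 3 * l), w d
      + ∑ d ∈ D.filter (fun d => 3 * l ≤ d.2), w d := by
  simp only [sum_filter, ← sum_add_distrib]
  refine sum_congr rfl fun d _ => ?_
  split_ifs <;> first | omega | ring

theorem window {z Ak B ρ E Δ : ℝ} (hK : Kern z Ak B ρ E Δ) (hAk : 0 < Ak) (hB : 0 < B)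
    (hρ : 0 ≤ ρ) (hE : 0 ≤ E) (hΔ : 0 ≤ Δ) (lo x : ℕ) (hlo : 2000 ≤ lo) (hx : lo ≤ x)
    (hstrip : ((2 * (x / 2 + 1) : ℕ) : ℝ) + 5 / 2 ≤ 11715 / 10000 * lo)
    (W2 W4 P3 pk1 pk2 : ℝ) (h2 : (cN (2 * x + 1) : ℝ) ≤ W2) (h4 : (cN (4 * x + 1) : ℝ) ≤ W4)
    (h3 : (cP (283 * x / 100) : ℝ) ≤ P3)
    (hp1 : Real.exp (Real.pi * (8536 / 10000 / B) ^ 2) ≤ pk1)
    (hp2 : Real.exp (Real.pi * (6036 / 10000 / B) ^ 2) ≤ pk2) :
    ∑ k ∈ Icc lo x, (ell k : ℝ) * gw z Ak k ≤ Tw ρ E Δ pk1 pk2 x W2 W4 P3 := by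
  classical
  set l := x / 2 + 1 with hl
  set D : Finset (ℕ × ℕ) := (Icc lo x ×ˢ range (2 * x + 1)).filter
    (fun d => d.2 ≤ 2 * d.1 ∧ IsP (d.1 ^ 2 + d.2)) with hDdef
  have hD : ∀ d ∈ D, windowD lo x d := fun d hd => by
    obtain ⟨a1, a2, a3⟩ := mem_filter.1 hd
    obtain ⟨a4, a5⟩ := mem_Icc.1 (mem_product.1 a1).1
    exact ⟨a4, a5, a2, a3⟩
  have e0 : ∑ k ∈ Icc lo x, (ell k : ℝ) * gw z Ak k = ∑ d ∈ D, gw z Ak d.1 := by
    rw [hDdef, sum_filter, sum_product]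
    refine sum_congr rfl fun k hk => ?_
    have hk' := (mem_Icc.1 hk).2
    rw [← sum_filter]
    simp only
    rw [sum_const, nsmul_eq_mul]
    congr 2
    unfold ell
    congr 1
    ext r
    simp only [mem_filter, mem_range]
    constructor
    · rintro ⟨a, b⟩
      exact ⟨by omega, by omega, b⟩
    · rintro ⟨-, a, b⟩
      exact ⟨by omega, b⟩
  have hpk1 : 0 ≤ pk1 := (Real.exp_pos _).le.trans hp1
  have hpk2 : 0 ≤ pk2 := (Real.exp_pos _).le.trans hp2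
  rw [e0, ← sum_filter_add_sum_filter_not D (fun d => IsP (windowR d)), Tw]
  refine add_le_add ?_ ?_
  · refine (window_A hK hAk hB lo x hlo pk1 hp1 _ fun d hd =>
      ⟨hD d (mem_filter.1 hd).1, (mem_filter.1 hd).2⟩).trans
      (mul_le_mul_of_nonneg_left ?_ hpk1)
    have a1 : ((283 * x / 100 : ℕ) : ℝ) ≤ 283 / 100 * x := by
      have := @Nat.cast_div_le ℝ _ _ _ (283 * x) 100
      push_cast at this
      linarith
    refine (window_bnd_mono hρ hE hΔ (Nat.cast_nonneg _) (Nat.cast_nonneg _) a1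
      (Nat.cast_nonneg _) (Nat.cast_nonneg _) h2 h3).trans (le_of_eq ?_)
    unfold Bnd
    push_cast
    rfl
  · set D' := D.filter (fun d => ¬ IsP (windowR d)) with hD'
    set D0 := D'.filter (fun d => windowR d ≤ 2 * d.2) with hD0
    set D1 := D'.filter (fun d => ¬ windowR d ≤ 2 * d.2) with hD1
    have m0 : ∀ d ∈ D0, windowD lo x d ∧ ¬ IsP (windowR d) ∧ windowR d ≤ 2 * d.2 := fun d hd =>
      ⟨hD d (mem_filter.1 (mem_filter.1 hd).1).1, (mem_filter.1 (mem_filter.1 hd).1).2,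
        (mem_filter.1 hd).2⟩
    have m1 : ∀ d ∈ D1, windowD lo x d ∧ ¬ IsP (windowR d) ∧ 2 * d.2 < windowR d := fun d hd =>
      ⟨hD d (mem_filter.1 (mem_filter.1 hd).1).1, (mem_filter.1 (mem_filter.1 hd).1).2,
        not_le.1 (mem_filter.1 hd).2⟩
    have pair : ∀ (u : ℕ) (p : ℕ × ℕ → Prop) [DecidablePred p], u ≤ 2 * l →
        (∀ d, p d → u ≤ d.2 ∧ d.2 < u + l) →
        ∑ d ∈ D0.filter p, gw z Ak d.1 + ∑ d ∈ D1.filter p, gw z Ak d.1 ≤
          pk2 * (ρ * (sig * W4 * windowC u (u + l) + √((lam * (4 * x + 1) + 2 * Δ) * W4) *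
            (√(lam * l + Δ) * √(windowC u (u + l)))) + E * (√W4 * (√2 * √(windowC u (u + l))))) := by
      intro u p _ hu hp
      have hcut : 2 * (u + l) ≤ 4 * x + 1 := by omega
      have b0 := window_B0 hK hAk hB lo x hlo pk2 hp2 u (u + l) l (2 * (u + l)) le_rfl
        (Nat.le_succ _) (D0.filter p) fun d hd => by
          obtain ⟨a1, a2, a3⟩ := m0 d (mem_filter.1 hd).1
          exact ⟨a1, a2, a3, hp d (mem_filter.1 hd).2⟩
      have b1 := window_B1 hK hAk hB lo x hlo pk2 hp2 u l hstrip hcut (D1.filter p) fun d hd => by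
        obtain ⟨a1, a2, a3⟩ := m1 d (mem_filter.1 hd).1
        exact ⟨a1, a2, a3, hp d (mem_filter.1 hd).2⟩
      refine (add_le_add b0 b1).trans ?_
      rw [← mul_add]
      refine mul_le_mul_of_nonneg_left (window_pair hρ hE hΔ (Nat.cast_nonneg _)
        (Nat.cast_nonneg _) ?_ (Nat.cast_nonneg _) (Nat.cast_nonneg _) (Nat.cast_nonneg _)
        (Nat.cast_nonneg _) ?_) hpk2
      · rw [← Nat.cast_add, Nat.add_sub_cancel' hcut]
        push_cast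
        rfl
      · rw [← Nat.cast_add, windowC_add (Nat.zero_le _) hcut, windowC_zero]
        exact h4
    have p0 := pair 0 (fun d => d.2 < l) (Nat.zero_le _) fun d hd => by omega
    have p1 := pair l (fun d => l ≤ d.2 ∧ d.2 < 2 * l) (by omega) fun d hd => by omega
    have p2 := pair (2 * l) (fun d => 2 * l ≤ d.2 ∧ d.2 < 3 * l) le_rfl fun d hd => by omega
    have p3 : ∑ d ∈ D0.filter (fun d => 3 * l ≤ d.2), gw z Ak d.1 ≤
        pk2 * (ρ * (sig * W4 * windowC (3 * l) (2 * x + 1) + √((lam * (4 * x + 1) + 2 * Δ) * W4) *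
          (√(lam * l + Δ) * √(windowC (3 * l) (2 * x + 1))))
          + E * (√W4 * √(windowC (3 * l) (2 * x + 1)))) := by
      refine (window_B0 hK hAk hB lo x hlo pk2 hp2 (3 * l) (2 * x + 1) l (4 * x + 1) (by omega)
        (by omega) _ fun d hd => ?_).trans (mul_le_mul_of_nonneg_left ?_ hpk2)
      · obtain ⟨a1, a2, a3⟩ := m0 d (mem_filter.1 hd).1
        refine ⟨a1, a2, a3, (mem_filter.1 hd).2, ?_⟩
        obtain ⟨-, b1, b2, -⟩ := a1
        omega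
      · have := window_single (ρ := ρ) (E := E) (Δ := Δ) (M := ((4 * x + 1 : ℕ) : ℝ)) (l := l)
          (s := windowC 0 (4 * x + 1)) (t := windowC (3 * l) (2 * x + 1)) (W := W4) hρ hE hΔ
          (Nat.cast_nonneg _) (Nat.cast_nonneg _) (Nat.cast_nonneg _) (Nat.cast_nonneg _)
          (by rw [windowC_zero]; exact h4)
        refine this.trans (le_of_eq ?_)
        push_cast
        rfl
    have p4 : ∑ d ∈ D1.filter (fun d => 3 * l ≤ d.2), gw z Ak d.1 = 0 := by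
      refine sum_eq_zero fun d hd => ?_
      exfalso
      obtain ⟨⟨-, b1, b2, -⟩, -, a3⟩ := m1 d (mem_filter.1 hd).1
      have a4 := (mem_filter.1 hd).2
      have a5 := (window_real d b2).2.2.2 a3
      have a6 := (window_mr d).2
      have s2 := window_s2
      have a7 : √2 * (d.1 : ℝ) ≤ 3 / 2 * d.1 := by
        gcongr
        linarith
      have a8 : 2 * (windowM d : ℝ) ≤ 3 * d.1 := by linarith
      have a9 : 2 * windowM d ≤ 3 * d.1 := by exact_mod_cast a8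
      omega
    have tot := window_total (ρ := ρ) (E := E) (Δ := Δ) (M := 4 * x + 1) (l := l)
      (L := 2 * x + 4) (t0 := windowC 0 (0 + l)) (t1 := windowC l (l + l))
      (t2 := windowC (2 * l) (2 * l + l)) (t3 := windowC (3 * l) (2 * x + 1)) (W := W4) (V := W2)
      hρ hE hΔ (Nat.cast_nonneg _) ?_ (Nat.cast_nonneg _) (Nat.cast_nonneg _) (Nat.cast_nonneg _)
      (Nat.cast_nonneg _) ((Nat.cast_nonneg _).trans h4) ?_
    · rw [← sum_filter_add_sum_filter_not D' (fun d => windowR d ≤ 2 * d.2),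
        window_split D0 _ l, window_split D1 _ l]
      have := mul_le_mul_of_nonneg_left tot hpk2
      linarith
    · have : 4 * l ≤ 2 * x + 4 := by omega
      exact_mod_cast this
    · rw [← Nat.cast_add, ← Nat.cast_add, ← Nat.cast_add, zero_add, ← two_mul,
        show 2 * l + l = 3 * l by ring, windowC_add (by omega) (by omega),
        windowC_add (by omega) (by omega), windowC_add (by omega) (by omega), windowC_zero]
      exact h2

end Pool.Agent.MP_a001a6_co
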