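import Pool.Agent.MP_a001a6_co.Mg.Game
import Pool.Agent.MP_a001a6_co.Mg.Window

-- part MP_a001a6_co.Tail
section

/-! The chain of Gaussian windows covering the blocks between `x / 2` and `x`. -/

namespace Pool.Agent.MP_a001a6_co

open Finset

theorem tail_sqrt_two : 14142 / 10000 ≤ √2 ∧ √2 ≤ 141422 / 100000 := by
  constructor
  · apply Real.le_sqrt_of_sq_le; norm_num
  · apply Real.sqrt_le_iff.2; constructor <;> norm_num

theorem tail_pell_pow (J : ℕ) : ∃ pp qq : ℤ,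
    (pp ^ 2 - 2 * qq ^ 2 = 1 ∨ pp ^ 2 - 2 * qq ^ 2 = -1) ∧
      (pp : ℝ) + √2 * qq = (1 + √2) ^ J := by
  induction J with
  | zero => exact ⟨1, 0, Or.inl (by norm_num), by simp⟩
  | succ J ih =>
    obtain ⟨a, b, h1, h2⟩ := ih
    refine ⟨a + 2 * b, a + b, ?_, ?_⟩
    · rcases h1 with h1 | h1
      · right; linear_combination (-1 : ℤ) * h1
      · left; linear_combination (-1 : ℤ) * h1
    · have hs : √2 * √2 = (2 : ℝ) := Real.mul_self_sqrt (by norm_num)
      rw [pow_succ, ← h2]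
      push_cast
      linear_combination (-(b : ℝ)) * hs

theorem tail_pell (L : ℝ) (hL : 3 ≤ L) : ∃ pp qq : ℤ,
    (pp ^ 2 - 2 * qq ^ 2 = 1 ∨ pp ^ 2 - 2 * qq ^ 2 = -1) ∧ 0 < (pp : ℝ) + √2 * qq ∧
      L ≤ 2 * √2 * ((pp : ℝ) + √2 * qq) ^ 2 ∧
      2 * √2 * ((pp : ℝ) + √2 * qq) ^ 2 ≤ 583 / 100 * L := by
  obtain ⟨s1, s2⟩ := tail_sqrt_two
  have hs : √2 * √2 = (2 : ℝ) := Real.mul_self_sqrt (by norm_num)
  have hex : ∃ J : ℕ, L ≤ 2 * √2 * ((1 + √2) ^ J) ^ 2 := by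
    obtain ⟨J, hJ⟩ := pow_unbounded_of_one_lt L (show (1 : ℝ) < 1 + √2 by linarith)
    refine ⟨J, ?_⟩
    have h1 : (1 : ℝ) ≤ (1 + √2) ^ J := one_le_pow₀ (by linarith)
    nlinarith
  classical
  have hJ := Nat.find_spec hex
  obtain ⟨pp, qq, h1, h2⟩ := tail_pell_pow (Nat.find hex)
  refine ⟨pp, qq, h1, ?_, ?_, ?_⟩
  · rw [h2]; positivity
  · rw [h2]; exact hJ
  · rw [h2]
    rcases hn : Nat.find hex with _ | n
    · rw [hn] at hJ
      simp only [pow_zero, one_pow, mul_one] at hJ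
      linarith
    · have hlt : ¬ L ≤ 2 * √2 * ((1 + √2) ^ n) ^ 2 := Nat.find_min hex (by omega)
      push Not at hlt
      have e : 2 * √2 * ((1 + √2) ^ (n + 1)) ^ 2
          = (3 + 2 * √2) * (2 * √2 * ((1 + √2) ^ n) ^ 2) := by
        rw [pow_succ]
        linear_combination (2 * √2 * ((1 + √2) ^ n) ^ 2) * hs
      rw [e]
      have h0 : 0 ≤ 2 * √2 * ((1 + √2) ^ n) ^ 2 := by positivity
      nlinarith

theorem tail_exp_small (t : ℝ) (ht : 24 ≤ t) : Real.exp (-t) ≤ 1 / 80000 := by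
  have h1 := Real.pow_div_factorial_le_exp 24 (by norm_num) 6
  have h2 : Real.exp 24 ≤ Real.exp t := Real.exp_le_exp.2 ht
  have h3 : (80000 : ℝ) ≤ Real.exp t := by
    refine le_trans ?_ (h1.trans h2)
    norm_num [Nat.factorial]
  rw [Real.exp_neg, one_div]
  exact inv_anti₀ (by norm_num) h3

theorem tail_kern (pp qq : ℤ) (hpell : pp ^ 2 - 2 * qq ^ 2 = 1 ∨ pp ^ 2 - 2 * qq ^ 2 = -1)
    (hτ : 0 < (pp : ℝ) + √2 * qq) (x z Ak : ℝ) (hx : 10 ^ 12 ≤ x)
    (hAk : Ak = 2 * √2 * ((pp : ℝ) + √2 * qq) ^ 2)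
    (h1 : 15 / 10000 * x ≤ Ak) (h2 : Ak ≤ 875 / 100000 * x) (hz1 : 49 / 100 * x ≤ z)
    (hz2 : z ≤ x) :
    Kern z Ak 8 (Ak * (801 / 800) / (2 * √2 * z)) (32 / 10000 * Ak) 32002700 := by
  obtain ⟨s1, s2⟩ := tail_sqrt_two
  have hs : √2 * √2 = (2 : ℝ) := Real.mul_self_sqrt (by norm_num)
  set τ : ℝ := (pp : ℝ) + √2 * qq with hτdef
  have hs0 : (0 : ℝ) < √2 := by linarith
  have hA0 : 0 < Ak := by linarith
  have hz0 : 0 < z := by linarith
  obtain ⟨X, hX⟩ : ∃ X : ℝ, X = τ * 8 / √2 := ⟨_, rfl⟩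
  have hX0 : 0 < X := by rw [hX]; positivity
  have hX2 : X ^ 2 = 8 * √2 * Ak := by
    rw [hX, hAk, div_pow, Real.sq_sqrt (by norm_num)]
    linear_combination (-16 * τ ^ 2) * hs
  have hXlo : 130000 ≤ X := by
    by_contra hc
    push Not at hc
    nlinarith
  have hXA : X ≤ 871 / 10000000 * Ak := by
    by_contra hc
    push Not at hc
    have : 130000 * (871 / 10000000 * Ak) < X * X := by nlinarith
    nlinarith
  refine kern_of pp qq hpell 8 z Ak X (1 / 20) 22 (31 / 10000 * Ak) _ _ _ 4000 hτ (by norm_num)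
    hz0 ?_ hX (by norm_num) ?_ (by norm_num) (by norm_num) (by norm_num) ?_ ?_ ?_ ?_ ?_ ?_ ?_
  · rw [hAk, ← hτdef]
    field_simp
    linear_combination (4 : ℝ) * hs
  · push_cast; nlinarith
  · have hzA : z / Ak ≤ 6667 / 10 := by
      rw [div_le_iff₀ hA0]; linarith
    have hzA0 : 0 ≤ z / Ak := by positivity
    have e1 : √2 * (9143 / 10000) / 8 + 343 / 1000 ≤ 505 / 1000 := by linarith
    have e2 : √2 * z / Ak + 343 / 1000 ≤ 944 := by
      rw [mul_div_assoc]; nlinarith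
    have e3 : 0 ≤ √2 * z / Ak + 343 / 1000 := by positivity
    calc _ ≤ (505 / 1000 : ℝ) * 944 := mul_le_mul e1 e2 e3 (by norm_num)
      _ ≤ 22 ^ 2 := by norm_num
  · push_cast
    rw [div_le_iff₀ (by positivity)]
    have : (X + 4000) * (X + √2 * 4000) = X ^ 2 + X * (4000 + √2 * 4000) + 16000000 * √2 := by
      ring
    rw [this, hX2]
    have e1 : X * (4000 + √2 * 4000) ≤ (871 / 10000000 * Ak) * 9657 :=
      mul_le_mul hXA (by linarith) (by positivity) (by positivity)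
    nlinarith
  · linarith
  · push_cast
    have e1 : √2 * 4000 / X ≤ 436 / 10000 := by
      rw [div_le_iff₀ hX0]; linarith
    have e2 : 2 * 4000 / X ≤ 616 / 10000 := by
      rw [div_le_iff₀ hX0]; linarith
    have e3 : √2 * (22 * X) ≤ 141422 / 100000 * (22 * (871 / 10000000 * Ak)) :=
      mul_le_mul s2 (by linarith) (by positivity) (by norm_num)
    have e4 : √2 * (22 * X) * (1 + √2 * 4000 / X)
        ≤ 141422 / 100000 * (22 * (871 / 10000000 * Ak)) * (1 + 436 / 10000) :=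
      mul_le_mul e3 (by linarith) (by positivity) (by positivity)
    have e5 : √2 * (22 * X) * (1 + √2 * 4000 / X) * (1 + 2 * 4000 / X)
        ≤ 141422 / 100000 * (22 * (871 / 10000000 * Ak)) * (1 + 436 / 10000)
          * (1 + 616 / 10000) :=
      mul_le_mul e4 (by linarith) (by positivity) (by positivity)
    linarith
  · apply le_of_eq; norm_num
  · have hzA : 56 ≤ z / Ak := by
      rw [le_div_iff₀ hA0]; linarith
    have hp := Real.pi_gt_d2
    have e1 : 24 ≤ Real.pi * (z / Ak) ^ 2 * ((1 / 20) ^ 2 / (1 + (1 / 20) ^ 2)) := by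
      have : (56 : ℝ) ^ 2 ≤ (z / Ak) ^ 2 := pow_le_pow_left₀ (by norm_num) hzA 2
      have h3 : (3.14 : ℝ) * 56 ^ 2 ≤ Real.pi * (z / Ak) ^ 2 :=
        mul_le_mul hp.le this (by norm_num) (by positivity)
      norm_num at h3 ⊢
      linarith
    have e2 := tail_exp_small _ e1
    have e3 : X ^ 2 / √2 = 8 * Ak := by
      rw [hX2]; field_simp
    rw [e3, neg_mul, neg_mul]
    nlinarith
  · norm_num

theorem tail_sqrt_mul (A B c s : ℝ) (hA : 0 ≤ A) (hc : 0 ≤ c) (h : A * B ≤ c ^ 2 * s) :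
    √A * √B ≤ c * √s := by
  rw [← Real.sqrt_mul hA]
  calc √(A * B) ≤ √(c ^ 2 * s) := Real.sqrt_le_sqrt h
    _ = c * √s := by rw [Real.sqrt_mul (by positivity), Real.sqrt_sq hc]

/-- the target expression -/
noncomputable def tailR (w p : ℝ) : ℝ :=
  sig * (117 / 100 * w * p + 162 / 100 * w ^ 2) + 74 / 1000 * √(w * p) + 11 / 100 * w

theorem tail_tw (h ρ Ak w p : ℝ) (hh : 49 * 10 ^ 10 ≤ h) (hρ : 0 ≤ ρ) (hA : 0 ≤ Ak)
    (hρh : ρ * h ≤ 36 / 100 * Ak) (hw : 0 ≤ w) (hp : 0 ≤ p) :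
    Tw ρ (32 / 10000 * Ak) 32002700 (10372 / 10000) (10183 / 10000) h
      (200001 / 100000 * w * h) (400001 / 100000 * w * h) (283 / 100 * p * h)
      ≤ Ak * h * (20 / 11 * tailR w p) := by
  have h0 : 0 ≤ h := by linarith
  have hwp : 0 ≤ w * p := mul_nonneg hw hp
  have hh4 : 0 ≤ h ^ 4 := by positivity
  have a1 : lam * (2 * h + 1) + 32002700 ≤ 117872 / 1000000 * h := by
    unfold lam; linarith
  have a2 : lam * (283 / 100 * h) + 32002700 ≤ 166757 / 1000000 * h := by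
    unfold lam; linarith
  have a3 : lam * (4 * h + 1) + 2 * 32002700 ≤ 235742 / 1000000 * h := by
    unfold lam; linarith
  have a4 : lam * (2 * h + 4) + 4 * 32002700 ≤ 118082 / 1000000 * h := by
    unfold lam; linarith
  have l0 : 0 ≤ lam := by unfold lam; norm_num
  have s0 : 0 ≤ sig := by unfold sig; norm_num
  have b1 : √((lam * (2 * h + 1) + 32002700) * (200001 / 100000 * w * h))
      * √((lam * (283 / 100 * h) + 32002700) * (283 / 100 * p * h))
      ≤ 334 / 1000 * h ^ 2 * √(w * p) := by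
    apply tail_sqrt_mul _ _ _ _ (by positivity) (by positivity)
    have c1 : (lam * (2 * h + 1) + 32002700) * (200001 / 100000 * w * h)
        ≤ (117872 / 1000000 * h) * (200001 / 100000 * w * h) :=
      mul_le_mul_of_nonneg_right a1 (by positivity)
    have c2 : (lam * (283 / 100 * h) + 32002700) * (283 / 100 * p * h)
        ≤ (166757 / 1000000 * h) * (283 / 100 * p * h) :=
      mul_le_mul_of_nonneg_right a2 (by positivity)
    have c3 := mul_le_mul c1 c2 (by positivity) (by positivity)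
    refine c3.trans ?_
    have : 0 ≤ h ^ 4 * (w * p) := by positivity
    nlinarith
  have b2 : √((lam * (4 * h + 1) + 2 * 32002700) * (400001 / 100000 * w * h))
      * √((lam * (2 * h + 4) + 4 * 32002700) * (200001 / 100000 * w * h))
      ≤ 472 / 1000 * h ^ 2 * w := by
    have c1 : (lam * (4 * h + 1) + 2 * 32002700) * (400001 / 100000 * w * h)
        ≤ (235742 / 1000000 * h) * (400001 / 100000 * w * h) :=
      mul_le_mul_of_nonneg_right a3 (by positivity)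
    have c2 : (lam * (2 * h + 4) + 4 * 32002700) * (200001 / 100000 * w * h)
        ≤ (118082 / 1000000 * h) * (200001 / 100000 * w * h) :=
      mul_le_mul_of_nonneg_right a4 (by positivity)
    have c3 := mul_le_mul c1 c2 (by positivity) (by positivity)
    have := tail_sqrt_mul _ _ (472 / 1000 * h ^ 2) (w ^ 2) (by positivity) (by positivity)
      (c3.trans (by
        have : 0 ≤ h ^ 4 * w ^ 2 := by positivity
        nlinarith))
    rwa [Real.sqrt_sq hw] at this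
  have b3 : √(200001 / 100000 * w * h * (283 / 100 * p * h)) ≤ 238 / 100 * h * √(w * p) := by
    have := tail_sqrt_mul 1 (200001 / 100000 * w * h * (283 / 100 * p * h)) (238 / 100 * h) (w * p)
      (by norm_num) (by positivity) (by
        have : 0 ≤ h ^ 2 * (w * p) := by positivity
        nlinarith)
    rwa [Real.sqrt_one, one_mul] at this
  have b4 : √7 * √(200001 / 100000 * w * h * (400001 / 100000 * w * h))
      ≤ 749 / 100 * h * w := by
    have := tail_sqrt_mul 7 (200001 / 100000 * w * h * (400001 / 100000 * w * h))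
      (749 / 100 * h) (w ^ 2) (by norm_num) (by positivity) (by
        have : 0 ≤ h ^ 2 * w ^ 2 := by positivity
        nlinarith)
    rwa [Real.sqrt_sq hw] at this
  have r0 : 0 ≤ √(w * p) := Real.sqrt_nonneg _
  set r := √(w * p) with hr
  have hρ2 : ρ * h ^ 2 ≤ 36 / 100 * (Ak * h) := by nlinarith
  have d1 : ρ * (sig * (200001 / 100000 * w * h) * (283 / 100 * p * h)
      + √((lam * (2 * h + 1) + 32002700) * (200001 / 100000 * w * h))
        * √((lam * (283 / 100 * h) + 32002700) * (283 / 100 * p * h)))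
      ≤ 36 / 100 * (Ak * h) * (sig * (56601 / 10000 * (w * p)) + 334 / 1000 * r) := by
    have e : 0 ≤ sig * (w * p) * h ^ 2 := by positivity
    calc _ ≤ ρ * (h ^ 2 * (sig * (56601 / 10000 * (w * p)) + 334 / 1000 * r)) := by
          apply mul_le_mul_of_nonneg_left _ hρ
          nlinarith
      _ = ρ * h ^ 2 * (sig * (56601 / 10000 * (w * p)) + 334 / 1000 * r) := by ring
      _ ≤ _ := mul_le_mul_of_nonneg_right hρ2 (by positivity)
  have d2 : ρ * (sig * (200001 / 100000 * w * h) * (400001 / 100000 * w * h)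
      + √((lam * (4 * h + 1) + 2 * 32002700) * (400001 / 100000 * w * h))
        * √((lam * (2 * h + 4) + 4 * 32002700) * (200001 / 100000 * w * h)))
      ≤ 36 / 100 * (Ak * h) * (sig * (80001 / 10000 * w ^ 2) + 472 / 1000 * w) := by
    have e : 0 ≤ sig * w ^ 2 * h ^ 2 := by positivity
    calc _ ≤ ρ * (h ^ 2 * (sig * (80001 / 10000 * w ^ 2) + 472 / 1000 * w)) := by
          apply mul_le_mul_of_nonneg_left _ hρ
          nlinarith
      _ = ρ * h ^ 2 * (sig * (80001 / 10000 * w ^ 2) + 472 / 1000 * w) := by ring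
      _ ≤ _ := mul_le_mul_of_nonneg_right hρ2 (by positivity)
  have d3 : 32 / 10000 * Ak * √(200001 / 100000 * w * h * (283 / 100 * p * h))
      ≤ 32 / 10000 * Ak * (238 / 100 * h * r) :=
    mul_le_mul_of_nonneg_left b3 (by positivity)
  have d4 : √7 * (32 / 10000 * Ak) * √(200001 / 100000 * w * h * (400001 / 100000 * w * h))
      ≤ 32 / 10000 * Ak * (749 / 100 * h * w) := by
    calc _ = 32 / 10000 * Ak *
          (√7 * √(200001 / 100000 * w * h * (400001 / 100000 * w * h))) := by ring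
      _ ≤ _ := mul_le_mul_of_nonneg_left b4 (by positivity)
  have f1 : 0 ≤ Ak * h * (sig * (w * p)) := by positivity
  have f2 : 0 ≤ Ak * h * (sig * w ^ 2) := by positivity
  have f3 : 0 ≤ Ak * h * r := by positivity
  have f4 : 0 ≤ Ak * h * w := by positivity
  unfold Tw tailR
  rw [← hr]
  nlinarith

theorem tail_pk : Real.exp (Real.pi * (8536 / 10000 / 8) ^ 2) ≤ 10372 / 10000 ∧
    Real.exp (Real.pi * (6036 / 10000 / 8) ^ 2) ≤ 10183 / 10000 := by
  have hp := Real.pi_lt_d4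
  constructor
  · calc _ ≤ Real.exp (3577 / 100000) := Real.exp_le_exp.2 (by norm_num at hp ⊢; linarith)
      _ ≤ 1 / (1 - 3577 / 100000) :=
        Real.exp_bound_div_one_sub_of_interval (by norm_num) (by norm_num)
      _ ≤ _ := by norm_num
  · calc _ ≤ Real.exp (1789 / 100000) := Real.exp_le_exp.2 (by norm_num at hp ⊢; linarith)
      _ ≤ 1 / (1 - 1789 / 100000) :=
        Real.exp_bound_div_one_sub_of_interval (by norm_num) (by norm_num)
      _ ≤ _ := by norm_num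

theorem tail_win (pp qq : ℤ) (hpell : pp ^ 2 - 2 * qq ^ 2 = 1 ∨ pp ^ 2 - 2 * qq ^ 2 = -1)
    (hτ : 0 < (pp : ℝ) + √2 * qq) (x : ℕ) (hx : 10 ^ 12 ≤ x) (w p : ℝ) (hw : 0 ≤ w) (hp : 0 ≤ p)
    (hN : ∀ y : ℕ, x / 2 ≤ y → y ≤ 5 * x → (cN y : ℝ) ≤ w * y)
    (hP : ∀ y : ℕ, x / 2 ≤ y → y ≤ 5 * x → (cP y : ℝ) ≤ p * y) (Ak : ℝ)
    (hAk : Ak = 2 * √2 * ((pp : ℝ) + √2 * qq) ^ 2)
    (h1 : 15 / 10000 * (x : ℝ) ≤ Ak) (h2 : Ak ≤ 875 / 100000 * (x : ℝ)) (z D : ℕ)
    (hD : 1000 * D ≤ 8 * x) (hz1 : 49 * x ≤ 100 * z) (hz2 : z ≤ x) :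
    ∑ k ∈ Icc (z - D) (z + D), (ell k : ℝ) * gw z Ak k
      ≤ Ak * ((z : ℝ) + D) * (20 / 11 * tailR w p) := by
  obtain ⟨s1, s2⟩ := tail_sqrt_two
  have hxR : (10 : ℝ) ^ 12 ≤ x := by exact_mod_cast hx
  have hz1R : 49 / 100 * (x : ℝ) ≤ z := by
    have : (49 * x : ℝ) ≤ 100 * z := by exact_mod_cast hz1
    linarith
  have hz2R : (z : ℝ) ≤ x := by exact_mod_cast hz2
  have hDR : (D : ℝ) ≤ 8 / 1000 * x := by
    have : (1000 * D : ℝ) ≤ 8 * x := by exact_mod_cast hD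
    linarith
  have hD0 : (0 : ℝ) ≤ D := Nat.cast_nonneg _
  have hA0 : 0 < Ak := by linarith
  have hz0 : (0 : ℝ) < z := by linarith
  have hK := tail_kern pp qq hpell hτ x z Ak hxR hAk h1 h2 hz1R hz2R
  have hDz : D ≤ z := by omega
  have hcast : ((z + D : ℕ) : ℝ) = (z : ℝ) + D := by push_cast; ring
  have key := window hK hA0 (by norm_num) (by positivity) (by positivity) (by norm_num)
    (z - D) (z + D) (by omega) (by omega) (by
      have e1 : 2 * ((z + D) / 2 + 1) ≤ z + D + 2 := by omega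
      have e2 : ((2 * ((z + D) / 2 + 1) : ℕ) : ℝ) ≤ (z : ℝ) + D + 2 := by exact_mod_cast e1
      rw [Nat.cast_sub hDz]
      linarith)
    (200001 / 100000 * w * ((z : ℝ) + D)) (400001 / 100000 * w * ((z : ℝ) + D))
    (283 / 100 * p * ((z : ℝ) + D)) (10372 / 10000) (10183 / 10000)
    (by
      refine (hN _ (by omega) (by omega)).trans ?_
      push_cast
      nlinarith)
    (by
      refine (hN _ (by omega) (by omega)).trans ?_
      push_cast
      nlinarith)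
    (by
      refine (hP _ (by omega) (by omega)).trans ?_
      have e1 : 100 * (283 * (z + D) / 100) ≤ 283 * (z + D) := Nat.mul_div_le _ _
      have e2 : (100 * ((283 * (z + D) / 100 : ℕ) : ℝ)) ≤ 283 * ((z : ℝ) + D) := by
        exact_mod_cast e1
      nlinarith)
    tail_pk.1 tail_pk.2
  refine key.trans ?_
  rw [hcast]
  apply tail_tw _ _ _ _ _ (by linarith) (by positivity) hA0.le _ hw hp
  rw [div_mul_eq_mul_div, div_le_iff₀ (by positivity)]
  have e1 : (z : ℝ) + D ≤ 10164 / 10000 * z := by linarith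
  have e2 : 14142 / 10000 * (z : ℝ) ≤ √2 * z := mul_le_mul_of_nonneg_right s1 hz0.le
  have e3 : 801 / 800 * ((z : ℝ) + D) ≤ 36 / 100 * (2 * √2 * z) := by linarith
  nlinarith

theorem tailR_nonneg (w p : ℝ) (hw : 0 ≤ w) (hp : 0 ≤ p) : 0 ≤ tailR w p := by
  unfold tailR sig; positivity

theorem tail_step (x : ℕ) (hx : 10 ^ 12 ≤ x) (w p : ℝ) (hw : 0 ≤ w) (hp : 0 ≤ p)
    (hN : ∀ y : ℕ, x / 2 ≤ y → y ≤ 5 * x → (cN y : ℝ) ≤ w * y)
    (hP : ∀ y : ℕ, x / 2 ≤ y → y ≤ 5 * x → (cP y : ℝ) ≤ p * y) :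
    ∑ k ∈ Ico (x / 2) x, (ell k : ℝ) ≤ 3 / 4 * (x : ℝ) ^ 2 *
      (sig * (117 / 100 * w * p + 162 / 100 * w ^ 2) + 74 / 1000 * √(w * p) + 11 / 100 * w) := by
  have hxR : (10 : ℝ) ^ 12 ≤ x := by exact_mod_cast hx
  obtain ⟨pp, qq, hpell, hτ, h1, h2⟩ := tail_pell (15 / 10000 * (x : ℝ)) (by linarith)
  obtain ⟨Ak, hAk⟩ : ∃ Ak : ℝ, Ak = 2 * √2 * ((pp : ℝ) + √2 * qq) ^ 2 := ⟨_, rfl⟩
  rw [← hAk] at h1 h2
  have h2' : Ak ≤ 875 / 100000 * (x : ℝ) := by linarith
  have hA0 : 0 < Ak := by linarith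
  obtain ⟨F, hF⟩ : ∃ F : ℕ, F = ⌊9 / 10 * Ak⌋₊ := ⟨_, rfl⟩
  have hF1 : (F : ℝ) ≤ 9 / 10 * Ak := by rw [hF]; exact Nat.floor_le (by positivity)
  have hF2 : 9 / 10 * Ak < F + 1 := by rw [hF]; exact Nat.lt_floor_add_one _
  have hF3 : 3 ≤ F := by
    have : (3 : ℝ) ≤ F := by linarith
    exact_mod_cast this
  obtain ⟨D, hD⟩ : ∃ D : ℕ, F = D + 2 := ⟨F - 2, by omega⟩
  have hDF : (F : ℝ) = D + 2 := by rw [hD]; push_cast; ring
  have hD0 : 0 < D := by omega
  have hDR0 : (0 : ℝ) < D := by exact_mod_cast hD0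
  have hDx : (D : ℝ) ≤ 7875 / 1000000 * x := by linarith
  have hDxn : 1000000 * D ≤ 7875 * x := by
    have : (1000000 * D : ℝ) ≤ 7875 * x := by linarith
    exact_mod_cast this
  obtain ⟨S, hS⟩ : ∃ S : ℕ, S = (x - x / 2) / D + 1 := ⟨_, rfl⟩
  have hS1 : x - x / 2 < S * D := by
    rw [hS, mul_comm]; exact Nat.lt_mul_div_succ _ hD0
  have hS2 : S * D ≤ x - x / 2 + D := by
    rw [hS, add_mul, one_mul]
    have := Nat.div_mul_le_self (x - x / 2) D
    omega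
  obtain ⟨z0, hz0⟩ : ∃ z0 : ℕ, x = z0 + S * D := ⟨x - S * D, by omega⟩
  have hz0a : z0 ≤ x / 2 := by omega
  have hz0b : x / 2 ≤ z0 + D := by omega
  set R := 20 / 11 * tailR w p with hR
  have hR0 : 0 ≤ R := by
    have := tailR_nonneg w p hw hp
    positivity
  have win : ∀ z : ℕ, z0 ≤ z → z ≤ x → ∑ k ∈ Icc (z - D) (z + D), (ell k : ℝ) * gw z Ak k
      ≤ Ak * ((z : ℝ) + D) * R := fun z hz hz' =>
    tail_win pp qq hpell hτ x hx w p hw hp hN hP Ak hAk h1 h2' z D (by omega) (by omega) hz'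
  have ind : ∀ i : ℕ, i ≤ S → Inv z0 (z0 + i * D) (z0 + i * D + D) Ak
      (Ak * R * ((((z0 : ℝ) + i * D + 3 / 2 * D) ^ 2 - ((z0 : ℝ) + D / 2) ^ 2) / (2 * D))) := by
    intro i
    induction i with
    | zero =>
      intro _
      have := inv_init z0 (z0 - D) (z0 + D) Ak _ (by omega) (win z0 le_rfl (by omega))
      convert this using 1
      · simp
      · simp
      · push_cast
        field_simp
        ring
    | succ i ih =>
      intro hi
      have hle : (i + 1) * D ≤ S * D := Nat.mul_le_mul_right _ hi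
      have e : z0 + (i + 1) * D = z0 + i * D + D := by ring
      have hc : ((z0 + (i + 1) * D : ℕ) : ℝ) - ((z0 + i * D : ℕ) : ℝ) + 2 ≤ 9 / 10 * Ak := by
        push_cast; linarith
      have := inv_step z0 (z0 + i * D) (z0 + i * D + D) (z0 + (i + 1) * D)
        (z0 + (i + 1) * D - D) (z0 + (i + 1) * D + D) Ak Ak _ _ (ih (by omega)) (by omega)
        (by omega) (by omega) (by omega) (by omega) hA0 hA0 hc hc
        (win (z0 + (i + 1) * D) (by omega) (by omega))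
      convert this using 1
      push_cast
      field_simp
      ring
  have fin := inv_out _ _ _ _ _ (ind S le_rfl)
  have hxe : (z0 : ℝ) + S * D = x := by rw [hz0]; push_cast; ring
  rw [← hz0, hxe] at fin
  have sub : ∑ k ∈ Ico (x / 2) x, (ell k : ℝ) ≤ ∑ k ∈ Ico z0 x, (ell k : ℝ) :=
    Finset.sum_le_sum_of_subset_of_nonneg (Finset.Ico_subset_Ico_left hz0a)
      (fun _ _ _ => Nat.cast_nonneg _)
  have hz0R : (x : ℝ) / 2 - 1 - D ≤ z0 := by
    have e1 : x ≤ 2 * (z0 + D) + 1 := by omega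
    have e2 : (x : ℝ) ≤ 2 * (z0 + D) + 1 := by exact_mod_cast e1
    linarith
  have hnum : (((x : ℝ) + 3 / 2 * D) ^ 2 - ((z0 : ℝ) + D / 2) ^ 2) ≤ 778 / 1000 * (x : ℝ) ^ 2 := by
    have e1 : ((x : ℝ) + 3 / 2 * D) ^ 2 ≤ (10118125 / 10000000 * x) ^ 2 :=
      pow_le_pow_left₀ (by positivity) (by linarith) 2
    have e2 : (49606 / 100000 * (x : ℝ)) ^ 2 ≤ ((z0 : ℝ) + D / 2) ^ 2 :=
      pow_le_pow_left₀ (by positivity) (by linarith) 2
    nlinarith [sq_nonneg (x : ℝ)]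
  have hAD : Ak ≤ 11112 / 10000 * D := by linarith
  have hfin : Ak * R * ((((x : ℝ) + 3 / 2 * D) ^ 2 - ((z0 : ℝ) + D / 2) ^ 2) / (2 * D))
      ≤ 11112 / 10000 * R * (389 / 1000 * (x : ℝ) ^ 2) := by
    calc _ ≤ Ak * R * ((778 / 1000 * (x : ℝ) ^ 2) / (2 * D)) := by
          apply mul_le_mul_of_nonneg_left _ (by positivity)
          exact div_le_div_of_nonneg_right hnum (by positivity)
      _ ≤ 11112 / 10000 * D * R * ((778 / 1000 * (x : ℝ) ^ 2) / (2 * D)) := by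
          apply mul_le_mul_of_nonneg_right _ (by positivity)
          exact mul_le_mul_of_nonneg_right hAD hR0
      _ = _ := by field_simp; ring
  have hT := tailR_nonneg w p hw hp
  have hxx : 0 ≤ (x : ℝ) ^ 2 * tailR w p := by positivity
  change _ ≤ 3 / 4 * (x : ℝ) ^ 2 * tailR w p
  have h5 := fin.trans hfin
  have h6 : 11112 / 10000 * R * (389 / 1000 * (x : ℝ) ^ 2)
      = 11112 / 10000 * (20 / 11) * (389 / 1000) * ((x : ℝ) ^ 2 * tailR w p) := by
    rw [hR]; ring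
  rw [h6] at h5
  have h7 : 3 / 4 * (x : ℝ) ^ 2 * tailR w p = 3 / 4 * ((x : ℝ) ^ 2 * tailR w p) := by ring
  rw [h7]
  linarith

end Pool.Agent.MP_a001a6_co

end

-- part MP_a001a6_co.Final
section

/-! The final bootstrap: from the base range to density zero. -/

namespace Pool.Agent.MP_a001a6_co

open Finset Filter

theorem final_sum_odd (k : ℕ) : ∑ j ∈ range k, ((2 * j + 1 : ℕ) : ℝ) = (k : ℝ) ^ 2 := by
  induction k with
  | zero => simp
  | succ k ih =>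
    rw [sum_range_succ, ih]
    push_cast
    ring

theorem final_sq_le (y : ℕ) (hy : 10 ^ 11 ≤ y) :
    ((Nat.sqrt y + 1 : ℕ) : ℝ) ^ 2 ≤ 10001 / 10000 * y := by
  have h1 : Nat.sqrt y * Nat.sqrt y ≤ y := Nat.sqrt_le y
  have h2 : 300000 ≤ Nat.sqrt y := Nat.le_sqrt.2 (le_trans (by norm_num) hy)
  have h1' : (Nat.sqrt y : ℝ) * Nat.sqrt y ≤ y := by exact_mod_cast h1
  have h2' : (300000 : ℝ) ≤ Nat.sqrt y := by exact_mod_cast h2
  push_cast
  nlinarith

theorem final_cN (p c : ℝ) (hp : 0 < p) (Y y : ℕ) (hc : (cP Y : ℝ) ≤ c) (hy : 10 ^ 11 ≤ y)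
    (hY : Y ≤ y) (hYc : Y * c ≤ 9 / 1000 * p * y)
    (h : ∀ y' : ℕ, Y ≤ y' → y' ≤ 2 * (Nat.sqrt y + 1) ^ 2 → (cP y' : ℝ) ≤ p * y') :
    (cN y : ℝ) ≤ 301 / 100 * p * y := by
  have hsq := final_sq_le y hy
  set k := Nat.sqrt y + 1 with hk
  have h1 : y < k ^ 2 := Nat.lt_succ_sqrt' y
  have h0 : 0 ≤ c := (Nat.cast_nonneg _).trans hc
  have h2 : (cN y : ℝ) ≤ ∑ j ∈ range k, (cP (2 * j + 1) : ℝ) + cP (2 * k ^ 2) := by
    exact_mod_cast (cN_mono h1.le).trans (cN_sq_le k)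
  have h3 : (cP (2 * k ^ 2) : ℝ) ≤ p * (2 * (k : ℝ) ^ 2) := by
    have := h (2 * k ^ 2) (by omega) le_rfl
    exact_mod_cast this
  have h4 : ∑ j ∈ range k, (cP (2 * j + 1) : ℝ) ≤
      ∑ j ∈ range k, (p * ((2 * j + 1 : ℕ) : ℝ) + if j ∈ range Y then c else 0) := by
    refine sum_le_sum fun j hj => ?_
    have hj' := mem_range.1 hj
    by_cases hjY : Y ≤ 2 * j + 1
    · have := h (2 * j + 1) hjY (by nlinarith)
      split_ifs <;> linarith
    · have h5 : (cP (2 * j + 1) : ℝ) ≤ cP Y := by exact_mod_cast cP_mono (by omega)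
      rw [if_pos (mem_range.2 (by omega))]
      have : 0 ≤ p * ((2 * j + 1 : ℕ) : ℝ) := by positivity
      linarith
  have h5 : ∑ j ∈ range k, (if j ∈ range Y then c else 0) ≤ Y * c := by
    rw [sum_ite_mem, sum_const, nsmul_eq_mul]
    refine mul_le_mul_of_nonneg_right ?_ h0
    have := card_le_card (inter_subset_right : range k ∩ range Y ⊆ range Y)
    rw [card_range] at this
    exact_mod_cast this
  rw [sum_add_distrib, ← mul_sum, final_sum_odd] at h4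
  have h6 : p * (k : ℝ) ^ 2 ≤ p * (10001 / 10000 * y) := mul_le_mul_of_nonneg_left hsq hp.le
  have h7 : 0 ≤ p * y := by positivity
  nlinarith

theorem final_drop (p c : ℝ) (hp : 0 < p) (hp' : p ≤ 115 / 10000) (Y y : ℕ)
    (hc : (cP Y : ℝ) ≤ c) (hy : 10 ^ 12 ≤ Nat.sqrt y) (hY : 2 * Y ≤ Nat.sqrt y)
    (hYc : Y * c ≤ 4 / 1000 * p * Nat.sqrt y)
    (h : ∀ y' : ℕ, Y ≤ y' → y' < y → (cP y' : ℝ) ≤ p * y') :
    (cP y : ℝ) ≤ 97 / 100 * p * y := by
  have hs : Nat.sqrt y * Nat.sqrt y ≤ y := Nat.sqrt_le y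
  have hsq := final_sq_le y (by nlinarith)
  set x := Nat.sqrt y + 1 with hx
  have h1 : y < x ^ 2 := Nat.lt_succ_sqrt' y
  have hxy : 11 * x < y := by nlinarith
  have hN : ∀ z : ℕ, x / 2 ≤ z → z ≤ 5 * x → (cN z : ℝ) ≤ 301 / 100 * p * z := fun z a b => by
    refine final_cN p c hp Y z hc (by omega) (by omega) (hYc.trans ?_) fun y' a' b' =>
      h y' a' (lt_of_le_of_lt (b'.trans ?_) hxy)
    · have : (Nat.sqrt y : ℝ) ≤ 2 * z := by exact_mod_cast (by omega : Nat.sqrt y ≤ 2 * z)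
      have : 0 ≤ p * z := by positivity
      nlinarith
    · have h2 := final_sq_le z (by omega)
      have h3 : (z : ℝ) ≤ 5 * x := by exact_mod_cast b
      have h4 : (0 : ℝ) ≤ x := Nat.cast_nonneg _
      have : (2 : ℝ) * ((Nat.sqrt z + 1 : ℕ) : ℝ) ^ 2 ≤ 11 * x := by linarith
      exact_mod_cast this
  have h2 := tail_step x (by omega) (301 / 100 * p) p (by positivity) hp.le hN fun z a b =>
    h z (by omega) (by omega)
  have h3 : √(301 / 100 * p * p) ≤ 1735 / 1000 * p :=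
    Real.sqrt_le_iff.2 ⟨by positivity, by nlinarith [mul_pos hp hp]⟩
  have h4 : sig * (117 / 100 * (301 / 100 * p) * p + 162 / 100 * (301 / 100 * p) ^ 2) +
      74 / 1000 * √(301 / 100 * p * p) + 11 / 100 * (301 / 100 * p) ≤ 95 / 100 * p := by
    rw [sig]
    nlinarith
  have h5 := h2.trans (mul_le_mul_of_nonneg_left h4 (by positivity))
  have h6 : (cP y : ℝ) ≤ cP ((x / 2) ^ 2) + ∑ k ∈ Ico (x / 2) x, (ell k : ℝ) := by
    have := cP_mono h1.le
    rw [cP_sq_add (x / 2) x (Nat.div_le_self _ _)] at this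
    exact_mod_cast this
  have h7 : 2 * (x / 2) ≤ x := Nat.mul_div_le x 2
  have h8 : (x / 2) ^ 2 < y := by
    have : x / 2 < Nat.sqrt y := by omega
    exact (Nat.pow_lt_pow_left this two_ne_zero).trans_le (Nat.sqrt_le' y)
  have h9 := h ((x / 2) ^ 2) (le_trans (by omega) (Nat.le_self_pow two_ne_zero _)) h8
  have h10 : (((x / 2) ^ 2 : ℕ) : ℝ) ≤ (x : ℝ) ^ 2 / 4 := by
    have : 4 * (x / 2) ^ 2 ≤ x ^ 2 := by
      have := Nat.pow_le_pow_left h7 2
      rwa [mul_pow] at this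
    have : (4 : ℝ) * (((x / 2) ^ 2 : ℕ) : ℝ) ≤ (x : ℝ) ^ 2 := by exact_mod_cast this
    linarith
  have h11 := mul_le_mul_of_nonneg_left h10 hp.le
  have h12 := mul_le_mul_of_nonneg_left hsq hp.le
  have h13 : 0 ≤ p * y := by positivity
  nlinarith

theorem final_base (H : ∀ y : ℕ, 30276 ≤ y → y ≤ 10 ^ 24 → (cP y : ℝ) ≤ 115 / 10000 * y) (y : ℕ) :
    30276 ≤ y → (cP y : ℝ) ≤ 115 / 10000 * y := by
  induction y using Nat.strong_induction_on with
  | _ y ih =>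
    intro hy
    by_cases h : y ≤ 10 ^ 24
    · exact H y hy h
    · have h1 : 10 ^ 12 ≤ Nat.sqrt y := Nat.le_sqrt.2 (by omega)
      have h2 : (10 : ℝ) ^ 12 ≤ Nat.sqrt y := by exact_mod_cast h1
      have := final_drop (115 / 10000) _ (by norm_num) le_rfl 30276 y
        (H 30276 le_rfl (by norm_num)) h1 (by omega) (by push_cast; linarith)
        fun y' a b => ih y' b a
      have : (0 : ℝ) ≤ y := Nat.cast_nonneg _
      linarith

theorem final_iter (p : ℝ) (hp : 0 < p) (hp' : p ≤ 115 / 10000) (Y : ℕ)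
    (h : ∀ y : ℕ, Y ≤ y → (cP y : ℝ) ≤ p * y) :
    ∃ Y' : ℕ, ∀ y : ℕ, Y' ≤ y → (cP y : ℝ) ≤ 97 / 100 * p * y := by
  obtain ⟨M, hM⟩ := exists_nat_ge ((Y : ℝ) * cP Y / (4 / 1000 * p))
  refine ⟨(10 ^ 12 + 2 * Y + M) ^ 2, fun y hy => ?_⟩
  have h1 : 10 ^ 12 + 2 * Y + M ≤ Nat.sqrt y := Nat.le_sqrt'.2 hy
  refine final_drop p _ hp hp' Y y le_rfl (by omega) (by omega) ?_ fun y' a _ => h y' a
  have h2 : (M : ℝ) ≤ Nat.sqrt y := by exact_mod_cast (by omega : M ≤ Nat.sqrt y)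
  have h3 := (div_le_iff₀' (by positivity)).1 (hM.trans h2)
  exact h3

theorem final_small (H : ∀ y : ℕ, 30276 ≤ y → y ≤ 10 ^ 24 → (cP y : ℝ) ≤ 115 / 10000 * y)
    (ε : ℝ) (hε : 0 < ε) : ∃ Y : ℕ, ∀ y : ℕ, Y ≤ y → (cP y : ℝ) ≤ ε * y := by
  have key : ∀ n : ℕ, ∃ Y : ℕ, ∀ y : ℕ, Y ≤ y →
      (cP y : ℝ) ≤ (97 / 100) ^ n * (115 / 10000) * y := fun n => by
    induction n with
    | zero => exact ⟨30276, fun y hy => by simpa using final_base H y hy⟩
    | succ n ih =>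
      obtain ⟨Y, hY⟩ := ih
      have h1 : ((97 : ℝ) / 100) ^ n ≤ 1 := pow_le_one₀ (by norm_num) (by norm_num)
      obtain ⟨Y', hY'⟩ := final_iter _ (by positivity) (by linarith) Y hY
      refine ⟨Y', fun y hy => (hY' y hy).trans_eq ?_⟩
      ring
  obtain ⟨n, hn⟩ := exists_pow_lt_of_lt_one hε (by norm_num : (97 : ℝ) / 100 < 1)
  obtain ⟨Y, hY⟩ := key n
  refine ⟨Y, fun y hy => (hY y hy).trans (mul_le_mul_of_nonneg_right ?_ (Nat.cast_nonneg _))⟩
  have : 0 < ((97 : ℝ) / 100) ^ n := by positivity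
  linarith

theorem final_tendsto (f : ℕ → ℕ)
    (h : ∀ ε : ℝ, 0 < ε → ∃ Y : ℕ, ∀ y : ℕ, Y ≤ y → (f y : ℝ) ≤ ε * y) :
    Tendsto (fun x : ℕ => (f (x + 1) : ℝ) / x) atTop (nhds 0) := by
  refine Metric.tendsto_atTop.2 fun ε hε => ?_
  obtain ⟨Y, hY⟩ := h (ε / 3) (by positivity)
  refine ⟨Y + 1, fun x hx => ?_⟩
  have h1 : (1 : ℝ) ≤ x := by exact_mod_cast (by omega : 1 ≤ x)
  have h2 := hY (x + 1) (by omega)
  rw [Real.dist_0_eq_abs, abs_of_nonneg (by positivity), div_lt_iff₀ (by positivity)]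
  push_cast at h2
  nlinarith

theorem density_zero_of_base
    (H : ∀ y : ℕ, 30276 ≤ y → y ≤ 10 ^ 24 → (cP y : ℝ) ≤ 115 / 10000 * y) :
    Tendsto (fun x : ℕ => (({n : ℕ | n ≤ x ∧ IsP n}.ncard : ℝ) / x)) atTop (nhds 0) ∧
    Tendsto (fun x : ℕ => (({n : ℕ | n ≤ x ∧ IsN n}.ncard : ℝ) / x)) atTop (nhds 0) := by
  classical
  have e1 : ∀ x : ℕ, {n : ℕ | n ≤ x ∧ IsP n}.ncard = cP (x + 1) := fun x => by
    rw [cP, ← Set.ncard_coe_finset]
    congr 1
    ext n
    simp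
  have e2 : ∀ x : ℕ, {n : ℕ | n ≤ x ∧ IsN n}.ncard = cN (x + 1) := fun x => by
    rw [cN, ← Set.ncard_coe_finset]
    congr 1
    ext n
    simp
  simp only [e1, e2]
  refine ⟨final_tendsto cP (final_small H), final_tendsto cN fun ε hε => ?_⟩
  obtain ⟨Y, hY⟩ := final_small H (ε / 4) (by positivity)
  obtain ⟨M, hM⟩ := exists_nat_ge ((Y : ℝ) * cP Y / (9 / 1000 * (ε / 4)))
  refine ⟨10 ^ 11 + Y + M, fun y hy => ?_⟩
  have h2 : (M : ℝ) ≤ y := by exact_mod_cast (by omega : M ≤ y)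
  have h3 := final_cN (ε / 4) _ (by positivity) Y y le_rfl (by omega) (by omega)
    ((div_le_iff₀' (by positivity)).1 (hM.trans h2)) fun y' a _ => hY y' a
  have : 0 ≤ ε * y := by positivity
  linarith

end Pool.Agent.MP_a001a6_co

end
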