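import Pool.Agent.MP_a001a6_co.Mg.Gauss

/-! Poisson summation for Gaussian-weighted quadratic Weyl sums. -/

namespace Pool.Agent.MP_a001a6_co

open Finset

theorem norm_ee (x : ℝ) : ‖ee x‖ = 1 := by
  have : ee x = Complex.exp (((2 * Real.pi * x : ℝ) : ℂ) * Complex.I) := by
    unfold ee
    congr 1
    push_cast
    ring
  rw [this, Complex.norm_exp_ofReal_mul_I]

theorem poisson_half (s δ : ℝ) (hs : 0 < s) (h0 : 0 ≤ δ) (h1 : δ ≤ 1) (N : ℕ) :
    ∑ k ∈ range N, Real.exp (-(Real.pi * s) * (δ + k) ^ 2) ≤ (1 - δ) + 1 / √s / 2 := by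
  have hb : 0 < Real.pi * s := mul_pos Real.pi_pos hs
  let g : ℝ → ℝ := fun x => Real.exp (-(Real.pi * s) * x ^ 2)
  have hg : Continuous g := by fun_prop
  have hanti : AntitoneOn g (Set.Ici 0) := fun x hx y _ hxy => by
    refine Real.exp_le_exp.2 ?_
    have : x ^ 2 ≤ y ^ 2 := pow_le_pow_left₀ hx hxy 2
    nlinarith
  have hpos : ∀ x, 0 ≤ g x := fun x => (Real.exp_pos _).le
  have e1 : ∑ k ∈ range N, g (δ + k) ≤ ∑ k ∈ range (N + 1), g (δ + k) :=
    sum_le_sum_of_subset_of_nonneg (range_subset_range.2 (Nat.le_succ N)) fun _ _ _ => hpos _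
  have e2 : ∑ k ∈ range N, g (δ + ((k + 1 : ℕ) : ℝ)) ≤ ∫ x in δ..δ + N, g x :=
    AntitoneOn.sum_le_integral (hanti.mono fun x hx => h0.trans hx.1)
  have e3 : δ * g δ ≤ ∫ x in (0 : ℝ)..δ, g x := by
    have := intervalIntegral.integral_mono_on (μ := MeasureTheory.volume) h0
      (continuous_const.intervalIntegrable _ _) (hg.intervalIntegrable _ _)
      (f := fun _ => g δ) fun x hx => hanti hx.1 h0 hx.2
    simpa using this
  have e4 : (∫ x in (0 : ℝ)..δ, g x) + ∫ x in δ..δ + N, g x = ∫ x in (0 : ℝ)..δ + N, g x :=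
    intervalIntegral.integral_add_adjacent_intervals (hg.intervalIntegrable _ _)
      (hg.intervalIntegrable _ _)
  have e5 : ∫ x in (0 : ℝ)..δ + N, g x ≤ ∫ x in Set.Ioi (0 : ℝ), g x := by
    rw [intervalIntegral.integral_of_le (by positivity)]
    exact MeasureTheory.setIntegral_mono_set (integrable_exp_neg_mul_sq hb).integrableOn
      (Filter.Eventually.of_forall hpos) Set.Ioc_subset_Ioi_self.eventuallyLE
  have e6 : ∫ x in Set.Ioi (0 : ℝ), g x = 1 / √s / 2 := by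
    rw [integral_gaussian_Ioi, div_mul_cancel_left₀ Real.pi_pos.ne', Real.sqrt_inv, one_div]
  have e7 : g δ ≤ 1 := Real.exp_le_one_iff.2 (by nlinarith [sq_nonneg δ])
  rw [sum_range_succ'] at e1
  simp only [Nat.cast_zero, add_zero] at e1
  have e8 : (1 - δ) * g δ ≤ 1 - δ := by nlinarith
  show ∑ k ∈ range N, g (δ + k) ≤ _
  nlinarith

theorem poisson_gauss (s c : ℝ) (hs : 0 < s) :
    Summable (fun n : ℤ => Real.exp (-Real.pi * s * ((n : ℝ) - c) ^ 2)) ∧
      ∑' n : ℤ, Real.exp (-Real.pi * s * ((n : ℝ) - c) ^ 2) ≤ 1 + 1 / √s := by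
  have h0 := Int.fract_nonneg c
  have h1 := (Int.fract_lt_one c).le
  let f : ℤ → ℝ := fun m => Real.exp (-Real.pi * s * (((m + (⌊c⌋ + 1) : ℤ) : ℝ) - c) ^ 2)
  have a1 : ∀ k : ℕ, f k = Real.exp (-(Real.pi * s) * ((1 - Int.fract c) + k) ^ 2) := fun k => by
    simp only [f, Int.fract]
    congr 1
    push_cast
    ring
  have a2 : ∀ k : ℕ, f (-(k + 1)) = Real.exp (-(Real.pi * s) * (Int.fract c + k) ^ 2) :=
    fun k => by
      simp only [f, Int.fract]
      congr 1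
      push_cast
      ring
  have b1 := poisson_half s (1 - Int.fract c) hs (by linarith) (by linarith)
  have b2 := poisson_half s (Int.fract c) hs h0 h1
  simp only [← a1] at b1
  simp only [← a2] at b2
  have hpos : ∀ m, 0 ≤ f m := fun _ => (Real.exp_pos _).le
  have s1 : Summable fun k : ℕ => f k := summable_of_sum_range_le (fun _ => hpos _) b1
  have s2 : Summable fun k : ℕ => f (-(k + 1)) := summable_of_sum_range_le (fun _ => hpos _) b2
  have t1 := s1.tsum_le_of_sum_range_le b1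
  have t2 := s2.tsum_le_of_sum_range_le b2
  refine ⟨(Equiv.addRight (⌊c⌋ + 1)).summable_iff.1 (s1.of_nat_of_neg_add_one s2), ?_⟩
  rw [← (Equiv.addRight (⌊c⌋ + 1)).tsum_eq]
  show ∑' m, f m ≤ _
  rw [tsum_of_nat_of_neg_add_one s1 s2]
  linarith

theorem summable_gauss (s c : ℝ) (hs : 0 < s) :
    Summable (fun n : ℤ => Real.exp (-Real.pi * s * ((n : ℝ) - c) ^ 2)) :=
  (poisson_gauss s c hs).1

theorem tsum_gauss_le (s c : ℝ) (hs : 0 < s) :
    ∑' n : ℤ, Real.exp (-Real.pi * s * ((n : ℝ) - c) ^ 2) ≤ 1 + 1 / √s :=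
  (poisson_gauss s c hs).2

theorem poisson_aa_re (α β : ℝ) : (aa α β).re = α := by simp [aa]

theorem poisson_aa_im (α β : ℝ) : (aa α β).im = -(2 * β) := by simp [aa]

theorem poisson_aa_normSq (α β : ℝ) : Complex.normSq (aa α β) = α ^ 2 + 4 * β ^ 2 := by
  rw [Complex.normSq_apply, poisson_aa_re, poisson_aa_im]
  ring

theorem norm_Et (α c β μ : ℝ) (hα : 0 < α) :
    ‖Et α c β μ‖ = Real.exp (-Real.pi * α * (μ - 2 * β * c) ^ 2 / (α ^ 2 + 4 * β ^ 2)) := by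
  have hD : α ^ 2 + 4 * β ^ 2 ≠ 0 := by positivity
  rw [Et, Complex.norm_exp]
  congr 1
  simp only [pow_two, Complex.sub_re, Complex.mul_re, Complex.mul_im, Complex.div_re,
    Complex.div_im, poisson_aa_re, poisson_aa_im, poisson_aa_normSq, Complex.neg_re,
    Complex.neg_im, Complex.ofReal_re, Complex.ofReal_im, Complex.add_re, Complex.add_im,
    Complex.I_re, Complex.I_im]
  rw [← pow_two α, ← pow_two β]
  field_simp
  ring

theorem norm_aa_half (α β : ℝ) (_hα : 0 < α) :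
    ‖aa α β ^ (1 / 2 : ℂ)‖ = √(√(α ^ 2 + 4 * β ^ 2)) := by
  have := Complex.norm_cpow_real (aa α β) (1 / 2)
  push_cast at this
  rw [this, ← Real.sqrt_eq_rpow, Complex.norm_def, poisson_aa_normSq]

theorem poisson_ee_add (x y : ℝ) : ee (x + y) = ee x * ee y := by
  simp only [ee, ← Complex.exp_add]
  congr 1
  push_cast
  ring

theorem poisson_ee_int (n : ℤ) : ee n = 1 := by
  rw [ee, ← Complex.exp_int_mul_two_pi_mul_I n]
  congr 1
  push_cast
  ring

theorem poisson_sq_half (a : ℂ) (q : ℕ) (hq : 0 < q) :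
    (a * (q : ℂ) ^ 2) ^ (1 / 2 : ℂ) = q * a ^ (1 / 2 : ℂ) := by
  rcases eq_or_ne a 0 with rfl | ha
  · simp
  have hq' : (0 : ℝ) < (q : ℝ) ^ 2 := by positivity
  have hq0 : (q : ℂ) ≠ 0 := by exact_mod_cast hq.ne'
  have e1 : a * (q : ℂ) ^ 2 = (((q : ℝ) ^ 2 : ℝ) : ℂ) * a := by
    push_cast
    ring
  rw [Complex.cpow_def_of_ne_zero (mul_ne_zero ha (pow_ne_zero _ hq0)),
    Complex.cpow_def_of_ne_zero ha, e1, Complex.log_ofReal_mul hq' ha, add_mul, Complex.exp_add]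
  congr 1
  rw [Real.log_pow]
  have : ((((2 : ℕ) : ℝ) * Real.log q : ℝ) : ℂ) * (1 / 2) = (Real.log q : ℂ) := by
    push_cast
    ring
  rw [this, ← Complex.ofReal_exp, Real.exp_log (by exact_mod_cast hq), Complex.ofReal_natCast]

theorem poisson_summable_Et (α c β : ℝ) (hα : 0 < α) (q : ℕ) (hq : 0 < q) :
    Summable fun m : ℤ => ‖Et α c β ((m : ℝ) / q)‖ := by
  have hq' : (0 : ℝ) < q := by exact_mod_cast hq
  have := summable_gauss (α / ((α ^ 2 + 4 * β ^ 2) * (q : ℝ) ^ 2)) (2 * β * c * q) (by positivity)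
  refine this.congr fun m => ?_
  rw [norm_Et _ _ _ _ hα]
  congr 1
  field_simp

theorem poisson_fiber (α c β : ℝ) (hα : 0 < α) (t : ℤ) (q : ℕ) (hq : 0 < q) (r : ℕ) :
    ∑' j : ℤ, (Real.exp (-Real.pi * α * (((j * q + r : ℤ) : ℝ) - c) ^ 2) : ℂ) *
        ee (((t : ℝ) / q + β) * ((j * q + r : ℤ) : ℝ) ^ 2) =
      1 / ((q : ℂ) * aa α β ^ (1 / 2 : ℂ)) * ∑' m : ℤ,
        ee (((t * (r : ℤ) ^ 2 + m * (r : ℤ) : ℤ) : ℝ) / (q : ℝ)) * Et α c β ((m : ℝ) / q) := by
  have hq' : (q : ℝ) ≠ 0 := by exact_mod_cast hq.ne'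
  have hq0 : (q : ℂ) ≠ 0 := by exact_mod_cast hq.ne'
  have ha : aa α β ≠ 0 := fun h => by
    have := poisson_aa_re α β
    rw [h, Complex.zero_re] at this
    exact hα.ne this
  have hA : 0 < (aa α β * (q : ℂ) ^ 2).re := by
    have : (q : ℂ) ^ 2 = (((q : ℝ) ^ 2 : ℝ) : ℂ) := by push_cast; rfl
    rw [this, Complex.re_mul_ofReal, poisson_aa_re]
    positivity
  have key := Complex.tsum_exp_neg_quadratic hA (q * (α * c - aa α β * r))
  rw [poisson_sq_half _ _ hq] at key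
  set K : ℂ := ee ((t : ℝ) * (r : ℝ) ^ 2 / q) *
    Complex.exp (-Real.pi * aa α β * (r : ℂ) ^ 2 + 2 * Real.pi * α * c * r - Real.pi * α * c ^ 2)
    with hK
  have h1 : ∀ j : ℤ, (Real.exp (-Real.pi * α * (((j * q + r : ℤ) : ℝ) - c) ^ 2) : ℂ) *
        ee (((t : ℝ) / q + β) * ((j * q + r : ℤ) : ℝ) ^ 2) =
      K * Complex.exp (-Real.pi * (aa α β * (q : ℂ) ^ 2) * (j : ℂ) ^ 2 +
        2 * Real.pi * (q * (α * c - aa α β * r)) * j) := fun j => by
    have e : ((t : ℝ) / q + β) * ((j * q + r : ℤ) : ℝ) ^ 2 =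
        ((t * (j ^ 2 * q + 2 * j * r) : ℤ) : ℝ) + ((t : ℝ) * (r : ℝ) ^ 2 / q +
          β * ((j : ℝ) * q + r) ^ 2) := by
      push_cast
      field_simp
      ring
    rw [e, poisson_ee_add, poisson_ee_add, poisson_ee_int, one_mul, hK, mul_left_comm,
      mul_assoc (ee _)]
    congr 1
    rw [Complex.ofReal_exp, ee, ← Complex.exp_add, ← Complex.exp_add]
    congr 1
    simp only [aa]
    push_cast
    ring
  have h2 : ∀ m : ℤ, ee (((t * (r : ℤ) ^ 2 + m * (r : ℤ) : ℤ) : ℝ) / (q : ℝ)) *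
      Et α c β ((m : ℝ) / q) = K * Complex.exp (-Real.pi / (aa α β * (q : ℂ) ^ 2) *
        (m + Complex.I * (q * (α * c - aa α β * r))) ^ 2) := fun m => by
    have e : (((t * (r : ℤ) ^ 2 + m * (r : ℤ) : ℤ) : ℝ) / (q : ℝ)) =
        (t : ℝ) * (r : ℝ) ^ 2 / q + (m : ℝ) * r / q := by
      push_cast
      ring
    rw [e, poisson_ee_add, hK, mul_assoc, mul_assoc]
    congr 1
    rw [ee, Et, ← Complex.exp_add, ← Complex.exp_add]
    congr 1
    generalize aa α β = a at ha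
    push_cast
    field_simp
    linear_combination (a * (r : ℂ) * (q : ℂ) ^ 2 * (a * r - 2 * α * c)) * Complex.I_sq
  simp only [h1, h2, tsum_mul_left, key]
  ring

theorem th_poisson (α c β : ℝ) (hα : 0 < α) (t : ℤ) (q : ℕ) (hq : 0 < q) :
    th α c ((t : ℝ) / q + β) =
      1 / ((q : ℂ) * aa α β ^ (1 / 2 : ℂ)) * ∑' m : ℤ, gs t m q * Et α c β ((m : ℝ) / q) := by
  have : NeZero q := ⟨hq.ne'⟩
  let F : ℤ → ℂ := fun n => (Real.exp (-Real.pi * α * ((n : ℝ) - c) ^ 2) : ℂ) *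
    ee (((t : ℝ) / q + β) * (n : ℝ) ^ 2)
  have hF : Summable F := Summable.of_norm ((summable_gauss α c hα).congr fun n => by
    rw [norm_mul, norm_ee, mul_one, Complex.norm_real, Real.norm_of_nonneg (Real.exp_pos _).le])
  let e : Fin q × ℤ ≃ ℤ := (Equiv.prodComm _ _).trans (Int.divModEquiv q).symm
  have h1 : Summable fun p => F (e p) := e.summable_iff.2 hF
  have h2 : ∑' n, F n = ∑ r ∈ range q, ∑' j : ℤ, F (j * q + r) := by
    rw [← e.tsum_eq, h1.tsum_prod, tsum_fintype,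
      ← Fin.sum_univ_eq_sum_range (fun r => ∑' j : ℤ, F (j * q + r))]
    rfl
  rw [th, h2]
  simp only [F, poisson_fiber α c β hα t q hq, ← mul_sum, gs, sum_mul]
  rw [Summable.tsum_finsetSum fun r _ => Summable.of_norm
    ((poisson_summable_Et α c β hα q hq).congr fun m => by rw [norm_mul, norm_ee, one_mul])]

theorem norm_Ib (X u0 v0 β : ℝ) (hX : 0 < X) :
    ‖Ib X u0 v0 β‖ = 1 / (√2 * √(1 / X ^ 4 + 4 * β ^ 2)) *
      Real.exp (-(4 * Real.pi * β ^ 2 * (u0 ^ 2 + 2 * v0 ^ 2)) / (X ^ 2 * (1 / X ^ 4 + 4 * β ^ 2))) := by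
  have e1 : (1 / X ^ 2) ^ 2 + 4 * β ^ 2 = 1 / X ^ 4 + 4 * β ^ 2 := by ring
  have e2 : (2 / X ^ 2) ^ 2 + 4 * (-2 * β) ^ 2 = 2 ^ 2 * (1 / X ^ 4 + 4 * β ^ 2) := by ring
  have hD : 0 < 1 / X ^ 4 + 4 * β ^ 2 := by positivity
  simp only [Ib, Jf, norm_mul, norm_div, norm_one]
  rw [norm_aa_half _ _ (by positivity), norm_aa_half _ _ (by positivity),
    norm_Et _ _ _ _ (by positivity), norm_Et _ _ _ _ (by positivity), e1, e2]
  generalize 1 / X ^ 4 + 4 * β ^ 2 = D at hD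
  rw [Real.sqrt_mul (by norm_num), Real.sqrt_sq (by norm_num), Real.sqrt_mul (by norm_num),
    mul_mul_mul_comm, ← Real.exp_add]
  congr 1
  · rw [div_mul_div_comm, one_mul, mul_left_comm, Real.mul_self_sqrt (Real.sqrt_nonneg _)]
  · congr 1
    field_simp
    ring

end Pool.Agent.MP_a001a6_co
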