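import Pool.Agent.MP_a001a6_co.Mg.Gauss
import Pool.Agent.MP_a001a6_co.Mg.Poisson

-- part MP_a001a6_co.Sup
section

/-
HINTS.  Put D = 1/X^4 + 4β^2, take (μ1,μ2,o1,o2) from gauss_support, M = √(μ1 μ2), z = q X √D, ζ = z / M.  By th_poisson twice (second factor: -2(t/q+β) = (-2t)/q + (-2β), α = 2/X^2, there α^2 + 4β'^2 = 4D),
 Rh = c * (∑' m, x m) * (∑' m', y m'),  ‖c‖ = 1/(√2 q^2 √D),  x m = gs t m q * Et .., y m' = gs (-2t) m' q * Et ..,  and gam * Ib = c * x 0 * y 0.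
With φ = m/q - 2βu0, ψ = (m'/q + 4βv0)/√2 :  ‖x m‖‖y m'‖ ≤ q M exp(-π(φ^2+ψ^2)/(X^2 D)) on the cosets μ1 ∣ m - o1, μ2 ∣ m' - o2, and 0 elsewhere.
Bound 1 (sum over ALL pairs): tsum_gauss_le along the two progressions (m = o1 + μ1 n, s = μ1^2/z^2; s' = μ2^2/(2 z^2)) gives  M/(√2 q √D) (1+z/μ1)(1+√2 z/μ2) = X/√2 (1+ζ)(1+√2ζ)/ζ =: b1 ζ  in all three cases.
Bound 2 (pairs ≠ (0,0)): p1 = m/q + m'/(√2 q), p2 = m/q - m'/(√2 q), p1 p2 = (2m^2 - m'^2)/(2q^2), so M/q ≤ 2√|p1 p2|.  φ+ψ = p1 - 2β(u0 - √2 v0), φ-ψ = p2 - 2β(u0+√2 v0), 2|β| ≤ √D.  With κ1 = |φ+ψ|/(X√D), κ2 = |φ-ψ|/(X√D): |p1|/√D ≤ |u0-√2v0| + Xκ1 etc, exponent = -π(κ1^2+κ2^2)/2, and κ exp(-πκ^2/2) ≤ 0.343 (from exp y ≥ e y, π e ≥ 8.5).  So each term ≤ √2 G exp(-π(φ^2+ψ^2)/(2X^2 D)), and summing (s = μ1^2/(2z^2), s' = μ2^2/(4z^2)) gives √2 G (1+√2 z/μ1)(1+2z/μ2) = √2 G (1+√2ζ)(1+2ζ).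
Hence whenever z ≤ 2:  ‖Rh - gam Ib‖ ≤ E0  (if ζ ≤ Q0/X use bound 2 and hb3, else bound 1 and convexity of 1/ζ + √2ζ on [Q0/X, 2]: b1 ≤ max(b1(Q0/X), b1 2), b1(Q0/X) is the left side of hb1, b1 2 = 4.0607 X).
sup_major: z^2 ≤ 9Q0^2 (1+y0^2)/X^2 ≤ 2.
sup_minor: Real.exists_rat_abs_sub_le_and_den_le with n = ⌊√2 X⌋ gives t/q, q ≤ √2X, |β| ≤ 1/(√2 X q), so z^2 ≤ 4.  If q ∈ QQ then |β| > y0/(2X^2); use ‖gam‖ ≤ aq q ≤ 1 and norm_Ib (y ↦ y^2/(1+y^2) is increasing, y = 2X^2|β|).  If q ∉ QQ: if μ1 ∣ o1 and μ2 ∣ o2 then aq q = M/q ≠ 0 forces q odd > Q0 or 8 ∣ q > 3Q0, so q/M ≥ Q0, ζ ≥ Q0/X and bound 1 bounds ‖Rh‖ itself; otherwise x 0 * y 0 = 0.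
-/

namespace Pool.Agent.MP_a001a6_co

open Finset

lemma sup_kappa (k : ℝ) : |k| * Real.exp (-Real.pi * k ^ 2 / 2) ≤ 343 / 1000 := by
  have hpi : (3.141592 : ℝ) < Real.pi := Real.pi_gt_d6
  have he : (2.7182818283 : ℝ) < Real.exp 1 := Real.exp_one_gt_d9
  apply le_of_sq_le_sq _ (by norm_num)
  have h1 : (|k| * Real.exp (-Real.pi * k ^ 2 / 2)) ^ 2 = k ^ 2 * Real.exp (-(Real.pi * k ^ 2)) := by
    rw [mul_pow, sq_abs, pow_two (Real.exp _), ← Real.exp_add]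
    congr 2; ring
  rw [h1]
  set y := Real.pi * k ^ 2 with hy
  have h2 : y ≤ Real.exp (y - 1) := by linarith [Real.add_one_le_exp (y - 1)]
  have h3 : Real.exp (y - 1) * Real.exp 1 * Real.exp (-y) = 1 := by
    rw [← Real.exp_add, ← Real.exp_add]; simp
  have h4 : y * Real.exp 1 * Real.exp (-y) ≤ 1 := by
    refine le_trans ?_ h3.le
    gcongr
  have h5 : 0 ≤ k ^ 2 * Real.exp (-y) := by positivity
  have h6 : (8.5 : ℝ) ≤ Real.pi * Real.exp 1 := by nlinarith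
  have h7 : 8.5 * (k ^ 2 * Real.exp (-y)) ≤ 1 := by
    calc 8.5 * (k ^ 2 * Real.exp (-y)) ≤ (Real.pi * Real.exp 1) * (k ^ 2 * Real.exp (-y)) := by
          gcongr
      _ = y * Real.exp 1 * Real.exp (-y) := by rw [hy]; ring
      _ ≤ 1 := h4
  nlinarith

lemma sup_one (X z U P k : ℝ) (hX : 0 < X) (hz : 0 < z) (hU : 0 ≤ U)
    (h : |P| * X ≤ X * |k| + z * U) :
    |P| * X / z * Real.exp (-Real.pi * (k / z) ^ 2 / 2) ≤ U + 343 / 1000 * X := by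
  have h1 := sup_kappa (k / z)
  have h2 : Real.exp (-Real.pi * (k / z) ^ 2 / 2) ≤ 1 := by
    apply Real.exp_le_one_iff.2
    have := Real.pi_pos
    have : 0 ≤ Real.pi * (k / z) ^ 2 := by positivity
    linarith
  have h3 : |P| * X / z ≤ X * |k / z| + U := by
    rw [abs_div, abs_of_pos hz, div_le_iff₀ hz]
    have : (X * (|k| / z) + U) * z = X * |k| + z * U := by field_simp
    rw [this]; exact h
  have h4 := Real.exp_pos (-Real.pi * (k / z) ^ 2 / 2)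
  calc |P| * X / z * Real.exp (-Real.pi * (k / z) ^ 2 / 2)
      ≤ (X * |k / z| + U) * Real.exp (-Real.pi * (k / z) ^ 2 / 2) := by gcongr
    _ = X * (|k / z| * Real.exp (-Real.pi * (k / z) ^ 2 / 2))
        + U * Real.exp (-Real.pi * (k / z) ^ 2 / 2) := by ring
    _ ≤ X * (343 / 1000) + U * 1 := by gcongr
    _ = U + 343 / 1000 * X := by ring

lemma sup_pair (X z M G U1 U2 a b P1 P2 : ℝ) (hX : 0 < X) (hz : 0 < z) (hG0 : 0 ≤ G)
    (hU1 : 0 ≤ U1) (hU2 : 0 ≤ U2)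
    (hG : (U1 + 343 / 1000 * X) * (U2 + 343 / 1000 * X) ≤ G ^ 2)
    (hM : M ^ 2 ≤ 4 * (|P1| * |P2|))
    (h1 : |P1| * X ≤ X * |a + b / √2| + z * U1) (h2 : |P2| * X ≤ X * |a - b / √2| + z * U2) :
    M * X / (√2 * z) * (Real.exp (-Real.pi * (1 / z ^ 2) * a ^ 2)
        * Real.exp (-Real.pi * (1 / (2 * z ^ 2)) * b ^ 2))
      ≤ √2 * G * (Real.exp (-Real.pi * (1 / (2 * z ^ 2)) * a ^ 2)
        * Real.exp (-Real.pi * (1 / (4 * z ^ 2)) * b ^ 2)) := by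
  have hs : (0 : ℝ) < √2 := by positivity
  have hs2 : (√2 : ℝ) ^ 2 = 2 := Real.sq_sqrt (by norm_num)
  set E := Real.exp (-Real.pi * (1 / (2 * z ^ 2)) * a ^ 2)
        * Real.exp (-Real.pi * (1 / (4 * z ^ 2)) * b ^ 2) with hE
  have hE0 : 0 < E := by positivity
  have hE2 : Real.exp (-Real.pi * (1 / z ^ 2) * a ^ 2)
        * Real.exp (-Real.pi * (1 / (2 * z ^ 2)) * b ^ 2) = E * E := by
    rw [hE]; simp only [← Real.exp_add]; congr 1; field_simp; ring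
  have hE3 : E * E = Real.exp (-Real.pi * ((a + b / √2) / z) ^ 2 / 2)
      * Real.exp (-Real.pi * ((a - b / √2) / z) ^ 2 / 2) := by
    rw [← hE2]; simp only [← Real.exp_add]; congr 1
    have : (b / √2) ^ 2 = b ^ 2 / 2 := by rw [div_pow, hs2]
    have e1 : -Real.pi * ((a + b / √2) / z) ^ 2 / 2 + -Real.pi * ((a - b / √2) / z) ^ 2 / 2
        = -Real.pi * (a ^ 2 + (b / √2) ^ 2) / z ^ 2 := by field_simp; ring
    rw [e1, this]; field_simp; ring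
  have k1 := sup_one X z U1 P1 _ hX hz hU1 h1
  have k2 := sup_one X z U2 P2 _ hX hz hU2 h2
  have key : M * X / (2 * z) * E ≤ G := by
    apply le_of_sq_le_sq _ hG0
    calc (M * X / (2 * z) * E) ^ 2 = M ^ 2 * (X ^ 2 / (4 * z ^ 2) * (E * E)) := by
          field_simp; ring
      _ ≤ 4 * (|P1| * |P2|) * (X ^ 2 / (4 * z ^ 2) * (E * E)) := by gcongr
      _ = (|P1| * X / z * Real.exp (-Real.pi * ((a + b / √2) / z) ^ 2 / 2))
          * (|P2| * X / z * Real.exp (-Real.pi * ((a - b / √2) / z) ^ 2 / 2)) := by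
          rw [hE3]; field_simp
      _ ≤ (U1 + 343 / 1000 * X) * (U2 + 343 / 1000 * X) := by gcongr
      _ ≤ G ^ 2 := hG
  rw [hE2]
  have e : M * X / (√2 * z) * (E * E) = √2 * (M * X / (2 * z) * E) * E := by
    field_simp; rw [hs2]
  rw [e]; gcongr

/-- Gaussian restricted to an arithmetic progression -/
noncomputable def supG (μ : ℕ) (o : ℤ) (s c : ℝ) (m : ℤ) : ℝ :=
  if (μ : ℤ) ∣ m - o then Real.exp (-Real.pi * s * ((m : ℝ) - c) ^ 2) else 0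

lemma supG_nonneg (μ : ℕ) (o : ℤ) (s c : ℝ) (m : ℤ) : 0 ≤ supG μ o s c m := by
  unfold supG; split_ifs <;> positivity

lemma supG_summable (μ : ℕ) (o : ℤ) (s c : ℝ) (hs : 0 < s) : Summable (supG μ o s c) := by
  refine Summable.of_nonneg_of_le (supG_nonneg μ o s c) (fun m => ?_) (summable_gauss s c hs)
  unfold supG; split_ifs
  · exact le_rfl
  · positivity

lemma supG_tsum (μ : ℕ) (hμ : 0 < μ) (o : ℤ) (s c : ℝ) (hs : 0 < s) :
    ∑' m, supG μ o s c m ≤ 1 + 1 / (μ * √s) := by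
  have hμ' : (0 : ℝ) < μ := by exact_mod_cast hμ
  have hinj : Function.Injective (fun n : ℤ => o + μ * n) := by
    intro a b hab
    have h : (μ : ℤ) * a = μ * b := by simpa using hab
    exact mul_left_cancel₀ (by exact_mod_cast hμ.ne') h
  have hsup : Function.support (supG μ o s c) ⊆ Set.range (fun n : ℤ => o + μ * n) := by
    intro m hm
    by_cases h : (μ : ℤ) ∣ m - o
    · obtain ⟨n, hn⟩ := h
      exact ⟨n, by simp only; rw [← hn]; ring⟩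
    · exact absurd (by simp [supG, h]) hm
  rw [← hinj.tsum_eq hsup]
  have h1 : ∀ n : ℤ, supG μ o s c (o + μ * n)
      = Real.exp (-Real.pi * (s * μ ^ 2) * ((n : ℝ) - (c - o) / μ) ^ 2) := by
    intro n
    unfold supG
    rw [if_pos ⟨n, by ring⟩]
    congr 1; push_cast; field_simp; ring
  simp only [h1]
  have h2 := tsum_gauss_le (s * μ ^ 2) ((c - o) / μ) (by positivity)
  have h3 : √(s * (μ : ℝ) ^ 2) = μ * √s := by
    rw [Real.sqrt_mul hs.le, Real.sqrt_sq hμ'.le, mul_comm]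
  rwa [h3] at h2

lemma sup_pairsum (x y : ℤ → ℂ) (A B : ℤ → ℝ) (K : ℝ) (hK : 0 ≤ K)
    (hx : Summable (fun m => ‖x m‖)) (hy : Summable (fun m => ‖y m‖))
    (hA : Summable A) (hB : Summable B) (hA0 : ∀ m, 0 ≤ A m) (hB0 : ∀ m, 0 ≤ B m)
    (h : ∀ m m' : ℤ, (m, m') ≠ (0, 0) → ‖x m‖ * ‖y m'‖ ≤ K * (A m * B m')) :
    ‖(∑' m, x m) * (∑' m, y m) - x 0 * y 0‖ ≤ K * ((∑' m, A m) * ∑' m, B m) := by
  classical
  have hAB : Summable (fun p : ℤ × ℤ => A p.1 * B p.2) := hA.mul_of_nonneg hB hA0 hB0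
  have hxy : Summable (fun p : ℤ × ℤ => x p.1 * y p.2) := summable_mul_of_summable_norm hx hy
  rw [tsum_mul_tsum_of_summable_norm hx hy, hxy.tsum_eq_add_tsum_ite (0, 0),
    hA.tsum_mul_tsum hB hAB, ← tsum_mul_left]
  simp only [add_sub_cancel_left]
  apply tsum_of_norm_bounded (hAB.mul_left K).hasSum
  rintro ⟨m, m'⟩
  split_ifs with hp
  · simp only [norm_zero]
    exact mul_nonneg hK (mul_nonneg (hA0 _) (hB0 _))
  · rw [norm_mul]; exact h m m' hp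

lemma sup_prod (μ1 μ2 : ℕ) (h : (μ1 = 1 ∧ μ2 = 1) ∨ (μ1 = 2 ∧ μ2 = 2) ∨ (μ1 = 2 ∧ μ2 = 4))
    (w : ℝ) :
    (1 + w / μ1) * (1 + √2 * w / μ2)
      = (1 + w / √((μ1 : ℝ) * μ2)) * (1 + √2 * (w / √((μ1 : ℝ) * μ2))) := by
  have hs : (0 : ℝ) < √2 := by positivity
  have hs2 : (√2 : ℝ) ^ 2 = 2 := Real.sq_sqrt (by norm_num)
  rcases h with ⟨rfl, rfl⟩ | ⟨rfl, rfl⟩ | ⟨rfl, rfl⟩
  · simp
  · have : √(((2 : ℕ) : ℝ) * ((2 : ℕ) : ℝ)) = 2 := by
      rw [Real.sqrt_mul_self (by positivity)]; norm_num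
    rw [this]; push_cast; ring
  · have : √(((2 : ℕ) : ℝ) * ((4 : ℕ) : ℝ)) = 2 * √2 := by
      rw [Real.sqrt_eq_iff_mul_self_eq (by positivity) (by positivity)]
      push_cast; nlinarith
    rw [this]; push_cast
    have e1 : w / (2 * √2) = √2 * w / 4 := by
      rw [div_eq_div_iff (by positivity) (by norm_num)]
      linear_combination (-2 * w) * hs2
    have e2 : √2 * (w / (2 * √2)) = w / 2 := by field_simp
    rw [e2, e1]; ring

lemma sup_M (μ1 μ2 : ℕ) (h : (μ1 = 1 ∧ μ2 = 1) ∨ (μ1 = 2 ∧ μ2 = 2) ∨ (μ1 = 2 ∧ μ2 = 4)) :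
    1 ≤ √((μ1 : ℝ) * μ2) ∧ √((μ1 : ℝ) * μ2) ≤ 3 := by
  constructor
  · apply Real.le_sqrt_of_sq_le
    rcases h with ⟨rfl, rfl⟩ | ⟨rfl, rfl⟩ | ⟨rfl, rfl⟩ <;> norm_num
  · apply Real.sqrt_le_iff.2
    rcases h with ⟨rfl, rfl⟩ | ⟨rfl, rfl⟩ | ⟨rfl, rfl⟩ <;> norm_num

/-- the first bound, as a function of `ζ` -/
noncomputable def supB (X ζ : ℝ) : ℝ := X / (√2 * ζ) * ((1 + ζ) * (1 + √2 * ζ))

lemma sup_core (X u0 v0 β : ℝ) (hX : 0 < X) (t : ℤ) (q : ℕ) (hq : 0 < q)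
    (hc : Int.gcd t q = 1) :
    ∃ M : ℝ, 1 ≤ M ∧ M ≤ 3 ∧ (gam t q = 0 ∨ aq q = M / q) ∧
      ‖Rh X u0 v0 ((t : ℝ) / q + β)‖ ≤ supB X (q * X * √(1 / X ^ 4 + 4 * β ^ 2) / M) ∧
      ‖Rh X u0 v0 ((t : ℝ) / q + β) - gam t q * Ib X u0 v0 β‖
        ≤ supB X (q * X * √(1 / X ^ 4 + 4 * β ^ 2) / M) ∧
      ∀ G : ℝ, 0 ≤ G →
        (|u0 - √2 * v0| + 343 / 1000 * X) * (|u0 + √2 * v0| + 343 / 1000 * X) ≤ G ^ 2 →
        ‖Rh X u0 v0 ((t : ℝ) / q + β) - gam t q * Ib X u0 v0 β‖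
          ≤ √2 * G * (1 + √2 * (q * X * √(1 / X ^ 4 + 4 * β ^ 2) / M))
            * (1 + 2 * (q * X * √(1 / X ^ 4 + 4 * β ^ 2) / M)) := by
  obtain ⟨μ1, μ2, o1, o2, hμ, hg1, hg2, hgap, haq⟩ := gauss_support t q hq hc
  obtain ⟨hM1, hM3⟩ := sup_M μ1 μ2 hμ
  have hprod := sup_prod μ1 μ2 hμ
  have hμ1 : 0 < μ1 := by rcases hμ with ⟨h, -⟩ | ⟨h, -⟩ | ⟨h, -⟩ <;> omega
  have hμ2 : 0 < μ2 := by rcases hμ with ⟨-, h⟩ | ⟨-, h⟩ | ⟨-, h⟩ <;> omega
  have hμ1' : (0 : ℝ) < μ1 := by exact_mod_cast hμ1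
  have hμ2' : (0 : ℝ) < μ2 := by exact_mod_cast hμ2
  have hq' : (0 : ℝ) < q := by exact_mod_cast hq
  have hs : (0 : ℝ) < √2 := by positivity
  have hs2 : (√2 : ℝ) ^ 2 = 2 := Real.sq_sqrt (by norm_num)
  have hMsq : √((μ1 : ℝ) * μ2) ^ 2 = μ1 * μ2 := Real.sq_sqrt (by positivity)
  have hMM : √((μ1 : ℝ) * q) * √((μ2 : ℝ) * q) = √((μ1 : ℝ) * μ2) * q := by
    rw [← Real.sqrt_mul (by positivity)]
    have : (μ1 : ℝ) * q * (μ2 * q) = (μ1 * μ2) * q ^ 2 := by ring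
    rw [this, Real.sqrt_mul (by positivity), Real.sqrt_sq hq'.le]
  set M := √((μ1 : ℝ) * μ2) with hMdef
  have hM0 : 0 < M := by linarith
  set D := 1 / X ^ 4 + 4 * β ^ 2 with hD
  have hD0 : 0 < D := by positivity
  have hd2 : √D ^ 2 = D := Real.sq_sqrt hD0.le
  have hd0 : 0 < √D := Real.sqrt_pos.2 hD0
  set d := √D with hd
  have hβd : 2 * |β| ≤ d := by
    apply le_of_sq_le_sq _ hd0.le
    rw [hd2, mul_pow, sq_abs, hD]
    have : 0 ≤ 1 / X ^ 4 := by positivity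
    linarith
  set z := q * X * d with hz
  have hz0 : 0 < z := by positivity
  set x : ℤ → ℂ := fun m => gs t m q * Et (1 / X ^ 2) u0 β ((m : ℝ) / q) with hx
  set y : ℤ → ℂ := fun m => gs (-2 * t) m q * Et (2 / X ^ 2) v0 (-2 * β) ((m : ℝ) / q) with hy
  set c : ℂ := 1 / ((q : ℂ) * aa (1 / X ^ 2) β ^ (1 / 2 : ℂ))
    * (1 / ((q : ℂ) * aa (2 / X ^ 2) (-2 * β) ^ (1 / 2 : ℂ))) with hcdef
  have hR : Rh X u0 v0 ((t : ℝ) / q + β) = c * ((∑' m, x m) * ∑' m, y m) := by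
    unfold Rh
    have e : -2 * ((t : ℝ) / q + β) = ((-2 * t : ℤ) : ℝ) / q + -2 * β := by push_cast; ring
    rw [e, th_poisson _ _ _ (by positivity) t q hq, th_poisson _ _ _ (by positivity) (-2 * t) q hq,
      hcdef]
    ring
  have hGI : gam t q * Ib X u0 v0 β = c * (x 0 * y 0) := by
    unfold gam Ib Jf
    simp only [hx, hy, hcdef, Int.cast_zero, zero_div]
    rw [one_div ((q : ℂ) * _), one_div ((q : ℂ) * _), mul_inv, mul_inv]
    ring
  have hcn : ‖c‖ = 1 / (√2 * q ^ 2 * d) := by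
    rw [hcdef, norm_mul, norm_div, norm_div, norm_mul, norm_mul, norm_aa_half _ _ (by positivity),
      norm_aa_half _ _ (by positivity), norm_one, Complex.norm_natCast]
    have e1 : (1 / X ^ 2) ^ 2 + 4 * β ^ 2 = D := by rw [hD]; field_simp
    have e2 : √((2 / X ^ 2) ^ 2 + 4 * (-2 * β) ^ 2) = 2 * d := by
      rw [Real.sqrt_eq_iff_mul_self_eq (by positivity) (by positivity)]
      have : 2 * d * (2 * d) = 4 * d ^ 2 := by ring
      rw [this, hd2, hD]; field_simp; ring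
    rw [e1, e2, ← hd, Real.sqrt_mul (by norm_num)]
    have e3 : √d ^ 2 = d := Real.sq_sqrt hd0.le
    have e4 : 0 < √d := Real.sqrt_pos.2 hd0
    field_simp
    rw [e3]
  set c1 := 2 * β * u0 * q with hc1
  set c2 := -4 * β * v0 * q with hc2
  have hE1 : ∀ m : ℤ, ‖Et (1 / X ^ 2) u0 β ((m : ℝ) / q)‖
      = Real.exp (-Real.pi * (1 / z ^ 2) * ((m : ℝ) - c1) ^ 2) := by
    intro m
    rw [norm_Et _ _ _ _ (by positivity)]
    have e1 : (1 / X ^ 2) ^ 2 + 4 * β ^ 2 = d ^ 2 := by rw [hd2, hD]; field_simp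
    rw [e1, hz, hc1]; congr 1; field_simp
  have hE2 : ∀ m : ℤ, ‖Et (2 / X ^ 2) v0 (-2 * β) ((m : ℝ) / q)‖
      = Real.exp (-Real.pi * (1 / (2 * z ^ 2)) * ((m : ℝ) - c2) ^ 2) := by
    intro m
    rw [norm_Et _ _ _ _ (by positivity)]
    have e1 : (2 / X ^ 2) ^ 2 + 4 * (-2 * β) ^ 2 = 4 * d ^ 2 := by rw [hd2, hD]; field_simp; ring
    rw [e1, hz, hc2]; congr 1; field_simp; ring
  have hxn : ∀ m, ‖x m‖ ≤ √((μ1 : ℝ) * q) * supG μ1 o1 (1 / z ^ 2) c1 m := by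
    intro m
    simp only [hx]
    rw [norm_mul, hE1]
    have := hg1 m
    unfold supG
    split_ifs at this ⊢ with h
    · gcongr
    · have h0 : ‖gs t m q‖ = 0 := le_antisymm this (norm_nonneg _)
      rw [h0]; simp
  have hyn : ∀ m, ‖y m‖ ≤ √((μ2 : ℝ) * q) * supG μ2 o2 (1 / (2 * z ^ 2)) c2 m := by
    intro m
    simp only [hy]
    rw [norm_mul, hE2]
    have := hg2 m
    unfold supG
    split_ifs at this ⊢ with h
    · gcongr
    · have h0 : ‖gs (-2 * t) m q‖ = 0 := le_antisymm this (norm_nonneg _)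
      rw [h0]; simp
  have hA := supG_summable μ1 o1 (1 / z ^ 2) c1 (by positivity)
  have hB := supG_summable μ2 o2 (1 / (2 * z ^ 2)) c2 (by positivity)
  have hxs : Summable (fun m => ‖x m‖) :=
    Summable.of_nonneg_of_le (fun _ => norm_nonneg _) hxn (hA.mul_left _)
  have hys : Summable (fun m => ‖y m‖) :=
    Summable.of_nonneg_of_le (fun _ => norm_nonneg _) hyn (hB.mul_left _)
  have hxy : ∀ m m', ‖x m‖ * ‖y m'‖
      ≤ M * q * (supG μ1 o1 (1 / z ^ 2) c1 m * supG μ2 o2 (1 / (2 * z ^ 2)) c2 m') := by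
    intro m m'
    have h1 := supG_nonneg μ1 o1 (1 / z ^ 2) c1 m
    calc ‖x m‖ * ‖y m'‖ ≤ (√((μ1 : ℝ) * q) * supG μ1 o1 (1 / z ^ 2) c1 m)
          * (√((μ2 : ℝ) * q) * supG μ2 o2 (1 / (2 * z ^ 2)) c2 m') :=
          mul_le_mul (hxn m) (hyn m') (norm_nonneg _) (by positivity)
      _ = _ := by rw [← hMM]; ring
  -- the four coset sums
  have r1 : √(1 / z ^ 2) = 1 / z := by
    rw [Real.sqrt_eq_iff_mul_self_eq (by positivity) (by positivity)]; field_simp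
  have r2 : √(1 / (2 * z ^ 2)) = 1 / (√2 * z) := by
    rw [Real.sqrt_eq_iff_mul_self_eq (by positivity) (by positivity)]; field_simp; rw [hs2]
  have r4 : √(1 / (4 * z ^ 2)) = 1 / (2 * z) := by
    rw [Real.sqrt_eq_iff_mul_self_eq (by positivity) (by positivity)]; field_simp; norm_num
  have sA : ∑' m, supG μ1 o1 (1 / z ^ 2) c1 m ≤ 1 + z / μ1 := by
    refine (supG_tsum μ1 hμ1 o1 _ c1 (by positivity)).trans (le_of_eq ?_)
    rw [r1]; field_simp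
  have sB : ∑' m, supG μ2 o2 (1 / (2 * z ^ 2)) c2 m ≤ 1 + √2 * z / μ2 := by
    refine (supG_tsum μ2 hμ2 o2 _ c2 (by positivity)).trans (le_of_eq ?_)
    rw [r2]; field_simp
  have sA' : ∑' m, supG μ1 o1 (1 / (2 * z ^ 2)) c1 m ≤ 1 + √2 * z / μ1 := by
    refine (supG_tsum μ1 hμ1 o1 _ c1 (by positivity)).trans (le_of_eq ?_)
    rw [r2]; field_simp
  have sB' : ∑' m, supG μ2 o2 (1 / (4 * z ^ 2)) c2 m ≤ 1 + √2 * (√2 * z) / μ2 := by
    refine (supG_tsum μ2 hμ2 o2 _ c2 (by positivity)).trans (le_of_eq ?_)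
    rw [r4]; field_simp; rw [hs2]; ring
  have tA : 0 ≤ ∑' m, supG μ1 o1 (1 / z ^ 2) c1 m := tsum_nonneg (supG_nonneg _ _ _ _)
  have tB : 0 ≤ ∑' m, supG μ2 o2 (1 / (2 * z ^ 2)) c2 m := tsum_nonneg (supG_nonneg _ _ _ _)
  have hb1 : ‖c‖ * (M * q * ((∑' m, supG μ1 o1 (1 / z ^ 2) c1 m)
      * ∑' m, supG μ2 o2 (1 / (2 * z ^ 2)) c2 m)) ≤ supB X (z / M) := by
    calc _ ≤ ‖c‖ * (M * q * ((1 + z / μ1) * (1 + √2 * z / μ2))) := by gcongr
      _ = supB X (z / M) := by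
        rw [hprod, hcn, supB, ← mul_assoc]
        congr 1
        rw [hz]; field_simp
  refine ⟨M, hM1, hM3, ?_, ?_, ?_, ?_⟩
  · by_cases h1 : (μ1 : ℤ) ∣ o1
    · by_cases h2 : (μ2 : ℤ) ∣ o2
      · exact Or.inr (haq h1 h2)
      · left
        have := hg2 0
        rw [if_neg (by simpa using h2)] at this
        have h0 : gs (-2 * t) 0 q = 0 := norm_le_zero_iff.1 this
        rw [gam, h0]; simp
    · left
      have := hg1 0
      rw [if_neg (by simpa using h1)] at this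
      have h0 : gs t 0 q = 0 := norm_le_zero_iff.1 this
      simp [gam, h0]
  · rw [hR, norm_mul]
    refine le_trans ?_ hb1
    gcongr
    rw [norm_mul]
    have a1 : ‖∑' m, x m‖ ≤ √((μ1 : ℝ) * q) * ∑' m, supG μ1 o1 (1 / z ^ 2) c1 m := by
      rw [← tsum_mul_left]
      exact tsum_of_norm_bounded (hA.mul_left _).hasSum hxn
    have a2 : ‖∑' m, y m‖ ≤ √((μ2 : ℝ) * q) * ∑' m, supG μ2 o2 (1 / (2 * z ^ 2)) c2 m := by
      rw [← tsum_mul_left]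
      exact tsum_of_norm_bounded (hB.mul_left _).hasSum hyn
    calc _ ≤ (√((μ1 : ℝ) * q) * ∑' m, supG μ1 o1 (1 / z ^ 2) c1 m)
          * (√((μ2 : ℝ) * q) * ∑' m, supG μ2 o2 (1 / (2 * z ^ 2)) c2 m) :=
          mul_le_mul a1 a2 (norm_nonneg _) (by positivity)
      _ = _ := by rw [← hMM]; ring
  · rw [hR, hGI, ← mul_sub, norm_mul]
    refine le_trans ?_ hb1
    gcongr
    exact sup_pairsum x y _ _ (M * q) (by positivity) hxs hys hA hB (supG_nonneg _ _ _ _)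
      (supG_nonneg _ _ _ _) (fun m m' _ => hxy m m')
  · intro G hG0 hG
    have hA' := supG_summable μ1 o1 (1 / (2 * z ^ 2)) c1 (by positivity)
    have hB' := supG_summable μ2 o2 (1 / (4 * z ^ 2)) c2 (by positivity)
    have tB' : 0 ≤ ∑' m, supG μ2 o2 (1 / (4 * z ^ 2)) c2 m := tsum_nonneg (supG_nonneg _ _ _ _)
    have hp : ∀ m m' : ℤ, (m, m') ≠ (0, 0) → ‖x m‖ * ‖y m'‖ ≤ (√2 * q ^ 2 * d) * (√2 * G)
        * (supG μ1 o1 (1 / (2 * z ^ 2)) c1 m * supG μ2 o2 (1 / (4 * z ^ 2)) c2 m') := by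
      intro m m' hmm
      refine (hxy m m').trans ?_
      unfold supG
      by_cases h1 : (μ1 : ℤ) ∣ m - o1
      swap
      · simp [h1]
      by_cases h2 : (μ2 : ℤ) ∣ m' - o2
      swap
      · simp [h2]
      simp only [if_pos h1, if_pos h2]
      have hgap' : (μ1 : ℝ) * μ2 ≤ 2 * |2 * (m : ℝ) ^ 2 - (m' : ℝ) ^ 2| := by
        exact_mod_cast hgap m m' h1 h2 hmm
      have hP : M ^ 2 ≤ 4 * (|(m : ℝ) + m' / √2| * |(m : ℝ) - m' / √2|) := by
        rw [hMsq, ← abs_mul]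
        have e : ((m : ℝ) + m' / √2) * ((m : ℝ) - m' / √2) = (2 * (m : ℝ) ^ 2 - (m' : ℝ) ^ 2) / 2 := by
          have : ((m' : ℝ) / √2) ^ 2 = (m' : ℝ) ^ 2 / 2 := by rw [div_pow, hs2]
          linear_combination (-1) * this
        rw [e, abs_div, abs_two]; linarith
      have hgen : ∀ P k U : ℝ, P = k + 2 * β * q * U → |P| * X ≤ X * |k| + z * |U| := by
        intro P k U hPk
        have h3 : |P| ≤ |k| + 2 * |β| * q * |U| := by
          rw [hPk]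
          refine (abs_add_le _ _).trans (le_of_eq ?_)
          rw [abs_mul, abs_mul, abs_mul, abs_two, abs_of_pos hq']
        have h4 : 2 * |β| * q * |U| ≤ d * q * |U| := by gcongr
        calc |P| * X ≤ (|k| + d * q * |U|) * X := by gcongr; linarith
          _ = X * |k| + z * |U| := by rw [hz]; ring
      have hv : (4 : ℝ) / √2 = 2 * √2 := by
        rw [div_eq_iff hs.ne']; linear_combination (-2) * hs2
      have hP1 := hgen ((m : ℝ) + m' / √2) (((m : ℝ) - c1) + ((m' : ℝ) - c2) / √2) (u0 - √2 * v0) (by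
        rw [hc1, hc2]; linear_combination (-β * v0 * q) * hv)
      have hP2 := hgen ((m : ℝ) - m' / √2) (((m : ℝ) - c1) - ((m' : ℝ) - c2) / √2) (u0 + √2 * v0) (by
        rw [hc1, hc2]; linear_combination (β * v0 * q) * hv)
      have key := sup_pair X z M G _ _ _ _ _ _ hX hz0 hG0 (abs_nonneg _) (abs_nonneg _) hG hP hP1 hP2
      have e : M * q = (√2 * q ^ 2 * d) * (M * X / (√2 * z)) := by rw [hz]; field_simp
      rw [e, mul_assoc (√2 * q ^ 2 * d), mul_assoc (√2 * q ^ 2 * d)]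
      gcongr
    have hps := sup_pairsum x y _ _ _ (by positivity) hxs hys hA' hB' (supG_nonneg _ _ _ _)
      (supG_nonneg _ _ _ _) hp
    rw [hR, hGI, ← mul_sub, norm_mul]
    calc _ ≤ ‖c‖ * ((√2 * q ^ 2 * d) * (√2 * G) * ((∑' m, supG μ1 o1 (1 / (2 * z ^ 2)) c1 m)
          * ∑' m, supG μ2 o2 (1 / (4 * z ^ 2)) c2 m)) := by gcongr
      _ ≤ ‖c‖ * ((√2 * q ^ 2 * d) * (√2 * G)
          * ((1 + √2 * z / μ1) * (1 + √2 * (√2 * z) / μ2))) := by gcongr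
      _ = _ := by
        rw [hprod, hcn]
        have e : √2 * (√2 * z / M) = 2 * (z / M) := by
          linear_combination (z / M) * hs2
        rw [e]; field_simp

lemma sup_convex {X u0 v0 y0 E0 : ℝ} {Q0 : ℕ} (hG : Good X u0 v0 Q0 y0 E0) (ζ : ℝ)
    (h1 : Q0 / X ≤ ζ) (h2 : ζ ≤ 2) : supB X ζ ≤ E0 := by
  have hX := hG.hX
  have hQ : (77 : ℝ) ≤ Q0 := by exact_mod_cast hG.hQ
  have hQ0 : (0 : ℝ) < Q0 := by linarith
  have hs : (0 : ℝ) < √2 := by positivity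
  have hs2 : (√2 : ℝ) ^ 2 = 2 := Real.sq_sqrt (by norm_num)
  have hs3 : (1.4142 : ℝ) ≤ √2 := Real.le_sqrt_of_sq_le (by norm_num)
  have hs4 : √2 ≤ (1.4143 : ℝ) := Real.sqrt_le_iff.2 (by norm_num)
  set w := (Q0 : ℝ) / X with hw
  have hw0 : 0 < w := by positivity
  have hζ : 0 < ζ := by linarith
  have hmono : ∀ a : ℝ, 0 < a → (ζ - a) * (√2 * (ζ * a) - 1) ≤ 0 → supB X ζ ≤ supB X a := by
    intro a ha h
    have e : supB X a - supB X ζ = X / (√2 * (ζ * a)) * -((ζ - a) * (√2 * (ζ * a) - 1)) := by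
      unfold supB; field_simp; ring
    have : 0 ≤ X / (√2 * (ζ * a)) * -((ζ - a) * (√2 * (ζ * a) - 1)) :=
      mul_nonneg (by positivity) (by linarith)
    linarith
  by_cases h : 1 ≤ √2 * (ζ * 2)
  · refine (hmono 2 (by norm_num) (mul_nonpos_of_nonpos_of_nonneg (by linarith) (by linarith))).trans
      (le_trans ?_ hG.hb2)
    unfold supB
    rw [div_mul_eq_mul_div, div_le_iff₀ (by positivity)]
    have : (1 + 2) * (1 + √2 * 2) ≤ 407 / 100 * (√2 * 2) := by linarith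
    nlinarith
  · refine (hmono w hw0 (mul_nonpos_of_nonneg_of_nonpos (by linarith) ?_)).trans
      (le_trans (le_of_eq ?_) hG.hb1)
    · have : √2 * (ζ * w) ≤ √2 * (ζ * 2) := by gcongr; linarith
      linarith
    · unfold supB
      rw [hw]; field_simp

lemma sup_arc {X u0 v0 y0 E0 : ℝ} {Q0 : ℕ} (hG : Good X u0 v0 Q0 y0 E0)
    (t : ℤ) (q : ℕ) (hq : 0 < q) (hc : Int.gcd t q = 1) (β : ℝ)
    (hz : q * X * √(1 / X ^ 4 + 4 * β ^ 2) ≤ 2) :
    ‖Rh X u0 v0 ((t : ℝ) / q + β) - gam t q * Ib X u0 v0 β‖ ≤ E0 := by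
  have hX := hG.hX
  obtain ⟨M, hM1, -, -, -, h2, h3⟩ := sup_core X u0 v0 β hX t q hq hc
  set z := q * X * √(1 / X ^ 4 + 4 * β ^ 2) with hzdef
  have hz0 : 0 ≤ z := by positivity
  have hζ2 : z / M ≤ 2 := (div_le_self hz0 hM1).trans hz
  rcases le_total (z / M) (Q0 / X) with h | h
  · obtain ⟨G, hG0, hG1, hG2⟩ := hG.hb3
    refine (h3 G hG0 hG1).trans (le_trans ?_ hG2)
    have hM0 : 0 < M := by linarith
    rw [mul_div_assoc √2, mul_div_assoc 2]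
    gcongr
  · exact h2.trans (sup_convex hG _ h hζ2)

theorem sup_major {X u0 v0 y0 E0 : ℝ} {Q0 : ℕ} (hG : Good X u0 v0 Q0 y0 E0)
    (t : ℤ) (q : ℕ) (hq : q ∈ QQ Q0) (hc : Int.gcd t q = 1) (β : ℝ)
    (hβ : |β| ≤ y0 / (2 * X ^ 2)) :
    ‖Rh X u0 v0 ((t : ℝ) / q + β) - gam t q * Ib X u0 v0 β‖ ≤ E0 := by
  have hX := hG.hX
  simp only [QQ, mem_filter, mem_Icc] at hq
  obtain ⟨⟨hq1, hq3⟩, -⟩ := hq
  apply sup_arc hG t q hq1 hc
  apply le_of_sq_le_sq _ (by norm_num)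
  rw [mul_pow, Real.sq_sqrt (by positivity)]
  have hq3' : (q : ℝ) ≤ 3 * Q0 := by exact_mod_cast hq3
  have h1 : β ^ 2 ≤ (1 / (2 * X ^ 2)) ^ 2 := by
    rw [← sq_abs β]
    have : |β| ≤ 1 / (2 * X ^ 2) := hβ.trans (by gcongr; exact hG.hy1.le)
    gcongr
  have h2 : (q : ℝ) ^ 2 ≤ X ^ 2 := by
    calc (q : ℝ) ^ 2 ≤ (3 * Q0) ^ 2 := by gcongr
      _ = 9 * (Q0 : ℝ) ^ 2 := by ring
      _ ≤ X ^ 2 := hG.hQX
  calc ((q : ℝ) * X) ^ 2 * (1 / X ^ 4 + 4 * β ^ 2)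
      = (q : ℝ) ^ 2 * (X ^ 2 * (1 / X ^ 4 + 4 * β ^ 2)) := by ring
    _ ≤ X ^ 2 * (X ^ 2 * (1 / X ^ 4 + 4 * (1 / (2 * X ^ 2)) ^ 2)) := by gcongr
    _ = 2 := by field_simp; ring
    _ ≤ 2 ^ 2 := by norm_num

lemma sup_aq_le (q : ℕ) (hq : 0 < q) : aq q ≤ 1 := by
  have hq' : (1 : ℝ) ≤ q := by exact_mod_cast hq
  have hs4 : √2 ≤ (2 : ℝ) := Real.sqrt_le_iff.2 (by norm_num)
  unfold aq
  split_ifs with h1 h2
  · rw [div_le_one (by linarith)]; exact hq'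
  · have : (8 : ℝ) ≤ q := by exact_mod_cast (by omega : 8 ≤ q)
    rw [div_le_one (by linarith)]; linarith
  · norm_num

theorem sup_minor {X u0 v0 y0 E0 : ℝ} {Q0 : ℕ} (hG : Good X u0 v0 Q0 y0 E0) (θ : ℝ)
    (hθ : ∀ (t : ℤ) (q : ℕ), q ∈ QQ Q0 → Int.gcd t q = 1 → y0 / (2 * X ^ 2) < |θ - (t : ℝ) / q|) :
    ‖Rh X u0 v0 θ‖ ≤ E0 + X ^ 2 / √2 *
      Real.exp (-Real.pi * ((u0 ^ 2 + 2 * v0 ^ 2) / X ^ 2) * (y0 ^ 2 / (1 + y0 ^ 2))) := by
  have hX := hG.hX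
  have hQ : (77 : ℝ) ≤ Q0 := by exact_mod_cast hG.hQ
  have hs : (0 : ℝ) < √2 := by positivity
  have hs2 : (√2 : ℝ) ^ 2 = 2 := Real.sq_sqrt (by norm_num)
  have hs3 : (1 : ℝ) ≤ √2 := Real.le_sqrt_of_sq_le (by norm_num)
  have hX1 : 1 ≤ X := by
    apply le_of_sq_le_sq _ hX.le
    nlinarith [hG.hQX]
  have hn : 0 < ⌊√2 * X⌋₊ := Nat.floor_pos.2 (by nlinarith)
  obtain ⟨r, hr1, hr2⟩ := Real.exists_rat_abs_sub_le_and_den_le θ hn
  set t := r.num with ht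
  set q := r.den with hqdef
  have hq : 0 < q := r.den_pos
  have hq' : (0 : ℝ) < q := by exact_mod_cast hq
  have hc : Int.gcd t q = 1 := by
    have := r.reduced
    simpa [Int.gcd, ht, hqdef] using this
  have hr : (r : ℝ) = (t : ℝ) / q := Rat.cast_def r
  set β := θ - (t : ℝ) / q with hβ
  have hθe : θ = (t : ℝ) / q + β := by rw [hβ]; ring
  rw [hr, ← hβ] at hr1
  have hqX : (q : ℝ) ≤ √2 * X :=
    le_trans (by exact_mod_cast hr2) (Nat.floor_le (by positivity))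
  have hβ1 : |β| ≤ 1 / (√2 * X * q) := by
    refine hr1.trans ?_
    have := (Nat.lt_floor_add_one (√2 * X)).le
    gcongr
  have hD0 : 0 < 1 / X ^ 4 + 4 * β ^ 2 := by positivity
  have hz : q * X * √(1 / X ^ 4 + 4 * β ^ 2) ≤ 2 := by
    apply le_of_sq_le_sq _ (by norm_num)
    rw [mul_pow, Real.sq_sqrt hD0.le]
    have h1 : β ^ 2 ≤ (1 / (√2 * X * q)) ^ 2 := by
      rw [← sq_abs β]; gcongr
    calc ((q : ℝ) * X) ^ 2 * (1 / X ^ 4 + 4 * β ^ 2)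
        = (q : ℝ) ^ 2 / X ^ 2 + 4 * (q * X) ^ 2 * β ^ 2 := by field_simp
      _ ≤ (√2 * X) ^ 2 / X ^ 2 + 4 * (q * X) ^ 2 * (1 / (√2 * X * q)) ^ 2 := by gcongr
      _ = 2 ^ 2 := by
        rw [div_pow, mul_pow (√2 * X), mul_pow √2, hs2]; field_simp; ring
  have hd : 1 / X ^ 2 ≤ √(1 / X ^ 4 + 4 * β ^ 2) := by
    apply Real.le_sqrt_of_sq_le
    have : (1 / X ^ 2) ^ 2 = 1 / X ^ 4 := by field_simp
    rw [this]; nlinarith [sq_nonneg β]
  have harc := sup_arc hG t q hq hc β hz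
  rw [← hθe] at harc
  have hT : 0 ≤ X ^ 2 / √2 *
      Real.exp (-Real.pi * ((u0 ^ 2 + 2 * v0 ^ 2) / X ^ 2) * (y0 ^ 2 / (1 + y0 ^ 2))) := by
    positivity
  by_cases hqq : q ∈ QQ Q0
  · have hb := hθ t q hqq hc
    rw [← hβ] at hb
    have hy0 := hG.hy0
    have h1 : ‖gam t q‖ ≤ 1 := (norm_gam_le t q hq hc).trans (sup_aq_le q hq)
    have h2 : ‖Ib X u0 v0 β‖ ≤ X ^ 2 / √2 *
        Real.exp (-Real.pi * ((u0 ^ 2 + 2 * v0 ^ 2) / X ^ 2) * (y0 ^ 2 / (1 + y0 ^ 2))) := by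
      rw [norm_Ib _ _ _ _ hX]
      apply mul_le_mul _ _ (by positivity) (by positivity)
      · calc 1 / (√2 * √(1 / X ^ 4 + 4 * β ^ 2)) ≤ 1 / (√2 * (1 / X ^ 2)) := by gcongr
          _ = X ^ 2 / √2 := by field_simp
      · apply Real.exp_le_exp.2
        have hy : y0 ^ 2 ≤ 4 * β ^ 2 * X ^ 4 := by
          rw [div_lt_iff₀ (by positivity)] at hb
          calc y0 ^ 2 ≤ (|β| * (2 * X ^ 2)) ^ 2 := by gcongr
            _ = 4 * β ^ 2 * X ^ 4 := by rw [mul_pow, sq_abs]; ring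
        have h3 : y0 ^ 2 / (1 + y0 ^ 2) ≤ 4 * β ^ 2 * X ^ 4 / (1 + 4 * β ^ 2 * X ^ 4) := by
          rw [div_le_div_iff₀ (by positivity) (by positivity)]; nlinarith
        have e : -(4 * Real.pi * β ^ 2 * (u0 ^ 2 + 2 * v0 ^ 2)) / (X ^ 2 * (1 / X ^ 4 + 4 * β ^ 2))
            = -(Real.pi * ((u0 ^ 2 + 2 * v0 ^ 2) / X ^ 2)
              * (4 * β ^ 2 * X ^ 4 / (1 + 4 * β ^ 2 * X ^ 4))) := by
          field_simp
        rw [e, neg_mul, neg_mul, neg_le_neg_iff]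
        have := Real.pi_pos
        gcongr
    calc ‖Rh X u0 v0 θ‖ = ‖(Rh X u0 v0 θ - gam t q * Ib X u0 v0 β) + gam t q * Ib X u0 v0 β‖ := by
          rw [sub_add_cancel]
      _ ≤ ‖Rh X u0 v0 θ - gam t q * Ib X u0 v0 β‖ + ‖gam t q‖ * ‖Ib X u0 v0 β‖ := by
          rw [← norm_mul]; exact norm_add_le _ _
      _ ≤ E0 + 1 * (X ^ 2 / √2 *
        Real.exp (-Real.pi * ((u0 ^ 2 + 2 * v0 ^ 2) / X ^ 2) * (y0 ^ 2 / (1 + y0 ^ 2)))) := by
          gcongr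
      _ = _ := by rw [one_mul]
  · refine le_trans ?_ (le_add_of_nonneg_right hT)
    obtain ⟨M, hM1, hM3, hga, h1, -, -⟩ := sup_core X u0 v0 β hX t q hq hc
    rw [← hθe] at h1
    rcases hga with hga | hga
    · simpa [hga] using harc
    have hM0 : 0 < M := by linarith
    have hz0 : 0 ≤ q * X * √(1 / X ^ 4 + 4 * β ^ 2) := by positivity
    refine h1.trans (sup_convex hG _ ?_ ((div_le_self hz0 hM1).trans hz))
    have hQM : Q0 * M ≤ q := by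
      simp only [QQ, mem_filter, mem_Icc, not_and] at hqq
      by_cases h3 : q ≤ 3 * Q0
      · have h4 := hqq ⟨hq, h3⟩
        have h5 : q % 2 = 1 := by
          by_contra h5
          exact h4 (fun h => absurd h h5)
        have h6 : Q0 ≤ q := by
          by_contra h6
          exact h4 (fun _ => by omega)
        have h7 : M = 1 := by
          rw [aq, if_pos h5, div_left_inj' hq'.ne'] at hga
          exact hga.symm
        rw [h7, mul_one]; exact_mod_cast h6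
      · have h4 : (3 : ℝ) * Q0 ≤ q := by exact_mod_cast (by omega : 3 * Q0 ≤ q)
        nlinarith
    rw [div_le_div_iff₀ hX hM0]
    calc (Q0 : ℝ) * M ≤ q := hQM
      _ = q * X * (1 / X ^ 2) * X := by field_simp
      _ ≤ q * X * √(1 / X ^ 4 + 4 * β ^ 2) * X := by gcongr

end Pool.Agent.MP_a001a6_co

end

-- part MP_a001a6_co.Sieve
section

/-
HINTS.  Duality.  Let Z = left side, c p = ω p.1 * conj (Fh A (x_p + β)), x_p = p.2/p.1, F n = ∑ p, c p * ee (n x_p).  Then Z = ∑_{a∈A} ee(aβ) F a, so Z ≤ √|A| √(∑_{n ∈ Ico a0 (a0+N)} ‖F n‖^2).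
Write F = ∑_{q ∈ QQ} F_q, F_q n = ∑_{t<q coprime} c (q,t) ee (n t/q), C_q = ∑_t ‖c(q,t)‖^2.  Over any q consecutive integers ∑ ‖F_q‖^2 = q C_q (orthogonality), hence over any L consecutive integers ∑ ‖F_q‖^2 ≤ (L + q) C_q, and over L ≤ k q consecutive integers ≤ k q C_q.
For q ≠ q', over any q q' consecutive integers ∑ F_q conj F_q' = 0 (t/q - t'/q' is not an integer for reduced fractions in [0,1) with different denominators), so the cross sum over the interval reduces to a stretch of length < q q' and Cauchy-Schwarz bounds it by q q' √C_q √C_q'.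
Total: ∑ ‖F‖^2 ≤ N ∑ C_q + (∑ q √C_q)^2.  With C_q = ω_q Z_q (Z = ∑ Z_q): ≤ l N Z + (∑ q^2 ω_q) Z.  So Z ≤ √|A| √((lN+Δ) Z).
-/

namespace Pool.Agent.MP_a001a6_co

open Finset

theorem sieve_ee_add (x y : ℝ) : ee (x + y) = ee x * ee y := by
  simp only [ee]
  rw [← Complex.exp_add]
  congr 1
  push_cast
  ring

theorem sieve_norm_ee (x : ℝ) : ‖ee x‖ = 1 := by
  have : ee x = Complex.exp ((2 * Real.pi * x : ℝ) * Complex.I) := by
    simp only [ee]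
    congr 1
    push_cast
    ring
  rw [this, Complex.norm_exp_ofReal_mul_I]

theorem sieve_conj_ee (x : ℝ) : (starRingEnd ℂ) (ee x) = ee (-x) := by
  simp only [ee]
  rw [← Complex.exp_conj]
  congr 1
  simp only [map_mul, Complex.conj_I, Complex.conj_ofReal, map_ofNat]
  push_cast
  ring

theorem sieve_ee_nat_mul (n : ℕ) (x : ℝ) : ee (n * x) = ee x ^ n := by
  simp only [ee]
  rw [← Complex.exp_nat_mul]
  congr 1
  push_cast
  ring

theorem sieve_ee_int (k : ℤ) : ee k = 1 := by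
  simp only [ee]
  rw [← Complex.exp_int_mul_two_pi_mul_I k]
  congr 1
  push_cast
  ring

theorem sieve_orth (u s : ℤ) (M : ℕ) (hM : 0 < M) (h : ¬ (M : ℤ) ∣ u) :
    ∑ i ∈ range M, ee (((s + i : ℤ) : ℝ) * ((u : ℝ) / M)) = 0 := by
  have hM' : (M : ℝ) ≠ 0 := by positivity
  have e : ∀ i : ℕ, ee (((s + i : ℤ) : ℝ) * ((u : ℝ) / M)) =
      ee (s * ((u : ℝ) / M)) * ee ((u : ℝ) / M) ^ i := by
    intro i
    rw [← sieve_ee_nat_mul, ← sieve_ee_add]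
    congr 1
    push_cast
    ring
  simp only [e]
  rw [← mul_sum]
  have h1 : ee ((u : ℝ) / M) ≠ 1 := by
    intro h1
    obtain ⟨n, hn⟩ := Complex.exp_eq_one_iff.1 h1
    apply h
    have hpi : (2 * Real.pi * Complex.I : ℂ) ≠ 0 := Complex.two_pi_I_ne_zero
    have h2 : (((u : ℝ) / M : ℝ) : ℂ) = n := by
      apply mul_left_cancel₀ hpi
      rw [hn]; ring
    have h3 : (u : ℝ) / M = n := by exact_mod_cast h2
    rw [div_eq_iff hM'] at h3
    exact ⟨n, by rw [mul_comm]; exact_mod_cast h3⟩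
  have h2 : ee ((u : ℝ) / M) ^ M = 1 := by
    rw [← sieve_ee_nat_mul, mul_div_cancel₀ _ hM', sieve_ee_int]
  rw [geom_sum_eq h1, h2, sub_self, zero_div, mul_zero]

theorem sieve_blocks {V : Type*} [AddCommMonoid V] (g : ℤ → V) (M : ℕ) (S : V)
    (h : ∀ s : ℤ, ∑ i ∈ range M, g (s + i) = S) (s : ℤ) (k r : ℕ) :
    ∑ i ∈ range (k * M + r), g (s + i) = k • S + ∑ i ∈ range r, g (s + (k * M : ℕ) + i) := by
  rw [sum_range_add]
  congr 1
  · induction k with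
    | zero => simp
    | succ k ih =>
      rw [Nat.succ_mul, sum_range_add, ih, succ_nsmul, ← h (s + (k * M : ℕ))]
      congr 1
      exact sum_congr rfl fun i _ => by push_cast; rw [add_assoc]
  · exact sum_congr rfl fun i _ => by push_cast; rw [add_assoc]

/-- reduced residues -/
def sieveT (q : ℕ) : Finset ℕ := (range q).filter (fun t => Nat.Coprime t q)

noncomputable def sieveF (c : ℕ → ℕ → ℂ) (q : ℕ) (n : ℤ) : ℂ :=
  ∑ t ∈ sieveT q, c q t * ee ((n : ℝ) * ((t : ℝ) / q))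

noncomputable def sieveC (c : ℕ → ℕ → ℂ) (q : ℕ) : ℝ := ∑ t ∈ sieveT q, ‖c q t‖ ^ 2

theorem sieve_inner (c : ℕ → ℕ → ℂ) (q q' : ℕ) (s : ℤ) (L : ℕ) :
    ∑ i ∈ range L, sieveF c q (s + i) * (starRingEnd ℂ) (sieveF c q' (s + i)) =
      ∑ t ∈ sieveT q, ∑ t' ∈ sieveT q', c q t * (starRingEnd ℂ) (c q' t') *
        ∑ i ∈ range L, ee (((s + i : ℤ) : ℝ) * ((t : ℝ) / q - (t' : ℝ) / q')) := by
  simp only [sieveF, map_sum, sum_mul_sum]
  simp only [mul_sum]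
  rw [sum_comm]
  refine sum_congr rfl fun t _ => ?_
  rw [sum_comm]
  refine sum_congr rfl fun t' _ => sum_congr rfl fun i _ => ?_
  rw [map_mul, sieve_conj_ee, mul_sub, sub_eq_add_neg, sieve_ee_add]
  ring

theorem sieve_cross (c : ℕ → ℕ → ℂ) {q q' : ℕ} (hq : 0 < q) (hq' : 0 < q') (hne : q ≠ q') (s : ℤ) :
    ∑ i ∈ range (q * q'), sieveF c q (s + i) * (starRingEnd ℂ) (sieveF c q' (s + i)) = 0 := by
  rw [sieve_inner]
  refine sum_eq_zero fun t ht => sum_eq_zero fun t' ht' => ?_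
  have e : (t : ℝ) / q - (t' : ℝ) / q' = (((t : ℤ) * q' - t' * q : ℤ) : ℝ) / ((q * q' : ℕ) : ℝ) := by
    push_cast
    field_simp
  rw [e, sieve_orth _ _ _ (Nat.mul_pos hq hq'), mul_zero]
  intro h
  have c1 : Nat.Coprime t q := (mem_filter.1 ht).2
  have c2 : Nat.Coprime t' q' := (mem_filter.1 ht').2
  push_cast at h
  have h1 : (q : ℤ) ∣ t * q' := by
    have := dvd_add ((dvd_mul_right _ _).trans h) (dvd_mul_left (q : ℤ) t')
    simpa using this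
  have h2 : (q' : ℤ) ∣ t' * q := by
    have := dvd_sub (dvd_mul_left (q' : ℤ) t) ((dvd_mul_left _ _).trans h)
    simpa using this
  exact hne (Nat.dvd_antisymm (c1.symm.dvd_of_dvd_mul_left (by exact_mod_cast h1))
    (c2.symm.dvd_of_dvd_mul_left (by exact_mod_cast h2)))

theorem sieve_diag (c : ℕ → ℕ → ℂ) {q : ℕ} (hq : 0 < q) (s : ℤ) :
    ∑ i ∈ range q, ‖sieveF c q (s + i)‖ ^ 2 = q * sieveC c q := by
  have h := sieve_inner c q q s q
  simp only [Complex.mul_conj'] at h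
  have h2 : ∑ t ∈ sieveT q, ∑ t' ∈ sieveT q, c q t * (starRingEnd ℂ) (c q t') *
      ∑ i ∈ range q, ee (((s + i : ℤ) : ℝ) * ((t : ℝ) / q - (t' : ℝ) / q)) =
      ∑ t ∈ sieveT q, (q : ℂ) * (‖c q t‖ : ℂ) ^ 2 := by
    refine sum_congr rfl fun t ht => ?_
    rw [sum_eq_single t]
    · have : ee 0 = 1 := by simpa using sieve_ee_int 0
      simp [this, Complex.mul_conj', mul_comm]
    · intro t' ht' hne
      have e : (t : ℝ) / q - (t' : ℝ) / q = (((t : ℤ) - t' : ℤ) : ℝ) / (q : ℝ) := by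
        push_cast
        ring
      rw [e, sieve_orth _ _ _ hq, mul_zero]
      intro hd
      have h1 := mem_range.1 (mem_filter.1 ht).1
      have h2 := mem_range.1 (mem_filter.1 ht').1
      have := Int.eq_zero_of_abs_lt_dvd hd (by rw [abs_lt]; omega)
      omega
    · intro h'; exact absurd ht h'
  rw [h2] at h
  rw [sieveC, mul_sum]
  exact_mod_cast h

theorem sieveC_nonneg (c : ℕ → ℕ → ℂ) (q : ℕ) : 0 ≤ sieveC c q :=
  sum_nonneg fun _ _ => by positivity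

theorem sieve_diag_le (c : ℕ → ℕ → ℂ) {q : ℕ} (hq : 0 < q) (s : ℤ) {L k : ℕ} (h : L ≤ k * q) :
    ∑ i ∈ range L, ‖sieveF c q (s + i)‖ ^ 2 ≤ k * q * sieveC c q := by
  have := sieve_blocks (fun n => ‖sieveF c q n‖ ^ 2) q _ (sieve_diag c hq) s k 0
  simp only [add_zero, range_zero, sum_empty, nsmul_eq_mul] at this
  rw [mul_assoc, ← this]
  exact sum_le_sum_of_subset_of_nonneg (range_mono h) fun _ _ _ => by positivity

theorem sieve_pair (c : ℕ → ℕ → ℂ) {q q' : ℕ} (hq : 0 < q) (hq' : 0 < q') (s : ℤ) (N : ℕ) :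
    ‖∑ i ∈ range N, sieveF c q (s + i) * (starRingEnd ℂ) (sieveF c q' (s + i))‖ ≤
      (if q = q' then N * sieveC c q else 0) +
        (q * √(sieveC c q)) * (q' * √(sieveC c q')) := by
  have hC := sieveC_nonneg c q
  split_ifs with h
  · subst h
    simp only [Complex.mul_conj']
    have h1 := sieve_diag_le c hq s (L := N) (k := N / q + 1) (by
      have := Nat.lt_div_mul_add (a := N) hq
      rw [add_mul, one_mul]; omega)
    have h2 : ((N / q + 1 : ℕ) : ℝ) * q ≤ N + q * q := by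
      have h3 : (N / q + 1) * q ≤ N + q * q := by
        have := Nat.div_mul_le_self N q
        have : q ≤ q * q := Nat.le_mul_self q
        rw [add_mul, one_mul]; omega
      exact_mod_cast h3
    have e : q * √(sieveC c q) * (q * √(sieveC c q)) = q * q * sieveC c q := by
      rw [mul_mul_mul_comm, Real.mul_self_sqrt hC]
    rw [e]
    refine (norm_sum_le _ _).trans ?_
    simp only [norm_pow, Complex.norm_real, norm_norm]
    nlinarith [mul_le_mul_of_nonneg_right h2 hC]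
  · have hM : 0 < q * q' := Nat.mul_pos hq hq'
    have h1 := sieve_blocks (fun n => sieveF c q n * (starRingEnd ℂ) (sieveF c q' n)) (q * q') 0
      (sieve_cross c hq hq' h) s (N / (q * q')) (N % (q * q'))
    rw [Nat.div_add_mod', smul_zero, zero_add] at h1
    rw [h1, zero_add]
    set s' := s + (N / (q * q') * (q * q') : ℕ)
    have hr := (Nat.mod_lt N hM).le
    refine (norm_sum_le _ _).trans ?_
    simp only [norm_mul, Complex.norm_conj]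
    refine (Real.sum_mul_le_sqrt_mul_sqrt _ _ _).trans ?_
    have a1 := sieve_diag_le c hq s' (k := q') (hr.trans (by rw [mul_comm]))
    have a2 := sieve_diag_le c hq' s' (k := q) hr
    calc _ ≤ √(q' * q * sieveC c q) * √(q * q' * sieveC c q') := by gcongr
      _ = _ := by
        rw [mul_comm (q' : ℝ) q, Real.sqrt_mul (by positivity), Real.sqrt_mul (by positivity) (sieveC c q'),
          mul_mul_mul_comm, Real.mul_self_sqrt (by positivity)]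
        ring

theorem sieve_dual (c : ℕ → ℕ → ℂ) (Q : Finset ℕ) (hQ : ∀ q ∈ Q, 0 < q) (s : ℤ) (N : ℕ) :
    ∑ i ∈ range N, ‖∑ q ∈ Q, sieveF c q (s + i)‖ ^ 2 ≤
      N * ∑ q ∈ Q, sieveC c q + (∑ q ∈ Q, q * √(sieveC c q)) ^ 2 := by
  have e : ((∑ i ∈ range N, ‖∑ q ∈ Q, sieveF c q (s + i)‖ ^ 2 : ℝ) : ℂ) =
      ∑ q ∈ Q, ∑ q' ∈ Q, ∑ i ∈ range N,
        sieveF c q (s + i) * (starRingEnd ℂ) (sieveF c q' (s + i)) := by
    push_cast
    simp only [← Complex.mul_conj', map_sum, sum_mul_sum]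
    rw [sum_comm]
    exact sum_congr rfl fun q _ => sum_comm
  refine (le_abs_self _).trans ?_
  rw [← Real.norm_eq_abs, ← Complex.norm_real, e]
  refine (norm_sum_le _ _).trans ?_
  refine (sum_le_sum fun q hq => (norm_sum_le _ _).trans
    (sum_le_sum fun q' hq' => sieve_pair c (hQ q hq) (hQ q' hq') s N)).trans (le_of_eq ?_)
  simp only [sum_add_distrib, sum_ite_eq]
  rw [pow_two, sum_mul_sum, mul_sum]
  congr 1
  exact sum_congr rfl fun q hq => if_pos hq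

theorem sieve_sum_FF {V : Type*} [AddCommMonoid V] (Q0 : ℕ) (g : ℕ → ℕ → V) :
    ∑ p ∈ FF Q0, g p.1 p.2 = ∑ q ∈ QQ Q0, ∑ t ∈ sieveT q, g q t := by
  rw [FF, sum_filter, sum_product]
  refine sum_congr rfl fun q hq => ?_
  rw [← sum_filter]
  refine sum_congr ?_ fun _ _ => rfl
  have := (mem_Icc.1 (mem_filter.1 hq).1).2
  ext t
  simp only [sieveT, mem_filter, mem_range]
  constructor
  · exact fun h => h.2
  · exact fun h => ⟨by omega, h⟩

theorem large_sieve (Q0 : ℕ) (ω : ℕ → ℝ) (l : ℝ) (h0 : ∀ q, 0 ≤ ω q) (hl0 : 0 ≤ l)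
    (hl : ∀ q ∈ QQ Q0, ω q ≤ l)
    (A : Finset ℤ) (a0 : ℤ) (N : ℕ) (hA : ∀ a ∈ A, a0 ≤ a ∧ a < a0 + N) (β : ℝ) :
    ∑ p ∈ FF Q0, ω p.1 * ‖Fh A ((p.2 : ℝ) / p.1 + β)‖ ^ 2
      ≤ (l * N + ∑ q ∈ QQ Q0, (q : ℝ) ^ 2 * ω q) * A.card := by
  classical
  rw [sieve_sum_FF Q0 (fun q t => ω q * ‖Fh A ((t : ℝ) / q + β)‖ ^ 2)]
  set Zq : ℕ → ℝ := fun q => ∑ t ∈ sieveT q, ω q * ‖Fh A ((t : ℝ) / q + β)‖ ^ 2 with hZq
  have hZq0 : ∀ q, 0 ≤ Zq q := fun q => sum_nonneg fun _ _ => mul_nonneg (h0 q) (by positivity)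
  set Z := ∑ q ∈ QQ Q0, Zq q with hZ
  have hZ0 : 0 ≤ Z := sum_nonneg fun q _ => hZq0 q
  set Δ := ∑ q ∈ QQ Q0, (q : ℝ) ^ 2 * ω q with hΔ
  have hΔ0 : 0 ≤ Δ := sum_nonneg fun q _ => mul_nonneg (by positivity) (h0 q)
  let c : ℕ → ℕ → ℂ := fun q t => (ω q : ℂ) * (starRingEnd ℂ) (Fh A ((t : ℝ) / q + β))
  have hC : ∀ q, sieveC c q = ω q * Zq q := by
    intro q
    simp only [sieveC, c, hZq, mul_sum, norm_mul, Complex.norm_conj, Complex.norm_real,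
      Real.norm_of_nonneg (h0 q)]
    exact sum_congr rfl fun _ _ => by ring
  have hQ : ∀ q ∈ QQ Q0, 0 < q := fun q hq => (mem_Icc.1 (mem_filter.1 hq).1).1
  have h1 := sieve_dual c (QQ Q0) hQ a0 N
  have h2 : ∑ q ∈ QQ Q0, sieveC c q ≤ l * Z := by
    rw [hZ, mul_sum]
    exact sum_le_sum fun q hq => by
      rw [hC]; exact mul_le_mul_of_nonneg_right (hl q hq) (hZq0 q)
  have h3 : (∑ q ∈ QQ Q0, q * √(sieveC c q)) ^ 2 ≤ Δ * Z := by
    have := sum_mul_sq_le_sq_mul_sq (QQ Q0) (fun q => q * √(ω q)) (fun q => √(Zq q))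
    simp only [mul_pow, Real.sq_sqrt (h0 _), Real.sq_sqrt (hZq0 _)] at this
    refine le_trans (le_of_eq ?_) this
    congr 1
    exact sum_congr rfl fun q _ => by rw [hC, Real.sqrt_mul (h0 q), mul_assoc]
  have h4 : ∑ a ∈ A, ‖∑ q ∈ QQ Q0, sieveF c q a‖ ^ 2 ≤ (l * N + Δ) * Z := by
    have hsub : A ⊆ (range N).image fun i : ℕ => a0 + i := by
      intro a ha
      obtain ⟨h5, h6⟩ := hA a ha
      exact mem_image.2 ⟨(a - a0).toNat, mem_range.2 (by omega), by omega⟩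
    refine (sum_le_sum_of_subset_of_nonneg hsub fun _ _ _ => by positivity).trans ?_
    rw [sum_image (fun i _ j _ h => by simpa using h)]
    have := mul_le_mul_of_nonneg_left h2 (Nat.cast_nonneg (α := ℝ) N)
    nlinarith
  have h5 : (Z : ℂ) = ∑ a ∈ A, ee (a * β) * ∑ q ∈ QQ Q0, sieveF c q a := by
    simp only [hZ, hZq, mul_sum, sieveF]
    push_cast
    rw [sum_comm]
    refine sum_congr rfl fun q _ => ?_
    rw [sum_comm]
    refine sum_congr rfl fun t _ => ?_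
    rw [← Complex.mul_conj', mul_comm (Fh _ _), ← mul_assoc]
    change c q t * _ = _
    rw [Fh, mul_sum]
    refine sum_congr rfl fun a _ => ?_
    rw [mul_add, sieve_ee_add]
    ring
  have h6 : Z ≤ ∑ a ∈ A, 1 * ‖∑ q ∈ QQ Q0, sieveF c q a‖ := by
    refine (le_abs_self _).trans ?_
    rw [← Real.norm_eq_abs, ← Complex.norm_real, h5]
    refine (norm_sum_le _ _).trans (le_of_eq (sum_congr rfl fun a _ => ?_))
    rw [norm_mul, sieve_norm_ee]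
  have h7 := sum_mul_sq_le_sq_mul_sq A (fun _ => (1 : ℝ)) fun a => ‖∑ q ∈ QQ Q0, sieveF c q a‖
  simp only [one_pow, sum_const, nsmul_eq_mul, mul_one] at h7
  have h8 : Z ^ 2 ≤ A.card * ((l * N + Δ) * Z) :=
    (pow_le_pow_left₀ hZ0 h6 2).trans (h7.trans (by gcongr))
  rcases hZ0.eq_or_lt with h | h
  · rw [← h]; positivity
  · nlinarith

end Pool.Agent.MP_a001a6_co

end
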