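import Pool.Agent.MP_a001a6_co.Mg.Gauss
import Pool.Agent.MP_a001a6_co.Mg.Sieve

-- part MP_a001a6_co.LP
section

/-
HINTS.  Let Ns d h = number of (u,v) ∈ range d × range d with (d:ℤ) ∣ u^2 - 2v^2 - h.
(1) For d ≥ 1:  ∑_{s<d} gam s d * ee(-(h s/d)) = Ns d h / d  (orthogonality), and gam s d = gam (s/g) (d/g) for g = gcd s d (the summand is periodic mod d/g), so ∑_{q ∣ d} ∑_{t<q coprime} gam t q ee(-(h t/q)) = Ns d h / d.
(2) All divisors q of the listed d lie in QQ Q0 (q ≤ 168, odd ones ≤ 77), so the sum in lp_sup equals ∑_{(d,κ) ∈ kap} κ/10^4 * Ns d h / d.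
(3) Ns (d1 d2) h = Ns d1 h * Ns d2 h for coprime d1 d2 (ZMod.chineseRemainder).  Local values x_d = Ns d h / d: (x8,x16,x32) depends on h mod 32, (x3,x9) on h mod 9, x5 ∈ {1/5,6/5}, x7 ∈ {13/7,6/7}, x11 ∈ {1/11,12/11}, x13 ∈ {1/13,14/13}; tables:
 Ns 8 = [8,16,8,0,8,0,8,16], Ns 16 = [16,32,32,0,16,0,0,32,16,32,0,0,16,0,32,32], Ns 32 = [32,64,64,0,64,0,0,64,32,64,0,0,0,0,64,64,32,64,64,0,0,0,0,64,32,64,0,0,64,0,64,64], Ns 3 = [1,4,4], Ns 9 = [9,12,12,0,12,12,0,12,12].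
 The resulting multilinear expression takes values in [-2.33350, 2.33347] on the 7*3*16 patterns: check with decide +kernel over lists (integers after clearing denominators, or ℚ).
lp_coef: q > 168 gives sq q = 0 and aq q ≤ 2√2/q; q ≤ 168 finite check (√2 ≤ 1.41422); note aq 17 = 1/17 ≤ 0.0589.
lp_delta: |1 - sq q| ≤ 2 whenever aq q ≠ 0 and = 1 for q > 168; ∑_{q ≤ 168, sq q ≠ 0} q^2 aq q ≤ 2660; ∑ odd q ≤ (Q0+1)^2/4; ∑_{8 ∣ q ≤ 3Q0} 2√2 q ≤ 1.592 Q0^2 + 4.25 Q0.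
-/

namespace Pool.Agent.MP_a001a6_co

open Finset

theorem lp_ee_add (x y : ℝ) : ee (x + y) = ee x * ee y := by
  unfold ee
  rw [← Complex.exp_add]
  congr 1
  push_cast
  ring

theorem lp_ee_int (n : ℤ) : ee n = 1 := by
  unfold ee
  have h := Complex.exp_int_mul_two_pi_mul_I n
  rw [← h]
  congr 1
  push_cast
  ring

theorem lp_ee_nat_mul (s : ℕ) (x : ℝ) : ee (s * x) = ee x ^ s := by
  unfold ee
  rw [← Complex.exp_nat_mul]
  congr 1
  push_cast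
  ring

theorem lp_ee_eq_one {n : ℤ} {d : ℕ} (hd : 0 < d) (h : ee ((n : ℝ) / d) = 1) : (d : ℤ) ∣ n := by
  unfold ee at h
  obtain ⟨k, hk⟩ := Complex.exp_eq_one_iff.1 h
  have hd' : (d : ℂ) ≠ 0 := by exact_mod_cast hd.ne'
  have hpi : (2 * (Real.pi : ℂ) * Complex.I) ≠ 0 := Complex.two_pi_I_ne_zero
  push_cast at hk
  have h1 : (n : ℂ) / d = k := by
    apply mul_left_cancel₀ hpi
    rw [hk]
    ring
  have h2 : (n : ℂ) = d * k := by
    rw [← h1]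
    field_simp
  exact ⟨k, by exact_mod_cast h2⟩

theorem lp_orth (n : ℤ) (d : ℕ) (hd : 0 < d) :
    ∑ s ∈ range d, ee ((s : ℝ) * ((n : ℝ) / d)) = if (d : ℤ) ∣ n then (d : ℂ) else 0 := by
  have hd' : (d : ℝ) ≠ 0 := by exact_mod_cast hd.ne'
  simp only [lp_ee_nat_mul]
  split_ifs with h
  · obtain ⟨k, rfl⟩ := h
    have h1 : (((d : ℤ) * k : ℤ) : ℝ) / d = (k : ℝ) := by
      push_cast
      field_simp
    rw [h1, lp_ee_int]
    simp
  · have h1 : ee ((n : ℝ) / d) ≠ 1 := fun h' => h (lp_ee_eq_one hd h')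
    rw [geom_sum_eq h1, ← lp_ee_nat_mul]
    have h2 : (d : ℝ) * ((n : ℝ) / d) = n := by field_simp
    rw [h2, lp_ee_int]
    simp

/-- number of solutions of `u ^ 2 - 2 v ^ 2 = h` modulo `d` -/
def lpNs (d : ℕ) (h : ℤ) : ℕ :=
  ((range d ×ˢ range d).filter
    (fun p : ℕ × ℕ => (d : ℤ) ∣ (p.1 : ℤ) ^ 2 - 2 * (p.2 : ℤ) ^ 2 - h)).card

/-- the summand attached to the fraction `t / q` -/
noncomputable def lpF (h : ℤ) (t q : ℕ) : ℂ := gam t q * ee (-((h : ℝ) * ((t : ℝ) / q)))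

theorem lp_sum_F (h : ℤ) (d : ℕ) (hd : 0 < d) :
    ∑ s ∈ range d, lpF h s d = (lpNs d h : ℂ) / d := by
  have hd' : (d : ℂ) ≠ 0 := by exact_mod_cast hd.ne'
  have h1 : ∀ s : ℕ, lpF h s d = (∑ p ∈ range d ×ˢ range d,
      ee ((s : ℝ) * ((((p.1 : ℤ) ^ 2 - 2 * (p.2 : ℤ) ^ 2 - h : ℤ) : ℝ) / d))) / (d : ℂ) ^ 2 := by
    intro s
    unfold lpF gam gs
    rw [div_mul_eq_mul_div, sum_mul_sum, sum_product, sum_mul]
    congr 1
    refine sum_congr rfl fun u _ => ?_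
    rw [sum_mul]
    refine sum_congr rfl fun v _ => ?_
    rw [← lp_ee_add, ← lp_ee_add]
    congr 1
    push_cast
    ring
  simp only [h1]
  rw [← sum_div, sum_comm]
  simp only [lp_orth _ d hd]
  rw [← sum_filter, sum_const, nsmul_eq_mul, lpNs]
  field_simp

theorem lp_sum_period (f : ℕ → ℂ) (q : ℕ) (hf : ∀ r, f (q + r) = f r) (g : ℕ) :
    ∑ r ∈ range (g * q), f r = g * ∑ r ∈ range q, f r := by
  induction g with
  | zero => simp
  | succ g ih =>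
    rw [add_mul, one_mul, add_comm (g * q), sum_range_add]
    simp only [hf]
    rw [ih]
    push_cast
    ring

theorem lp_gs_mul (c : ℤ) (g q : ℕ) (hg : 0 < g) (hq : 0 < q) :
    gs (g * c) 0 (g * q) = g * gs c 0 q := by
  have hg' : (g : ℝ) ≠ 0 := by exact_mod_cast hg.ne'
  have hq' : (q : ℝ) ≠ 0 := by exact_mod_cast hq.ne'
  unfold gs
  rw [← lp_sum_period _ q]
  · refine sum_congr rfl fun r _ => ?_
    congr 1
    push_cast
    field_simp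
    ring
  · intro r
    have h1 : ((c * ((q + r : ℕ) : ℤ) ^ 2 + 0 * ((q + r : ℕ) : ℤ) : ℤ) : ℝ) / q =
        ((c * (r : ℤ) ^ 2 + 0 * (r : ℤ) : ℤ) : ℝ) / q + ((c * (q + 2 * r) : ℤ) : ℝ) := by
      push_cast
      field_simp
      ring
    rw [h1, lp_ee_add, lp_ee_int, mul_one]

theorem lp_F_mul (h : ℤ) (t g q : ℕ) (hg : 0 < g) (hq : 0 < q) :
    lpF h (g * t) (g * q) = lpF h t q := by
  have hg' : (g : ℝ) ≠ 0 := by exact_mod_cast hg.ne'
  have hg'' : (g : ℂ) ≠ 0 := by exact_mod_cast hg.ne'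
  have hq'' : (q : ℂ) ≠ 0 := by exact_mod_cast hq.ne'
  unfold lpF gam
  have h1 : (-2 * ((g * t : ℕ) : ℤ)) = g * (-2 * (t : ℤ)) := by push_cast; ring
  have h2 : ((g * t : ℕ) : ℤ) = g * (t : ℤ) := by push_cast; ring
  have h3 : ((g * t : ℕ) : ℝ) / ((g * q : ℕ) : ℝ) = (t : ℝ) / q := by
    push_cast
    field_simp
  rw [h1, h2, lp_gs_mul _ g q hg hq, lp_gs_mul _ g q hg hq, h3]
  congr 1
  push_cast
  field_simp

theorem lp_sum_FF (Q0 : ℕ) (h : ℤ) (d : ℕ) (hd : 0 < d) (hQ : ∀ q, q ∣ d → q ∈ QQ Q0) :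
    ∑ p ∈ (FF Q0).filter (fun p => p.1 ∣ d), lpF h p.2 p.1 = (lpNs d h : ℂ) / d := by
  rw [← lp_sum_F h d hd]
  symm
  refine sum_bij' (fun s _ => (d / Nat.gcd s d, s / Nat.gcd s d)) (fun p _ => d / p.1 * p.2)
    ?_ ?_ ?_ ?_ ?_
  · intro s hs
    have hg : 0 < Nat.gcd s d := Nat.gcd_pos_of_pos_right _ hd
    have hdv : d / Nat.gcd s d ∣ d := Nat.div_dvd_of_dvd (Nat.gcd_dvd_right _ _)
    have hlt : s / Nat.gcd s d < d / Nat.gcd s d :=
      Nat.div_lt_div_of_lt_of_dvd (Nat.gcd_dvd_right _ _) (mem_range.1 hs)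
    have hq := hQ _ hdv
    have hq' : d / Nat.gcd s d ≤ 3 * Q0 := (mem_Icc.1 (mem_filter.1 hq).1).2
    refine mem_filter.2 ⟨mem_filter.2 ⟨mem_product.2 ⟨hq, mem_range.2 ?_⟩, hlt,
      Nat.coprime_div_gcd_div_gcd hg⟩, hdv⟩
    exact lt_of_lt_of_le hlt hq'
  · rintro ⟨q, t⟩ hp
    obtain ⟨hp', g, rfl⟩ := mem_filter.1 hp
    have hlt : t < q := (mem_filter.1 hp').2.1
    have hq : 0 < q := by omega
    have hg : 0 < g := Nat.pos_of_mul_pos_left hd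
    simp only [Nat.mul_div_cancel_left _ hq, mem_range]
    rw [mul_comm q g]
    exact Nat.mul_lt_mul_of_pos_left hlt hg
  · intro s _
    have h1 : d / (d / Nat.gcd s d) = Nat.gcd s d := Nat.div_div_self (Nat.gcd_dvd_right _ _) hd.ne'
    simp only [h1]
    exact Nat.mul_div_cancel' (Nat.gcd_dvd_left _ _)
  · rintro ⟨q, t⟩ hp
    obtain ⟨hp', g, rfl⟩ := mem_filter.1 hp
    have hlt : t < q := (mem_filter.1 hp').2.1
    have hc : Nat.Coprime t q := (mem_filter.1 hp').2.2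
    have hq : 0 < q := by omega
    have hg : 0 < g := Nat.pos_of_mul_pos_left hd
    have h1 : Nat.gcd (g * t) (q * g) = g := by
      rw [mul_comm q g, Nat.gcd_mul_left, hc.gcd_eq_one, mul_one]
    simp only [Nat.mul_div_cancel_left _ hq, h1, Nat.mul_div_cancel _ hg,
      Nat.mul_div_cancel_left _ hg]
  · intro s _
    have hg : 0 < Nat.gcd s d := Nat.gcd_pos_of_pos_right _ hd
    have hq : 0 < d / Nat.gcd s d := Nat.div_pos (Nat.le_of_dvd hd (Nat.gcd_dvd_right _ _)) hg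
    have h1 := lp_F_mul h (s / Nat.gcd s d) _ _ hg hq
    rw [Nat.mul_div_cancel' (Nat.gcd_dvd_left _ _), Nat.mul_div_cancel' (Nat.gcd_dvd_right _ _)] at h1
    exact h1

theorem lp_sum_list (Q0 : ℕ) (h : ℤ) (L : List (ℕ × ℤ))
    (hL : ∀ e ∈ L, 0 < e.1 ∧ ∀ q, q ∣ e.1 → q ∈ QQ Q0) :
    ∑ p ∈ FF Q0, lpF h p.2 p.1 * (((L.map (fun e => if p.1 ∣ e.1 then e.2 else 0)).sum : ℤ) : ℂ) =
      (((L.map (fun e => (e.2 : ℝ) * ((lpNs e.1 h : ℝ) / e.1))).sum : ℝ) : ℂ) := by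
  induction L with
  | nil => simp
  | cons e L ih =>
    have h1 := ih fun e he => hL e (List.mem_cons_of_mem _ he)
    obtain ⟨h2, h3⟩ := hL e List.mem_cons_self
    have h4 := lp_sum_FF Q0 h e.1 h2 h3
    simp only [List.map_cons, List.sum_cons, Int.cast_add, mul_add, sum_add_distrib,
      Complex.ofReal_add]
    rw [h1]
    congr 1
    push_cast
    rw [← h4, sum_filter, mul_sum]
    refine sum_congr rfl fun p _ => ?_
    split_ifs
    · ring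
    · simp

theorem lp_Ns_zmod (d : ℕ) [NeZero d] (h : ℤ) :
    lpNs d h = (univ.filter
      (fun p : ZMod d × ZMod d => p.1 ^ 2 - 2 * p.2 ^ 2 - (h : ZMod d) = 0)).card := by
  unfold lpNs
  refine card_bij' (fun p _ => ((p.1 : ZMod d), (p.2 : ZMod d))) (fun p _ => (p.1.val, p.2.val))
    ?_ ?_ ?_ ?_
  · intro p hp
    refine mem_filter.2 ⟨mem_univ _, ?_⟩
    have h1 := (ZMod.intCast_zmod_eq_zero_iff_dvd _ d).2 (mem_filter.1 hp).2
    push_cast at h1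
    exact h1
  · intro p hp
    refine mem_filter.2 ⟨mem_product.2 ⟨mem_range.2 (ZMod.val_lt _), mem_range.2 (ZMod.val_lt _)⟩, ?_⟩
    rw [← ZMod.intCast_zmod_eq_zero_iff_dvd]
    have h1 := (mem_filter.1 hp).2
    push_cast
    simpa using h1
  · intro p hp
    have h1 := mem_product.1 (mem_filter.1 hp).1
    simp only [ZMod.val_cast_of_lt (mem_range.1 h1.1), ZMod.val_cast_of_lt (mem_range.1 h1.2)]
  · intro p _
    simp

theorem lp_Ns_mul (a b : ℕ) [NeZero a] [NeZero b] (hab : Nat.Coprime a b) (h : ℤ) :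
    lpNs (a * b) h = lpNs a h * lpNs b h := by
  rw [lp_Ns_zmod, lp_Ns_zmod, lp_Ns_zmod, ← card_product]
  let φ := ZMod.chineseRemainder hab
  have key : ∀ x y : ZMod (a * b), x ^ 2 - 2 * y ^ 2 - (h : ZMod (a * b)) = 0 ↔
      ((φ x).1 ^ 2 - 2 * (φ y).1 ^ 2 - (h : ZMod a) = 0 ∧
        (φ x).2 ^ 2 - 2 * (φ y).2 ^ 2 - (h : ZMod b) = 0) := by
    intro x y
    rw [← map_eq_zero_iff φ φ.injective]
    simp only [map_sub, map_mul, map_pow, map_intCast, map_ofNat, Prod.ext_iff]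
    simp
  refine card_bij' (fun p _ => (((φ p.1).1, (φ p.2).1), ((φ p.1).2, (φ p.2).2)))
    (fun p _ => (φ.symm (p.1.1, p.2.1), φ.symm (p.1.2, p.2.2))) ?_ ?_ ?_ ?_
  · intro p hp
    have h1 := (key _ _).1 (mem_filter.1 hp).2
    exact mem_product.2 ⟨mem_filter.2 ⟨mem_univ _, h1.1⟩, mem_filter.2 ⟨mem_univ _, h1.2⟩⟩
  · intro p hp
    have h1 := mem_product.1 hp
    refine mem_filter.2 ⟨mem_univ _, (key _ _).2 ?_⟩
    simp only [RingEquiv.apply_symm_apply]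
    exact ⟨(mem_filter.1 h1.1).2, (mem_filter.1 h1.2).2⟩
  · intro p _
    simp
  · intro p _
    simp

theorem lp_Ns_mod (d m : ℕ) (hd : d ∣ m) (h : ℤ) : lpNs d h = lpNs d (h % m) := by
  unfold lpNs
  congr 1
  refine filter_congr fun p _ => ?_
  have h1 : (d : ℤ) ∣ h - h % m := by
    have h2 : h - h % m = m * (h / m) := by have := Int.emod_add_mul_ediv h m; omega
    rw [h2]
    exact Dvd.dvd.mul_right (Int.natCast_dvd_natCast.2 hd) _
  have h3 : (p.1 : ℤ) ^ 2 - 2 * (p.2 : ℤ) ^ 2 - h % m =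
      (p.1 : ℤ) ^ 2 - 2 * (p.2 : ℤ) ^ 2 - h + (h - h % m) := by ring
  rw [h3]
  exact (dvd_add_left h1).symm

theorem lp_red (m : ℕ) (hm : 0 < m) (h : ℤ) : ∃ r ∈ List.range m, h % m = (r : ℕ) := by
  have h1 : 0 ≤ h % m := Int.emod_nonneg _ (by omega)
  have h2 : h % m < m := Int.emod_lt_of_pos _ (by omega)
  exact ⟨(h % m).toNat, List.mem_range.2 (by omega), by omega⟩

def lpA : List (ℕ × ℕ × ℕ) :=
  [(0, 0, 0), (8, 0, 0), (8, 16, 0), (8, 16, 32), (8, 16, 64), (8, 32, 64), (16, 32, 64)]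

def lpB : List (ℕ × ℕ) := [(1, 0), (1, 9), (4, 12)]

theorem lp_tabA (h : ℤ) : (lpNs 8 h, lpNs 16 h, lpNs 32 h) ∈ lpA := by
  have key : ∀ r ∈ List.range 32, (lpNs 8 (r : ℕ), lpNs 16 (r : ℕ), lpNs 32 (r : ℕ)) ∈ lpA := by
    decide +kernel
  obtain ⟨r, hr, hh⟩ := lp_red 32 (by norm_num) h
  rw [lp_Ns_mod 8 32 (by norm_num), lp_Ns_mod 16 32 (by norm_num), lp_Ns_mod 32 32 dvd_rfl, hh]
  exact key r hr

theorem lp_tabB (h : ℤ) : (lpNs 3 h, lpNs 9 h) ∈ lpB := by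
  have key : ∀ r ∈ List.range 9, (lpNs 3 (r : ℕ), lpNs 9 (r : ℕ)) ∈ lpB := by
    decide +kernel
  obtain ⟨r, hr, hh⟩ := lp_red 9 (by norm_num) h
  rw [lp_Ns_mod 3 9 (by norm_num), lp_Ns_mod 9 9 dvd_rfl, hh]
  exact key r hr

theorem lp_tab (d : ℕ) (hd : 0 < d) (L : List ℕ) (key : ∀ r ∈ List.range d, lpNs d (r : ℕ) ∈ L)
    (h : ℤ) : lpNs d h ∈ L := by
  obtain ⟨r, hr, hh⟩ := lp_red d hd h
  rw [lp_Ns_mod d d dvd_rfl, hh]
  exact key r hr

/-- the value of the splitting times `10 ^ 4 * 1441440` -/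
def lpVal (n8 n16 n32 n3 n9 n5 n7 n11 n13 : ℤ) : ℤ :=
  (-19516) * 1441440 + (-9802) * 480480 * n3 +
  (-3135) * 288288 * n5 + 5355 * 205920 * n7 +
  (-24202) * 180180 * n8 + 7039 * 160160 * n9 +
  13364 * 131040 * n11 + 4654 * 110880 * n13 +
  3507 * 96096 * (n3 * n5) + 4343 * 90090 * n16 +
  16550 * 68640 * (n3 * n7) + 23906 * 60060 * (n8 * n3) +
  5948 * 45045 * n32 + (-9424) * 43680 * (n3 * n11) +
  (-4629) * 41184 * (n5 * n7) + (-2306) * 36960 * (n3 * n13) +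
  15308 * 36036 * (n8 * n5) + 7664 * 32032 * (n9 * n5) +
  11 * 30030 * (n16 * n3) + 7734 * 25740 * (n8 * n7) +
  (-10000) * 22880 * (n9 * n7) + 1974 * 22176 * (n5 * n13) +
  (-219) * 18720 * (n7 * n11) + (-3632) * 18018 * (n16 * n5) +
  (-196) * 16380 * (n8 * n11) + (-1974) * 13860 * (n8 * n13) +
  (-10000) * 12012 * (n8 * (n3 * n5)) + (-8911) * 8580 * (n8 * (n3 * n7))

theorem lp_val_bound : ∀ a ∈ lpA, ∀ b ∈ lpB, ∀ n5 ∈ [1, 6], ∀ n7 ∈ [13, 6], ∀ n11 ∈ [1, 12],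
    ∀ n13 ∈ [1, 14], |lpVal (a.1 : ℕ) (a.2.1 : ℕ) (a.2.2 : ℕ) (b.1 : ℕ) (b.2 : ℕ) (n5 : ℕ) (n7 : ℕ)
      (n11 : ℕ) (n13 : ℕ)| ≤ 23340 * 1441440 := by
  decide +kernel

theorem lp_total (h : ℤ) :
    |(kap.map (fun e => (e.2 : ℝ) * ((lpNs e.1 h : ℝ) / e.1))).sum| ≤ 23340 := by
  have hb := lp_val_bound _ (lp_tabA h) _ (lp_tabB h)
    _ (lp_tab 5 (by norm_num) [1, 6] (by decide +kernel) h)
    _ (lp_tab 7 (by norm_num) [13, 6] (by decide +kernel) h)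
    _ (lp_tab 11 (by norm_num) [1, 12] (by decide +kernel) h)
    _ (lp_tab 13 (by norm_num) [1, 14] (by decide +kernel) h)
  have e1 : lpNs 1 h = 1 := by simp [lpNs]
  have e15 : lpNs 15 h = lpNs 3 h * lpNs 5 h := lp_Ns_mul 3 5 (by norm_num) h
  have e21 : lpNs 21 h = lpNs 3 h * lpNs 7 h := lp_Ns_mul 3 7 (by norm_num) h
  have e24 : lpNs 24 h = lpNs 8 h * lpNs 3 h := lp_Ns_mul 8 3 (by norm_num) h
  have e33 : lpNs 33 h = lpNs 3 h * lpNs 11 h := lp_Ns_mul 3 11 (by norm_num) h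
  have e35 : lpNs 35 h = lpNs 5 h * lpNs 7 h := lp_Ns_mul 5 7 (by norm_num) h
  have e39 : lpNs 39 h = lpNs 3 h * lpNs 13 h := lp_Ns_mul 3 13 (by norm_num) h
  have e40 : lpNs 40 h = lpNs 8 h * lpNs 5 h := lp_Ns_mul 8 5 (by norm_num) h
  have e45 : lpNs 45 h = lpNs 9 h * lpNs 5 h := lp_Ns_mul 9 5 (by norm_num) h
  have e48 : lpNs 48 h = lpNs 16 h * lpNs 3 h := lp_Ns_mul 16 3 (by norm_num) h
  have e56 : lpNs 56 h = lpNs 8 h * lpNs 7 h := lp_Ns_mul 8 7 (by norm_num) h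
  have e63 : lpNs 63 h = lpNs 9 h * lpNs 7 h := lp_Ns_mul 9 7 (by norm_num) h
  have e65 : lpNs 65 h = lpNs 5 h * lpNs 13 h := lp_Ns_mul 5 13 (by norm_num) h
  have e77 : lpNs 77 h = lpNs 7 h * lpNs 11 h := lp_Ns_mul 7 11 (by norm_num) h
  have e80 : lpNs 80 h = lpNs 16 h * lpNs 5 h := lp_Ns_mul 16 5 (by norm_num) h
  have e88 : lpNs 88 h = lpNs 8 h * lpNs 11 h := lp_Ns_mul 8 11 (by norm_num) h
  have e104 : lpNs 104 h = lpNs 8 h * lpNs 13 h := lp_Ns_mul 8 13 (by norm_num) h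
  have e120 : lpNs 120 h = lpNs 8 h * (lpNs 3 h * lpNs 5 h) := by
    rw [← e15]
    exact lp_Ns_mul 8 15 (by norm_num) h
  have e168 : lpNs 168 h = lpNs 8 h * (lpNs 3 h * lpNs 7 h) := by
    rw [← e21]
    exact lp_Ns_mul 8 21 (by norm_num) h
  have h1 : (kap.map (fun e => (e.2 : ℝ) * ((lpNs e.1 h : ℝ) / e.1))).sum =
      (lpVal (lpNs 8 h) (lpNs 16 h) (lpNs 32 h) (lpNs 3 h) (lpNs 9 h) (lpNs 5 h) (lpNs 7 h)
        (lpNs 11 h) (lpNs 13 h) : ℝ) / 1441440 := by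
    simp only [kap, List.map_cons, List.map_nil, List.sum_cons, List.sum_nil, lpVal, e1, e15, e21, e24, e33, e35, e39, e40, e45, e48,
      e56, e63, e65, e77, e80, e88, e104, e120, e168]
    push_cast
    ring
  rw [h1, abs_div, div_le_iff₀ (by positivity)]
  have hb' : ((|lpVal (lpNs 8 h) (lpNs 16 h) (lpNs 32 h) (lpNs 3 h) (lpNs 9 h) (lpNs 5 h) (lpNs 7 h)
        (lpNs 11 h) (lpNs 13 h)| : ℤ) : ℝ) ≤ ((23340 * 1441440 : ℤ) : ℝ) := by exact_mod_cast hb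
  push_cast at hb'
  rw [abs_of_pos (by norm_num : (0 : ℝ) < 1441440)]
  linarith

theorem lp_sup (Q0 : ℕ) (hQ : 77 ≤ Q0) (h : ℤ) :
    ‖∑ p ∈ FF Q0, gam p.2 p.1 * (sq p.1 : ℂ) * ee (-((h : ℝ) * ((p.2 : ℝ) / p.1)))‖ ≤ sig := by
  have hL : ∀ e ∈ kap, 0 < e.1 ∧ ∀ q, q ∣ e.1 → q ∈ QQ Q0 := by
    have key : ∀ e ∈ kap, 0 < e.1 ∧ e.1 ≤ 168 ∧
        ∀ q ∈ List.range 169, q ∣ e.1 → q % 2 = 1 → q ≤ 77 := by decide +kernel
    intro e he
    obtain ⟨h1, h2, h3⟩ := key e he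
    refine ⟨h1, fun q hq => ?_⟩
    have h4 : q ≤ e.1 := Nat.le_of_dvd h1 hq
    have h5 : 0 < q := Nat.pos_of_dvd_of_pos hq h1
    refine mem_filter.2 ⟨mem_Icc.2 ⟨h5, by omega⟩, fun h6 => ?_⟩
    have := h3 q (List.mem_range.2 (by omega)) hq h6
    omega
  have h1 := lp_sum_list Q0 h kap hL
  have h2 : ∑ p ∈ FF Q0, gam p.2 p.1 * (sq p.1 : ℂ) * ee (-((h : ℝ) * ((p.2 : ℝ) / p.1))) =
      (((kap.map (fun e => (e.2 : ℝ) * ((lpNs e.1 h : ℝ) / e.1))).sum / 10000 : ℝ) : ℂ) := by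
    rw [Complex.ofReal_div, ← h1, sum_div]
    refine sum_congr rfl fun p _ => ?_
    unfold lpF sq
    rw [Complex.ofReal_div, Complex.ofReal_intCast]
    ring
  rw [h2, Complex.norm_real, Real.norm_eq_abs, abs_div, div_le_iff₀ (by positivity)]
  have h3 := lp_total h
  rw [abs_of_pos (by norm_num : (0 : ℝ) < 10000)]
  unfold sig
  linarith

/-- `10 ^ 4` times the multiplier -/
def lpS (q : ℕ) : ℤ := (kap.map (fun e => if q ∣ e.1 then e.2 else 0)).sum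

theorem lp_sq (q : ℕ) : sq q = (lpS q : ℝ) / 10000 := rfl

theorem lpS_big (q : ℕ) (hq : 168 < q) : lpS q = 0 := by
  have key : ∀ e ∈ kap, 0 < e.1 ∧ e.1 ≤ 168 := by decide +kernel
  refine List.sum_eq_zero fun x hx => ?_
  obtain ⟨e, he, rfl⟩ := List.mem_map.1 hx
  obtain ⟨h1, h2⟩ := key e he
  rw [if_neg]
  intro hd
  have := Nat.le_of_dvd h1 hd
  omega

/-- `1000 q` times an upper bound of `aq q` -/
def lpW (q : ℕ) : ℤ := if q % 2 = 1 then 1000 else if q % 8 = 0 then 2829 else 0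

theorem lp_aq_le (q : ℕ) : aq q ≤ (lpW q : ℝ) / (1000 * q) := by
  have hs : √2 ≤ 1.4145 := by
    rw [Real.sqrt_le_left (by norm_num)]
    norm_num
  unfold aq lpW
  split_ifs
  · rw [← div_div]
    norm_num
  · rw [← div_div]
    refine div_le_div_of_nonneg_right ?_ (Nat.cast_nonneg q)
    push_cast
    linarith
  · simp

theorem lpW_bound (q : ℕ) : 0 ≤ lpW q ∧ lpW q ≤ 2829 := by
  unfold lpW
  split_ifs <;> norm_num

theorem lp_coef (q : ℕ) (hq : 0 < q) : aq q * |1 - sq q| ≤ lam := by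
  have hq' : (0 : ℝ) < q := by exact_mod_cast hq
  have key : lpW q * |10000 - lpS q| ≤ 589000 * q := by
    by_cases h : 168 < q
    · rw [lpS_big q h]
      have := (lpW_bound q).2
      norm_num
      omega
    · have k2 : ∀ q ∈ List.range 169, 0 < q → lpW q * |10000 - lpS q| ≤ 589000 * q := by
        decide +kernel
      exact k2 q (List.mem_range.2 (by omega)) hq
  have key' : (lpW q : ℝ) * |10000 - (lpS q : ℝ)| ≤ 589000 * q := by exact_mod_cast key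
  have h1 : |1 - sq q| = |10000 - (lpS q : ℝ)| / 10000 := by
    rw [lp_sq, ← abs_of_pos (by norm_num : (0 : ℝ) < 10000), ← abs_div]
    congr 1
    norm_num
    ring
  calc aq q * |1 - sq q| ≤ (lpW q : ℝ) / (1000 * q) * |1 - sq q| :=
        mul_le_mul_of_nonneg_right (lp_aq_le q) (abs_nonneg _)
    _ = (lpW q : ℝ) * |10000 - (lpS q : ℝ)| / (10000000 * q) := by
        rw [h1]
        field_simp
        ring
    _ ≤ lam := by
        rw [div_le_iff₀ (by positivity)]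
        unfold lam
        linarith

theorem lp_odd_sum (n : ℕ) :
    ∑ q ∈ range (n + 1), (if q % 2 = 1 then q else 0) = ((n + 1) / 2) ^ 2 := by
  induction n with
  | zero => simp
  | succ n ih =>
    rw [sum_range_succ, ih]
    obtain ⟨k, rfl | rfl⟩ := Nat.even_or_odd' n
    · have h1 : (2 * k + 1) / 2 = k := by omega
      have h2 : (2 * k + 1 + 1) / 2 = k + 1 := by omega
      rw [h1, h2, if_pos (by omega)]
      ring
    · have h1 : (2 * k + 1 + 1) / 2 = k + 1 := by omega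
      have h2 : (2 * k + 1 + 1 + 1) / 2 = k + 1 := by omega
      rw [h1, h2, if_neg (by omega), add_zero]

theorem lp_eight_sum (n : ℕ) :
    ∑ q ∈ range (n + 1), (if q % 8 = 0 then q else 0) = 4 * (n / 8) * (n / 8 + 1) := by
  induction n with
  | zero => simp
  | succ n ih =>
    rw [sum_range_succ, ih]
    split_ifs with h
    · obtain ⟨k, hk⟩ : ∃ k, n + 1 = 8 * (k + 1) := ⟨n / 8, by omega⟩
      have h1 : n / 8 = k := by omega
      have h2 : (n + 1) / 8 = k + 1 := by omega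
      rw [h1, h2, hk]
      ring
    · have h2 : (n + 1) / 8 = n / 8 := by omega
      rw [h2, add_zero]

theorem lp_main_sum (Q0 : ℕ) (hQ : 77 ≤ Q0) :
    ∑ q ∈ QQ Q0, (q : ℤ) * lpW q ≤ 2000 * (Q0 : ℤ) ^ 2 := by
  have h1 : ∑ q ∈ QQ Q0, (q : ℤ) * lpW q ≤
      ∑ q ∈ range (3 * Q0 + 1), ((1000 * (if q % 2 = 1 ∧ q ≤ Q0 then q else 0) +
        2829 * (if q % 8 = 0 then q else 0) : ℕ) : ℤ) := by
    refine le_trans (sum_le_sum fun q hq => ?_)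
      (sum_le_sum_of_subset_of_nonneg (s := QQ Q0) (fun q hq => ?_) fun _ _ _ => Int.natCast_nonneg _)
    · have h2 := (mem_filter.1 hq).2
      unfold lpW
      by_cases h3 : q % 2 = 1
      · rw [if_pos h3, if_pos ⟨h3, h2 h3⟩, if_neg (by omega)]
        push_cast
        omega
      · rw [if_neg h3, if_neg (fun h4 : q % 2 = 1 ∧ q ≤ Q0 => h3 h4.1)]
        split_ifs
        · push_cast
          omega
        · simp
    · have h2 := mem_Icc.1 (mem_filter.1 hq).1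
      exact mem_range.2 (by omega)
  have h2 : ∑ q ∈ range (3 * Q0 + 1), (if q % 2 = 1 ∧ q ≤ Q0 then q else 0) =
      ((Q0 + 1) / 2) ^ 2 := by
    rw [← lp_odd_sum]
    symm
    refine sum_subset_zero_on_sdiff (range_subset_range.2 (by omega)) (fun q hq => ?_) fun q hq => ?_
    · have h3 := mem_sdiff.1 hq
      have h4 : ¬ q < Q0 + 1 := fun h5 => h3.2 (mem_range.2 h5)
      rw [if_neg (by omega)]
    · have h3 := mem_range.1 hq
      by_cases h4 : q % 2 = 1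
      · rw [if_pos h4, if_pos ⟨h4, by omega⟩]
      · rw [if_neg h4, if_neg fun h5 => h4 h5.1]
  rw [← Nat.cast_sum, sum_add_distrib, ← mul_sum, ← mul_sum, h2, lp_eight_sum] at h1
  refine h1.trans ?_
  obtain ⟨a, ha⟩ : ∃ a, a = (Q0 + 1) / 2 := ⟨_, rfl⟩
  obtain ⟨b, hb⟩ : ∃ b, b = 3 * Q0 / 8 := ⟨_, rfl⟩
  rw [← ha, ← hb]
  have h3 : 2 * a ≤ Q0 + 1 := by omega
  have h4 : 8 * b ≤ 3 * Q0 := by omega
  have h5 : 1000 * a ^ 2 + 2829 * (4 * b * (b + 1)) ≤ 2000 * Q0 ^ 2 := by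
    have h6 : (2 * a) ^ 2 ≤ (Q0 + 1) ^ 2 := Nat.pow_le_pow_left h3 2
    have h7 : (8 * b) ^ 2 ≤ (3 * Q0) ^ 2 := Nat.pow_le_pow_left h4 2
    nlinarith
  exact_mod_cast h5

theorem lp_ex_sum (Q0 : ℕ) : ∑ q ∈ QQ Q0, (q : ℤ) * lpW q * |lpS q| ≤ 27000000000 := by
  have key : ∑ q ∈ range 169, (q : ℤ) * lpW q * |lpS q| ≤ 27000000000 := by decide +kernel
  refine le_trans ?_ key
  rw [← sum_filter_add_sum_filter_not (QQ Q0) (fun q => q < 169)]
  have h1 : ∑ q ∈ (QQ Q0).filter (fun q => ¬ q < 169), (q : ℤ) * lpW q * |lpS q| = 0 := by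
    refine sum_eq_zero fun q hq => ?_
    rw [lpS_big q (by have := (mem_filter.1 hq).2; omega)]
    simp
  rw [h1, add_zero]
  refine sum_le_sum_of_subset_of_nonneg (fun q hq => mem_range.2 (mem_filter.1 hq).2) fun q _ _ => ?_
  have := (lpW_bound q).1
  positivity

theorem lp_delta (Q0 : ℕ) (hQ : 77 ≤ Q0) :
    ∑ q ∈ QQ Q0, (q : ℝ) ^ 2 * (aq q * |1 - sq q|) ≤ 2 * (Q0 : ℝ) ^ 2 + 2700 := by
  have h1 : ((∑ q ∈ QQ Q0, (q : ℤ) * lpW q : ℤ) : ℝ) ≤ ((2000 * (Q0 : ℤ) ^ 2 : ℤ) : ℝ) := by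
    exact_mod_cast lp_main_sum Q0 hQ
  have h2 : ((∑ q ∈ QQ Q0, (q : ℤ) * lpW q * |lpS q| : ℤ) : ℝ) ≤ ((27000000000 : ℤ) : ℝ) := by
    exact_mod_cast lp_ex_sum Q0
  push_cast at h1 h2
  have h3 : ∑ q ∈ QQ Q0, (q : ℝ) ^ 2 * (aq q * |1 - sq q|) ≤
      ∑ q ∈ QQ Q0, ((q : ℝ) * lpW q / 1000 + (q : ℝ) * lpW q * |(lpS q : ℝ)| / 10000000) := by
    refine sum_le_sum fun q hq => ?_
    have hq0 : 0 < q := (mem_Icc.1 (mem_filter.1 hq).1).1
    have hq' : (0 : ℝ) < q := by exact_mod_cast hq0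
    have hW : (0 : ℝ) ≤ lpW q := by exact_mod_cast (lpW_bound q).1
    have h4 : |1 - sq q| ≤ 1 + |(lpS q : ℝ)| / 10000 := by
      refine (abs_sub _ _).trans ?_
      rw [lp_sq, abs_div, abs_one, abs_of_pos (by norm_num : (0 : ℝ) < 10000)]
    calc (q : ℝ) ^ 2 * (aq q * |1 - sq q|)
        ≤ (q : ℝ) ^ 2 * ((lpW q : ℝ) / (1000 * q) * (1 + |(lpS q : ℝ)| / 10000)) := by
          refine mul_le_mul_of_nonneg_left ?_ (by positivity)
          exact mul_le_mul (lp_aq_le q) h4 (abs_nonneg _) (by positivity)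
      _ = _ := by
          field_simp
          ring
  rw [sum_add_distrib, ← sum_div, ← sum_div] at h3
  linarith

end Pool.Agent.MP_a001a6_co

end

-- part MP_a001a6_co.Arith
section

/-
HINTS.  Split gam = gam * sq + gam * (1 - sq).  First part: conj (Fh A θ) * Fh B θ = ∑_{a,b} ee ((b - a) θ), so it equals ∑_{a,b} ee((b-a)β) * (sum of lp_sup with h = a - b), norm ≤ sig |A||B|.  Second part: ≤ ∑ ω ‖Fh A‖ ‖Fh B‖ with ω q = aq q * |1 - sq q| (norm_gam_le), Cauchy-Schwarz, large_sieve with l = lam (lp_coef) and lp_delta.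
-/

namespace Pool.Agent.MP_a001a6_co

open Finset

theorem arith_ee_add (x y : ℝ) : ee (x + y) = ee x * ee y := by
  simp only [ee, ← Complex.exp_add]
  congr 1
  push_cast
  ring

theorem arith_conj_ee (x : ℝ) : (starRingEnd ℂ) (ee x) = ee (-x) := by
  simp only [ee, ← Complex.exp_conj]
  congr 1
  simp [Complex.conj_ofReal, map_ofNat]

theorem arith_norm_ee (x : ℝ) : ‖ee x‖ = 1 := by
  have : (2 * Real.pi * Complex.I * x : ℂ) = ((2 * Real.pi * x : ℝ) : ℂ) * Complex.I := by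
    push_cast
    ring
  rw [ee, this, Complex.norm_exp_ofReal_mul_I]

theorem arith_aq_nonneg (q : ℕ) : 0 ≤ aq q := by
  unfold aq
  split_ifs <;> positivity

theorem arith_conj_mul (A B : Finset ℤ) (x β : ℝ) :
    (starRingEnd ℂ) (Fh A (x + β)) * Fh B (x + β) =
      ∑ a ∈ A, ∑ b ∈ B, ee (((b : ℝ) - a) * β) * ee (-(((a - b : ℤ) : ℝ) * x)) := by
  simp only [Fh, map_sum, sum_mul_sum, arith_conj_ee, ← arith_ee_add]
  refine sum_congr rfl fun a _ => sum_congr rfl fun b _ => ?_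
  congr 1
  push_cast
  ring

theorem arith_main (Q0 : ℕ) (hQ : 77 ≤ Q0) (A B : Finset ℤ) (β : ℝ) :
    ‖∑ p ∈ FF Q0, gam p.2 p.1 * (sq p.1 : ℂ) * ((starRingEnd ℂ) (Fh A ((p.2 : ℝ) / p.1 + β))
        * Fh B ((p.2 : ℝ) / p.1 + β))‖ ≤ sig * A.card * B.card := by
  have e : ∑ p ∈ FF Q0, gam p.2 p.1 * (sq p.1 : ℂ) *
      ((starRingEnd ℂ) (Fh A ((p.2 : ℝ) / p.1 + β)) * Fh B ((p.2 : ℝ) / p.1 + β)) =
      ∑ a ∈ A, ∑ b ∈ B, ee (((b : ℝ) - a) * β) * ∑ p ∈ FF Q0, gam p.2 p.1 * (sq p.1 : ℂ) *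
        ee (-(((a - b : ℤ) : ℝ) * ((p.2 : ℝ) / p.1))) := by
    simp only [arith_conj_mul, mul_sum]
    rw [sum_comm]
    refine sum_congr rfl fun a _ => ?_
    rw [sum_comm]
    refine sum_congr rfl fun b _ => sum_congr rfl fun p _ => ?_
    ring
  rw [e]
  calc _ ≤ ∑ a ∈ A, ∑ b ∈ B, sig := by
        refine norm_sum_le_of_le _ fun a _ => norm_sum_le_of_le _ fun b _ => ?_
        rw [norm_mul, arith_norm_ee, one_mul]
        exact lp_sup Q0 hQ (a - b)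
    _ = _ := by
        simp only [sum_const, nsmul_eq_mul]
        ring

theorem arith_sieve (Q0 : ℕ) (hQ : 77 ≤ Q0) (A : Finset ℤ) (a0 : ℤ) (N : ℕ)
    (hA : ∀ a ∈ A, a0 ≤ a ∧ a < a0 + N) (β : ℝ) :
    ∑ p ∈ FF Q0, (√(aq p.1 * |1 - sq p.1|) * ‖Fh A ((p.2 : ℝ) / p.1 + β)‖) ^ 2
      ≤ (lam * N + (2 * (Q0 : ℝ) ^ 2 + 2700)) * A.card := by
  have h0 : ∀ q, 0 ≤ aq q * |1 - sq q| := fun q => mul_nonneg (arith_aq_nonneg q) (abs_nonneg _)
  have h1 := large_sieve Q0 (fun q => aq q * |1 - sq q|) lam h0 (by unfold lam; norm_num)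
    (fun q hq => lp_coef q (mem_Icc.1 (mem_filter.1 hq).1).1) A a0 N hA β
  have h2 := lp_delta Q0 hQ
  simp only [mul_pow, Real.sq_sqrt (h0 _)]
  refine h1.trans ?_
  gcongr

theorem arith_bound (Q0 : ℕ) (hQ : 77 ≤ Q0) (A B : Finset ℤ) (a0 b0 : ℤ) (NA NB : ℕ)
    (hA : ∀ a ∈ A, a0 ≤ a ∧ a < a0 + NA) (hB : ∀ b ∈ B, b0 ≤ b ∧ b < b0 + NB) (β : ℝ) :
    ‖∑ p ∈ FF Q0, gam p.2 p.1 * ((starRingEnd ℂ) (Fh A ((p.2 : ℝ) / p.1 + β))
        * Fh B ((p.2 : ℝ) / p.1 + β))‖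
      ≤ sig * A.card * B.card + √((lam * NA + (2 * (Q0 : ℝ) ^ 2 + 2700)) * A.card)
          * √((lam * NB + (2 * (Q0 : ℝ) ^ 2 + 2700)) * B.card) := by
  have e : ∑ p ∈ FF Q0, gam p.2 p.1 * ((starRingEnd ℂ) (Fh A ((p.2 : ℝ) / p.1 + β))
        * Fh B ((p.2 : ℝ) / p.1 + β)) =
      ∑ p ∈ FF Q0, gam p.2 p.1 * (sq p.1 : ℂ) * ((starRingEnd ℂ) (Fh A ((p.2 : ℝ) / p.1 + β))
        * Fh B ((p.2 : ℝ) / p.1 + β)) +
      ∑ p ∈ FF Q0, gam p.2 p.1 * ((1 - sq p.1 : ℝ) : ℂ) *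
        ((starRingEnd ℂ) (Fh A ((p.2 : ℝ) / p.1 + β)) * Fh B ((p.2 : ℝ) / p.1 + β)) := by
    rw [← sum_add_distrib]
    refine sum_congr rfl fun p _ => ?_
    push_cast
    ring
  rw [e]
  refine (norm_add_le _ _).trans (add_le_add (arith_main Q0 hQ A B β) ?_)
  calc _ ≤ ∑ p ∈ FF Q0, (√(aq p.1 * |1 - sq p.1|) * ‖Fh A ((p.2 : ℝ) / p.1 + β)‖) *
        (√(aq p.1 * |1 - sq p.1|) * ‖Fh B ((p.2 : ℝ) / p.1 + β)‖) := by
        refine norm_sum_le_of_le _ fun p hp => ?_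
        obtain ⟨-, hlt, hco⟩ := mem_filter.1 hp
        have hg : ‖gam p.2 p.1‖ ≤ aq p.1 :=
          norm_gam_le _ _ (by omega) (by rw [Int.gcd_natCast_natCast]; exact hco)
        rw [mul_mul_mul_comm (√_), Real.mul_self_sqrt (mul_nonneg (arith_aq_nonneg _) (abs_nonneg _)),
          norm_mul, norm_mul, norm_mul, Complex.norm_conj, Complex.norm_real, Real.norm_eq_abs]
        gcongr
    _ ≤ _ := by
        refine (Real.sum_mul_le_sqrt_mul_sqrt _ _ _).trans ?_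
        exact mul_le_mul (Real.sqrt_le_sqrt (arith_sieve Q0 hQ A a0 NA hA β))
          (Real.sqrt_le_sqrt (arith_sieve Q0 hQ B b0 NB hB β)) (Real.sqrt_nonneg _)
          (Real.sqrt_nonneg _)

end Pool.Agent.MP_a001a6_co

end

-- part MP_a001a6_co.Bilin
section

/-! The bilinear estimate, by the circle method on a unit interval. -/

namespace Pool.Agent.MP_a001a6_co

open Finset MeasureTheory

theorem bilin_ee_add (x y : ℝ) : ee (x + y) = ee x * ee y := by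
  unfold ee
  rw [← Complex.exp_add]
  congr 1
  push_cast
  ring

theorem bilin_conj_ee (x : ℝ) : (starRingEnd ℂ) (ee x) = ee (-x) := by
  unfold ee
  rw [← Complex.exp_conj]
  congr 1
  simp only [map_mul, Complex.conj_ofReal, Complex.conj_I, map_ofNat]
  push_cast
  ring

theorem bilin_cont_ee : Continuous ee := by
  unfold ee
  fun_prop

theorem bilin_int_ee (a : ℝ) (k : ℤ) :
    ∫ θ in Set.Ioc a (a + 1), ee ((k : ℝ) * θ) = if k = 0 then 1 else 0 := by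
  rw [← intervalIntegral.integral_of_le (by linarith)]
  split_ifs with hk
  · subst hk
    simp [ee]
  · have hc : (2 * Real.pi * Complex.I * k : ℂ) ≠ 0 := by
      have h1 : (k : ℂ) ≠ 0 := by exact_mod_cast hk
      have h2 : (Real.pi : ℂ) ≠ 0 := by exact_mod_cast Real.pi_ne_zero
      simp [h1, h2, Complex.I_ne_zero]
    have e : ∀ θ : ℝ, ee ((k : ℝ) * θ) = Complex.exp ((2 * Real.pi * Complex.I * k) * θ) := by
      intro θ
      unfold ee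
      congr 1
      push_cast
      ring
    simp_rw [e]
    rw [integral_exp_mul_complex hc]
    have e2 : (2 * Real.pi * Complex.I * k : ℂ) * ((a + 1 : ℝ) : ℂ) =
        (2 * Real.pi * Complex.I * k) * a + k * (2 * Real.pi * Complex.I) := by
      push_cast
      ring
    rw [e2, Complex.exp_add, Complex.exp_int_mul_two_pi_mul_I]
    simp

theorem bilin_cont_Fh (A : Finset ℤ) : Continuous (Fh A) := by
  unfold Fh
  exact continuous_finsetSum _ fun a _ => bilin_cont_ee.comp (by fun_prop)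

theorem bilin_conj_mul (A B : Finset ℤ) (θ : ℝ) :
    (starRingEnd ℂ) (Fh A θ) * Fh B θ = ∑ a ∈ A, ∑ b ∈ B, ee (((b - a : ℤ) : ℝ) * θ) := by
  unfold Fh
  rw [map_sum, Finset.sum_mul_sum]
  refine Finset.sum_congr rfl fun a _ => Finset.sum_congr rfl fun b _ => ?_
  rw [bilin_conj_ee, ← bilin_ee_add]
  congr 1
  push_cast
  ring

theorem bilin_intOn {f : ℝ → ℂ} (hf : Continuous f) (a b : ℝ) :
    IntegrableOn f (Set.Ioc a b) :=
  (hf.integrableOn_Icc).mono_set Set.Ioc_subset_Icc_self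

theorem bilin_intOnR {f : ℝ → ℝ} (hf : Continuous f) (a b : ℝ) :
    IntegrableOn f (Set.Ioc a b) :=
  (hf.integrableOn_Icc).mono_set Set.Ioc_subset_Icc_self

theorem bilin_int_sum {ι : Type} (s : Finset ι) (f : ι → ℝ → ℂ) (hf : ∀ i, Continuous (f i))
    (a b : ℝ) : ∫ θ in Set.Ioc a b, ∑ i ∈ s, f i θ = ∑ i ∈ s, ∫ θ in Set.Ioc a b, f i θ :=
  integral_finsetSum _ fun i _ => bilin_intOn (hf i) a b

theorem bilin_parseval (a : ℝ) (A : Finset ℤ) :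
    ∫ θ in Set.Ioc a (a + 1), ‖Fh A θ‖ ^ 2 = A.card := by
  have h1 : ∫ θ in Set.Ioc a (a + 1), (starRingEnd ℂ) (Fh A θ) * Fh A θ = A.card := by
    simp_rw [bilin_conj_mul]
    rw [bilin_int_sum _ _ fun x => by have := bilin_cont_ee; fun_prop]
    rw [Finset.card_eq_sum_ones, Nat.cast_sum]
    refine Finset.sum_congr rfl fun x hx => ?_
    rw [bilin_int_sum _ _ fun x => by have := bilin_cont_ee; fun_prop]
    simp_rw [bilin_int_ee, sub_eq_zero]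
    simp [hx]
  have h2 : ∀ θ, (starRingEnd ℂ) (Fh A θ) * Fh A θ = ((‖Fh A θ‖ ^ 2 : ℝ) : ℂ) := by
    intro θ
    rw [Complex.conj_mul']
    push_cast
    rfl
  simp_rw [h2] at h1
  rw [integral_complex_ofReal] at h1
  exact_mod_cast h1

theorem bilin_cs (a : ℝ) (A B : Finset ℤ) (hA : A.Nonempty) (hB : B.Nonempty) :
    ∫ θ in Set.Ioc a (a + 1), ‖Fh A θ‖ * ‖Fh B θ‖ ≤ √((A.card : ℝ) * B.card) := by
  have ha : (0 : ℝ) < A.card := by exact_mod_cast hA.card_pos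
  have hb : (0 : ℝ) < B.card := by exact_mod_cast hB.card_pos
  have hs : 0 < √((A.card : ℝ) * B.card) := Real.sqrt_pos.2 (mul_pos ha hb)
  have hs2 : √((A.card : ℝ) * B.card) ^ 2 = A.card * B.card := Real.sq_sqrt (mul_pos ha hb).le
  set s := √((A.card : ℝ) * B.card) with hsd
  have cA := (bilin_cont_Fh A).norm
  have cB := (bilin_cont_Fh B).norm
  have hpt : ∀ θ, ‖Fh A θ‖ * ‖Fh B θ‖ ≤
      s / (2 * A.card) * ‖Fh A θ‖ ^ 2 + s / (2 * B.card) * ‖Fh B θ‖ ^ 2 := by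
    intro θ
    have e : s / (2 * A.card) * ‖Fh A θ‖ ^ 2 + s / (2 * B.card) * ‖Fh B θ‖ ^ 2 -
        ‖Fh A θ‖ * ‖Fh B θ‖ =
        (s * ‖Fh A θ‖ - A.card * ‖Fh B θ‖) ^ 2 / (2 * A.card * s) +
          (s ^ 2 - A.card * B.card) * ‖Fh B θ‖ ^ 2 / (2 * B.card * s) := by
      field_simp
      ring
    rw [hs2, sub_self, zero_mul, zero_div, add_zero] at e
    have : 0 ≤ (s * ‖Fh A θ‖ - A.card * ‖Fh B θ‖) ^ 2 / (2 * A.card * s) := by positivity
    linarith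
  have iA : IntegrableOn (fun θ => s / (2 * A.card) * ‖Fh A θ‖ ^ 2) (Set.Ioc a (a + 1)) :=
    bilin_intOnR (continuous_const.mul (cA.pow 2)) _ _
  have iB : IntegrableOn (fun θ => s / (2 * B.card) * ‖Fh B θ‖ ^ 2) (Set.Ioc a (a + 1)) :=
    bilin_intOnR (continuous_const.mul (cB.pow 2)) _ _
  refine (integral_mono (g := fun θ =>
    s / (2 * A.card) * ‖Fh A θ‖ ^ 2 + s / (2 * B.card) * ‖Fh B θ‖ ^ 2)
    (bilin_intOnR (cA.mul cB) a (a + 1)) (Integrable.add iA iB) hpt).trans (le_of_eq ?_)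
  rw [integral_add iA iB, integral_const_mul, integral_const_mul,
    bilin_parseval, bilin_parseval]
  field_simp
  ring

/-- the Gaussian weight -/
noncomputable def bilinW (X u0 v0 : ℝ) (p : ℤ × ℤ) : ℝ :=
  Real.exp (-Real.pi * ((((p.1 : ℝ) - u0) ^ 2 + 2 * ((p.2 : ℝ) - v0) ^ 2) / X ^ 2))

theorem bilin_W_eq (X u0 v0 : ℝ) (p : ℤ × ℤ) : bilinW X u0 v0 p =
    Real.exp (-Real.pi * (1 / X ^ 2) * ((p.1 : ℝ) - u0) ^ 2) *
      Real.exp (-Real.pi * (2 / X ^ 2) * ((p.2 : ℝ) - v0) ^ 2) := by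
  unfold bilinW
  rw [← Real.exp_add]
  congr 1
  ring

theorem bilin_summable_W {X : ℝ} (hX : 0 < X) (u0 v0 : ℝ) : Summable (bilinW X u0 v0) := by
  have h1 := summable_gauss (1 / X ^ 2) u0 (by positivity)
  have h2 := summable_gauss (2 / X ^ 2) v0 (by positivity)
  have h := summable_mul_of_summable_norm h1.norm h2.norm
  exact h.congr fun p => (bilin_W_eq X u0 v0 p).symm

theorem bilin_Rh_eq {X : ℝ} (hX : 0 < X) (u0 v0 θ : ℝ) : Rh X u0 v0 θ =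
    ∑' p : ℤ × ℤ, (bilinW X u0 v0 p : ℂ) * ee (((p.1 ^ 2 - 2 * p.2 ^ 2 : ℤ) : ℝ) * θ) := by
  have h1 := summable_gauss (1 / X ^ 2) u0 (by positivity)
  have h2 := summable_gauss (2 / X ^ 2) v0 (by positivity)
  unfold Rh th
  rw [tsum_mul_tsum_of_summable_norm]
  · refine tsum_congr fun p => ?_
    rw [bilin_W_eq, mul_mul_mul_comm, ← bilin_ee_add]
    push_cast
    congr 2
    ring
  · refine h1.congr fun n => ?_
    rw [norm_mul, norm_ee, mul_one, Complex.norm_real, Real.norm_of_nonneg (Real.exp_pos _).le]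
  · refine h2.congr fun n => ?_
    rw [norm_mul, norm_ee, mul_one, Complex.norm_real, Real.norm_of_nonneg (Real.exp_pos _).le]

theorem bilin_norm_term (X u0 v0 : ℝ) (p : ℤ × ℤ) (x : ℝ) :
    ‖(bilinW X u0 v0 p : ℂ) * ee x‖ = bilinW X u0 v0 p := by
  rw [norm_mul, norm_ee, mul_one, Complex.norm_real]
  exact Real.norm_of_nonneg (Real.exp_pos _).le

theorem bilin_cont_Rh {X : ℝ} (hX : 0 < X) (u0 v0 : ℝ) : Continuous (Rh X u0 v0) := by
  rw [funext (bilin_Rh_eq hX u0 v0)]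
  exact continuous_tsum (fun p => continuous_const.mul (bilin_cont_ee.comp (by fun_prop)))
    (bilin_summable_W hX u0 v0) fun p θ => (bilin_norm_term X u0 v0 p _).le

theorem bilin_coeff {X : ℝ} (hX : 0 < X) (u0 v0 a : ℝ) (h : ℤ) (Z : Finset (ℤ × ℤ)) :
    ∑ p ∈ Z.filter (fun p => p.1 ^ 2 - 2 * p.2 ^ 2 = h), bilinW X u0 v0 p ≤
      (∫ θ in Set.Ioc a (a + 1), ee (((-h : ℤ) : ℝ) * θ) * Rh X u0 v0 θ).re := by
  have e : ∀ θ : ℝ, ee (((-h : ℤ) : ℝ) * θ) * Rh X u0 v0 θ = ∑' p : ℤ × ℤ,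
      (bilinW X u0 v0 p : ℂ) * ee (((p.1 ^ 2 - 2 * p.2 ^ 2 - h : ℤ) : ℝ) * θ) := by
    intro θ
    rw [bilin_Rh_eq hX, ← tsum_mul_left]
    refine tsum_congr fun p => ?_
    rw [mul_left_comm, ← bilin_ee_add]
    congr 2
    push_cast
    ring
  simp_rw [e]
  have hs := hasSum_integral_of_summable_integral_norm (μ := volume.restrict (Set.Ioc a (a + 1)))
    (F := fun (p : ℤ × ℤ) (θ : ℝ) =>
      (bilinW X u0 v0 p : ℂ) * ee (((p.1 ^ 2 - 2 * p.2 ^ 2 - h : ℤ) : ℝ) * θ))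
    (fun p => bilin_intOn (continuous_const.mul (bilin_cont_ee.comp (by fun_prop))) _ _)
    (by
      simp_rw [bilin_norm_term]
      simpa using bilin_summable_W hX u0 v0)
  simp_rw [integral_const_mul, bilin_int_ee] at hs
  have hr := Complex.hasSum_re hs
  rw [Finset.sum_filter]
  refine le_trans (le_of_eq ?_) (sum_le_hasSum Z (fun p _ => ?_) hr)
  · refine Finset.sum_congr rfl fun p _ => ?_
    simp only [sub_eq_zero]
    split_ifs <;> simp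
  · have : 0 ≤ bilinW X u0 v0 p := (Real.exp_pos _).le
    split_ifs
    · simpa using this
    · simp

theorem bilin_lhs {X : ℝ} (hX : 0 < X) (u0 v0 a : ℝ) (A B : Finset ℤ) (Z : Finset (ℤ × ℤ)) :
    ∑ x ∈ A, ∑ y ∈ B, ∑ p ∈ Z.filter (fun p => p.1 ^ 2 - 2 * p.2 ^ 2 = x - y), bilinW X u0 v0 p ≤
      ‖∫ θ in Set.Ioc a (a + 1), (starRingEnd ℂ) (Fh A θ) * Fh B θ * Rh X u0 v0 θ‖ := by
  refine le_trans ?_ (Complex.re_le_norm _)
  have cR := bilin_cont_Rh hX u0 v0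
  simp_rw [bilin_conj_mul, Finset.sum_mul]
  rw [bilin_int_sum _ _ fun x => by have := bilin_cont_ee; fun_prop, Complex.re_sum]
  refine Finset.sum_le_sum fun x _ => ?_
  rw [bilin_int_sum _ _ fun x => by have := bilin_cont_ee; fun_prop, Complex.re_sum]
  refine Finset.sum_le_sum fun y _ => ?_
  have := bilin_coeff hX u0 v0 a (x - y) Z
  rwa [neg_sub] at this

theorem bilin_cont_Jf {α : ℝ} (hα : 0 < α) (c : ℝ) : Continuous (Jf α c) := by
  have ha : Continuous (aa α) := by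
    unfold aa
    fun_prop
  have hre : ∀ β, 0 < (aa α β).re := fun β => by simpa [aa] using hα
  have hne : ∀ β, aa α β ≠ 0 := fun β h => by simpa [h] using hre β
  have h1 : Continuous fun β => aa α β ^ (1 / 2 : ℂ) :=
    ha.cpow continuous_const fun β => Or.inl (hre β)
  have h2 : Continuous fun β => Et α c β 0 := by
    unfold Et
    exact Complex.continuous_exp.comp
      (((continuous_const.div ha hne).mul continuous_const).sub continuous_const)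
  unfold Jf
  exact (continuous_const.div h1 fun β h => hne β ((Complex.cpow_eq_zero_iff _ _).1 h).1).mul h2

theorem bilin_cont_Ib {X : ℝ} (hX : 0 < X) (u0 v0 : ℝ) : Continuous (Ib X u0 v0) := by
  unfold Ib
  exact (bilin_cont_Jf (by positivity) u0).mul
    ((bilin_cont_Jf (by positivity) v0).comp (by fun_prop))

theorem bilin_norm_Ib_le {X y0 : ℝ} (hX : 0 < X) (u0 v0 β : ℝ) (hβ : |β| ≤ y0 / (2 * X ^ 2)) :
    ‖Ib X u0 v0 β‖ ≤ X ^ 2 / √2 *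
      Real.exp (-(4 * Real.pi * (u0 ^ 2 + 2 * v0 ^ 2) * X ^ 2 / (1 + y0 ^ 2)) * β ^ 2) := by
  rw [norm_Ib X u0 v0 β hX]
  have h2 : (0 : ℝ) < √2 := by positivity
  have hD : 0 < 1 / X ^ 4 + 4 * β ^ 2 := by positivity
  have h1 : 1 / X ^ 2 ≤ √(1 / X ^ 4 + 4 * β ^ 2) := by
    refine Real.le_sqrt_of_sq_le ?_
    have : (1 / X ^ 2) ^ 2 = 1 / X ^ 4 := by field_simp
    nlinarith [sq_nonneg β]
  have h3 : β ^ 2 ≤ (y0 / (2 * X ^ 2)) ^ 2 := by
    rw [← sq_abs β]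
    exact pow_le_pow_left₀ (abs_nonneg _) hβ 2
  have h4 : X ^ 2 * (1 / X ^ 4 + 4 * β ^ 2) ≤ (1 + y0 ^ 2) / X ^ 2 := by
    have e : (1 + y0 ^ 2) / X ^ 2 = X ^ 2 * (1 / X ^ 4 + 4 * (y0 / (2 * X ^ 2)) ^ 2) := by
      field_simp
      ring
    rw [e]
    gcongr
  refine mul_le_mul ?_ (Real.exp_le_exp.2 ?_) (Real.exp_pos _).le (by positivity)
  · calc 1 / (√2 * √(1 / X ^ 4 + 4 * β ^ 2)) ≤ 1 / (√2 * (1 / X ^ 2)) := by gcongr
      _ = X ^ 2 / √2 := by field_simp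
  · have e : -(4 * Real.pi * (u0 ^ 2 + 2 * v0 ^ 2) * X ^ 2 / (1 + y0 ^ 2)) * β ^ 2 =
        -((4 * Real.pi * β ^ 2 * (u0 ^ 2 + 2 * v0 ^ 2)) / ((1 + y0 ^ 2) / X ^ 2)) := by
      field_simp
    rw [e, neg_div, neg_le_neg_iff]
    have := Real.pi_pos
    gcongr

theorem bilin_int_Ib {X u0 v0 y0 : ℝ} (hX : 0 < X) (hy : 0 < y0)
    (hpos : 0 < u0 ^ 2 + 2 * v0 ^ 2) :
    ∫ β in Set.Ioc (-(y0 / (2 * X ^ 2))) (y0 / (2 * X ^ 2)), ‖Ib X u0 v0 β‖ ≤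
      X * √(1 + y0 ^ 2) / (2 * √2 * √(u0 ^ 2 + 2 * v0 ^ 2)) := by
  have hpi := Real.pi_pos
  have hb : 0 < 4 * Real.pi * (u0 ^ 2 + 2 * v0 ^ 2) * X ^ 2 / (1 + y0 ^ 2) := by positivity
  have hi := (integrable_exp_neg_mul_sq hb).const_mul (X ^ 2 / √2)
  refine (setIntegral_mono_on (bilin_intOnR (bilin_cont_Ib hX u0 v0).norm _ _) hi.integrableOn
    measurableSet_Ioc fun β hβ => bilin_norm_Ib_le hX u0 v0 β
      (abs_le.2 ⟨hβ.1.le, hβ.2⟩)).trans ?_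
  refine (setIntegral_le_integral hi (ae_of_all _ fun β => by positivity)).trans (le_of_eq ?_)
  rw [integral_const_mul, integral_gaussian]
  have e : Real.pi / (4 * Real.pi * (u0 ^ 2 + 2 * v0 ^ 2) * X ^ 2 / (1 + y0 ^ 2)) =
      (√(1 + y0 ^ 2) / (2 * X * √(u0 ^ 2 + 2 * v0 ^ 2))) ^ 2 := by
    rw [div_pow, mul_pow, Real.sq_sqrt (by positivity), Real.sq_sqrt hpos.le]
    field_simp
    ring
  rw [e, Real.sqrt_sq (by positivity)]
  have : 0 < √(u0 ^ 2 + 2 * v0 ^ 2) := Real.sqrt_pos.2 hpos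
  field_simp

theorem bilin_mem_FF {Q0 : ℕ} {p : ℕ × ℕ} :
    p ∈ FF Q0 ↔ p.1 ∈ QQ Q0 ∧ p.2 < p.1 ∧ Nat.Coprime p.2 p.1 := by
  unfold FF
  rw [mem_filter, mem_product, mem_range]
  constructor
  · rintro ⟨⟨h1, -⟩, h2, h3⟩
    exact ⟨h1, h2, h3⟩
  · rintro ⟨h1, h2, h3⟩
    have := (mem_Icc.1 (mem_filter.1 h1).1).2
    exact ⟨⟨h1, by omega⟩, h2, h3⟩

theorem bilin_QQ {Q0 q : ℕ} (h : q ∈ QQ Q0) : (1 : ℝ) ≤ q ∧ (q : ℝ) ≤ 3 * Q0 := by
  have := mem_Icc.1 (mem_filter.1 h).1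
  exact ⟨by exact_mod_cast this.1, by exact_mod_cast this.2⟩

theorem bilin_sep {Q0 : ℕ} {p r : ℕ × ℕ} (hp : p ∈ FF Q0) (hr : r ∈ FF Q0) {δ : ℝ}
    (hδ : 18 * (Q0 : ℝ) ^ 2 * δ < 1) (h : |(p.2 : ℝ) / p.1 - (r.2 : ℝ) / r.1| ≤ 2 * δ) :
    p = r := by
  obtain ⟨p1, -, p3⟩ := bilin_mem_FF.1 hp
  obtain ⟨r1, -, r3⟩ := bilin_mem_FF.1 hr
  obtain ⟨p4, p5⟩ := bilin_QQ p1
  obtain ⟨r4, r5⟩ := bilin_QQ r1
  have hδ0 : 0 ≤ δ := by linarith [abs_nonneg ((p.2 : ℝ) / p.1 - (r.2 : ℝ) / r.1)]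
  have e : (((p.2 : ℤ) * r.1 - r.2 * p.1 : ℤ) : ℝ) =
      ((p.2 : ℝ) / p.1 - (r.2 : ℝ) / r.1) * (p.1 * r.1) := by
    push_cast
    field_simp
  have h1 : |(((p.2 : ℤ) * r.1 - r.2 * p.1 : ℤ) : ℝ)| < 1 := by
    rw [e, abs_mul, abs_of_nonneg (by positivity : (0 : ℝ) ≤ p.1 * r.1)]
    calc _ ≤ 2 * δ * (3 * Q0 * (3 * Q0)) := by gcongr
      _ < 1 := by linarith
  have h2 : |(p.2 : ℤ) * r.1 - r.2 * p.1| < 1 := by exact_mod_cast h1
  have h3 : p.2 * r.1 = r.2 * p.1 := by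
    have := Int.abs_lt_one_iff.1 h2
    have h4 : (p.2 : ℤ) * r.1 = r.2 * p.1 := by linarith
    exact_mod_cast h4
  have h5 : p.1 = r.1 := Nat.dvd_antisymm
    (p3.symm.dvd_of_dvd_mul_left (h3 ▸ Dvd.intro_left _ rfl))
    (r3.symm.dvd_of_dvd_mul_left (h3.symm ▸ Dvd.intro_left _ rfl))
  have h6 : 0 < p.1 := by exact_mod_cast (lt_of_lt_of_le one_pos p4 : (0 : ℝ) < p.1)
  rw [← h5] at h3
  exact Prod.ext h5 (Nat.eq_of_mul_eq_mul_right h6 h3)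

/-- the sum of the main terms on the major arcs -/
noncomputable def bilinM (X u0 v0 δ : ℝ) (Q0 : ℕ) (θ : ℝ) : ℂ :=
  ∑ p ∈ FF Q0, (Set.Icc ((p.2 : ℝ) / p.1 + -δ) ((p.2 : ℝ) / p.1 + δ)).indicator
    (fun θ => gam p.2 p.1 * Ib X u0 v0 (θ - (p.2 : ℝ) / p.1)) θ

theorem bilin_delta {X u0 v0 y0 E0 : ℝ} {Q0 : ℕ} (hG : Good X u0 v0 Q0 y0 E0) :
    0 < y0 / (2 * X ^ 2) ∧ 18 * (Q0 : ℝ) ^ 2 * (y0 / (2 * X ^ 2)) < 1 ∧
      9 * (Q0 : ℝ) * (y0 / (2 * X ^ 2)) < 1 := by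
  have hX := hG.hX
  have hy := hG.hy0
  have hQ : (77 : ℝ) ≤ Q0 := by exact_mod_cast hG.hQ
  have h0 : 0 < y0 / (2 * X ^ 2) := by positivity
  have h1 : 18 * (Q0 : ℝ) ^ 2 * (y0 / (2 * X ^ 2)) < 1 := by
    rw [← mul_div_assoc, div_lt_one (by positivity)]
    have := mul_le_mul_of_nonneg_right hG.hQX hy.le
    have h2 : X ^ 2 * y0 < X ^ 2 * 1 := mul_lt_mul_of_pos_left hG.hy1 (by positivity)
    linarith
  refine ⟨h0, h1, lt_of_le_of_lt ?_ h1⟩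
  refine mul_le_mul_of_nonneg_right ?_ h0.le
  nlinarith

theorem bilin_pointwise {X u0 v0 y0 E0 : ℝ} {Q0 : ℕ} (hG : Good X u0 v0 Q0 y0 E0) (θ : ℝ)
    (hθ : θ ∈ Set.Ioc (-2 * (y0 / (2 * X ^ 2))) (-2 * (y0 / (2 * X ^ 2)) + 1)) :
    ‖Rh X u0 v0 θ - bilinM X u0 v0 (y0 / (2 * X ^ 2)) Q0 θ‖ ≤ E0 + X ^ 2 / √2 *
      Real.exp (-Real.pi * ((u0 ^ 2 + 2 * v0 ^ 2) / X ^ 2) * (y0 ^ 2 / (1 + y0 ^ 2))) := by
  obtain ⟨d0, d1, d2⟩ := bilin_delta hG
  set δ := y0 / (2 * X ^ 2) with hδ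
  have hmem : ∀ x : ℝ, θ ∈ Set.Icc (x + -δ) (x + δ) ↔ |θ - x| ≤ δ := by
    intro x
    rw [Set.mem_Icc, abs_le]
    constructor <;> rintro ⟨h1, h2⟩ <;> constructor <;> linarith
  by_cases h : ∃ p ∈ FF Q0, |θ - (p.2 : ℝ) / p.1| ≤ δ
  · obtain ⟨p, hp, h⟩ := h
    have e : bilinM X u0 v0 δ Q0 θ = gam p.2 p.1 * Ib X u0 v0 (θ - (p.2 : ℝ) / p.1) := by
      unfold bilinM
      rw [Finset.sum_eq_single p]
      · rw [Set.indicator_of_mem ((hmem _).2 h)]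
      · intro r hr hne
        refine Set.indicator_of_notMem (fun hc => hne ?_) _
        refine bilin_sep hr hp d1 ?_
        have h1 := abs_le.1 ((hmem _).1 hc)
        have h2 := abs_le.1 h
        rw [abs_le]
        constructor <;> linarith [h1.1, h1.2, h2.1, h2.2]
      · intro hn
        exact absurd hp hn
    obtain ⟨p1, -, p3⟩ := bilin_mem_FF.1 hp
    have := sup_major hG (p.2 : ℤ) p.1 p1 (by simpa using p3) _ h
    rw [Int.cast_natCast, add_sub_cancel] at this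
    rw [e]
    refine this.trans (le_add_of_nonneg_right ?_)
    positivity
  · push Not at h
    have e : bilinM X u0 v0 δ Q0 θ = 0 :=
      Finset.sum_eq_zero fun p hp =>
        Set.indicator_of_notMem (fun hc => (h p hp).not_ge ((hmem _).1 hc)) _
    rw [e, sub_zero]
    refine sup_minor hG θ fun t q hq hc => ?_
    by_contra hn
    obtain ⟨h1, h2⟩ := abs_le.1 (not_lt.1 hn)
    obtain ⟨q1, q2⟩ := bilin_QQ hq
    have q0 : (0 : ℝ) < q := by linarith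
    have h3 : (t : ℝ) / q < 1 := by linarith [hθ.2]
    have h4 : -(3 * δ) < (t : ℝ) / q := by linarith [hθ.1]
    rw [div_lt_one q0] at h3
    rw [lt_div_iff₀ q0] at h4
    have h5 : (-1 : ℝ) < t := by nlinarith
    have h6 : (-1 : ℤ) < t := by exact_mod_cast h5
    have h7 : t < (q : ℤ) := by exact_mod_cast h3
    obtain ⟨n, rfl⟩ := Int.eq_ofNat_of_zero_le (by omega : 0 ≤ t)
    have hp : (q, n) ∈ FF Q0 :=
      bilin_mem_FF.2 ⟨hq, by exact_mod_cast h7, by simpa using hc⟩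
    exact hn (by simpa using h _ hp)

theorem bilin_main {X u0 v0 y0 E0 : ℝ} {Q0 : ℕ} (hG : Good X u0 v0 Q0 y0 E0) (g : ℝ → ℂ)
    (hg : Continuous g) :
    IntegrableOn (fun θ => g θ * bilinM X u0 v0 (y0 / (2 * X ^ 2)) Q0 θ)
      (Set.Ioc (-2 * (y0 / (2 * X ^ 2))) (-2 * (y0 / (2 * X ^ 2)) + 1)) ∧
    ∫ θ in Set.Ioc (-2 * (y0 / (2 * X ^ 2))) (-2 * (y0 / (2 * X ^ 2)) + 1),
        g θ * bilinM X u0 v0 (y0 / (2 * X ^ 2)) Q0 θ =
      ∫ β in Set.Ioc (-(y0 / (2 * X ^ 2))) (y0 / (2 * X ^ 2)),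
        Ib X u0 v0 β * ∑ p ∈ FF Q0, gam p.2 p.1 * g ((p.2 : ℝ) / p.1 + β) := by
  obtain ⟨d0, d1, d2⟩ := bilin_delta hG
  set δ := y0 / (2 * X ^ 2) with hδ
  have cI := bilin_cont_Ib hG.hX u0 v0
  have e : ∀ θ, g θ * bilinM X u0 v0 δ Q0 θ = ∑ p ∈ FF Q0,
      (Set.Icc ((p.2 : ℝ) / p.1 + -δ) ((p.2 : ℝ) / p.1 + δ)).indicator
        (fun θ => g θ * (gam p.2 p.1 * Ib X u0 v0 (θ - (p.2 : ℝ) / p.1))) θ := by
    intro θ
    unfold bilinM
    rw [Finset.mul_sum]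
    exact Finset.sum_congr rfl fun p _ => (Set.indicator_mul_right _ _ _).symm
  have hc : ∀ p : ℕ × ℕ,
      Continuous fun θ => g θ * (gam p.2 p.1 * Ib X u0 v0 (θ - (p.2 : ℝ) / p.1)) := fun p =>
    hg.mul (continuous_const.mul (cI.comp (by fun_prop)))
  have hi : ∀ p ∈ FF Q0, Integrable ((Set.Icc ((p.2 : ℝ) / p.1 + -δ)
      ((p.2 : ℝ) / p.1 + δ)).indicator
        (fun θ => g θ * (gam p.2 p.1 * Ib X u0 v0 (θ - (p.2 : ℝ) / p.1))))
      (volume.restrict (Set.Ioc (-2 * δ) (-2 * δ + 1))) := fun p _ =>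
    Integrable.indicator (bilin_intOn (hc p) _ _) measurableSet_Icc
  simp_rw [e]
  refine ⟨integrable_finsetSum _ hi, ?_⟩
  rw [integral_finsetSum _ hi]
  simp_rw [Finset.mul_sum]
  rw [bilin_int_sum _ _ fun x => by have := bilin_cont_ee; fun_prop]
  refine Finset.sum_congr rfl fun p hp => ?_
  obtain ⟨p1, p2, -⟩ := bilin_mem_FF.1 hp
  obtain ⟨q1, q2⟩ := bilin_QQ p1
  have q0 : (0 : ℝ) < p.1 := by linarith
  have h0 : (0 : ℝ) ≤ (p.2 : ℝ) / p.1 := by positivity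
  have h1 : (p.2 : ℝ) / p.1 ≤ 1 - 3 * δ := by
    have : (p.2 : ℝ) + 1 ≤ p.1 := by exact_mod_cast p2
    rw [div_le_iff₀ q0]
    nlinarith
  have hsub : Set.Icc ((p.2 : ℝ) / p.1 + -δ) ((p.2 : ℝ) / p.1 + δ) ⊆
      Set.Ioc (-2 * δ) (-2 * δ + 1) := fun x hx => ⟨by linarith [hx.1], by linarith [hx.2]⟩
  rw [setIntegral_indicator measurableSet_Icc, Set.inter_eq_right.2 hsub,
    integral_Icc_eq_integral_Ioc, ← intervalIntegral.integral_of_le (by linarith),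
    ← intervalIntegral.integral_comp_add_left, intervalIntegral.integral_of_le (by linarith)]
  refine integral_congr_ae (ae_of_all _ fun β => ?_)
  simp only [add_sub_cancel_left]
  ring

theorem bilin {X u0 v0 y0 E0 : ℝ} {Q0 : ℕ} (hG : Good X u0 v0 Q0 y0 E0)
    (hpos : 0 < u0 ^ 2 + 2 * v0 ^ 2)
    (A B : Finset ℤ) (a0 b0 : ℤ) (NA NB : ℕ)
    (hA : ∀ a ∈ A, a0 ≤ a ∧ a < a0 + NA) (hB : ∀ b ∈ B, b0 ≤ b ∧ b < b0 + NB)
    (Z : Finset (ℤ × ℤ)) :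
    ∑ a ∈ A, ∑ b ∈ B, ∑ p ∈ Z.filter (fun p => p.1 ^ 2 - 2 * p.2 ^ 2 = a - b),
        Real.exp (-Real.pi * ((((p.1 : ℝ) - u0) ^ 2 + 2 * ((p.2 : ℝ) - v0) ^ 2) / X ^ 2))
      ≤ Bnd (X * √(1 + y0 ^ 2) / (2 * √2 * √(u0 ^ 2 + 2 * v0 ^ 2)))
          (E0 + X ^ 2 / √2 *
            Real.exp (-Real.pi * ((u0 ^ 2 + 2 * v0 ^ 2) / X ^ 2) * (y0 ^ 2 / (1 + y0 ^ 2))))
          (2 * (Q0 : ℝ) ^ 2 + 2700) NA NB A.card B.card := by
  have hX := hG.hX
  have hE0 : 0 ≤ E0 := le_trans (by positivity) hG.hb2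
  have hsig : 0 ≤ sig := by unfold sig; norm_num
  rcases A.eq_empty_or_nonempty with rfl | hAn
  · simp [Bnd]
  rcases B.eq_empty_or_nonempty with rfl | hBn
  · simp [Bnd]
  set E := E0 + X ^ 2 / √2 *
    Real.exp (-Real.pi * ((u0 ^ 2 + 2 * v0 ^ 2) / X ^ 2) * (y0 ^ 2 / (1 + y0 ^ 2))) with hE
  have hE1 : 0 ≤ E := by positivity
  set M := sig * A.card * B.card + √((lam * NA + (2 * (Q0 : ℝ) ^ 2 + 2700)) * A.card)
    * √((lam * NB + (2 * (Q0 : ℝ) ^ 2 + 2700)) * B.card) with hM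
  have hM0 : 0 ≤ M := by positivity
  have cg : Continuous fun θ => (starRingEnd ℂ) (Fh A θ) * Fh B θ :=
    (Complex.continuous_conj.comp (bilin_cont_Fh A)).mul (bilin_cont_Fh B)
  obtain ⟨hi, hm⟩ := bilin_main hG _ cg
  have hiR : IntegrableOn (fun θ => (starRingEnd ℂ) (Fh A θ) * Fh B θ * Rh X u0 v0 θ)
      (Set.Ioc (-2 * (y0 / (2 * X ^ 2))) (-2 * (y0 / (2 * X ^ 2)) + 1)) :=
    bilin_intOn (cg.mul (bilin_cont_Rh hX u0 v0)) _ _
  refine (bilin_lhs hX u0 v0 (-2 * (y0 / (2 * X ^ 2))) A B Z).trans ?_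
  have h1 : ‖(∫ θ in Set.Ioc (-2 * (y0 / (2 * X ^ 2))) (-2 * (y0 / (2 * X ^ 2)) + 1),
      (starRingEnd ℂ) (Fh A θ) * Fh B θ * Rh X u0 v0 θ) -
      ∫ θ in Set.Ioc (-2 * (y0 / (2 * X ^ 2))) (-2 * (y0 / (2 * X ^ 2)) + 1),
        (starRingEnd ℂ) (Fh A θ) * Fh B θ * bilinM X u0 v0 (y0 / (2 * X ^ 2)) Q0 θ‖ ≤
      E * √((A.card : ℝ) * B.card) := by
    rw [← integral_sub hiR hi]
    have cn := (bilin_cont_Fh A).norm.mul (bilin_cont_Fh B).norm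
    refine (norm_integral_le_of_norm_le
      (g := fun θ => E * (‖Fh A θ‖ * ‖Fh B θ‖))
      (bilin_intOnR (continuous_const.mul cn) _ _) ?_).trans ?_
    · filter_upwards [ae_restrict_mem measurableSet_Ioc] with θ hθ
      rw [← mul_sub, norm_mul, norm_mul, Complex.norm_conj, mul_comm]
      exact mul_le_mul_of_nonneg_right (bilin_pointwise hG θ hθ) (by positivity)
    · rw [integral_const_mul]
      exact mul_le_mul_of_nonneg_left (bilin_cs _ A B hAn hBn) hE1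
  have h2 : ‖∫ θ in Set.Ioc (-2 * (y0 / (2 * X ^ 2))) (-2 * (y0 / (2 * X ^ 2)) + 1),
      (starRingEnd ℂ) (Fh A θ) * Fh B θ * bilinM X u0 v0 (y0 / (2 * X ^ 2)) Q0 θ‖ ≤
      X * √(1 + y0 ^ 2) / (2 * √2 * √(u0 ^ 2 + 2 * v0 ^ 2)) * M := by
    rw [hm]
    refine (norm_integral_le_of_norm_le (g := fun β => ‖Ib X u0 v0 β‖ * M)
      (bilin_intOnR ((bilin_cont_Ib hX u0 v0).norm.mul continuous_const) _ _)
      (ae_of_all _ fun β => ?_)).trans ?_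
    · rw [norm_mul]
      exact mul_le_mul_of_nonneg_left (arith_bound Q0 hG.hQ A B a0 b0 NA NB hA hB β)
        (norm_nonneg _)
    · rw [integral_mul_const]
      exact mul_le_mul_of_nonneg_right (bilin_int_Ib hX hG.hy0 hpos) hM0
  have h3 := norm_le_norm_add_norm_sub' (∫ θ in Set.Ioc (-2 * (y0 / (2 * X ^ 2)))
      (-2 * (y0 / (2 * X ^ 2)) + 1), (starRingEnd ℂ) (Fh A θ) * Fh B θ * Rh X u0 v0 θ)
    (∫ θ in Set.Ioc (-2 * (y0 / (2 * X ^ 2))) (-2 * (y0 / (2 * X ^ 2)) + 1),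
        (starRingEnd ℂ) (Fh A θ) * Fh B θ * bilinM X u0 v0 (y0 / (2 * X ^ 2)) Q0 θ)
  unfold Bnd
  linarith

end Pool.Agent.MP_a001a6_co

end

-- part MP_a001a6_co.Kern
section

/-
HINTS.  τ = pp + √2 qq, τ' = pp - √2 qq, τ τ' = ±1.  Map (m,k) ↦ (u,v) = (pp m - 2 qq k, pp k - qq m) (injective); u + √2 v = τ'(m + √2 k), u - √2 v = τ (m - √2 k), u^2 - 2v^2 = ±(m^2 - 2k^2).  Take η = τ' 2√2 z, η' = τ c, u0 = (η+η')/2, v0 = (η-η')/(2√2).  Then ((u-u0)^2 + 2(v-v0)^2)/X^2 = ((m+√2k-2√2z)/(2√2Ak))^2 + ((m-√2k-c)/B)^2.  Apply bilin with Z mapped, to (S,T) if the sign is +1 and to (T,S) otherwise (Bnd is symmetric).  G = g X since |η'| = √2 X |c|/B and |η| = √2 X z/Ak.  u0^2+2v0^2 = (η^2+η'^2)/2 ≥ η^2/2 = X^2 (z/Ak)^2, √(1+y^2) ≤ 1 + y^2/2.  Bnd is monotone in ρ, E, Δ.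
-/

namespace Pool.Agent.MP_a001a6_co

open Finset

theorem kern_Bnd_mono {ρ0 ρ E0 E Δ0 Δ NA NB a b : ℝ} (h1 : ρ0 ≤ ρ) (h0 : 0 ≤ ρ) (h2 : E0 ≤ E)
    (h3 : Δ0 ≤ Δ) (ha : 0 ≤ a) (hb : 0 ≤ b) : Bnd ρ0 E0 Δ0 NA NB a b ≤ Bnd ρ E Δ NA NB a b := by
  unfold Bnd
  have hs : 0 ≤ sig := by unfold sig; norm_num
  refine add_le_add ((mul_le_mul_of_nonneg_right h1 (by positivity)).trans ?_) (by gcongr)
  gcongr

theorem kern_Bnd_symm (ρ E Δ NA NB a b : ℝ) : Bnd ρ E Δ NA NB a b = Bnd ρ E Δ NB NA b a := by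
  unfold Bnd
  rw [mul_comm a b]
  ring

/-- multiplication by a unit of the order of discriminant eight -/
def kernMap (pp qq : ℤ) (h : pp ^ 2 - 2 * qq ^ 2 ≠ 0) : ℤ × ℤ ↪ ℤ × ℤ where
  toFun p := (pp * p.1 - 2 * qq * p.2, pp * p.2 - qq * p.1)
  inj' := fun p p' hp => by
    obtain ⟨h1, h2⟩ := Prod.mk.inj hp
    exact Prod.ext (mul_left_cancel₀ h (by linear_combination pp * h1 + 2 * qq * h2))
      (mul_left_cancel₀ h (by linear_combination qq * h1 + pp * h2))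

theorem kern_sum_map (pp qq : ℤ) (h : pp ^ 2 - 2 * qq ^ 2 ≠ 0) (Z : Finset (ℤ × ℤ)) (n n' : ℤ)
    (hn : n' = (pp ^ 2 - 2 * qq ^ 2) * n) (f w : ℤ × ℤ → ℝ)
    (hw : ∀ p : ℤ × ℤ, f p = w (pp * p.1 - 2 * qq * p.2, pp * p.2 - qq * p.1)) :
    ∑ p ∈ Z.filter (fun p => p.1 ^ 2 - 2 * p.2 ^ 2 = n), f p =
      ∑ p ∈ (Z.map (kernMap pp qq h)).filter (fun p => p.1 ^ 2 - 2 * p.2 ^ 2 = n'), w p := by
  rw [filter_map, sum_map]
  refine sum_congr (filter_congr fun p _ => ?_) fun p _ => hw p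
  change _ ↔ (pp * p.1 - 2 * qq * p.2) ^ 2 - 2 * (pp * p.2 - qq * p.1) ^ 2 = n'
  rw [hn]
  constructor
  · intro h1
    rw [← h1]
    ring
  · intro h1
    exact mul_left_cancel₀ h (by linear_combination h1)

theorem kern_weight {s τ τ' B Ak X z c m k u v : ℝ} (hs : s ^ 2 = 2) (hs0 : 0 < s) (hτ : 0 < τ)
    (hB : 0 < B) (hτ' : (τ * τ') ^ 2 = 1) (hAk : Ak = τ ^ 2 * B / (2 * s)) (hX : X = τ * B / s)
    (h1 : u + s * v = τ' * (m + s * k)) (h2 : u - s * v = τ * (m - s * k)) :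
    ((u - (τ' * (2 * s * z) + τ * c) / 2) ^ 2 +
        2 * (v - (τ' * (2 * s * z) - τ * c) / (2 * s)) ^ 2) / X ^ 2 =
      ((m + s * k - 2 * s * z) / (2 * s * Ak)) ^ 2 + ((m - s * k - c) / B) ^ 2 := by
  have e1 : 2 * s * Ak = τ ^ 2 * B := by
    rw [hAk]
    field_simp
  have e2 : X ^ 2 = τ ^ 2 * B ^ 2 / 2 := by
    rw [hX, div_pow, hs, mul_pow]
  have e3 : 2 * (v - (τ' * (2 * s * z) - τ * c) / (2 * s)) ^ 2 =
      (s * v - (τ' * (2 * s * z) - τ * c) / 2) ^ 2 := by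
    have : s * v - (τ' * (2 * s * z) - τ * c) / 2 =
        s * (v - (τ' * (2 * s * z) - τ * c) / (2 * s)) := by
      field_simp
    rw [this, mul_pow, hs]
  have hu : u = (τ' * (m + s * k) + τ * (m - s * k)) / 2 := by linarith
  have hv : s * v = (τ' * (m + s * k) - τ * (m - s * k)) / 2 := by linarith
  rw [e1, e2, e3, hv, hu]
  generalize m + s * k = P
  generalize m - s * k = Q
  generalize 2 * s * z = R
  field_simp
  linear_combination (2 * (P - R) ^ 2) * hτ'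

theorem kern_of (pp qq : ℤ) (hpell : pp ^ 2 - 2 * qq ^ 2 = 1 ∨ pp ^ 2 - 2 * qq ^ 2 = -1)
    (B z Ak X y0 g E0 ρ E Δ : ℝ) (Q0 : ℕ)
    (hτ : 0 < (pp : ℝ) + √2 * qq) (hB : 0 < B) (hz : 0 < z)
    (hAk : Ak = ((pp : ℝ) + √2 * qq) ^ 2 * B / (2 * √2))
    (hX : X = ((pp : ℝ) + √2 * qq) * B / √2)
    (hQ : 77 ≤ Q0) (hQX : 9 * (Q0 : ℝ) ^ 2 ≤ X ^ 2) (hy0 : 0 < y0) (hy1 : y0 < 1)
    (hg0 : 0 ≤ g)
    (hg : (√2 * (9143 / 10000) / B + 343 / 1000) * (√2 * z / Ak + 343 / 1000) ≤ g ^ 2)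
    (hb1 : (X + Q0) * (X + √2 * Q0) / (√2 * Q0) ≤ E0) (hb2 : 407 / 100 * X ≤ E0)
    (hb3 : √2 * (g * X) * (1 + √2 * Q0 / X) * (1 + 2 * Q0 / X) ≤ E0)
    (hρ : Ak * (1 + y0 ^ 2 / 2) / (2 * √2 * z) ≤ ρ)
    (hE : E0 + X ^ 2 / √2 * Real.exp (-Real.pi * (z / Ak) ^ 2 * (y0 ^ 2 / (1 + y0 ^ 2))) ≤ E)
    (hΔ : 2 * (Q0 : ℝ) ^ 2 + 2700 ≤ Δ) :
    Kern z Ak B ρ E Δ := by
  intro c hc S T a0 b0 NA NB hS hT Z
  have hs : (√2 : ℝ) ^ 2 = 2 := Real.sq_sqrt (by norm_num)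
  have hs0 : (0 : ℝ) < √2 := by positivity
  have hne : pp ^ 2 - 2 * qq ^ 2 ≠ 0 := by omega
  obtain ⟨τ, hτdef⟩ : ∃ τ : ℝ, τ = (pp : ℝ) + √2 * qq := ⟨_, rfl⟩
  obtain ⟨τ', hτ'def⟩ : ∃ τ' : ℝ, τ' = (pp : ℝ) - √2 * qq := ⟨_, rfl⟩
  rw [← hτdef] at hτ hAk hX
  have hττ : (τ * τ') ^ 2 = 1 := by
    have e : τ * τ' = ((pp ^ 2 - 2 * qq ^ 2 : ℤ) : ℝ) := by
      rw [hτdef, hτ'def]
      push_cast
      linear_combination (-(qq : ℝ) ^ 2) * hs
    rw [e]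
    rcases hpell with h | h <;> rw [h] <;> norm_num
  have hX0 : 0 < X := by rw [hX]; positivity
  have hAk0 : 0 < Ak := by rw [hAk]; positivity
  obtain ⟨η, hη⟩ : ∃ η : ℝ, η = τ' * (2 * √2 * z) := ⟨_, rfl⟩
  obtain ⟨η', hη'⟩ : ∃ η' : ℝ, η' = τ * c := ⟨_, rfl⟩
  obtain ⟨u0, hu0⟩ : ∃ u0 : ℝ, u0 = (η + η') / 2 := ⟨_, rfl⟩
  obtain ⟨v0, hv0⟩ : ∃ v0 : ℝ, v0 = (η - η') / (2 * √2) := ⟨_, rfl⟩
  have hsv : √2 * v0 = (η - η') / 2 := by
    rw [hv0]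
    field_simp
  have hp : u0 + √2 * v0 = η := by rw [hsv, hu0]; ring
  have hm : u0 - √2 * v0 = η' := by rw [hsv, hu0]; ring
  have habs : |η| = X * (√2 * z / Ak) := by
    have e1 : X * (√2 * z / Ak) = 2 * √2 * z / τ := by
      rw [hX, hAk]
      field_simp
    have e2 : |τ'| = 1 / τ := by
      have : |τ * τ'| = 1 := by
        rw [← Real.sqrt_sq_eq_abs, hττ, Real.sqrt_one]
      rw [abs_mul, abs_of_pos hτ] at this
      rw [eq_div_iff hτ.ne', mul_comm, this]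
    rw [e1, hη, abs_mul, e2, abs_of_pos (by positivity : 0 < 2 * √2 * z)]
    ring
  have habs' : |η'| ≤ X * (√2 * (9143 / 10000) / B) := by
    have e1 : X * (√2 * (9143 / 10000) / B) = τ * (9143 / 10000) := by
      rw [hX]
      field_simp
    rw [e1, hη', abs_mul, abs_of_pos hτ]
    gcongr
  have hN : X ^ 2 * (z / Ak) ^ 2 ≤ u0 ^ 2 + 2 * v0 ^ 2 := by
    have e1 : η ^ 2 = 2 * (X ^ 2 * (z / Ak) ^ 2) := by
      rw [← sq_abs, habs, mul_div_assoc, mul_pow, mul_pow, hs]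
      ring
    have e2 : u0 ^ 2 + 2 * v0 ^ 2 = (η ^ 2 + η' ^ 2) / 2 := by
      rw [← hp, ← hm]
      linear_combination (-v0 ^ 2) * hs
    rw [e2, e1]
    linarith only [sq_nonneg η']
  have hpos : 0 < u0 ^ 2 + 2 * v0 ^ 2 := lt_of_lt_of_le (by positivity) hN
  have hG : Good X u0 v0 Q0 y0 E0 := by
    refine ⟨hX0, hQ, hQX, hy0, hy1, hb1, hb2, g * X, by positivity, ?_, hb3⟩
    rw [hp, hm, habs]
    calc _ ≤ (X * (√2 * (9143 / 10000) / B) + 343 / 1000 * X) *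
          (X * (√2 * z / Ak) + 343 / 1000 * X) := by gcongr
      _ = (√2 * (9143 / 10000) / B + 343 / 1000) * (√2 * z / Ak + 343 / 1000) * X ^ 2 := by ring
      _ ≤ g ^ 2 * X ^ 2 := by gcongr
      _ = _ := by ring
  have hρ0 : X * √(1 + y0 ^ 2) / (2 * √2 * √(u0 ^ 2 + 2 * v0 ^ 2)) ≤ ρ := by
    refine le_trans ?_ hρ
    have e1 : √(1 + y0 ^ 2) ≤ 1 + y0 ^ 2 / 2 :=
      Real.sqrt_le_iff.2 ⟨by positivity, by nlinarith only [sq_nonneg (y0 ^ 2)]⟩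
    have e2 : X * (z / Ak) ≤ √(u0 ^ 2 + 2 * v0 ^ 2) :=
      Real.le_sqrt_of_sq_le (by rw [mul_pow]; exact hN)
    calc _ ≤ X * (1 + y0 ^ 2 / 2) / (2 * √2 * (X * (z / Ak))) := by gcongr
      _ = _ := by field_simp
  have hρ1 : 0 ≤ ρ := le_trans (by positivity) hρ
  have hE0 : E0 + X ^ 2 / √2 * Real.exp (-Real.pi * ((u0 ^ 2 + 2 * v0 ^ 2) / X ^ 2) *
      (y0 ^ 2 / (1 + y0 ^ 2))) ≤ E := by
    refine le_trans ?_ hE
    have e1 : (z / Ak) ^ 2 ≤ (u0 ^ 2 + 2 * v0 ^ 2) / X ^ 2 := by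
      rw [le_div_iff₀ (by positivity), mul_comm]
      exact hN
    have e2 : -Real.pi * ((u0 ^ 2 + 2 * v0 ^ 2) / X ^ 2) * (y0 ^ 2 / (1 + y0 ^ 2)) ≤
        -Real.pi * (z / Ak) ^ 2 * (y0 ^ 2 / (1 + y0 ^ 2)) := by
      refine mul_le_mul_of_nonneg_right ?_ (by positivity)
      rw [neg_mul, neg_mul, neg_le_neg_iff]
      exact mul_le_mul_of_nonneg_left e1 Real.pi_pos.le
    gcongr
  have hw : ∀ p : ℤ × ℤ,
      Real.exp (-Real.pi * (((p.1 : ℝ) + √2 * p.2 - 2 * √2 * z) / (2 * √2 * Ak)) ^ 2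
          - Real.pi * (((p.1 : ℝ) - √2 * p.2 - c) / B) ^ 2) =
      (fun p : ℤ × ℤ =>
        Real.exp (-Real.pi * ((((p.1 : ℝ) - u0) ^ 2 + 2 * ((p.2 : ℝ) - v0) ^ 2) / X ^ 2)))
        (pp * p.1 - 2 * qq * p.2, pp * p.2 - qq * p.1) := fun p => by
    have := kern_weight (z := z) (c := c) (m := p.1) (k := p.2)
      (u := ((pp * p.1 - 2 * qq * p.2 : ℤ) : ℝ)) (v := ((pp * p.2 - qq * p.1 : ℤ) : ℝ)) hs hs0 hτ hB
      hττ hAk hX
      (by rw [hτ'def]; push_cast; linear_combination ((qq : ℝ) * p.2) * hs)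
      (by rw [hτdef]; push_cast; linear_combination ((qq : ℝ) * p.2) * hs)
    simp only
    rw [← hη, ← hη', ← hu0, ← hv0] at this
    rw [this]
    congr 1
    ring
  rcases hpell with h | h
  · refine le_trans (le_of_eq ?_) ((bilin hG hpos S T a0 b0 NA NB hS hT
      (Z.map (kernMap pp qq hne))).trans
      (kern_Bnd_mono hρ0 hρ1 hE0 hΔ (Nat.cast_nonneg _) (Nat.cast_nonneg _)))
    exact sum_congr rfl fun a _ => sum_congr rfl fun b _ =>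
      kern_sum_map pp qq hne Z _ _ (by rw [h, one_mul]) _ _ hw
  · rw [kern_Bnd_symm, sum_comm]
    refine le_trans (le_of_eq ?_) ((bilin hG hpos T S b0 a0 NB NA hT hS
      (Z.map (kernMap pp qq hne))).trans
      (kern_Bnd_mono hρ0 hρ1 hE0 hΔ (Nat.cast_nonneg _) (Nat.cast_nonneg _)))
    exact sum_congr rfl fun b _ => sum_congr rfl fun a _ =>
      kern_sum_map pp qq hne Z _ _ (by rw [h]; ring) _ _ hw

end Pool.Agent.MP_a001a6_co

end

-- part MP_a001a6_co.Chain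
section

/-
HINTS.  cover_two: by monotonicity take t = 0.9 - s, y = s - 0.45, |y| ≤ 0.45: the sum is 2 exp(-0.2025π) exp(-πy^2) cosh(0.9πy); 2exp(-0.2025π) = 1.05863; and cosh(0.9πy) ≥ 1 + a/2 + a^2/24 (a = 0.81π^2y^2) ≥ exp(πy^2) using exp s ≤ 1 + s + s^2/2 + s^3/4 for 0 ≤ s ≤ 1 (Real.exp_bound).
inv_step: for k ∈ Ico z z', s = (k - z + 1)/Ak and t = (z' - k + 1)/Ak' have s + t ≤ 0.9, so 1.058 ≤ gw z Ak k + gw z' Ak' k; Ico z z' ⊆ Icc z hi, and Ico z z', Icc z' hi' are disjoint subsets of Icc lo' hi'.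
-/

namespace Pool.Agent.MP_a001a6_co

open Finset

theorem chain_cosh (u : ℝ) : 1 + u ^ 2 / 2 + (u ^ 2) ^ 2 / 24 ≤ Real.cosh u := by
  have h := sum_le_hasSum (range 3) (fun n _ => by
    rw [pow_mul]; positivity) (Real.hasSum_cosh u)
  simp only [sum_range_succ, range_zero, sum_empty, Nat.factorial] at h
  norm_num at h
  linarith

theorem chain_exp_le (w : ℝ) (h0 : 0 ≤ w) (h1 : w ≤ 1) :
    Real.exp w ≤ 1 + w + w ^ 2 / 2 + 2 / 9 * w ^ 3 := by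
  have h := Real.exp_bound' h0 h1 (n := 3) (by norm_num)
  simp only [sum_range_succ, range_zero, sum_empty, Nat.factorial] at h
  norm_num at h
  linarith

theorem chain_exp_le_cosh (y : ℝ) (hy : y ^ 2 ≤ 81 / 400) :
    Real.exp (Real.pi * y ^ 2) ≤ Real.cosh (9 / 10 * Real.pi * y) := by
  have hp1 := Real.pi_gt_d2
  have hp2 := Real.pi_lt_d2
  set w := Real.pi * y ^ 2 with hw
  have hw0 : 0 ≤ w := by positivity
  have hw1 : w ≤ 64 / 100 := by nlinarith [sq_nonneg y]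
  refine (chain_exp_le w hw0 (by linarith)).trans (le_trans ?_ (chain_cosh _))
  have hu : (9 / 10 * Real.pi * y) ^ 2 = 81 / 100 * Real.pi * w := by rw [hw]; ring
  rw [hu]
  have h1 : 254 / 100 * w ≤ 81 / 100 * Real.pi * w := by nlinarith
  have h2 : (254 / 100 * w) ^ 2 ≤ (81 / 100 * Real.pi * w) ^ 2 :=
    pow_le_pow_left₀ (by positivity) h1 2
  have h3 : w ^ 2 ≤ 64 / 100 * w := by nlinarith
  have h4 : w ^ 3 ≤ 64 / 100 * w ^ 2 := by nlinarith [sq_nonneg w]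
  nlinarith

theorem chain_const : 529 / 1000 ≤ Real.exp (-(81 / 400 * Real.pi)) := by
  have hp2 := Real.pi_lt_d6
  have h1 : Real.exp (81 / 400 * Real.pi) ≤ Real.exp (6362 / 10000) :=
    Real.exp_le_exp.2 (by linarith)
  have h2 := Real.exp_bound' (x := 6362 / 10000) (by norm_num) (by norm_num) (n := 6)
    (by norm_num)
  simp only [sum_range_succ, range_zero, sum_empty, Nat.factorial] at h2
  have h3 : Real.exp (81 / 400 * Real.pi) ≤ 1000 / 529 := h1.trans (h2.trans (by norm_num))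
  rw [Real.exp_neg, le_inv_comm₀ (by norm_num) (Real.exp_pos _)]
  exact h3.trans (by norm_num)

theorem cover_two (s t : ℝ) (hs : 0 ≤ s) (ht : 0 ≤ t) (h : s + t ≤ 9 / 10) :
    1058 / 1000 ≤ Real.exp (-Real.pi * s ^ 2) + Real.exp (-Real.pi * t ^ 2) := by
  have hp := Real.pi_pos
  set y := s - 9 / 20 with hy
  have hy2 : y ^ 2 ≤ 81 / 400 := by nlinarith
  have h1 : Real.exp (-Real.pi * (9 / 20 - y) ^ 2) ≤ Real.exp (-Real.pi * t ^ 2) := by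
    apply Real.exp_le_exp.2
    have : t ^ 2 ≤ (9 / 20 - y) ^ 2 := pow_le_pow_left₀ ht (by linarith) 2
    nlinarith
  have h2 : Real.exp (-Real.pi * s ^ 2) + Real.exp (-Real.pi * (9 / 20 - y) ^ 2) =
      2 * Real.exp (-(81 / 400 * Real.pi)) *
        (Real.exp (-(Real.pi * y ^ 2)) * Real.cosh (9 / 10 * Real.pi * y)) := by
    have e1 : -Real.pi * s ^ 2 =
        -(81 / 400 * Real.pi) + (-(Real.pi * y ^ 2) + -(9 / 10 * Real.pi * y)) := by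
      rw [hy]; ring
    have e2 : -Real.pi * (9 / 20 - y) ^ 2 =
        -(81 / 400 * Real.pi) + (-(Real.pi * y ^ 2) + 9 / 10 * Real.pi * y) := by ring
    rw [e1, e2, Real.cosh_eq]
    simp only [Real.exp_add]
    ring
  have h3 : 1 ≤ Real.exp (-(Real.pi * y ^ 2)) * Real.cosh (9 / 10 * Real.pi * y) := by
    rw [Real.exp_neg, ← div_eq_inv_mul, le_div_iff₀ (Real.exp_pos _), one_mul]
    exact chain_exp_le_cosh y hy2
  have h4 := chain_const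
  nlinarith

theorem chain_nonneg (z Ak : ℝ) (k : ℕ) : 0 ≤ (ell k : ℝ) * gw z Ak k :=
  mul_nonneg (Nat.cast_nonneg _) (Real.exp_pos _).le

theorem inv_init (z lo hi : ℕ) (Ak T : ℝ) (hlo : lo ≤ z)
    (hT : ∑ k ∈ Icc lo hi, (ell k : ℝ) * gw z Ak k ≤ T) : Inv z z hi Ak T := by
  unfold Inv
  rw [Ico_self, sum_empty, mul_zero, zero_add]
  exact (sum_le_sum_of_subset_of_nonneg (Icc_subset_Icc_left hlo)
    fun k _ _ => chain_nonneg _ _ k).trans hT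

theorem inv_step (z0 z hi z' lo' hi' : ℕ) (Ak Ak' acc T : ℝ) (h : Inv z0 z hi Ak acc)
    (h0 : z0 ≤ z) (hz : z ≤ z') (hhi : z' ≤ hi) (hlo : lo' ≤ z) (hhi' : z' ≤ hi')
    (hA : 0 < Ak) (hA' : 0 < Ak')
    (h1 : (z' : ℝ) - z + 2 ≤ 9 / 10 * Ak) (h2 : (z' : ℝ) - z + 2 ≤ 9 / 10 * Ak')
    (hT : ∑ k ∈ Icc lo' hi', (ell k : ℝ) * gw z' Ak' k ≤ T) : Inv z0 z' hi' Ak' (acc + T) := by
  unfold Inv at h ⊢
  rw [← sum_Ico_consecutive _ h0 hz]
  have a1 : ∑ k ∈ Ico z z', (ell k : ℝ) * gw z Ak k ≤ ∑ k ∈ Icc z hi, (ell k : ℝ) * gw z Ak k := by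
    refine sum_le_sum_of_subset_of_nonneg (fun k hk => ?_) fun k _ _ => chain_nonneg _ _ k
    simp only [mem_Ico, mem_Icc] at hk ⊢
    omega
  have a2 : ∑ k ∈ Ico z z', (ell k : ℝ) * gw z' Ak' k + ∑ k ∈ Icc z' hi', (ell k : ℝ) * gw z' Ak' k
      ≤ ∑ k ∈ Icc lo' hi', (ell k : ℝ) * gw z' Ak' k := by
    rw [← sum_union]
    · refine sum_le_sum_of_subset_of_nonneg (fun k hk => ?_) fun k _ _ => chain_nonneg _ _ k
      simp only [mem_union, mem_Ico, mem_Icc] at hk ⊢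
      omega
    · rw [disjoint_left]
      intro k hk hk'
      simp only [mem_Ico, mem_Icc] at hk hk'
      omega
  have a3 : 1058 / 1000 * ∑ k ∈ Ico z z', (ell k : ℝ) ≤
      ∑ k ∈ Ico z z', (ell k : ℝ) * gw z Ak k + ∑ k ∈ Ico z z', (ell k : ℝ) * gw z' Ak' k := by
    rw [← sum_add_distrib, mul_sum]
    refine sum_le_sum fun k hk => ?_
    obtain ⟨hk1, hk2⟩ := mem_Ico.1 hk
    have hk1' : (z : ℝ) ≤ k := by exact_mod_cast hk1
    have hk2' : (k : ℝ) ≤ z' := by exact_mod_cast hk2.le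
    rw [← mul_add, mul_comm]
    refine mul_le_mul_of_nonneg_left ?_ (Nat.cast_nonneg _)
    unfold gw
    refine cover_two _ _ (by positivity) (by positivity) ?_
    rw [abs_of_nonneg (sub_nonneg.2 hk1'), abs_of_nonpos (sub_nonpos.2 hk2')]
    have hD : (0 : ℝ) < (z' : ℝ) - z + 2 := by linarith
    have b1 : ((k : ℝ) - z + 1) / Ak ≤ ((k : ℝ) - z + 1) * (9 / 10 / ((z' : ℝ) - z + 2)) := by
      rw [div_eq_mul_inv]
      refine mul_le_mul_of_nonneg_left ?_ (by linarith)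
      rw [inv_eq_one_div, div_le_div_iff₀ hA hD]
      linarith
    have b2 : (-((k : ℝ) - z') + 1) / Ak' ≤
        (-((k : ℝ) - z') + 1) * (9 / 10 / ((z' : ℝ) - z + 2)) := by
      rw [div_eq_mul_inv]
      refine mul_le_mul_of_nonneg_left ?_ (by linarith)
      rw [inv_eq_one_div, div_le_div_iff₀ hA' hD]
      linarith
    have b3 : ((k : ℝ) - z + 1) * (9 / 10 / ((z' : ℝ) - z + 2)) +
        (-((k : ℝ) - z') + 1) * (9 / 10 / ((z' : ℝ) - z + 2)) = 9 / 10 := by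
      field_simp
      ring
    linarith
  linarith

theorem inv_out (z0 z hi : ℕ) (Ak acc : ℝ) (h : Inv z0 z hi Ak acc) :
    1058 / 1000 * ∑ k ∈ Ico z0 z, (ell k : ℝ) ≤ acc := by
  unfold Inv at h
  have : 0 ≤ ∑ k ∈ Icc z hi, (ell k : ℝ) * gw z Ak k := sum_nonneg fun k _ => chain_nonneg _ _ k
  linarith

end Pool.Agent.MP_a001a6_co

end

-- part MP_a001a6_co.Game
section

/-
HINTS.  For r ≤ 2k we have Nat.sqrt (k^2 + r) = k (Nat.eq_sqrt or Nat.sqrt_add_eq').  isN_block / isP_block: unfold IsN, IsP, `cases h` on Won (generalize the index first).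
cP_sq_add: induction on b (Nat.le_induction); range ((k+1)^2) splits as range (k^2) and the image of range (2k+1) under r ↦ k^2 + r.
cN_sq_le: an N-position n < k^2 with j = sqrt n < k, r = n - j^2 ≤ 2j has IsP r or IsP (n + j^2).  The first kind injects into the sigma set of pairs (j, r), the second kind injects by the strictly monotone map n ↦ n + (sqrt n)^2 into the P-positions below 2 k^2.
-/

namespace Pool.Agent.MP_a001a6_co

open Finset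

theorem game_sqrt (k r : ℕ) (hr : r ≤ 2 * k) : Nat.sqrt (k ^ 2 + r) = k :=
  Nat.sqrt_add_eq' k (by omega)

theorem game_isN {n : ℕ} (h : IsN n) : IsP (n - Nat.sqrt n ^ 2) ∨ IsP (n + Nat.sqrt n ^ 2) := by
  unfold IsN at h
  cases h with
  | take _ _ h => exact Or.inl h
  | put _ _ h => exact Or.inr h

theorem game_isP {n : ℕ} (hn : 0 < n) (h : IsP n) :
    IsN (n - Nat.sqrt n ^ 2) ∧ IsN (n + Nat.sqrt n ^ 2) := by
  unfold IsP at h
  cases h with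
  | zero => exact absurd hn (lt_irrefl 0)
  | both _ _ h1 h2 => exact ⟨h1, h2⟩

theorem isN_block (k r : ℕ) (hr : r ≤ 2 * k) (h : IsN (k ^ 2 + r)) :
    IsP r ∨ IsP (2 * k ^ 2 + r) := by
  have h1 := game_isN h
  rw [game_sqrt k r hr, Nat.add_sub_cancel_left,
    show k ^ 2 + r + k ^ 2 = 2 * k ^ 2 + r by ring] at h1
  exact h1

theorem isP_block (k r : ℕ) (hk : 0 < k) (hr : r ≤ 2 * k) (h : IsP (k ^ 2 + r)) :
    IsN r ∧ IsN (2 * k ^ 2 + r) := by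
  have h1 := game_isP (by positivity) h
  rw [game_sqrt k r hr, Nat.add_sub_cancel_left,
    show k ^ 2 + r + k ^ 2 = 2 * k ^ 2 + r by ring] at h1
  exact h1

theorem cP_mono {a b : ℕ} (h : a ≤ b) : cP a ≤ cP b := by
  classical
  unfold cP
  exact card_le_card (filter_subset_filter _ (range_subset_range.2 h))

theorem cN_mono {a b : ℕ} (h : a ≤ b) : cN a ≤ cN b := by
  classical
  unfold cN
  exact card_le_card (filter_subset_filter _ (range_subset_range.2 h))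

theorem cP_le (y : ℕ) : cP y ≤ y := by
  classical
  unfold cP
  exact (card_filter_le _ _).trans (card_range y).le

theorem game_cP_succ (k : ℕ) : cP ((k + 1) ^ 2) = cP (k ^ 2) + ell k := by
  unfold cP ell
  rw [card_filter, card_filter, card_filter, show (k + 1) ^ 2 = k ^ 2 + (2 * k + 1) by ring,
    sum_range_add]

theorem cP_sq_add (a b : ℕ) (h : a ≤ b) : cP (b ^ 2) = cP (a ^ 2) + ∑ k ∈ Ico a b, ell k := by
  induction b, h using Nat.le_induction with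
  | base => simp
  | succ b hab ih => rw [game_cP_succ, ih, sum_Ico_succ_top hab, add_assoc]

theorem game_strictMono : StrictMono fun n : ℕ => n + Nat.sqrt n ^ 2 := by
  intro a b hab
  exact add_lt_add_of_lt_of_le hab (Nat.pow_le_pow_left (Nat.sqrt_le_sqrt hab.le) 2)

open Classical in
theorem game_take (k : ℕ) : ((range (k ^ 2)).filter fun n => IsP (n - Nat.sqrt n ^ 2)).card =
    ∑ j ∈ range k, cP (2 * j + 1) := by
  induction k with
  | zero => simp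
  | succ k ih =>
    rw [sum_range_succ, ← ih]
    unfold cP
    rw [card_filter, card_filter, card_filter, show (k + 1) ^ 2 = k ^ 2 + (2 * k + 1) by ring,
      sum_range_add]
    congr 1
    refine sum_congr rfl fun r hr => ?_
    rw [game_sqrt k r (by have := mem_range.1 hr; omega), Nat.add_sub_cancel_left]

open Classical in
theorem game_put (k : ℕ) : ((range (k ^ 2)).filter fun n => IsP (n + Nat.sqrt n ^ 2)).card ≤
    cP (2 * k ^ 2) := by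
  unfold cP
  refine card_le_card_of_injOn (fun n => n + Nat.sqrt n ^ 2) (fun n hn => ?_)
    game_strictMono.injective.injOn
  simp only [coe_filter, mem_range, Set.mem_ofPred_eq] at hn ⊢
  refine ⟨?_, hn.2⟩
  have := Nat.sqrt_le' n
  omega

theorem cN_sq_le (k : ℕ) : cN (k ^ 2) ≤ ∑ j ∈ range k, cP (2 * j + 1) + cP (2 * k ^ 2) := by
  classical
  rw [← game_take k]
  refine le_trans ?_ (Nat.add_le_add_left (game_put k) _)
  refine le_trans ?_ (card_union_le _ _)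
  unfold cN
  refine card_le_card fun n hn => ?_
  simp only [mem_filter, mem_union] at hn ⊢
  rcases game_isN hn.2 with h | h
  · exact Or.inl ⟨hn.1, h⟩
  · exact Or.inr ⟨hn.1, h⟩

end Pool.Agent.MP_a001a6_co

end
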