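import Pool.Agent.MP_a001a6_co.Defs

-- part MP_a001a6_co.Basic
section

/-! Shared definitions for the proof that the P- and N-positions have density zero. -/

namespace Pool.Agent.MP_a001a6_co

open Finset

/-! ### Counting functions -/

open Classical in
/-- number of P-positions below `y` -/
noncomputable def cP (y : ℕ) : ℕ := ((range y).filter IsP).card

open Classical in
/-- number of N-positions below `y` -/
noncomputable def cN (y : ℕ) : ℕ := ((range y).filter IsN).card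

open Classical in
/-- number of P-positions in the block `[k ^ 2, (k + 1) ^ 2)` -/
noncomputable def ell (k : ℕ) : ℕ := ((range (2 * k + 1)).filter (fun r => IsP (k ^ 2 + r))).card

/-! ### Exponential sums -/

/-- `e(x) = exp (2 π i x)` -/
noncomputable def ee (x : ℝ) : ℂ := Complex.exp (2 * Real.pi * Complex.I * x)

/-- complete quadratic Gauss sum with a linear term -/
noncomputable def gs (c m : ℤ) (q : ℕ) : ℂ :=
  ∑ r ∈ range q, ee (((c * (r : ℤ) ^ 2 + m * (r : ℤ) : ℤ) : ℝ) / (q : ℝ))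

/-- normalised Gauss sum of the form `u ^ 2 - 2 v ^ 2` -/
noncomputable def gam (t : ℤ) (q : ℕ) : ℂ := gs t 0 q * gs (-2 * t) 0 q / (q : ℂ) ^ 2

/-- size of `gam t q` for `t` coprime to `q` -/
noncomputable def aq (q : ℕ) : ℝ :=
  if q % 2 = 1 then 1 / (q : ℝ) else if q % 8 = 0 then 2 * √2 / (q : ℝ) else 0

/-- Gaussian-weighted quadratic Weyl sum -/
noncomputable def th (α c φ : ℝ) : ℂ :=
  ∑' n : ℤ, (Real.exp (-Real.pi * α * ((n : ℝ) - c) ^ 2) : ℂ) * ee (φ * (n : ℝ) ^ 2)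

noncomputable def aa (α β : ℝ) : ℂ := (α : ℂ) - 2 * Complex.I * (β : ℂ)

noncomputable def Et (α c β μ : ℝ) : ℂ :=
  Complex.exp (-(Real.pi : ℂ) / aa α β * ((μ : ℂ) + Complex.I * ((α : ℂ) * (c : ℂ))) ^ 2
    - (Real.pi : ℂ) * (α : ℂ) * (c : ℂ) ^ 2)

noncomputable def Jf (α c β : ℝ) : ℂ := 1 / aa α β ^ (1 / 2 : ℂ) * Et α c β 0

/-- Fourier transform of the Gaussian-weighted representation function of `u ^ 2 - 2 v ^ 2` -/
noncomputable def Rh (X u0 v0 θ : ℝ) : ℂ := th (1 / X ^ 2) u0 θ * th (2 / X ^ 2) v0 (-2 * θ)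

/-- archimedean factor on a major arc -/
noncomputable def Ib (X u0 v0 β : ℝ) : ℂ := Jf (1 / X ^ 2) u0 β * Jf (2 / X ^ 2) v0 (-2 * β)

/-- denominators of the major arcs -/
def QQ (Q0 : ℕ) : Finset ℕ := (Icc 1 (3 * Q0)).filter (fun q => q % 2 = 1 → q ≤ Q0)

/-- reduced fractions `p.2 / p.1` in `[0,1)` with denominator in `QQ Q0` -/
def FF (Q0 : ℕ) : Finset (ℕ × ℕ) :=
  (QQ Q0 ×ˢ range (3 * Q0)).filter (fun p => p.2 < p.1 ∧ Nat.Coprime p.2 p.1)

/-- Fourier transform of a finite set of integers -/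
noncomputable def Fh (A : Finset ℤ) (θ : ℝ) : ℂ := ∑ a ∈ A, ee ((a : ℝ) * θ)

noncomputable def sig : ℝ := 2334 / 1000

noncomputable def lam : ℝ := 589 / 10000

/-- moduli and weights (times `10 ^ 4`) of the linear-programming splitting -/
def kap : List (ℕ × ℤ) :=
  [(1, -19516), (3, -9802), (5, -3135), (7, 5355), (8, -24202), (9, 7039), (11, 13364),
   (13, 4654), (15, 3507), (16, 4343), (21, 16550), (24, 23906), (32, 5948), (33, -9424),
   (35, -4629), (39, -2306), (40, 15308), (45, 7664), (48, 11), (56, 7734), (63, -10000),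
   (65, 1974), (77, -219), (80, -3632), (88, -196), (104, -1974), (120, -10000), (168, -8911)]

/-- the multiplier attached to the denominator `q` -/
noncomputable def sq (q : ℕ) : ℝ :=
  ((kap.map (fun e => if q ∣ e.1 then e.2 else 0)).sum : ℤ) / (10000 : ℝ)

/-- parameter conditions for the pointwise estimates of `Rh` -/
structure Good (X u0 v0 : ℝ) (Q0 : ℕ) (y0 E0 : ℝ) : Prop where
  hX : 0 < X
  hQ : 77 ≤ Q0
  hQX : 9 * (Q0 : ℝ) ^ 2 ≤ X ^ 2
  hy0 : 0 < y0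
  hy1 : y0 < 1
  hb1 : (X + Q0) * (X + √2 * Q0) / (√2 * Q0) ≤ E0
  hb2 : 407 / 100 * X ≤ E0
  hb3 : ∃ G : ℝ, 0 ≤ G ∧
    (|u0 - √2 * v0| + 343 / 1000 * X) * (|u0 + √2 * v0| + 343 / 1000 * X) ≤ G ^ 2 ∧
    √2 * G * (1 + √2 * Q0 / X) * (1 + 2 * Q0 / X) ≤ E0

/-- the shape of all bilinear bounds -/
noncomputable def Bnd (ρ E Δ NA NB a b : ℝ) : ℝ :=
  ρ * (sig * a * b + √((lam * NA + Δ) * a) * √((lam * NB + Δ) * b)) + E * √(a * b)

/-- the bilinear estimate for the Gaussian window centred at `m + √2 k = 2 √2 z` -/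
def Kern (z Ak B ρ E Δ : ℝ) : Prop :=
  ∀ (c : ℝ), |c| ≤ 9143 / 10000 → ∀ (S T : Finset ℤ) (a0 b0 : ℤ) (NA NB : ℕ),
    (∀ a ∈ S, a0 ≤ a ∧ a < a0 + NA) → (∀ b ∈ T, b0 ≤ b ∧ b < b0 + NB) →
    ∀ Z : Finset (ℤ × ℤ),
      ∑ a ∈ S, ∑ b ∈ T, ∑ p ∈ Z.filter (fun p => p.1 ^ 2 - 2 * p.2 ^ 2 = a - b),
        Real.exp (-Real.pi * (((p.1 : ℝ) + √2 * p.2 - 2 * √2 * z) / (2 * √2 * Ak)) ^ 2
          - Real.pi * (((p.1 : ℝ) - √2 * p.2 - c) / B) ^ 2)
        ≤ Bnd ρ E Δ NA NB S.card T.card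

/-- weight of block `k` in the window centred at `z` -/
noncomputable def gw (z Ak : ℝ) (k : ℕ) : ℝ := Real.exp (-Real.pi * ((|(k : ℝ) - z| + 1) / Ak) ^ 2)

/-- the bound for one window -/
noncomputable def Tw (ρ E Δ pk1 pk2 x W2 W4 P3 : ℝ) : ℝ :=
  pk1 * (ρ * (sig * W2 * P3 + √((lam * (2 * x + 1) + Δ) * W2) * √((lam * (283 / 100 * x) + Δ) * P3))
      + E * √(W2 * P3))
  + pk2 * (ρ * (sig * W2 * W4
        + √((lam * (4 * x + 1) + 2 * Δ) * W4) * √((lam * (2 * x + 4) + 4 * Δ) * W2))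
      + √7 * E * √(W2 * W4))

/-- invariant of a chain of windows: blocks in `[z0, z)` are fully paid for and the right half of
the last window is still available -/
def Inv (z0 z hi : ℕ) (Ak acc : ℝ) : Prop :=
  1058 / 1000 * ∑ k ∈ Ico z0 z, (ell k : ℝ) + ∑ k ∈ Icc z hi, (ell k : ℝ) * gw z Ak k ≤ acc

end Pool.Agent.MP_a001a6_co

end

-- part MP_a001a6_co.Gauss
section

/-
HINTS.  Key identity: ‖gs c m q‖^2 = q * ∑_{d < q, q ∣ 2 c d} ee ((c d^2 + m d)/q)  (expand gs * conj gs, substitute r = s + d using periodicity mod q, and use the geometric sum ∑_{s<q} ee (2 c d s / q) = q if q ∣ 2cd else 0).  Working in ZMod q with ZMod.stdAddChar or ZMod.toCircle may be more convenient.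
Cases (t coprime to q): q odd: (μ1,μ2,o1,o2) = (1,1,0,0), only d = 0.
q ≡ 2 mod 4: (2,2,1,0): first sum d ∈ {0,q/2}: 1 + ee(tq/4 + m/2) = 1 - (-1)^m; second (c = -2t, q ∣ 4td): d ∈ {0,q/2}: 1 + (-1)^m.
q ≡ 4 mod 8: (2,4,0,2): first 1 + (-1)^m; second d = jq/4, j<4: ∑ (-1)^j i^(mj) = 4 if m ≡ 2 mod 4 else 0.
8 ∣ q: (2,4,0,0): first 1 + (-1)^m; second ∑ i^(mj) = 4 if 4 ∣ m else 0.
Only upper bounds are needed: the number of admissible d is at most μ, and the sum vanishes off the coset.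
Norm gap: q odd: 2m^2 ≠ m'^2 for (m,m') ≠ 0 (irrationality of √2).  q ≡ 2 mod 4: m odd, m' = 2n: 2(m^2 - 2n^2) with odd bracket.  q ≡ 4 mod 8: m = 2a, m' = 2o, o odd: 4(2a^2 - o^2).  8 ∣ q: 8(a^2 - 2b^2).
norm_gam_le follows from the same case analysis (aq q = 0 exactly when one of the two sums at m = 0 vanishes).
-/

namespace Pool.Agent.MP_a001a6_co

open Finset

theorem gauss_ee_add (x y : ℝ) : ee (x + y) = ee x * ee y := by
  rw [ee, ee, ee, ← Complex.exp_add]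
  congr 1
  push_cast
  ring

theorem gauss_ee_int (n : ℤ) : ee n = 1 := by
  rw [ee, Complex.exp_eq_one_iff]
  exact ⟨n, by push_cast; ring⟩

theorem gauss_ee_conj (x : ℝ) : (starRingEnd ℂ) (ee x) = ee (-x) := by
  rw [ee, ee, ← Complex.exp_conj]
  congr 1
  simp [Complex.conj_ofReal, map_ofNat]

theorem gauss_ee_eq_one {x : ℝ} (h : ee x = 1) : ∃ n : ℤ, x = n := by
  rw [ee, Complex.exp_eq_one_iff] at h
  obtain ⟨n, hn⟩ := h
  refine ⟨n, ?_⟩
  have h2 : (2 * Real.pi * Complex.I : ℂ) ≠ 0 := Complex.two_pi_I_ne_zero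
  have h3 : (x : ℂ) = n := mul_left_cancel₀ h2 (by rw [hn]; ring)
  exact_mod_cast h3

/-- `e(n / q)` -/
noncomputable def gaussE (q : ℕ) (n : ℤ) : ℂ := ee ((n : ℝ) / (q : ℝ))

theorem gaussE_add (q : ℕ) (a b : ℤ) : gaussE q (a + b) = gaussE q a * gaussE q b := by
  rw [gaussE, gaussE, gaussE, ← gauss_ee_add]
  congr 1
  push_cast
  ring

theorem gaussE_dvd {q : ℕ} (hq : 0 < q) {a : ℤ} (h : (q : ℤ) ∣ a) : gaussE q a = 1 := by
  obtain ⟨b, rfl⟩ := h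
  have : (q : ℝ) ≠ 0 := by positivity
  rw [gaussE, ← gauss_ee_int b]
  congr 1
  push_cast
  field_simp

theorem gaussE_congr {q : ℕ} (hq : 0 < q) {a b : ℤ} (h : (q : ℤ) ∣ a - b) :
    gaussE q a = gaussE q b := by
  have : a = b + (a - b) := by ring
  rw [this, gaussE_add, gaussE_dvd hq h, mul_one]

theorem gaussE_mul_nat {q : ℕ} (hq : 0 < q) (a : ℤ) (s : ℕ) :
    gaussE q (a * s) = gaussE q a ^ s := by
  induction s with
  | zero => simpa using gaussE_dvd hq (dvd_zero _)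
  | succ s ih => rw [Nat.cast_succ, mul_add, gaussE_add, ih, mul_one, pow_succ]

theorem gaussE_geom {q : ℕ} (hq : 0 < q) (a : ℤ) :
    ∑ s ∈ range q, gaussE q (a * s) = if (q : ℤ) ∣ a then (q : ℂ) else 0 := by
  simp only [gaussE_mul_nat hq]
  split_ifs with h
  · simp [gaussE_dvd hq h]
  · have h1 : gaussE q a ≠ 1 := fun h1 => by
      obtain ⟨n, hn⟩ := gauss_ee_eq_one h1
      have h0 : (q : ℝ) ≠ 0 := by positivity
      rw [div_eq_iff h0] at hn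
      exact h ⟨n, by exact_mod_cast hn.trans (mul_comm _ _)⟩
    rw [geom_sum_eq h1, ← gaussE_mul_nat hq, gaussE_dvd hq (dvd_mul_left _ _), sub_self, zero_div]

theorem gauss_shift (q : ℕ) (f : ℕ → ℂ) (hf : ∀ n, f (n + q) = f n) (s : ℕ) :
    ∑ r ∈ range q, f (r + s) = ∑ r ∈ range q, f r := by
  induction s with
  | zero => rfl
  | succ s ih =>
    have h1 := sum_range_succ (fun r => f (r + s)) q
    have h2 := sum_range_succ' (fun r => f (r + s)) q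
    rw [h1, zero_add, add_comm q s, hf, ih] at h2
    rw [add_right_cancel h2]
    exact sum_congr rfl fun r _ => by rw [add_assoc, add_comm 1 s]

theorem gauss_sq (c m : ℤ) {q : ℕ} (hq : 0 < q) :
    gs c m q * (starRingEnd ℂ) (gs c m q) =
      ∑ d ∈ range q, if (q : ℤ) ∣ 2 * c * d then q * gaussE q (c * (d : ℤ) ^ 2 + m * d) else 0 := by
  have h0 : gs c m q = ∑ r ∈ range q, gaussE q (c * (r : ℤ) ^ 2 + m * r) := rfl
  have h1 : (starRingEnd ℂ) (gs c m q) = ∑ s ∈ range q, gaussE q (-(c * (s : ℤ) ^ 2 + m * s)) := by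
    rw [h0, map_sum]
    refine sum_congr rfl fun s _ => ?_
    rw [gaussE, gauss_ee_conj, gaussE, Int.cast_neg, neg_div]
  rw [h1, mul_sum]
  have h2 : ∀ s ∈ range q, gs c m q * gaussE q (-(c * (s : ℤ) ^ 2 + m * s)) =
      ∑ d ∈ range q, gaussE q (c * (d : ℤ) ^ 2 + m * d) * gaussE q (2 * c * d * s) := fun s _ => by
    rw [h0, ← gauss_shift q (fun r => gaussE q (c * (r : ℤ) ^ 2 + m * r))
      (fun n => gaussE_congr hq ⟨c * (2 * n + q) + m, by push_cast; ring⟩) s, sum_mul]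
    refine sum_congr rfl fun d _ => ?_
    rw [← gaussE_add, ← gaussE_add]
    congr 1
    push_cast
    ring
  rw [sum_congr rfl h2, sum_comm]
  refine sum_congr rfl fun d _ => ?_
  rw [← mul_sum, gaussE_geom hq]
  split_ifs
  · ring
  · ring

theorem gauss_multiples (μ k : ℕ) (hk : 0 < k) (g : ℕ → ℂ) :
    ∑ d ∈ range (μ * k), (if k ∣ d then g d else 0) = ∑ j ∈ range μ, g (j * k) := by
  rw [← sum_filter]
  have h : (range (μ * k)).filter (fun d => k ∣ d) = (range μ).image (fun j => j * k) := by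
    ext d
    simp only [mem_filter, mem_range, mem_image]
    constructor
    · rintro ⟨h1, j, rfl⟩
      exact ⟨j, by rw [mul_comm k j] at h1; exact lt_of_mul_lt_mul_right h1 (Nat.zero_le _),
        mul_comm _ _⟩
    · rintro ⟨j, h1, rfl⟩
      exact ⟨Nat.mul_lt_mul_of_pos_right h1 hk, dvd_mul_left _ _⟩
  rw [h, sum_image fun a _ b _ hab => Nat.eq_of_mul_eq_mul_right hk hab]

theorem gauss_norm (c m o : ℤ) (μ k q : ℕ) (hq : 0 < q) (hqk : q = μ * k)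
    (h1 : ∀ d : ℤ, (q : ℤ) ∣ 2 * c * d ↔ (k : ℤ) ∣ d)
    (h2 : ∀ j : ℤ, (μ : ℤ) ∣ c * j ^ 2 * k + o * j) :
    ‖gs c m q‖ ≤ if (μ : ℤ) ∣ m - o then √((μ : ℝ) * q) else 0 := by
  have hμ : 0 < μ := Nat.pos_of_mul_pos_right (hqk ▸ hq)
  have hk : 0 < k := Nat.pos_of_mul_pos_left (hqk ▸ hq)
  have h3 := gauss_sq c m hq
  simp only [h1, Int.natCast_dvd_natCast] at h3
  have h4 := gauss_multiples μ k hk fun d => q * gaussE q (c * (d : ℤ) ^ 2 + m * d)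
  rw [← hqk] at h4
  rw [h4, ← mul_sum] at h3
  have h5 : ∀ j ∈ range μ, gaussE q (c * ((j * k : ℕ) : ℤ) ^ 2 + m * ((j * k : ℕ) : ℤ)) =
      gaussE μ ((m - o) * j) := fun j _ => by
    rw [← gaussE_congr hμ (a := c * (j : ℤ) ^ 2 * k + m * j)
      (by obtain ⟨e, he⟩ := h2 j; exact ⟨e, by rw [← he]; ring⟩), gaussE, gaussE, hqk]
    congr 1
    have : (μ : ℝ) ≠ 0 := by positivity
    have : (k : ℝ) ≠ 0 := by positivity
    push_cast
    field_simp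
  rw [sum_congr rfl h5, gaussE_geom hμ, Complex.mul_conj, Complex.normSq_eq_norm_sq] at h3
  split_ifs at h3 ⊢
  · have h6 : ‖gs c m q‖ ^ 2 = (μ : ℝ) * q := by
      rw [mul_comm]
      exact_mod_cast h3
    rw [← h6, Real.sqrt_sq (norm_nonneg _)]
  · have h6 : ‖gs c m q‖ ^ 2 = 0 := by
      rw [mul_zero] at h3
      exact_mod_cast h3
    exact (pow_eq_zero_iff two_ne_zero).1 h6 |>.le

theorem gauss_dvd {t e : ℤ} {q k : ℕ} (hc : Int.gcd t q = 1) (hk : k ∣ q) (he : IsCoprime (k : ℤ) e)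
    (d : ℤ) : (k : ℤ) ∣ e * t * d ↔ (k : ℤ) ∣ d := by
  refine ⟨fun h => ?_, fun h => h.mul_left _⟩
  have h1 : IsCoprime (k : ℤ) t :=
    ((Int.isCoprime_iff_gcd_eq_one.2 hc).of_isCoprime_of_dvd_right
      (Int.natCast_dvd_natCast.2 hk)).symm
  exact (he.mul_right h1).dvd_of_dvd_mul_left h

theorem gauss_two_sq {a b : ℤ} (h : 2 * a ^ 2 = b ^ 2) : a = 0 ∧ b = 0 := by
  have ha : a = 0 := by
    by_contra ha
    have h0 : (a : ℝ) ≠ 0 := by exact_mod_cast ha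
    have h1 : (2 : ℝ) * (a : ℝ) ^ 2 = (b : ℝ) ^ 2 := by exact_mod_cast h
    have h2 : √2 = ((|b| : ℤ) : ℝ) / ((|a| : ℤ) : ℝ) := by
      push_cast
      rw [← abs_div, ← Real.sqrt_sq_eq_abs]
      congr 1
      field_simp
      linarith
    exact (irrational_iff_ne_rational _).1 irrational_sqrt_two _ _ (abs_ne_zero.2 ha) h2
  refine ⟨ha, ?_⟩
  rw [ha] at h
  exact (pow_eq_zero_iff two_ne_zero).1 (by linarith)

theorem gauss_odd_coprime {k : ℕ} (hk : k % 2 = 1) : IsCoprime (k : ℤ) 2 :=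
  ⟨1, -((k / 2 : ℕ) : ℤ), by omega⟩

theorem gauss_sq_parity (j : ℤ) : (2 : ℤ) ∣ j ^ 2 - j := by
  have h := (Int.even_mul_pred_self j).two_dvd
  rwa [show j * (j - 1) = j ^ 2 - j by ring] at h

theorem gauss_support (t : ℤ) (q : ℕ) (hq : 0 < q) (hc : Int.gcd t q = 1) :
    ∃ (μ1 μ2 : ℕ) (o1 o2 : ℤ),
      ((μ1 = 1 ∧ μ2 = 1) ∨ (μ1 = 2 ∧ μ2 = 2) ∨ (μ1 = 2 ∧ μ2 = 4)) ∧
      (∀ m : ℤ, ‖gs t m q‖ ≤ if (μ1 : ℤ) ∣ m - o1 then √((μ1 : ℝ) * q) else 0) ∧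
      (∀ m : ℤ, ‖gs (-2 * t) m q‖ ≤ if (μ2 : ℤ) ∣ m - o2 then √((μ2 : ℝ) * q) else 0) ∧
      (∀ m m' : ℤ, (μ1 : ℤ) ∣ m - o1 → (μ2 : ℤ) ∣ m' - o2 → (m, m') ≠ (0, 0) →
        (μ1 : ℤ) * μ2 ≤ 2 * |2 * m ^ 2 - m' ^ 2|) ∧
      ((μ1 : ℤ) ∣ o1 → (μ2 : ℤ) ∣ o2 → aq q = √((μ1 : ℝ) * μ2) / q) := by
  have hne : ∀ m m' : ℤ, (m, m') ≠ (0, 0) → 2 * m ^ 2 - m' ^ 2 ≠ 0 := fun m m' h h' => by
    obtain ⟨h1, h2⟩ := gauss_two_sq (sub_eq_zero.1 h')
    exact h (by rw [h1, h2])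
  have hgap : ∀ (e x : ℤ), 0 < e → e ∣ x → x ≠ 0 → e ≤ |x| := fun e x _ h1 h2 =>
    Int.le_of_dvd (abs_pos.2 h2) ((dvd_abs _ _).2 h1)
  by_cases h2 : q % 2 = 1
  · have hco := gauss_odd_coprime h2
    refine ⟨1, 1, 0, 0, Or.inl ⟨rfl, rfl⟩, fun m => ?_, fun m => ?_, fun m m' _ _ h => ?_,
      fun _ _ => ?_⟩
    · exact gauss_norm t m 0 1 q q hq (one_mul _).symm (gauss_dvd hc dvd_rfl hco)
        fun j => by simp
    · refine gauss_norm (-2 * t) m 0 1 q q hq (one_mul _).symm (fun d => ?_) fun j => by simp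
      rw [← gauss_dvd hc dvd_rfl (hco.mul_right hco).neg_right d]
      rw [show 2 * (-2 * t) * d = -(2 * 2) * t * d by ring]
    · have := hgap 1 _ one_pos (one_dvd _) (hne m m' h)
      push_cast
      linarith
    · simp [aq, h2]
  obtain ⟨k, hk⟩ : 2 ∣ q := by omega
  obtain ⟨u, hu⟩ : ∃ u, t = 2 * u + 1 := by
    have h1 : IsCoprime (2 : ℤ) t :=
      ((Int.isCoprime_iff_gcd_eq_one.2 hc).of_isCoprime_of_dvd_right
        (Int.natCast_dvd_natCast.2 ⟨k, hk⟩ : ((2 : ℕ) : ℤ) ∣ q)).symm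
    obtain ⟨a, b, hab⟩ := h1
    rcases Int.even_or_odd' t with ⟨u, rfl | rfl⟩
    · exfalso
      have : 2 * (a + b * u) = 1 := by rw [← hab]; ring
      omega
    · exact ⟨u, rfl⟩
  have hqk : (q : ℤ) = 2 * k := by exact_mod_cast hk
  have hA : ∀ d : ℤ, (q : ℤ) ∣ 2 * t * d ↔ (k : ℤ) ∣ d := fun d => by
    rw [← gauss_dvd hc (Dvd.intro_left 2 hk.symm) isCoprime_one_right d, hqk, mul_assoc,
      mul_dvd_mul_iff_left two_ne_zero, one_mul]
  by_cases h4 : k % 2 = 1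
  · have hco := gauss_odd_coprime h4
    obtain ⟨v, hv⟩ : ∃ v : ℤ, (k : ℤ) = 2 * v + 1 := ⟨(k / 2 : ℕ), by omega⟩
    refine ⟨2, 2, 1, 0, Or.inr (Or.inl ⟨rfl, rfl⟩), fun m => ?_, fun m => ?_,
      fun m m' h h' h'' => ?_, fun h _ => ?_⟩
    · refine gauss_norm t m 1 2 k q hq hk hA fun j => ?_
      obtain ⟨w, hw⟩ := gauss_sq_parity j
      exact ⟨(2 * u * v + u + v + 1) * j ^ 2 - w, by
        rw [hu, hv]; push_cast; linear_combination (-1 : ℤ) * hw⟩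
    · refine gauss_norm (-2 * t) m 0 2 k q hq hk (fun d => ?_) fun j =>
        ⟨-t * j ^ 2 * k, by push_cast; ring⟩
      rw [← gauss_dvd hc (Dvd.intro_left 2 hk.symm) hco.neg_right d, hqk, mul_assoc,
        mul_dvd_mul_iff_left two_ne_zero]
    · obtain ⟨b, hb⟩ := h'
      have := hgap 2 _ two_pos ⟨m ^ 2 - 2 * b ^ 2, by
        rw [show m' = 2 * b by push_cast at hb; linarith]; ring⟩ (hne m m' h'')
      push_cast
      linarith
    · exact absurd h (by decide)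
  obtain ⟨l, hl⟩ : 2 ∣ k := by omega
  have hql : q = 4 * l := by omega
  have hkl : (k : ℤ) = 2 * l := by exact_mod_cast hl
  have hB : ∀ d : ℤ, (q : ℤ) ∣ 2 * (-2 * t) * d ↔ (l : ℤ) ∣ d := fun d => by
    rw [← gauss_dvd hc (Dvd.intro_left 4 hql.symm) isCoprime_one_right.neg_right d, hqk, hkl,
      show 2 * (-2 * t) * d = 2 * (2 * (-1 * t * d)) by ring,
      mul_dvd_mul_iff_left two_ne_zero, mul_dvd_mul_iff_left two_ne_zero]
  have hC : ∀ m : ℤ, ‖gs t m q‖ ≤ if ((2 : ℕ) : ℤ) ∣ m - 0 then √(((2 : ℕ) : ℝ) * q) else 0 :=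
    fun m => gauss_norm t m 0 2 k q hq hk hA fun j =>
      ⟨t * j ^ 2 * l, by rw [hkl]; push_cast; ring⟩
  have hG : ∀ m m' : ℤ, ((2 : ℕ) : ℤ) ∣ m - 0 → (2 : ℤ) ∣ m' → (m, m') ≠ (0, 0) →
      ((2 : ℕ) : ℤ) * (4 : ℕ) ≤ 2 * |2 * m ^ 2 - m' ^ 2| := fun m m' h h' h'' => by
    obtain ⟨a, ha⟩ := h
    obtain ⟨b, hb⟩ := h'
    have := hgap 4 _ four_pos ⟨2 * a ^ 2 - b ^ 2, by
      rw [show m = 2 * a by push_cast at ha; linarith, hb]; ring⟩ (hne m m' h'')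
    push_cast
    linarith
  by_cases h8 : l % 2 = 1
  · obtain ⟨v, hv⟩ : ∃ v : ℤ, (l : ℤ) = 2 * v + 1 := ⟨(l / 2 : ℕ), by omega⟩
    refine ⟨2, 4, 0, 2, Or.inr (Or.inr ⟨rfl, rfl⟩), hC, fun m => ?_,
      fun m m' h h' h'' => hG m m' h (by push_cast at h'; omega) h'', fun _ h => ?_⟩
    · refine gauss_norm (-2 * t) m 2 4 l q hq hql hB fun j => ?_
      obtain ⟨w, hw⟩ := gauss_sq_parity j
      exact ⟨-(2 * u * v + u + v) * j ^ 2 - w, by
        rw [hu, hv]; push_cast; linear_combination (-2 : ℤ) * hw⟩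
    · exact absurd h (by decide)
  · obtain ⟨v, hv⟩ : ∃ v : ℤ, (l : ℤ) = 2 * v := ⟨(l / 2 : ℕ), by omega⟩
    refine ⟨2, 4, 0, 0, Or.inr (Or.inr ⟨rfl, rfl⟩), hC, fun m => ?_,
      fun m m' h h' h'' => hG m m' h (by push_cast at h'; omega) h'', fun _ _ => ?_⟩
    · exact gauss_norm (-2 * t) m 0 4 l q hq hql hB fun j =>
        ⟨-t * j ^ 2 * v, by rw [hv]; push_cast; ring⟩
    · rw [aq, if_neg h2, if_pos (by omega)]
      congr 1
      rw [show (((2 : ℕ) : ℝ) * (4 : ℕ)) = 2 ^ 2 * 2 by norm_num,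
        Real.sqrt_mul (by norm_num), Real.sqrt_sq (by norm_num)]

theorem norm_gam_le (t : ℤ) (q : ℕ) (hq : 0 < q) (hc : Int.gcd t q = 1) : ‖gam t q‖ ≤ aq q := by
  have h0 : 0 ≤ aq q := by
    rw [aq]
    split_ifs
    · positivity
    · positivity
    · exact le_rfl
  obtain ⟨μ1, μ2, o1, o2, -, h1, h2, -, h3⟩ := gauss_support t q hq hc
  have h4 := mul_le_mul (h1 0) (h2 0) (norm_nonneg _) ((norm_nonneg _).trans (h1 0))
  have hq' : (0 : ℝ) < q := by positivity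
  rw [gam, norm_div, norm_mul, norm_pow, Complex.norm_natCast, div_le_iff₀ (by positivity)]
  refine h4.trans ?_
  simp only [zero_sub, dvd_neg]
  split_ifs with a1 a2
  · rw [h3 a1 a2, ← Real.sqrt_mul (by positivity),
      show (μ1 : ℝ) * q * (μ2 * q) = (μ1 * μ2) * q ^ 2 by ring, Real.sqrt_mul (by positivity),
      Real.sqrt_sq hq'.le]
    apply le_of_eq
    field_simp
  all_goals
    simp only [mul_zero, zero_mul]
    positivity

theorem gam_add_mul (t n : ℤ) (q : ℕ) (hq : 0 < q) : gam (t + n * q) q = gam t q := by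
  have h : ∀ c e : ℤ, gs (c + e * q) 0 q = gs c 0 q := fun c e =>
    sum_congr rfl fun r _ => gaussE_congr hq (a := (c + e * q) * (r : ℤ) ^ 2 + 0 * r)
      (b := c * (r : ℤ) ^ 2 + 0 * r) ⟨e * (r : ℤ) ^ 2, by ring⟩
  rw [gam, gam, h, show -2 * (t + n * q) = -2 * t + (-2 * n) * q by ring, h]

end Pool.Agent.MP_a001a6_co

end
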