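import Pool.Agent.MP_a001a6_co.Mg.Game
import Pool.Agent.MP_a001a6_co.Comp3
import Pool.Agent.MP_a001a6_co.Mg.Window

-- part MP_a001a6_co.SDef
section

/-! Specifications for the kernel-evaluated programs. -/

namespace Pool.Agent.MP_a001a6_co

open Finset

theorem band_iff (a b : Bool) : band a b = true ↔ a = true ∧ b = true := by
  cases a <;> cases b <;> simp [band]

/-- the tables of every level contain the small elements of `N` and `P` -/
def LvOK (P N : ℕ → Prop) (ls : List Lv) : Prop :=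
  ∀ v ∈ ls, (∀ n < v.tw, N n → v.w.testBit n = true) ∧ (∀ n < v.tl, P n → v.l.testBit n = true)

/-- `f k r len` has bit `i` set whenever `k ^ 2 + r + i` lies in `Q` -/
def Cov (Q : ℕ → Prop) (f : ℕ → ℕ → ℕ → ℕ) : Prop :=
  ∀ k r len i : ℕ, 0 < k → r + len ≤ 2 * k + 1 → i < len → Q (k ^ 2 + r + i) →
    (f k r len).testBit i = true

/-- consecutive groups of blocks from `k` to `k'` with bounds for their numbers of P-positions -/
def IncTo : ℕ → List (ℕ × ℕ) → ℕ → Prop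
  | k, [], k' => k = k'
  | k, i :: l, k' => ∑ j ∈ Ico k (k + i.1), ell j ≤ i.2 ∧ IncTo (k + i.1) l k'

def TabOK (f : ℕ → ℕ) (tab : List (ℕ × ℕ)) : Prop := ∀ e ∈ tab, f (e.1 ^ 2) ≤ e.2

def TrAll (f : ℕ → ℕ → Prop) : Tr → ℕ → ℕ → Prop
  | .leaf p, sz, j => sz = 1 ∧ f j p
  | .node l r, sz, j => TrAll f l (sz / 2) j ∧ TrAll f r (sz - sz / 2) (j + sz / 2)

def TLok (t : Tr) (sz : ℕ) : Prop :=
  TrAll (fun j p => ∀ r ≤ 2 * j, IsP (j ^ 2 + r) → (bitsF 1 p).testBit r = true) t sz 0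

def TWok (t : Tr) (sz : ℕ) : Prop :=
  TrAll (fun j p => ∀ r ≤ 2 * j, IsN (j ^ 2 + r) → IsP r ∨ (bitsF 1 p).testBit r = true) t sz 0

/-- the set bits of `x` are exactly the bits `20 * i`, `i ∈ S` -/
def Sp (x : ℕ) (S : Finset ℕ) : Prop := ∀ n, x.testBit n = true ↔ ∃ i ∈ S, n = 20 * i

def Fwd (Q : ℕ → Prop) (x n : ℕ) : Prop := ∃ S, Sp x S ∧ ∀ b < n, Q b → b ∈ S

def Rev (Q : ℕ → Prop) (x n c : ℕ) : Prop :=
  ∃ S, Sp x S ∧ S.card ≤ c ∧ ∀ a < n, Q a → n - 1 - a ∈ S

open Classical in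
noncomputable def cpos (A B : ℕ → Prop) (NA NB d : ℕ) : ℕ :=
  ((range NA).filter (fun a => A a ∧ a + d < NB ∧ B (a + d))).card

open Classical in
noncomputable def cneg (A B : ℕ → Prop) (NA NB d : ℕ) : ℕ :=
  ((range NA).filter (fun a => A a ∧ d ≤ a ∧ a - d < NB ∧ B (a - d))).card

def mz (k : ℕ) : ℕ := Nat.sqrt (2 * k ^ 2)

def gz (k : ℕ) : ℕ := 2 * k ^ 2 - mz k ^ 2

def hz (k : ℕ) : ℕ := 2 * mz k + 1 - gz k

open Classical in
noncomputable def partW (k : ℕ) : ℕ :=
  ((range (2 * k + 1)).filter (fun r => IsN r ∧ gz k ≤ r ∧ IsN (r - gz k))).card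
  + ((range (2 * k + 1)).filter (fun r => IsN r ∧ r < gz k ∧ IsN (r + (4 * k - 1 - gz k)))).card
  + ((range (2 * k + 1)).filter (fun r => IsN r ∧ hz k ≤ r ∧ IsN (r + hz k))).card

open Classical in
noncomputable def partL (k : ℕ) : ℕ :=
  ((range (2 * k + 1)).filter (fun r => IsN r ∧ r + gz k ≤ 2 * mz k ∧ IsP (r + gz k))).card
  + ((range (2 * k + 1)).filter (fun r => IsN r ∧ hz k ≤ r ∧ IsP (r - hz k))).card

def UB (f : ℕ → ℕ) (l : List Wn) : Prop := ∀ v ∈ l, ∀ k, v.k1 ≤ k → k < v.k2 → f k ≤ v.c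

def DensTo (k : ℕ) : Prop := ∀ y, 30276 ≤ y → y ≤ k ^ 2 → 10000 * cP y ≤ 115 * y

noncomputable def akR (Z : Zn) : ℝ := ((Z.pp : ℝ) + √2 * Z.qq) ^ 2 * ((Z.b : ℝ) / 10) / (2 * √2)

end Pool.Agent.MP_a001a6_co

end

-- part MP_a001a6_co.SEv
section

/-! Soundness of the block evaluation programs and of the base tables. -/

namespace Pool.Agent.MP_a001a6_co

open Finset

theorem sev_ones_eq (n : ℕ) : ones n = 2 ^ n - 1 := by
  show 1 <<< n - 1 = 2 ^ n - 1
  rw [Nat.one_shiftLeft]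

theorem sev_ones (n i : ℕ) : (ones n).testBit i = decide (i < n) := by
  rw [sev_ones_eq, Nat.testBit_two_pow_sub_one]

theorem sev_ones_lt {n i : ℕ} (h : i < n) : (ones n).testBit i = true := by
  rw [sev_ones, decide_eq_true h]

theorem sev_lor (a b i : ℕ) : (Nat.lor a b).testBit i = (a.testBit i || b.testBit i) :=
  Nat.testBit_lor a b i

theorem sev_land (a b i : ℕ) : (Nat.land a b).testBit i = (a.testBit i && b.testBit i) :=
  Nat.testBit_land a b i

theorem sev_shr (a n i : ℕ) : (Nat.shiftRight a n).testBit i = a.testBit (n + i) :=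
  Nat.testBit_shiftRight a

theorem sev_shl (a n i : ℕ) :
    (Nat.shiftLeft a n).testBit i = (decide (i ≥ n) && a.testBit (i - n)) :=
  Nat.testBit_shiftLeft a

theorem sev_rec {A : Type} (p : A → Prop) (x y : A) (a b : ℕ) (h1 : b < a → p x)
    (h2 : a ≤ b → p y) : p (Bool.rec (motive := fun _ => A) x y (Nat.ble a b)) := by
  cases h : Nat.ble a b with
  | false =>
    refine h1 (lt_of_not_ge fun hab => ?_)
    rw [Nat.ble_eq_true_of_le hab] at h
    exact Bool.noConfusion h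
  | true => exact h2 (Nat.le_of_ble_eq_true h)

theorem sev_getB (Q : ℕ → Prop) (T W : ℕ) (h : ∀ n < T, Q n → W.testBit n = true)
    (r l i : ℕ) (hi : i < l) (hQ : Q (r + i)) : (getB T W r l).testBit i = true := by
  unfold getB
  refine sev_rec (fun x : ℕ => x.testBit i = true) _ _ _ _ (fun _ => sev_ones_lt hi) fun hle => ?_
  have hle' : r + l ≤ T := hle
  show (Nat.land (Nat.shiftRight W r) (ones l)).testBit i = true
  rw [sev_land, sev_shr, h (r + i) (by omega) hQ, sev_ones_lt hi]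
  rfl

theorem sev_seg2 (Q : ℕ → Prop) (f : ℕ → ℕ → ℕ → ℕ) (hf : Cov Q f) (s len k i : ℕ) (hs : 0 < s)
    (hi : i < len) (hQ : Q (s + i)) : (seg2 f s len k).testBit i = true := by
  unfold seg2 seg3
  have e0 : Nat.mul k k = k ^ 2 := by
    show k * k = k ^ 2
    ring
  have e1 : sqr (Nat.succ k) = k ^ 2 + 2 * k + 1 := by
    show (k + 1) * (k + 1) = _
    ring
  have e2 : sqr (Nat.add k 2) = k ^ 2 + 4 * k + 4 := by
    show (k + 2) * (k + 2) = _
    ring
  have e3 : (k + 1) ^ 2 = k ^ 2 + 2 * k + 1 := by ring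
  have e4 : k = 0 → k ^ 2 = 0 := fun h => by rw [h]; rfl
  rw [e0, e1, e2]
  refine sev_rec (fun x : ℕ => x.testBit i = true) _ _ _ _ (fun _ => sev_ones_lt hi) fun h1 => ?_
  refine sev_rec (fun x : ℕ => x.testBit i = true) _ _ _ _ (fun h2 => ?_) fun h2 => ?_
  · refine sev_rec (fun x : ℕ => x.testBit i = true) _ _ _ _ (fun _ => sev_ones_lt hi) fun h3 => ?_
    refine sev_rec (fun x : ℕ => x.testBit i = true) _ _ _ _ (fun _ => sev_ones_lt hi) fun h4 => ?_
    have h2' : k ^ 2 + 2 * k + 1 < s + len := h2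
    have h4' : s + len ≤ k ^ 2 + 4 * k + 4 := h4
    show (Nat.lor (f k (s - k ^ 2) (k ^ 2 + 2 * k + 1 - s))
      (Nat.shiftLeft (f (k + 1) 0 (s + len - (k ^ 2 + 2 * k + 1)))
        (k ^ 2 + 2 * k + 1 - s))).testBit i = true
    rw [sev_lor, sev_shl, Bool.or_eq_true, Bool.and_eq_true, decide_eq_true_eq]
    by_cases hib : i < k ^ 2 + 2 * k + 1 - s
    · left
      refine hf k _ _ i (Nat.pos_of_ne_zero fun hk => ?_) (by omega) hib ?_
      · have := e4 hk
        omega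
      · rw [show k ^ 2 + (s - k ^ 2) + i = s + i by omega]
        exact hQ
    · right
      refine ⟨by omega, hf (k + 1) 0 _ _ (Nat.succ_pos k) (by omega) (by omega) ?_⟩
      rw [show (k + 1) ^ 2 + 0 + (i - (k ^ 2 + 2 * k + 1 - s)) = s + i by omega]
      exact hQ
  · have h2' : s + len ≤ k ^ 2 + 2 * k + 1 := h2
    show (f k (s - k ^ 2) len).testBit i = true
    refine hf k _ _ i (Nat.pos_of_ne_zero fun hk => ?_) (by omega) hi ?_
    · have := e4 hk
      omega
    · rw [show k ^ 2 + (s - k ^ 2) + i = s + i by omega]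
      exact hQ

theorem seg_cov (Q : ℕ → Prop) (f : ℕ → ℕ → ℕ → ℕ) (hf : Cov Q f) (s len g i : ℕ) (hs : 0 < s)
    (hi : i < len) (hQ : Q (s + i)) : (seg f s len g).testBit i = true := by
  unfold seg
  exact sev_rec (fun x : ℕ => x.testBit i = true) _ _ _ _
    (fun _ => sev_seg2 Q f hf s len _ i hs hi hQ) fun _ => sev_seg2 Q f hf s len _ i hs hi hQ

theorem sev_two_mul_sq (k : ℕ) : Nat.mul 2 (Nat.mul k k) = 2 * k ^ 2 := by
  show 2 * (k * k) = 2 * k ^ 2
  ring

theorem sev_stepN (P0 P1 N1 : ℕ → Prop) (hP : ∀ n, P0 n → P1 n)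
    (h2 : ∀ k r, 0 < k → r ≤ 2 * k → N1 (k ^ 2 + r) → P0 r ∨ P0 (2 * k ^ 2 + r))
    (T L : ℕ) (hL : ∀ n < T, P0 n → L.testBit n = true) (ih : ℕ → ℕ → ℕ → ℕ) (hih : Cov P1 ih) :
    Cov N1 (stepN T L ih) := by
  intro k r len i hk hr hi hQ
  unfold stepN
  rw [sev_lor, Bool.or_eq_true, sev_two_mul_sq]
  rw [add_assoc] at hQ
  rcases h2 k (r + i) hk (by omega) hQ with h | h
  · exact Or.inl (sev_getB P0 T L hL r len i hi h)
  · refine Or.inr (seg_cov P1 ih hih _ len _ i ?_ hi (hP _ ?_))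
    · show 0 < 2 * k ^ 2 + r
      positivity
    · show P0 (2 * k ^ 2 + r + i)
      rw [add_assoc]
      exact h

theorem evP_cov (P0 N0 P1 N1 : ℕ → Prop) (hP : ∀ n, P0 n → P1 n) (hN : ∀ n, N0 n → N1 n)
    (h1 : ∀ k r, 0 < k → r ≤ 2 * k → P1 (k ^ 2 + r) → N0 r ∧ N0 (2 * k ^ 2 + r))
    (h2 : ∀ k r, 0 < k → r ≤ 2 * k → N1 (k ^ 2 + r) → P0 r ∨ P0 (2 * k ^ 2 + r))
    (ls : List Lv) (hl : LvOK P0 N0 ls) : Cov P1 (evP ls) := by
  induction ls with
  | nil =>
    intro k r len i _ _ hi _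
    exact sev_ones_lt hi
  | cons v ls ih =>
    have ih' := ih fun u hu => hl u (List.mem_cons_of_mem _ hu)
    obtain ⟨hw, ht⟩ := hl v List.mem_cons_self
    intro k r len i hk hr hi hQ
    rw [add_assoc] at hQ
    obtain ⟨a1, a2⟩ := h1 k (r + i) hk (by omega) hQ
    have g1 := sev_getB N0 v.tw v.w hw r len i hi a1
    show (Bool.rec (motive := fun _ => Nat)
        (Nat.land (getB v.tw v.w r len)
          (seg (stepN v.tl v.l (evP ls)) (Nat.add (Nat.mul 2 (Nat.mul k k)) r) len (nx k)))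
        (getB v.tw v.w r len) (Nat.beq v.tl 0)).testBit i = true
    cases Nat.beq v.tl 0 with
    | true => exact g1
    | false =>
      show (Nat.land (getB v.tw v.w r len) (seg (stepN v.tl v.l (evP ls))
        (Nat.add (Nat.mul 2 (Nat.mul k k)) r) len (nx k))).testBit i = true
      rw [sev_land, g1, Bool.true_and, sev_two_mul_sq]
      refine seg_cov N1 _ (sev_stepN P0 P1 N1 hP h2 v.tl v.l ht _ ih') _ len _ i ?_ hi (hN _ ?_)
      · show 0 < 2 * k ^ 2 + r
        positivity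
      · show N0 (2 * k ^ 2 + r + i)
        rw [add_assoc]
        exact a2

theorem sev_cap (t : ℕ) : cap t ≤ 524288 := by
  unfold cap
  cases h : Nat.ble t 524288 with
  | false => exact le_rfl
  | true => exact Nat.le_of_ble_eq_true h

theorem sev_trunc (Q : ℕ → Prop) (W T : ℕ) (hT : T ≤ 524288)
    (h : ∀ n < 524288, Q n → W.testBit n = true) :
    ∀ n < T, Q n → (Nat.land W (ones T)).testBit n = true := by
  intro n hn hQ
  rw [sev_land, h n (by omega) hQ, sev_ones_lt hn]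
  rfl

theorem sev_mkL (P N : ℕ → Prop) (hL : ∀ n < 524288, P n → Lb.testBit n = true)
    (hW : ∀ n < 524288, N n → Wb.testBit n = true) (dep : ℕ) :
    ∀ K : ℕ, LvOK P N (mkL dep K) := by
  induction dep with
  | zero =>
    intro K v hv
    have hv' : v = ⟨cap (Nat.add (Nat.mul 2 K) 2),
        Nat.land Wb (ones (cap (Nat.add (Nat.mul 2 K) 2))), 0, 0⟩ := List.mem_singleton.1 hv
    rw [hv']
    exact ⟨sev_trunc N Wb _ (sev_cap _) hW, fun n hn => absurd hn (Nat.not_lt_zero n)⟩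
  | succ d ih =>
    intro K v hv
    have hv' : v = ⟨cap (Nat.add (Nat.mul 2 K) 2),
        Nat.land Wb (ones (cap (Nat.add (Nat.mul 2 K) 2))),
        cap (Nat.add (Nat.mul 2 (nx K)) 6),
        Nat.land Lb (ones (cap (Nat.add (Nat.mul 2 (nx K)) 6)))⟩ ∨
        v ∈ mkL d (Nat.mul 2 K) := List.mem_cons.1 hv
    rcases hv' with hv' | hv'
    · rw [hv']
      exact ⟨sev_trunc N Wb _ (sev_cap _) hW, sev_trunc P Lb _ (sev_cap _) hL⟩
    · exact ih _ v hv'

/-- outcome classes by height -/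
def sevW : ℕ → Bool → ℕ → Prop
  | 0, b, n => b = false ∧ n = 0
  | h + 1, false, n =>
    n = 0 ∨ (sevW h true (n - Nat.sqrt n ^ 2) ∧ sevW h true (n + Nat.sqrt n ^ 2))
  | h + 1, true, n =>
    0 < n ∧ (sevW h false (n - Nat.sqrt n ^ 2) ∨ sevW h false (n + Nat.sqrt n ^ 2))

theorem sevW_succ (h : ℕ) : ∀ b n, sevW h b n → sevW (h + 1) b n := by
  induction h with
  | zero =>
    rintro b n ⟨rfl, rfl⟩
    exact Or.inl rfl
  | succ h ih =>
    intro b n hw
    cases b with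
    | false => exact Or.imp id (And.imp (ih _ _) (ih _ _)) hw
    | true => exact And.imp id (Or.imp (ih _ _) (ih _ _)) hw

theorem sevW_mono {h h' : ℕ} (hh : h ≤ h') {b : Bool} {n : ℕ} (hw : sevW h b n) :
    sevW h' b n := by
  induction h', hh using Nat.le_induction with
  | base => exact hw
  | succ m _ ih => exact sevW_succ m b n ih

theorem sevW_of_won {b : Bool} {n : ℕ} (hw : Won b n) : ∃ h, sevW h b n := by
  induction hw with
  | zero => exact ⟨0, rfl, rfl⟩
  | both n _ _ _ ih1 ih2 =>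
    obtain ⟨h1, a1⟩ := ih1
    obtain ⟨h2, a2⟩ := ih2
    exact ⟨max h1 h2 + 1, Or.inr ⟨sevW_mono (le_max_left _ _) a1, sevW_mono (le_max_right _ _) a2⟩⟩
  | take n hn _ ih =>
    obtain ⟨h, a⟩ := ih
    exact ⟨h + 1, hn, Or.inl a⟩
  | put n hn _ ih =>
    obtain ⟨h, a⟩ := ih
    exact ⟨h + 1, hn, Or.inr a⟩

theorem sev_allT (f : ℕ → Bool) (d : ℕ) :
    ∀ k, allT f d k = true → ∀ j, k ≤ j → j < k + 2 ^ d → f j = true := by
  induction d with
  | zero =>
    intro k hk j h1 h2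
    have : j = k := by omega
    rw [this]
    exact hk
  | succ d ih =>
    intro k hk j h1 h2
    have hk' : (allT f d k && allT f d (k + 1 <<< d)) = true := hk
    rw [Bool.and_eq_true, Nat.one_shiftLeft] at hk'
    rw [pow_succ] at h2
    by_cases hj : j < k + 2 ^ d
    · exact ih k hk'.1 j h1 hj
    · exact ih _ hk'.2 j (by omega) (by omega)

theorem sev_sub {x y : ℕ} (h : sub x y = true) {i : ℕ} (hi : x.testBit i = true) :
    y.testBit i = true := by
  have e : Nat.land x y = x := Nat.eq_of_beq_eq_true h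
  have e2 := sev_land x y i
  rw [e, hi, Bool.true_and] at e2
  exact e2.symm

theorem sev_sqr (k : ℕ) : sqr k = k ^ 2 := by
  show k * k = k ^ 2
  ring

theorem sev_read (x W k r : ℕ) (hn : k ^ 2 + r < 524288)
    (h : sub x (Nat.lor (Nat.shiftRight W (sqr k))
      (Nat.shiftLeft (ones 2000) (Nat.sub 524288 (sqr k)))) = true)
    (hx : x.testBit r = true) : W.testBit (k ^ 2 + r) = true := by
  have e := sev_sub h hx
  rw [sev_lor, sev_shr, sev_shl, sev_sqr, Bool.or_eq_true, Bool.and_eq_true,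
    decide_eq_true_eq] at e
  rcases e with e | ⟨e, -⟩
  · exact e
  · have e' : r ≥ 524288 - k ^ 2 := e
    omega

theorem sev_baseK (ls : List Lv) (T L k : ℕ) (hk : k ≤ 724) (h : baseK ls T L k = true) :
    sub (evP ls k 0 (2 * k + 1)) (Nat.lor (Nat.shiftRight Lb (sqr k))
      (Nat.shiftLeft (ones 2000) (Nat.sub 524288 (sqr k)))) = true ∧
    sub (stepN T L (evP ls) k 0 (2 * k + 1)) (Nat.lor (Nat.shiftRight Wb (sqr k))
      (Nat.shiftLeft (ones 2000) (Nat.sub 524288 (sqr k)))) = true := by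
  unfold baseK at h
  rw [Nat.ble_eq_true_of_le hk, cond_true, Bool.and_eq_true] at h
  exact h

theorem sev_Lb_zero : Lb.testBit 0 = true := by decide +kernel

theorem sev_decomp (n : ℕ) (h0 : 0 < n) (hn : n < 524288) :
    ∃ k r, 0 < k ∧ k ≤ 724 ∧ r ≤ 2 * k ∧ n = k ^ 2 + r := by
  have a1 := Nat.sqrt_le' n
  have a2 := Nat.lt_succ_sqrt' n
  have a3 : 0 < Nat.sqrt n := Nat.sqrt_pos.2 h0
  have a4 : Nat.sqrt n < 725 := Nat.sqrt_lt'.2 (by omega)
  have a5 : (Nat.sqrt n).succ ^ 2 = Nat.sqrt n ^ 2 + 2 * Nat.sqrt n + 1 := by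
    rw [Nat.succ_eq_add_one]
    ring
  exact ⟨Nat.sqrt n, n - Nat.sqrt n ^ 2, a3, by omega, by omega, by omega⟩

theorem sev_height (hb : baseChk = true) (h : ℕ) :
    (∀ n < 524288, sevW h false n → Lb.testBit n = true) ∧
      (∀ n < 524288, sevW h true n → Wb.testBit n = true) := by
  have hK : ∀ k, 0 < k → k ≤ 724 →
      baseK (mkL 4 2000) 2000 (Nat.land Lb (ones 2000)) k = true := fun k h1 h2 =>
    sev_allT _ 10 1 hb k h1 (by omega)
  induction h with
  | zero =>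
    refine ⟨?_, ?_⟩
    · rintro n - ⟨-, rfl⟩
      exact sev_Lb_zero
    · rintro n - ⟨hc, -⟩
      exact Bool.noConfusion hc
  | succ h ih =>
    have h1 : ∀ k r, 0 < k → r ≤ 2 * k → sevW (h + 1) false (k ^ 2 + r) →
        sevW h true r ∧ sevW h true (2 * k ^ 2 + r) := by
      intro k r hk hr hw
      rcases hw with hw | hw
      · have : 0 < k ^ 2 + r := by positivity
        omega
      · rw [game_sqrt k r hr, Nat.add_sub_cancel_left,
          show k ^ 2 + r + k ^ 2 = 2 * k ^ 2 + r by ring] at hw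
        exact hw
    have h2 : ∀ k r, 0 < k → r ≤ 2 * k → sevW (h + 1) true (k ^ 2 + r) →
        sevW h false r ∨ sevW h false (2 * k ^ 2 + r) := by
      intro k r _ hr hw
      have hw' := hw.2
      rw [game_sqrt k r hr, Nat.add_sub_cancel_left,
        show k ^ 2 + r + k ^ 2 = 2 * k ^ 2 + r by ring] at hw'
      exact hw'
    have c1 := evP_cov (sevW h false) (sevW h true) (sevW (h + 1) false) (sevW (h + 1) true)
      (sevW_succ h false) (sevW_succ h true) h1 h2 _ (sev_mkL _ _ ih.1 ih.2 4 2000)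
    have c2 := sev_stepN (sevW h false) (sevW (h + 1) false) (sevW (h + 1) true)
      (sevW_succ h false) h2 2000 _ (sev_trunc _ Lb 2000 (by omega) ih.1) _ c1
    refine ⟨fun n hn hw => ?_, fun n hn hw => ?_⟩
    · rcases Nat.eq_zero_or_pos n with rfl | h0
      · exact sev_Lb_zero
      · obtain ⟨k, r, k0, k1, hr, rfl⟩ := sev_decomp n h0 hn
        exact sev_read _ Lb k r hn (sev_baseK _ _ _ k k1 (hK k k0 k1)).1
          (c1 k 0 _ r k0 (by omega) (by omega) hw)
    · obtain ⟨k, r, k0, k1, hr, rfl⟩ := sev_decomp n hw.1 hn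
      exact sev_read _ Wb k r hn (sev_baseK _ _ _ k k1 (hK k k0 k1)).2
        (c2 k 0 _ r k0 (by omega) (by omega) hw)

theorem base_sound (h : baseChk = true) :
    (∀ n < 524288, IsP n → Lb.testBit n = true) ∧ (∀ n < 524288, IsN n → Wb.testBit n = true) := by
  refine ⟨fun n hn hw => ?_, fun n hn hw => ?_⟩
  · obtain ⟨m, hm⟩ := sevW_of_won hw
    exact (sev_height h m).1 n hn hm
  · obtain ⟨m, hm⟩ := sevW_of_won hw
    exact (sev_height h m).2 n hn hm

theorem evP_isP (h : baseChk = true) (dep K : ℕ) : Cov IsP (evP (mkL dep K)) :=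
  evP_cov IsP IsN IsP IsN (fun _ a => a) (fun _ a => a) isP_block
    (fun k r _ hr hw => isN_block k r hr hw) _
    (sev_mkL _ _ (base_sound h).1 (base_sound h).2 dep K)

theorem sev_chkT (f : ℕ → ℕ → Bool) (g : ℕ → ℕ → Prop) (hfg : ∀ j p, f j p = true → g j p)
    (t : Tr) : ∀ sz j, chkT f t sz j = true → TrAll g t sz j := by
  induction t with
  | leaf p =>
    intro sz j ht
    have ht' : band (Nat.beq sz 1) (f j p) = true := ht
    rw [band_iff] at ht'
    exact ⟨Nat.eq_of_beq_eq_true ht'.1, hfg j p ht'.2⟩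
  | node l r ihl ihr =>
    intro sz j ht
    have ht' : band (chkT f l (sz / 2) j) (chkT f r (sz - sz / 2) (j + sz / 2)) = true := ht
    rw [band_iff] at ht'
    exact ⟨ihl _ _ ht'.1, ihr _ _ ht'.2⟩

theorem tl_sound (h : baseChk = true) (dep K : ℕ) (t : Tr) (sz : ℕ)
    (ht : chkT (okL (mkL dep K)) t sz 0 = true) : TLok t sz := by
  refine sev_chkT _ _ (fun j p hf r hr hw => ?_) t sz 0 ht
  refine sev_sub hf ?_
  rw [sev_lor, Bool.or_eq_true]
  rcases Nat.eq_zero_or_pos j with rfl | hj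
  · have : r = 0 := by omega
    rw [this]
    exact Or.inr rfl
  · exact Or.inl (evP_isP h dep K j 0 (2 * j + 1) r hj (by omega) (by omega) hw)

theorem tw_sound (h : baseChk = true) (dep K : ℕ) (t : Tr) (sz : ℕ)
    (ht : chkT (okW (mkL dep K)) t sz 0 = true) : TWok t sz := by
  refine sev_chkT _ _ (fun j p hf r hr hw => ?_) t sz 0 ht
  rcases Nat.eq_zero_or_pos j with rfl | hj
  · have : r = 0 := by omega
    rw [this]
    exact Or.inl Won.zero
  · rcases isN_block j r hr hw with a | a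
    · exact Or.inl a
    · refine Or.inr (sev_sub hf ?_)
      rw [sev_sqr]
      refine seg_cov IsP _ (evP_isP h dep K) _ (2 * j + 1) _ r ?_ (by omega) a
      show 0 < 2 * j ^ 2
      positivity

end Pool.Agent.MP_a001a6_co

end

-- part MP_a001a6_co.SCnt
section

/-! Soundness of the bit counting programs. -/

namespace Pool.Agent.MP_a001a6_co

open Finset

/-- bit `p` of `y` as a number -/
def scntB (y p : ℕ) : ℕ := (y.testBit p).toNat

theorem scnt_card (x n : ℕ) :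
    ((range n).filter (fun p => x.testBit p = true)).card = ∑ p ∈ range n, scntB x p := by
  rw [card_filter]
  refine sum_congr rfl fun p _ => ?_
  unfold scntB
  cases x.testBit p <;> rfl

theorem scnt_rep (J : ℕ) : rep16 J = ∑ j ∈ range J, 65536 ^ j := by
  rw [Nat.geomSum_eq (by norm_num) J]
  show ones (16 * J) / 65535 = (65536 ^ J - 1) / (65536 - 1)
  rw [sev_ones_eq, pow_mul]
  norm_num

theorem scnt_rep_succ (J : ℕ) : rep16 (J + 1) = 2 ^ 16 * rep16 J + 1 := by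
  rw [scnt_rep, scnt_rep, geom_sum_succ]
  rfl

theorem scnt_land_step (y R : ℕ) :
    y &&& (2 ^ 16 * R + 1) = 2 ^ 16 * ((y >>> 16) &&& R) + scntB y 0 := by
  have hb : scntB y 0 < 2 ^ 16 := by
    unfold scntB
    cases y.testBit 0 <;> decide
  refine Nat.eq_of_testBit_eq fun i => ?_
  rw [Nat.testBit_land, Nat.testBit_two_pow_mul_add _ (by norm_num : 1 < 2 ^ 16),
    Nat.testBit_two_pow_mul_add _ hb]
  by_cases hi : i < 16
  · rw [if_pos hi, if_pos hi]
    unfold scntB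
    rcases i with _ | i
    · cases y.testBit 0 <;> rfl
    · cases y.testBit 0 <;> simp [Nat.testBit_succ]
  · rw [if_neg hi, if_neg hi, Nat.testBit_land, Nat.testBit_shiftRight,
      show 16 + (i - 16) = i by omega]

theorem scnt_mod (J : ℕ) : ∀ y : ℕ,
    (y &&& rep16 J) % 65535 = (∑ j ∈ range J, scntB y (16 * j)) % 65535 := by
  induction J with
  | zero =>
    intro y
    rw [scnt_rep]
    simp
  | succ J ih =>
    intro y
    have h := ih (y >>> 16)
    have e : ∑ j ∈ range J, scntB (y >>> 16) (16 * j) = ∑ j ∈ range J, scntB y (16 * (j + 1)) := by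
      refine sum_congr rfl fun j _ => ?_
      unfold scntB
      rw [Nat.testBit_shiftRight, show 16 + 16 * j = 16 * (j + 1) by ring]
    rw [scnt_rep_succ, scnt_land_step, sum_range_succ', ← e, mul_zero]
    omega

theorem scnt_le (y J : ℕ) : ∑ j ∈ range J, scntB y (16 * j) ≤ J := by
  have h : ∑ j ∈ range J, scntB y (16 * j) ≤ ∑ _j ∈ range J, 1 :=
    sum_le_sum fun j _ => Bool.toNat_le _
  simpa using h

theorem scnt_split (x J : ℕ) : ∑ p ∈ range (16 * J), scntB x p =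
    ∑ i ∈ range 16, ∑ j ∈ range J, scntB (x >>> i) (16 * j) := by
  induction J with
  | zero => simp
  | succ J ih =>
    rw [Nat.mul_succ, sum_range_add, ih, ← sum_add_distrib]
    refine sum_congr rfl fun i _ => ?_
    rw [sum_range_succ]
    unfold scntB
    rw [Nat.testBit_shiftRight, add_comm i]

theorem scnt_rec (g : ℕ → ℕ) (n : ℕ) :
    (Nat.rec (motive := fun _ => ℕ) 0 (fun i ih => Nat.add ih (g i)) n : ℕ) =
      ∑ i ∈ range n, g i := by
  induction n with
  | zero => rfl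
  | succ n ih =>
    rw [sum_range_succ, ← ih]
    rfl

theorem pc_ge (J x : ℕ) (hJ : J < 65535) :
    ((range (16 * J)).filter (fun p => x.testBit p = true)).card ≤ pc (rep16 J) x := by
  unfold pc
  cases h : Nat.beq x 0 with
  | true =>
    rw [Nat.eq_of_beq_eq_true h]
    simp
  | false =>
    show _ ≤ (Nat.rec (motive := fun _ => ℕ) 0 (fun i ih => Nat.add ih
      ((fun i => (x >>> i &&& rep16 J) % 65535) i)) 16 : ℕ)
    rw [scnt_rec, scnt_card, scnt_split]
    refine sum_le_sum fun i _ => ?_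
    rw [scnt_mod, Nat.mod_eq_of_lt (lt_of_le_of_lt (scnt_le _ _) hJ)]

/-- value of a vertical counter in lane `p` -/
def scntV (p : ℕ) : List ℕ → ℕ
  | [] => 0
  | a :: l => scntB a p + 2 * scntV p l

theorem scnt_full (a b c p : ℕ) : scntB (Nat.xor (Nat.xor a b) c) p +
    2 * scntB (Nat.lor (Nat.land a b) (Nat.land c (Nat.xor a b))) p =
      scntB a p + scntB b p + scntB c p := by
  have hx : ∀ u v : ℕ, (Nat.xor u v).testBit p = (u.testBit p ^^ v.testBit p) :=
    fun u v => Nat.testBit_xor u v p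
  unfold scntB
  rw [hx, hx, sev_lor, sev_land, sev_land, hx]
  cases a.testBit p <;> cases b.testBit p <;> cases c.testBit p <;> rfl

theorem scnt_half (a b p : ℕ) : scntB (Nat.xor a b) p + 2 * scntB (Nat.land a b) p =
    scntB a p + scntB b p := by
  have hx : (Nat.xor a b).testBit p = (a.testBit p ^^ b.testBit p) := Nat.testBit_xor a b p
  unfold scntB
  rw [hx, sev_land]
  cases a.testBit p <;> cases b.testBit p <;> rfl

theorem scnt_vadd (p : ℕ) (as : List ℕ) : ∀ (bs : List ℕ) (c : ℕ), bs.length = as.length →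
    (vadd as bs c).length = as.length + 1 ∧
      scntV p (vadd as bs c) = scntV p as + scntV p bs + scntB c p := by
  induction as with
  | nil =>
    intro bs c h
    rw [List.length_eq_zero_iff.1 h]
    refine ⟨rfl, ?_⟩
    show scntB c p + 2 * 0 = 0 + 0 + scntB c p
    omega
  | cons a as ih =>
    intro bs c h
    cases bs with
    | nil => exact absurd h (by simp)
    | cons b bs =>
      have h' : bs.length = as.length := by simpa using h
      obtain ⟨i1, i2⟩ := ih bs (Nat.lor (Nat.land a b) (Nat.land c (Nat.xor a b))) h'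
      have e : vadd (a :: as) (b :: bs) c = Nat.xor (Nat.xor a b) c ::
          vadd as bs (Nat.lor (Nat.land a b) (Nat.land c (Nat.xor a b))) := rfl
      have f := scnt_full a b c p
      rw [e]
      refine ⟨by rw [List.length_cons, i1, List.length_cons], ?_⟩
      show scntB _ p + 2 * scntV p _ = scntB a p + 2 * scntV p as + (scntB b p + 2 * scntV p bs) + _
      rw [i2]
      omega

theorem scnt_vadd0 (p d : ℕ) (as bs : List ℕ) (ha : as.length = d + 1) (hb : bs.length = d + 1) :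
    (vadd0 as bs).length = d + 2 ∧ scntV p (vadd0 as bs) = scntV p as + scntV p bs := by
  cases as with
  | nil => exact absurd ha (by simp)
  | cons a as =>
    cases bs with
    | nil => exact absurd hb (by simp)
    | cons b bs =>
      have ha' : as.length = d := by simpa using ha
      have hb' : bs.length = d := by simpa using hb
      obtain ⟨i1, i2⟩ := scnt_vadd p as bs (Nat.land a b) (hb'.trans ha'.symm)
      have e : vadd0 (a :: as) (b :: bs) = Nat.xor a b :: vadd as bs (Nat.land a b) := rfl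
      have f := scnt_half a b p
      rw [e]
      refine ⟨by rw [List.length_cons, i1, ha'], ?_⟩
      show scntB _ p + 2 * scntV p _ = scntB a p + 2 * scntV p as + (scntB b p + 2 * scntV p bs)
      rw [i2]
      omega

theorem scnt_vsum (p : ℕ) (f : ℕ → ℕ) (d : ℕ) : ∀ k, (vsum f d k).length = d + 1 ∧
    scntV p (vsum f d k) = ∑ j ∈ Ico k (k + 2 ^ d), scntB (f j) p := by
  induction d with
  | zero =>
    intro k
    refine ⟨rfl, ?_⟩
    show scntB (f k) p + 2 * 0 = _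
    simp
  | succ d ih =>
    intro k
    have e : vsum f (d + 1) k = vadd0 (vsum f d k) (vsum f d (k + 1 <<< d)) := rfl
    rw [e, Nat.one_shiftLeft]
    obtain ⟨i1, i2⟩ := scnt_vadd0 p d _ _ (ih k).1 (ih (k + 2 ^ d)).1
    refine ⟨i1, ?_⟩
    rw [i2, (ih k).2, (ih (k + 2 ^ d)).2,
      sum_Ico_consecutive _ (Nat.le_add_right _ _) (Nat.le_add_right _ _), pow_succ,
      show k + 2 ^ d + 2 ^ d = k + 2 ^ d * 2 by ring]

theorem scnt_vtot (J : ℕ) (hJ : J < 65535) (l : List ℕ) :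
    ∑ p ∈ range (16 * J), scntV p l ≤ vtot (rep16 J) l := by
  induction l with
  | nil => exact le_of_eq (sum_eq_zero fun _ _ => rfl)
  | cons a l ih =>
    have h := pc_ge J a hJ
    rw [scnt_card] at h
    show ∑ p ∈ range (16 * J), (scntB a p + 2 * scntV p l) ≤
      pc (rep16 J) a + 2 * vtot (rep16 J) l
    rw [sum_add_distrib, ← mul_sum]
    omega

theorem vsum_ge (f : ℕ → ℕ) (J d k : ℕ) (hJ : J < 65535) :
    ∑ j ∈ Ico k (k + 2 ^ d), ((range (16 * J)).filter (fun p => (f j).testBit p = true)).card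
      ≤ vtot (rep16 J) (vsum f d k) := by
  refine le_trans (le_of_eq ?_) (scnt_vtot J hJ _)
  rw [sum_congr rfl fun j _ => scnt_card (f j) (16 * J), sum_comm]
  exact sum_congr rfl fun p _ => (scnt_vsum p f d k).2.symm

theorem scnt_ell (ls : List Lv) (hc : Cov IsP (evP ls)) (J j : ℕ) (hj : 0 < j)
    (hJ : 2 * j + 1 ≤ 16 * J) : ell j ≤ ((range (16 * J)).filter
      (fun p => (evP ls j 0 (2 * j + 1)).testBit p = true)).card := by
  classical
  unfold ell
  refine card_le_card fun r hr => ?_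
  rw [mem_filter, mem_range] at hr ⊢
  exact ⟨by omega, hc j 0 _ r hj (by omega) hr.1 hr.2⟩

theorem scnt_list (ls : List Lv) (hc : Cov IsP (evP ls)) (J d : ℕ) (hJ : J < 65535) (n : ℕ) :
    ∀ k, 0 < k → k + n * 2 ^ d ≤ 8 * J →
      IncTo k (pairs (2 ^ d) (cntList ls (rep16 J) d n k)) (k + n * 2 ^ d) := by
  induction n with
  | zero =>
    intro k _ _
    show k = k + 0 * 2 ^ d
    omega
  | succ n ih =>
    intro k hk hle
    have e : pairs (2 ^ d) (cntList ls (rep16 J) d (n + 1) k) = (2 ^ d, cnt ls (rep16 J) d k) ::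
        pairs (2 ^ d) (cntList ls (rep16 J) d n (k + 1 <<< d)) := rfl
    have e2 : k + (n + 1) * 2 ^ d = k + 2 ^ d + n * 2 ^ d := by ring
    rw [e, Nat.one_shiftLeft, e2]
    rw [e2] at hle
    refine ⟨?_, ih _ (by positivity) hle⟩
    refine le_trans (sum_le_sum fun j hj => ?_)
      (vsum_ge (fun k => evP ls k 0 (2 * k + 1)) J d k hJ)
    rw [mem_Ico] at hj
    have h2 : j < k + 2 ^ d := hj.2
    exact scnt_ell ls hc J j (by omega) (by omega)

theorem m1_sound (h : baseChk = true) (dep d n k0 s k1 : ℕ) (l : List ℕ) (hk : 0 < k0)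
    (hs : s = 2 ^ d) (hk1 : k1 = k0 + n * 2 ^ d) (hK : k1 ≤ 500000) (hm : m1 dep d n k0 = l) :
    IncTo k0 (pairs s l) k1 := by
  have e : m1 dep d n k0 = cntList (mkL dep (k0 + n <<< d))
      (rep16 ((k0 + n <<< d) / 8 + 1)) d n k0 := rfl
  rw [← hm, e, Nat.shiftLeft_eq, hs, hk1]
  exact scnt_list _ (evP_isP h dep _) _ d (by omega) n k0 hk (by omega)

theorem incTo_app (a b c : ℕ) (l m : List (ℕ × ℕ)) (h1 : IncTo a l b) (h2 : IncTo b m c) :
    IncTo a (app l m) c := by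
  induction l generalizing a with
  | nil =>
    have e : a = b := h1
    rw [e]
    exact h2
  | cons i l ih => exact ⟨h1.1, ih _ h1.2⟩

end Pool.Agent.MP_a001a6_co

end

-- part MP_a001a6_co.SSp
section

/-! Soundness of the spread bit vectors built from the two sparse lists. -/

namespace Pool.Agent.MP_a001a6_co

open Finset

theorem ssp_or {x y : ℕ} {S T : Finset ℕ} (hx : Sp x S) (hy : Sp y T) :
    Sp (Nat.lor x y) (S ∪ T) := by
  intro n
  change (x ||| y).testBit n = true ↔ _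
  rw [Nat.testBit_or, Bool.or_eq_true, hx n, hy n]
  simp only [mem_union, or_and_right, exists_or]

theorem ssp_shl {x : ℕ} {S : Finset ℕ} (hx : Sp x S) (s : ℕ) :
    Sp (Nat.shiftLeft x (Nat.mul 20 s)) (S.image (· + s)) := by
  intro n
  change (x <<< (20 * s)).testBit n = true ↔ _
  rw [Nat.testBit_shiftLeft, Bool.and_eq_true, hx, decide_eq_true_eq]
  constructor
  · rintro ⟨h1, i, hi, h2⟩
    exact ⟨i + s, mem_image_of_mem _ hi, by omega⟩
  · rintro ⟨k, hk, h2⟩
    obtain ⟨i, hi, rfl⟩ := mem_image.1 hk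
    exact ⟨by omega, i, hi, by omega⟩

theorem ssp_shr {x : ℕ} {S : Finset ℕ} (hx : Sp x S) (s : ℕ) :
    Sp (Nat.shiftRight x (Nat.mul 20 s)) ((S.filter (s ≤ ·)).image (· - s)) := by
  intro n
  change (x >>> (20 * s)).testBit n = true ↔ _
  rw [Nat.testBit_shiftRight, hx]
  constructor
  · rintro ⟨i, hi, h2⟩
    exact ⟨i - s, mem_image_of_mem _ (mem_filter.2 ⟨hi, by omega⟩), by omega⟩
  · rintro ⟨k, hk, h2⟩
    obtain ⟨i, hi, rfl⟩ := mem_image.1 hk
    obtain ⟨h3, h4⟩ := mem_filter.1 hi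
    exact ⟨i, h3, by omega⟩

theorem ssp_and {x : ℕ} {S : Finset ℕ} (hx : Sp x S) (m : ℕ) :
    Sp (Nat.land x (ones (Nat.mul 20 m))) (S.filter (· < m)) := by
  intro n
  change (x &&& (1 <<< (20 * m) - 1)).testBit n = true ↔ _
  rw [Nat.testBit_and, Nat.one_shiftLeft, Nat.testBit_two_pow_sub_one, Bool.and_eq_true, hx,
    decide_eq_true_eq]
  constructor
  · rintro ⟨⟨i, hi, h2⟩, h1⟩
    exact ⟨i, mem_filter.2 ⟨hi, by omega⟩, h2⟩
  · rintro ⟨i, hi, h2⟩
    obtain ⟨h3, h4⟩ := mem_filter.1 hi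
    exact ⟨⟨i, h3, h2⟩, by omega⟩

theorem ssp_bits (g : ℕ → ℕ) (k m : ℕ) :
    (Nat.rec (motive := fun _ => Nat) 0 (fun i ih => Nat.lor ih (Nat.shiftLeft 1 (g i))) k).testBit m
      = true ↔ ∃ i < k, m = g i := by
  induction k with
  | zero => simp
  | succ k ih =>
    change ((Nat.rec (motive := fun _ => Nat) 0
      (fun i ih => Nat.lor ih (Nat.shiftLeft 1 (g i))) k) ||| 1 <<< g k).testBit m = true ↔ _
    rw [Nat.testBit_or, Bool.or_eq_true, ih, Nat.one_shiftLeft, Nat.testBit_two_pow,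
      decide_eq_true_eq]
    constructor
    · rintro (⟨i, hi, h⟩ | h)
      · exact ⟨i, by omega, h⟩
      · exact ⟨k, by omega, h.symm⟩
    · rintro ⟨i, hi, h⟩
      rcases Nat.lt_succ_iff_lt_or_eq.1 hi with h1 | rfl
      · exact Or.inl ⟨i, h1, h⟩
      · exact Or.inr h.symm

theorem ssp_bit_one {p r : ℕ} (h : (bitsF 1 p).testBit r = true) :
    ∃ i < Nat.land p 31, r = offAt p i := by
  obtain ⟨i, hi, h2⟩ := (ssp_bits (fun i => Nat.mul 1 (offAt p i)) _ r).1 h
  exact ⟨i, hi, h2.trans (Nat.one_mul _)⟩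

theorem ssp_bitsF (p : ℕ) : Sp (bitsF 20 p) ((range (Nat.land p 31)).image (offAt p)) := by
  intro n
  refine (ssp_bits (fun i => Nat.mul 20 (offAt p i)) _ n).trans ⟨?_, ?_⟩
  · rintro ⟨i, hi, h⟩
    exact ⟨_, mem_image_of_mem _ (mem_range.2 hi), h⟩
  · rintro ⟨k, hk, h⟩
    obtain ⟨i, hi, rfl⟩ := mem_image.1 hk
    exact ⟨i, mem_range.1 hi, h⟩

theorem ssp_bitsR (e p : ℕ) :
    Sp (bitsR e p) ((range (Nat.land p 31)).image (fun i => e - offAt p i)) := by
  intro n
  refine (ssp_bits (fun i => Nat.mul 20 (Nat.sub e (offAt p i))) _ n).trans ⟨?_, ?_⟩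
  · rintro ⟨i, hi, h⟩
    exact ⟨_, mem_image_of_mem _ (mem_range.2 hi), h⟩
  · rintro ⟨k, hk, h⟩
    obtain ⟨i, hi, rfl⟩ := mem_image.1 hk
    exact ⟨i, mem_range.1 hi, h⟩

theorem ssp_sqr (k : ℕ) : sqr k = k ^ 2 := (pow_two k).symm

theorem ssp_mn (a b : ℕ) : mn a b = min a b := by
  unfold mn
  by_cases h : a ≤ b
  · rw [Nat.ble_eq_true_of_le h, min_eq_left h]
  · rw [Bool.eq_false_iff.2 (fun h' => h (Nat.le_of_ble_eq_true h')), min_eq_right (by omega)]

theorem ssp_ble_false {a b : ℕ} (h : ¬ a ≤ b) : Nat.ble a b = false :=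
  Bool.eq_false_iff.2 (fun h' => h (Nat.le_of_ble_eq_true h'))

theorem ssp_catF {f : ℕ → ℕ → Prop} {Q : ℕ → Prop} {blk : ℕ → ℕ → ℕ} {J : ℕ}
    (hb : ∀ j p, f j p → ∃ S, Sp (blk j p) S ∧ (j < J → ∀ r ≤ 2 * j, Q (j ^ 2 + r) → r ∈ S))
    (t : Tr) : ∀ sz j, TrAll f t sz j → ∃ S, Sp (catF blk J t sz j) S ∧
      ∀ a, j ^ 2 ≤ a → a < (min (j + sz) J) ^ 2 → Q a → a - j ^ 2 ∈ S := by
  induction t with
  | leaf p =>
    rintro sz j ⟨rfl, h⟩
    obtain ⟨S, h1, h2⟩ := hb j p h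
    refine ⟨S, h1, fun a ha ha' hQ => ?_⟩
    have h3 : j < min (j + 1) J := lt_of_pow_lt_pow_left₀ 2 (Nat.zero_le _) (ha.trans_lt ha')
    have h4 : j < J := h3.trans_le (min_le_right _ _)
    rw [min_eq_left h4] at ha'
    refine h2 h4 _ ?_ (by rwa [Nat.add_sub_cancel' ha])
    have : (j + 1) ^ 2 = j ^ 2 + 2 * j + 1 := by ring
    omega
  | node l r ihl ihr =>
    rintro sz j ⟨hl, hr⟩
    obtain ⟨S, h1, h2⟩ := ihl _ _ hl
    obtain ⟨T, h3, h4⟩ := ihr _ _ hr
    have e : catF blk J (.node l r) sz j = Bool.rec (motive := fun _ => Nat)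
        (Nat.lor (catF blk J l (sz / 2) j) (Nat.shiftLeft (catF blk J r (sz - sz / 2) (j + sz / 2))
          (Nat.mul 20 (sqr (j + sz / 2) - sqr j)))) (catF blk J l (sz / 2) j)
        (Nat.ble J (j + sz / 2)) := rfl
    have hs : sz / 2 ≤ sz := Nat.div_le_self _ _
    rw [e]
    by_cases hJ : J ≤ j + sz / 2
    · rw [Nat.ble_eq_true_of_le hJ]
      refine ⟨S, h1, fun a ha ha' hQ => h2 a ha ?_ hQ⟩
      rwa [min_eq_right hJ, ← min_eq_right (show J ≤ j + sz by omega)]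
    · rw [ssp_ble_false hJ]
      refine ⟨_, ssp_or h1 (ssp_shl h3 _), fun a ha ha' hQ => ?_⟩
      by_cases h5 : a < (j + sz / 2) ^ 2
      · exact mem_union_left _ (h2 a ha (by rwa [min_eq_left (by omega)]) hQ)
      · have h6 := h4 a (by omega)
          (by rwa [show j + sz / 2 + (sz - sz / 2) = j + sz by omega]) hQ
        refine mem_union_right _ (mem_image.2 ⟨_, h6, ?_⟩)
        have h7 : j ^ 2 ≤ (j + sz / 2) ^ 2 := Nat.pow_le_pow_left (by omega) 2
        rw [ssp_sqr, ssp_sqr]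
        omega

theorem ssp_catR {f : ℕ → ℕ → Prop} {Q : ℕ → Prop} {blk : ℕ → ℕ → ℕ} {J c : ℕ}
    (hb : ∀ j p, f j p → ∃ S, Sp (blk j p) S ∧ S.card ≤ c + Nat.land p 31 ∧
      (j < J → ∀ r ≤ 2 * j, Q (j ^ 2 + r) → 2 * j - r ∈ S))
    (t : Tr) : ∀ sz j, TrAll f t sz j → ∃ S, Sp (catR blk J t sz j) S ∧
      S.card ≤ cntT c J t sz j ∧
      ∀ a, j ^ 2 ≤ a → a < (min (j + sz) J) ^ 2 → Q a → (min (j + sz) J) ^ 2 - 1 - a ∈ S := by
  induction t with
  | leaf p =>
    rintro sz j ⟨rfl, h⟩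
    obtain ⟨S, h1, h0, h2⟩ := hb j p h
    refine ⟨S, h1, h0, fun a ha ha' hQ => ?_⟩
    have h3 : j < min (j + 1) J := lt_of_pow_lt_pow_left₀ 2 (Nat.zero_le _) (ha.trans_lt ha')
    have h4 : j < J := h3.trans_le (min_le_right _ _)
    rw [min_eq_left h4] at ha' ⊢
    have h5 : (j + 1) ^ 2 = j ^ 2 + 2 * j + 1 := by ring
    have h6 := h2 h4 (a - j ^ 2) (by omega) (by rwa [Nat.add_sub_cancel' ha])
    rwa [show (j + 1) ^ 2 - 1 - a = 2 * j - (a - j ^ 2) by omega]
  | node l r ihl ihr =>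
    rintro sz j ⟨hl, hr⟩
    obtain ⟨S, h1, c1, h2⟩ := ihl _ _ hl
    obtain ⟨T, h3, c2, h4⟩ := ihr _ _ hr
    have e : catR blk J (.node l r) sz j = Bool.rec (motive := fun _ => Nat)
        (Nat.lor (catR blk J r (sz - sz / 2) (j + sz / 2)) (Nat.shiftLeft (catR blk J l (sz / 2) j)
          (Nat.mul 20 (sqr (mn (j + sz) J) - sqr (j + sz / 2))))) (catR blk J l (sz / 2) j)
        (Nat.ble J (j + sz / 2)) := rfl
    have e' : cntT c J (.node l r) sz j = Bool.rec (motive := fun _ => Nat)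
        (cntT c J l (sz / 2) j + cntT c J r (sz - sz / 2) (j + sz / 2)) (cntT c J l (sz / 2) j)
        (Nat.ble J (j + sz / 2)) := rfl
    have hs : sz / 2 ≤ sz := Nat.div_le_self _ _
    rw [e, e']
    by_cases hJ : J ≤ j + sz / 2
    · rw [Nat.ble_eq_true_of_le hJ]
      rw [min_eq_right hJ] at h2
      rw [min_eq_right (show J ≤ j + sz by omega)]
      exact ⟨S, h1, c1, h2⟩
    · rw [ssp_ble_false hJ]
      rw [min_eq_left (show j + sz / 2 ≤ J by omega)] at h2
      rw [show j + sz / 2 + (sz - sz / 2) = j + sz by omega] at h4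
      refine ⟨_, ssp_or h3 (ssp_shl h1 _), ?_, fun a ha ha' hQ => ?_⟩
      · refine (card_union_le _ _).trans ?_
        have := card_image_le (s := S) (f := (· + (sqr (mn (j + sz) J) - sqr (j + sz / 2))))
        change _ ≤ _ + _
        omega
      · by_cases h5 : a < (j + sz / 2) ^ 2
        · refine mem_union_right _ (mem_image.2 ⟨_, h2 a ha h5 hQ, ?_⟩)
          have h7 : (j + sz / 2) ^ 2 ≤ (min (j + sz) J) ^ 2 :=
            Nat.pow_le_pow_left (le_min (by omega) (by omega)) 2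
          rw [ssp_sqr, ssp_sqr, ssp_mn]
          omega
        · exact mem_union_left _ (h4 a (by omega) ha' hQ)

theorem spL_sound (t : Tr) (sz J : ℕ) (ht : TLok t sz) (hJ : J ≤ sz) :
    Fwd IsP (spL J t sz) (sqr J) := by
  obtain ⟨S, h1, h2⟩ := ssp_catF (Q := IsP) (blk := fun _ p => bitsF 20 p) (J := J)
    (fun j p h => ⟨_, ssp_bitsF p, fun _ r hr hQ => by
      obtain ⟨i, hi, rfl⟩ := ssp_bit_one (h r hr hQ)
      exact mem_image_of_mem _ (mem_range.2 hi)⟩) t sz 0 ht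
  refine ⟨S, h1, fun b hb hQ => ?_⟩
  rw [zero_add, min_eq_right hJ] at h2
  simpa using h2 b (by simp) (by rwa [← ssp_sqr]) hQ

theorem spLR_sound (t : Tr) (sz J : ℕ) (ht : TLok t sz) (hJ : J ≤ sz) :
    Rev IsP (spLR J t sz) (sqr J) (cntT 0 J t sz 0) := by
  obtain ⟨S, h1, h0, h2⟩ := ssp_catR (Q := IsP) (blk := fun j p => bitsR (Nat.mul 2 j) p)
    (J := J) (c := 0)
    (fun j p h => ⟨_, ssp_bitsR _ p, card_image_le.trans (by simp), fun _ r hr hQ => by
      obtain ⟨i, hi, rfl⟩ := ssp_bit_one (h r hr hQ)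
      exact mem_image.2 ⟨i, mem_range.2 hi, rfl⟩⟩) t sz 0 ht
  refine ⟨S, h1, h0, fun b hb hQ => ?_⟩
  rw [zero_add, min_eq_right hJ, ← ssp_sqr J] at h2
  exact h2 b (by simp) hb hQ

theorem spW_sound (t : Tr) (sz J LF n0 : ℕ) (ht : TWok t sz) (hJ : J ≤ sz) (hL : Fwd IsP LF n0)
    (hn : 2 * J ≤ n0) : Fwd IsN (spW LF J t sz) (sqr J) := by
  obtain ⟨L, k1, k2⟩ := hL
  obtain ⟨S, h1, h2⟩ := ssp_catF (Q := IsN) (J := J)
    (blk := fun j p =>
      Nat.lor (Nat.land LF (ones (Nat.mul 20 (Nat.succ (Nat.mul 2 j))))) (bitsF 20 p))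
    (fun j p h => ⟨_, ssp_or (ssp_and k1 _) (ssp_bitsF p), fun hj r hr hQ => by
      rcases h r hr hQ with h3 | h3
      · exact mem_union_left _ (mem_filter.2 ⟨k2 r (by omega) h3, Nat.lt_succ_of_le hr⟩)
      · obtain ⟨i, hi, rfl⟩ := ssp_bit_one h3
        exact mem_union_right _ (mem_image_of_mem _ (mem_range.2 hi))⟩) t sz 0 ht
  refine ⟨S, h1, fun b hb hQ => ?_⟩
  rw [zero_add, min_eq_right hJ] at h2
  simpa using h2 b (by simp) (by rwa [← ssp_sqr]) hQ

theorem spWR_sound (t : Tr) (sz J LR n0 c : ℕ) (ht : TWok t sz) (hJ : J ≤ sz)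
    (hL : Rev IsP LR n0 c) (hn : 2 * J ≤ n0) :
    Rev IsN (spWR LR (n0 - 1) J t sz) (sqr J) (cntT c J t sz 0) := by
  obtain ⟨L, k1, k0, k2⟩ := hL
  obtain ⟨S, h1, h0, h2⟩ := ssp_catR (Q := IsN) (J := J) (c := c)
    (blk := fun j p => Nat.lor (Nat.shiftRight LR (Nat.mul 20 (Nat.sub (n0 - 1) (Nat.mul 2 j))))
      (bitsR (Nat.mul 2 j) p))
    (fun j p h => ⟨_, ssp_or (ssp_shr k1 _) (ssp_bitsR _ p),
      (card_union_le _ _).trans (add_le_add
        (card_image_le.trans ((card_filter_le _ _).trans k0)) (card_image_le.trans (by simp))),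
      fun hj r hr hQ => by
      rcases h r hr hQ with h3 | h3
      · refine mem_union_left _ (mem_image.2 ⟨_, mem_filter.2 ⟨k2 r (by omega) h3, ?_⟩, ?_⟩)
        · change n0 - 1 - 2 * j ≤ _
          omega
        · change _ - (n0 - 1 - 2 * j) = _
          omega
      · obtain ⟨i, hi, rfl⟩ := ssp_bit_one h3
        exact mem_union_right _ (mem_image.2 ⟨i, mem_range.2 hi, rfl⟩)⟩) t sz 0 ht
  refine ⟨S, h1, h0, fun b hb hQ => ?_⟩
  rw [zero_add, min_eq_right hJ, ← ssp_sqr J] at h2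
  exact h2 b (by simp) hb hQ

end Pool.Agent.MP_a001a6_co

end

-- part MP_a001a6_co.SMul
section

/-! The lanes of the product of two spreads count pairs; the block check bounds the lanes. -/

namespace Pool.Agent.MP_a001a6_co

open Finset

theorem smul_at20 (x t : ℕ) : at20 x t = (x >>> (20 * t)) % 2 ^ 20 := by
  have h : (1048575 : ℕ) = 2 ^ 20 - 1 := by norm_num
  show (x >>> (20 * t)) &&& 1048575 = _
  rw [h, Nat.and_two_pow_sub_one_eq_mod]

theorem smul_bit (x t j : ℕ) :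
    (at20 x t).testBit j = (decide (j < 20) && x.testBit (20 * t + j)) := by
  rw [smul_at20, Nat.testBit_mod_two_pow, Nat.testBit_shiftRight]

theorem smul_ones (n : ℕ) : ones n = 2 ^ n - 1 := by
  show (1 <<< n) - 1 = _
  rw [Nat.one_shiftLeft]

theorem smul_zero_lane (x : ℕ) : at20 x 0 = x % 1048576 := by
  rw [smul_at20]; norm_num

theorem smul_succ_lane (x t : ℕ) : at20 x (t + 1) = at20 (x / 1048576) t := by
  have h : (1048576 : ℕ) = 2 ^ 20 := by norm_num
  rw [smul_at20, smul_at20, h, ← Nat.shiftRight_eq_div_pow, ← Nat.shiftRight_add]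
  congr 2; ring

theorem smul_ext (x y : ℕ) (h : ∀ t, at20 x t = at20 y t) : x = y := by
  apply Nat.eq_of_testBit_eq
  intro n
  have h1 := smul_bit x (n / 20) (n % 20)
  have h2 := smul_bit y (n / 20) (n % 20)
  have h3 : n % 20 < 20 := Nat.mod_lt _ (by norm_num)
  rw [Nat.div_add_mod] at h1 h2
  rw [h (n / 20), h2] at h1
  simpa [h3] using h1.symm

theorem smul_mask (Y m t : ℕ) :
    at20 (Y &&& ones (20 * m)) t = if t < m then at20 Y t else 0 := by
  apply Nat.eq_of_testBit_eq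
  intro j
  rw [smul_bit, smul_ones, Nat.and_two_pow_sub_one_eq_mod, Nat.testBit_mod_two_pow]
  by_cases hj : j < 20
  · by_cases ht : t < m
    · have : 20 * t + j < 20 * m := by omega
      simp [ht, hj, this, smul_bit]
    · have : ¬ 20 * t + j < 20 * m := by omega
      simp [ht, this]
  · by_cases ht : t < m
    · simp [ht, hj, smul_bit]
    · simp [ht, hj]

theorem smul_shift (Y m t : ℕ) : at20 (Y >>> (20 * m)) t = at20 Y (m + t) := by
  rw [smul_at20, smul_at20, ← Nat.shiftRight_add]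
  congr 2; ring

theorem smul_sum_lane (N : ℕ) : ∀ (f : ℕ → ℕ) (t : ℕ), (∀ s, f s < 1048576) → t < N →
    at20 (∑ s ∈ range N, f s * 1048576 ^ s) t = f t := by
  induction N with
  | zero => intro f t _ ht; omega
  | succ N ih =>
    intro f t hf ht
    have e : ∑ s ∈ range (N + 1), f s * 1048576 ^ s
        = f 0 + 1048576 * ∑ s ∈ range N, f (s + 1) * 1048576 ^ s := by
      rw [sum_range_succ', mul_sum, add_comm]
      congr 1
      · simp
      · exact sum_congr rfl (fun s _ => by ring)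
    rw [e]
    have h0 := hf 0
    cases t with
    | zero => rw [smul_zero_lane]; omega
    | succ t =>
      rw [smul_succ_lane]
      have e2 : (f 0 + 1048576 * ∑ s ∈ range N, f (s + 1) * 1048576 ^ s) / 1048576
          = ∑ s ∈ range N, f (s + 1) * 1048576 ^ s := by omega
      rw [e2]
      exact ih (fun s => f (s + 1)) t (fun s => hf _) (by omega)

theorem smul_fiber {ι : Type} (s : Finset ι) (g : ι → ℕ)
    (h : ∀ t, (s.filter (fun i => g i = t)).card < 1048576) (t : ℕ) :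
    at20 (∑ i ∈ s, 1048576 ^ g i) t = (s.filter (fun i => g i = t)).card := by
  have hm : ∀ i ∈ s, g i ∈ range (s.sup g + t + 1) := by
    intro i hi
    have := Finset.le_sup (f := g) hi
    rw [mem_range]; omega
  rw [← sum_fiberwise_of_maps_to hm]
  have e : ∀ j ∈ range (s.sup g + t + 1), ∑ i ∈ s with g i = j, 1048576 ^ g i
      = (s.filter (fun i => g i = j)).card * 1048576 ^ j := by
    intro j _
    rw [← smul_eq_mul, ← sum_const]
    exact sum_congr rfl (fun i hi => by rw [(mem_filter.1 hi).2])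
  rw [sum_congr rfl e]
  exact smul_sum_lane _ (fun j => (s.filter (fun i => g i = j)).card) t h (by omega)

theorem smul_sp_lane (x : ℕ) (S : Finset ℕ) (h : Sp x S) (t : ℕ) :
    at20 x t = if t ∈ S then 1 else 0 := by
  apply Nat.eq_of_testBit_eq
  intro j
  rw [smul_bit]
  by_cases hj : j < 20
  · have hb := h (20 * t + j)
    by_cases hj0 : j = 0
    · subst hj0
      by_cases ht : t ∈ S
      · have : x.testBit (20 * t + 0) = true := hb.2 ⟨t, ht, by omega⟩
        rw [this, if_pos ht]; rfl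
      · have : x.testBit (20 * t + 0) = false := by
          rw [Bool.eq_false_iff]
          intro hx
          obtain ⟨i, hi, e⟩ := hb.1 hx
          have : i = t := by omega
          exact ht (this ▸ hi)
        rw [this, if_neg ht]; rfl
    · have : x.testBit (20 * t + j) = false := by
        rw [Bool.eq_false_iff]
        intro hx
        obtain ⟨i, _, e⟩ := hb.1 hx
        omega
      rw [this, Bool.and_false]
      obtain ⟨j, rfl⟩ : ∃ i, j = i + 1 := ⟨j - 1, by omega⟩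
      split_ifs <;> simp [Nat.testBit_succ]
  · obtain ⟨j, rfl⟩ : ∃ i, j = i + 1 := ⟨j - 1, by omega⟩
    rw [decide_eq_false hj, Bool.false_and]
    split_ifs <;> simp [Nat.testBit_succ]

theorem smul_sp_sum (x : ℕ) (S : Finset ℕ) (h : Sp x S) : x = ∑ i ∈ S, 1048576 ^ i := by
  apply smul_ext
  intro t
  have hc : ∀ t, (S.filter (fun i => i = t)).card = if t ∈ S then 1 else 0 := by
    intro t
    rw [filter_eq']
    split_ifs <;> simp
  rw [smul_sp_lane x S h, smul_fiber S (fun i => i) (fun t => by rw [hc]; split_ifs <;> norm_num),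
    hc]

theorem smul_fib_le (S T : Finset ℕ) (t : ℕ) :
    ((S ×ˢ T).filter (fun p => p.1 + p.2 = t)).card ≤ S.card := by
  apply card_le_card_of_injOn (fun p => p.1)
  · intro p hp
    exact (mem_product.1 (mem_filter.1 hp).1).1
  · intro p hp q hq e
    have h1 := (mem_filter.1 hp).2
    have h2 := (mem_filter.1 hq).2
    have e' : p.1 = q.1 := e
    exact Prod.ext e' (by omega)

theorem smul_prod (x y : ℕ) (S T : Finset ℕ) (hx : Sp x S) (hy : Sp y T) (hS : S.card ≤ 524287)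
    (t : ℕ) : at20 (x * y) t = ((S ×ˢ T).filter (fun p => p.1 + p.2 = t)).card := by
  have e : x * y = ∑ p ∈ S ×ˢ T, 1048576 ^ (p.1 + p.2) := by
    rw [smul_sp_sum x S hx, smul_sp_sum y T hy, sum_mul_sum, sum_product]
    exact sum_congr rfl (fun i _ => sum_congr rfl (fun j _ => by rw [pow_add]))
  rw [e]
  exact smul_fiber (S ×ˢ T) (fun p => p.1 + p.2)
    (fun t => lt_of_le_of_lt (smul_fib_le S T t) (by omega)) t

theorem smul_sp_shift (x k : ℕ) (S : Finset ℕ) (h : Sp x S) :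
    Sp (x >>> (20 * k)) ((S.filter (fun i => k ≤ i)).image (fun i => i - k)) := by
  intro n
  rw [Nat.testBit_shiftRight, h]
  constructor
  · rintro ⟨i, hi, e⟩
    exact ⟨i - k, mem_image.2 ⟨i, mem_filter.2 ⟨hi, by omega⟩, rfl⟩, by omega⟩
  · rintro ⟨j, hj, e⟩
    obtain ⟨i, hi, rfl⟩ := mem_image.1 hj
    have := mem_filter.1 hi
    exact ⟨i, this.1, by omega⟩

theorem smul_sp_mask (x m : ℕ) (S : Finset ℕ) (h : Sp x S) :
    Sp (x &&& ones (20 * m)) (S.filter (fun i => i < m)) := by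
  intro n
  rw [smul_ones, Nat.and_two_pow_sub_one_eq_mod, Nat.testBit_mod_two_pow, Bool.and_eq_true,
    decide_eq_true_iff, h]
  constructor
  · rintro ⟨hn, i, hi, e⟩
    exact ⟨i, mem_filter.2 ⟨hi, by omega⟩, e⟩
  · rintro ⟨i, hi, e⟩
    have := mem_filter.1 hi
    exact ⟨by omega, i, this.1, e⟩

theorem smul_rep (om : ℕ) : rep20 om = ∑ j ∈ range om, 1048576 ^ j := by
  show ones (20 * om) / 1048575 = _
  rw [smul_ones, Nat.geomSum_eq (by norm_num), pow_mul]
  norm_num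

theorem smul_add_lane (e om : ℕ) : ∀ Y t : ℕ, (∀ s, at20 Y s + e < 1048576) → t < om →
    at20 (Y + e * ∑ j ∈ range om, 1048576 ^ j) t = at20 Y t + e := by
  induction om with
  | zero => intro Y t _ ht; omega
  | succ om ih =>
    intro Y t hY ht
    have e1 : ∑ j ∈ range (om + 1), 1048576 ^ j = 1 + 1048576 * ∑ j ∈ range om, 1048576 ^ j := by
      rw [sum_range_succ', mul_sum, add_comm]
      congr 1
      exact sum_congr rfl (fun s _ => by ring)
    have e2 : Y + e * ∑ j ∈ range (om + 1), 1048576 ^ j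
        = Y + e + 1048576 * (e * ∑ j ∈ range om, 1048576 ^ j) := by
      rw [e1]; ring
    rw [e2]
    have h0 := hY 0
    rw [smul_zero_lane] at h0
    cases t with
    | zero => rw [smul_zero_lane, smul_zero_lane]; omega
    | succ t =>
      rw [smul_succ_lane, smul_succ_lane]
      have e3 : (Y + e + 1048576 * (e * ∑ j ∈ range om, 1048576 ^ j)) / 1048576
          = Y / 1048576 + e * ∑ j ∈ range om, 1048576 ^ j := by omega
      rw [e3]
      exact ih _ t (fun s => by rw [← smul_succ_lane]; exact hY _) (by omega)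

theorem smul_leaf (om Y c : ℕ) (hY : ∀ s, at20 Y s ≤ 524287)
    (h : leafOK (rep20 om) (rep20 om <<< 19) Y c = true) (t : ℕ) (ht : t < om) : at20 Y t ≤ c := by
  unfold leafOK at h
  rw [band_iff] at h
  have hc : c ≤ 524287 := Nat.le_of_ble_eq_true h.1
  have hz : (Y + (524287 - c) * rep20 om) &&& (rep20 om <<< 19) = 0 := Nat.eq_of_beq_eq_true h.2
  have hO : at20 (rep20 om) t = 1 := by
    have := smul_add_lane 1 om 0 t (fun s => by rw [smul_at20]; simp) ht
    rw [zero_add, one_mul, ← smul_rep] at this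
    rw [this, smul_at20]; simp
  have hO2 : (rep20 om).testBit (20 * t) = true := by
    have := smul_bit (rep20 om) t 0
    rw [hO] at this
    simpa using this.symm
  have hH : (rep20 om <<< 19).testBit (20 * t + 19) = true := by
    rw [Nat.testBit_shiftLeft]
    simp [hO2]
  have hb : (Y + (524287 - c) * rep20 om).testBit (20 * t + 19) = false := by
    have := congrArg (fun z => Nat.testBit z (20 * t + 19)) hz
    simp only [Nat.testBit_and, hH, Bool.and_true, Nat.zero_testBit] at this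
    exact this
  have hl : at20 (Y + (524287 - c) * rep20 om) t = at20 Y t + (524287 - c) := by
    rw [smul_rep]
    exact smul_add_lane _ om Y t (fun s => by have := hY s; omega) ht
  have h19 := smul_bit (Y + (524287 - c) * rep20 om) t 19
  rw [hb, Bool.and_false, hl, Nat.testBit_eq_decide_div_mod_eq, decide_eq_false_iff_not] at h19
  have := hY t
  omega

theorem smul_chkB (om pk : ℕ) (hom : 0 < om) (d : ℕ) : ∀ Y i : ℕ, (∀ s, at20 Y s ≤ 524287) →
    chkB om (rep20 om) (rep20 om <<< 19) pk d Y i = true →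
    ∀ t < om * 2 ^ d, at20 Y t ≤ at20 pk (i + t / om) := by
  induction d with
  | zero =>
    intro Y i hY h t ht
    rw [pow_zero, mul_one] at ht
    rw [Nat.div_eq_of_lt ht, add_zero]
    exact smul_leaf om Y _ hY h t ht
  | succ d ih =>
    intro Y i hY h t ht
    have h' : band (chkB om (rep20 om) (rep20 om <<< 19) pk d (Y &&& ones ((20 * om) <<< d)) i)
        (chkB om (rep20 om) (rep20 om <<< 19) pk d (Y >>> ((20 * om) <<< d)) (i + 1 <<< d))
        = true := h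
    rw [band_iff, Nat.shiftLeft_eq (20 * om) d, mul_assoc, Nat.one_shiftLeft] at h'
    by_cases hlt : t < om * 2 ^ d
    · have := ih _ i (fun s => by rw [smul_mask]; split_ifs; exacts [hY s, by norm_num]) h'.1 t hlt
      rwa [smul_mask, if_pos hlt] at this
    · obtain ⟨u, rfl⟩ : ∃ u, t = om * 2 ^ d + u := ⟨t - om * 2 ^ d, by omega⟩
      have hu : u < om * 2 ^ d := by
        rw [pow_succ, ← mul_assoc] at ht; omega
      have := ih _ _ (fun s => by rw [smul_shift]; exact hY _) h'.2 u hu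
      rw [smul_shift] at this
      rw [Nat.mul_add_div hom, ← add_assoc]
      exact this

theorem chkP_sound (A B : ℕ → Prop) (AR NAf BF NBf om NA NB pn pp c : ℕ) (hA : Rev A AR NAf c)
    (hc : c ≤ 524287) (hB : Fwd B BF NBf) (hNB : NB ≤ NBf) (hom : 0 < om)
    (h : chkP AR NAf BF om NA NB pn pp = true) :
    (∀ d, 1 ≤ d → d < NA → cneg A B NA NB d ≤ at20 pn ((NA - 1 - d) / om)) ∧
    (∀ d, 1 ≤ d → d ≤ NB → cpos A B NA NB d ≤ at20 pp ((d - 1) / om)) := by
  classical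
  obtain ⟨S, hS, hSc, hSA⟩ := hA
  obtain ⟨T, hT, hTB⟩ := hB
  unfold chkP chkY at h
  rw [band_iff, band_iff, band_iff, band_iff] at h
  obtain ⟨h1, h2, h3, h4, h5⟩ := h
  have h1' : NA ≤ NAf := Nat.le_of_ble_eq_true h1
  have h2' : NA ≤ 16 * om := Nat.le_of_ble_eq_true h2
  have h3' : NB ≤ 32 * om := Nat.le_of_ble_eq_true h3
  obtain ⟨S', hS'⟩ : ∃ S', S' = (S.filter (fun i => NAf - NA ≤ i)).image (fun i => i - (NAf - NA)) :=
    ⟨_, rfl⟩
  obtain ⟨T', hT'⟩ : ∃ T', T' = T.filter (fun i => i < NB) := ⟨_, rfl⟩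
  obtain ⟨Y, hY⟩ : ∃ Y, Y = (AR >>> (20 * (NAf - NA))) * (BF &&& ones (20 * NB)) := ⟨_, rfl⟩
  have h4' : chkB om (rep20 om) (rep20 om <<< 19) pn 4 (Y &&& ones (20 * (NA - 1))) 0 = true := by
    rw [hY]; exact h4
  have h5' : chkB om (rep20 om) (rep20 om <<< 19) pp 5 (Y >>> (20 * NA)) 0 = true := by
    rw [hY]; exact h5
  have hcard : S'.card ≤ 524287 := by
    rw [hS']
    exact le_trans card_image_le (le_trans (card_filter_le _ _) (le_trans hSc hc))
  have hl : ∀ t, at20 Y t = ((S' ×ˢ T').filter (fun p => p.1 + p.2 = t)).card := by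
    intro t
    rw [hY]
    exact smul_prod _ _ S' T' (hS' ▸ smul_sp_shift AR _ S hS) (hT' ▸ smul_sp_mask BF NB T hT) hcard t
  have hle : ∀ t, at20 Y t ≤ 524287 := fun t => by
    rw [hl]; exact le_trans (smul_fib_le S' T' t) hcard
  have hmS : ∀ a < NA, A a → NA - 1 - a ∈ S' := by
    intro a ha hAa
    rw [hS']
    exact mem_image.2 ⟨NAf - 1 - a, mem_filter.2 ⟨hSA a (by omega) hAa, by omega⟩, by omega⟩
  have hmT : ∀ b < NB, B b → b ∈ T' := by
    intro b hb hBb
    rw [hT']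
    exact mem_filter.2 ⟨hTB b (by omega) hBb, hb⟩
  constructor
  · intro d hd hdN
    have k1 := smul_chkB om pn hom 4 _ 0
      (fun s => by rw [smul_mask]; split_ifs; exacts [hle s, by norm_num]) h4' (NA - 1 - d) (by omega)
    rw [smul_mask, if_pos (by omega), zero_add, hl] at k1
    refine le_trans ?_ k1
    unfold cneg
    apply card_le_card_of_injOn (fun a => (NA - 1 - a, a - d))
    · intro a ha
      have ha' := mem_filter.1 (mem_coe.1 ha)
      have hr := mem_range.1 ha'.1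
      obtain ⟨_, hAa, hda, hlt, hBa⟩ := ha'
      exact mem_coe.2 (mem_filter.2 ⟨mem_product.2 ⟨hmS a hr hAa, hmT _ hlt hBa⟩, by
        show NA - 1 - a + (a - d) = NA - 1 - d
        omega⟩)
    · intro a ha b hb e
      have hr := mem_range.1 (mem_filter.1 (mem_coe.1 ha)).1
      have hr' := mem_range.1 (mem_filter.1 (mem_coe.1 hb)).1
      have e' : NA - 1 - a = NA - 1 - b := congrArg Prod.fst e
      omega
  · intro d hd hdN
    have k1 := smul_chkB om pp hom 5 _ 0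
      (fun s => by rw [smul_shift]; exact hle _) h5' (d - 1) (by omega)
    rw [smul_shift, zero_add, hl] at k1
    refine le_trans ?_ k1
    unfold cpos
    apply card_le_card_of_injOn (fun a => (NA - 1 - a, a + d))
    · intro a ha
      have ha' := mem_filter.1 (mem_coe.1 ha)
      have hr := mem_range.1 ha'.1
      obtain ⟨_, hAa, hlt, hBa⟩ := ha'
      exact mem_coe.2 (mem_filter.2 ⟨mem_product.2 ⟨hmS a hr hAa, hmT _ hlt hBa⟩, by
        show NA - 1 - a + (a + d) = NA + (d - 1)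
        omega⟩)
    · intro a ha b hb e
      have hr := mem_range.1 (mem_filter.1 (mem_coe.1 ha)).1
      have hr' := mem_range.1 (mem_filter.1 (mem_coe.1 hb)).1
      have e' : NA - 1 - a = NA - 1 - b := congrArg Prod.fst e
      omega

end Pool.Agent.MP_a001a6_co

end

-- part MP_a001a6_co.SWin
section

/-
HINTS.  ell_le_parts: P-position k^2+r gives IsN r and IsN (2k^2+r) (isP_block).  m = mz k, g = gz k, h = hz k: 2k^2 = m^2+g, g ≤ 2m, (m+1)^2 = 2k^2+h, k ≤ m, g ≤ 4k-1.  If r+g ≤ 2m, isN_block m (g+r) gives IsP (r+g) or IsP (2m^2+g+r), where 2m^2+g+r = (2k)^2+(r-g) if g ≤ r, and = (2k-1)^2+(r+(4k-1-g)) if r < g; apply isP_block.  Otherwise h ≤ r, 2k^2+r = (m+1)^2+(r-h), isN_block gives IsP (r-h) or IsP ((2k)^2+(r+h)).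
winW / winL: for k1 ≤ k < k2, geoOK gives nx k1 ≤ m ≤ nx k2, and 1 ≤ g (2k^2 is not a square) ≤ 2m ≤ 24 om, so g lies in bin i = (g-1)/om < 24 with g0 = i om + 1, g1 = (i+1) om.  From chkP_sound: cneg d ≤ envN pn om NA lo hi and cpos d ≤ envP pp om lo hi for lo ≤ d ≤ hi, 1 ≤ d (cneg d = 0 for d ≥ NA, cpos d = 0 for d > NB; maxR bounds at20 on the range).  Each filter in partW / partL is a subset of the filter in cneg / cpos with NA = 2 k2 (r ≤ 2k < 2 k2); the h-terms vanish when h > 2k.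
incs2_sound: induction on lW; repl n e rest with n * s blocks each bounded by v.c + u.c (0 < k1 since hk).
-/

namespace Pool.Agent.MP_a001a6_co

open Finset

theorem swin_geo (k : ℕ) (hk : 0 < k) : 2 * k ^ 2 = mz k ^ 2 + gz k ∧ gz k ≤ 2 * mz k ∧
    k ≤ mz k ∧ mz k < 2 * k ∧ 1 ≤ gz k := by
  have h1 : mz k ^ 2 ≤ 2 * k ^ 2 := Nat.sqrt_le' _
  have h2 : 2 * k ^ 2 < (mz k + 1) ^ 2 := Nat.lt_succ_sqrt' _
  have h3 : k ≤ mz k := Nat.le_sqrt'.2 (by omega)
  have h4 : mz k < 2 * k := by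
    refine lt_of_pow_lt_pow_left₀ 2 (Nat.zero_le _) ?_
    have : 0 < k ^ 2 := by positivity
    nlinarith
  have h5 : mz k ^ 2 ≠ 2 * k ^ 2 := by
    intro h
    have h6 := congrArg (fun n => Nat.factorization n 2) h
    simp only [Nat.factorization_mul (show 2 ≠ 0 by norm_num) (pow_ne_zero 2 hk.ne'),
      Nat.factorization_pow, Finsupp.add_apply, Finsupp.smul_apply, smul_eq_mul,
      Nat.Prime.factorization_self Nat.prime_two] at h6
    omega
  have h7 : (mz k + 1) ^ 2 = mz k ^ 2 + 2 * mz k + 1 := by ring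
  unfold gz
  omega

theorem swin_allN (f : ℕ → Bool) (n : ℕ) (h : allN f n = true) : ∀ i < n, f i = true := by
  induction n with
  | zero => intro i hi; omega
  | succ n ih =>
    have h' : band (allN f n) (f n) = true := h
    rw [band_iff] at h'
    intro i hi
    rcases Nat.lt_succ_iff_lt_or_eq.1 hi with h1 | rfl
    · exact ih h'.1 i h1
    · exact h'.2

theorem swin_allL (f : Wn → Bool) (l : List Wn) (h : allL f l = true) : ∀ v ∈ l, f v = true := by
  induction l with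
  | nil => intro v hv; simp at hv
  | cons u l ih =>
    have h' : band (f u) (allL f l) = true := h
    rw [band_iff] at h'
    intro v hv
    rcases List.mem_cons.1 hv with rfl | h1
    · exact h'.1
    · exact ih h'.2 v h1

theorem swin_mx (a b : ℕ) : mx a b = max a b := by
  unfold mx
  cases h : Nat.ble a b
  · have : ¬ a ≤ b := by rw [← Nat.ble_eq, h]; simp
    exact (max_eq_left (le_of_not_ge this)).symm
  · exact (max_eq_right (Nat.ble_eq ▸ h)).symm

theorem swin_mn (a b : ℕ) : mn a b = min a b := by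
  unfold mn
  cases h : Nat.ble a b
  · have : ¬ a ≤ b := by rw [← Nat.ble_eq, h]; simp
    exact (min_eq_right (le_of_not_ge this)).symm
  · exact (min_eq_left (Nat.ble_eq ▸ h)).symm

theorem swin_maxR (pk lo hi j : ℕ) (h1 : lo ≤ j) (h2 : j ≤ hi) : at20 pk j ≤ maxR pk lo hi := by
  have key : ∀ n : ℕ, ∀ i < n, at20 pk (lo + i) ≤
      Nat.rec (motive := fun _ => ℕ) 0 (fun i ih => mx ih (at20 pk (Nat.add lo i))) n := by
    intro n
    induction n with
    | zero => intro i hi; omega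
    | succ n ih =>
      intro i hi
      show _ ≤ mx _ (at20 pk (lo + n))
      rw [swin_mx]
      rcases Nat.lt_succ_iff_lt_or_eq.1 hi with h | rfl
      · exact (ih i h).trans (le_max_left _ _)
      · exact le_max_right _ _
  have := key (hi + 1 - lo) (j - lo) (by omega)
  rwa [Nat.add_sub_cancel' h1] at this

theorem swin_envN (A B : ℕ → Prop) (pn om NA NB lo hi d : ℕ)
    (h : ∀ d, 1 ≤ d → d < NA → cneg A B NA NB d ≤ at20 pn ((NA - 1 - d) / om))
    (h0 : 1 ≤ d) (h1 : lo ≤ d) (h2 : d ≤ hi) : cneg A B NA NB d ≤ envN pn om NA lo hi := by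
  classical
  by_cases hd : d < NA
  · have e : Nat.ble NA lo = false := by
      rw [← Bool.not_eq_true, Nat.ble_eq]; omega
    unfold envN
    rw [e]
    refine (h d h0 hd).trans (swin_maxR _ _ _ _ ?_ ?_)
    · exact Nat.div_le_div_right (show NA - 1 - hi ≤ _ by omega)
    · exact Nat.div_le_div_right (show _ ≤ NA - 1 - lo by omega)
  · have : cneg A B NA NB d = 0 := by
      unfold cneg
      rw [card_eq_zero, filter_eq_empty_iff]
      intro a ha hb
      have := mem_range.1 ha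
      omega
    omega

theorem swin_envP (A B : ℕ → Prop) (pp om NA NB lo hi d : ℕ)
    (h : ∀ d, 1 ≤ d → d ≤ NB → cpos A B NA NB d ≤ at20 pp ((d - 1) / om))
    (h0 : 1 ≤ d) (h1 : lo ≤ d) (h2 : d ≤ hi) : cpos A B NA NB d ≤ envP pp om lo hi := by
  classical
  by_cases hd : d ≤ NB
  · refine (h d h0 hd).trans (swin_maxR _ _ _ _ ?_ ?_)
    · exact Nat.div_le_div_right (show lo - 1 ≤ _ by omega)
    · exact Nat.div_le_div_right (show _ ≤ hi - 1 by omega)
  · have : cpos A B NA NB d = 0 := by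
      unfold cpos
      rw [card_eq_zero, filter_eq_empty_iff]
      intro a ha hb
      omega
    omega

theorem swin_geoOK (k1 k2 k : ℕ) (h : geoOK k1 k2 = true) (h1 : k1 ≤ k) (h2 : k < k2) :
    0 < k ∧ nx k1 ≤ mz k ∧ mz k ≤ nx k2 ∧ ∃ i < 24,
      i * omOf k2 + 1 ≤ gz k ∧ gz k ≤ (i + 1) * omOf k2 := by
  unfold geoOK sqr at h
  simp only [band_iff, Nat.ble_eq, Nat.mul_eq, Nat.succ_eq_add_one] at h
  obtain ⟨a1, a2', a3', a4'⟩ := h
  generalize nx k1 = n1 at a2' ⊢
  generalize nx k2 = n2 at a3' a4' ⊢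
  have hk : 0 < k := by omega
  obtain ⟨g1, g2, g3, g4, g5⟩ := swin_geo k hk
  have b1 : n1 ≤ mz k := Nat.le_sqrt.2 (by
    have := Nat.mul_le_mul h1 h1
    have e : k ^ 2 = k * k := pow_two k
    omega)
  have b2 : mz k ≤ n2 := by
    refine Nat.lt_succ_iff.1 (Nat.sqrt_lt.2 ?_)
    have : k * k < k2 * k2 := Nat.mul_self_lt_mul_self h2
    show _ < (n2 + 1) * (n2 + 1)
    have e : k ^ 2 = k * k := pow_two k
    omega
  have hom : 0 < omOf k2 := Nat.succ_pos _
  refine ⟨hk, b1, b2, (gz k - 1) / omOf k2, ?_, ?_, ?_⟩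
  · rw [Nat.div_lt_iff_lt_mul hom]; omega
  · have := Nat.div_mul_le_self (gz k - 1) (omOf k2)
    omega
  · have := Nat.lt_mul_div_succ (gz k - 1) hom
    rw [mul_comm] at this
    omega

theorem swin_binW0 (v : Wn) (om g0 g1 : ℕ) : binW v om g0 g1 = 
  Nat.ble (Nat.add (Nat.add (envN v.pn om (Nat.mul 2 v.k2) g0 g1)
      (envP v.pp om (Nat.sub (Nat.sub (Nat.mul 4 v.k1) 1) g1) (Nat.sub (Nat.mul 4 v.k2) g0)))
    (Bool.rec (motive := fun _ => Nat) 0
      (envP v.pp om (Nat.sub (Nat.succ (Nat.mul 2 (nx v.k1))) g1)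
        (mn (Nat.sub (Nat.succ (Nat.mul 2 (nx v.k2))) g0) (Nat.mul 2 v.k2)))
      (Nat.ble (Nat.sub (Nat.succ (Nat.mul 2 (nx v.k1))) g1) (Nat.mul 2 v.k2)))) v.c := rfl

theorem swin_aux (A Y Y' c : ℕ) (b : Bool) (h : Nat.ble (Nat.add A (Bool.rec (motive := fun _ => Nat) 0 Y b)) c = true) (e : Y = Y') :
  A ≤ c ∧ (b = true → A + Y' ≤ c) := by
  subst e
  rw [Nat.ble_eq] at h
  cases b
  · exact ⟨h, fun hb => absurd hb (by simp)⟩
  · exact ⟨(Nat.le_add_right A Y).trans h, fun _ => h⟩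

theorem swin_binW (v : Wn) (om g0 g1 : ℕ) (h : binW v om g0 g1 = true) :
    envN v.pn om (2 * v.k2) g0 g1 + envP v.pp om (4 * v.k1 - 1 - g1) (4 * v.k2 - g0) ≤ v.c ∧
    (2 * nx v.k1 + 1 - g1 ≤ 2 * v.k2 →
      envN v.pn om (2 * v.k2) g0 g1 + envP v.pp om (4 * v.k1 - 1 - g1) (4 * v.k2 - g0)
        + envP v.pp om (2 * nx v.k1 + 1 - g1) (min (2 * nx v.k2 + 1 - g0) (2 * v.k2)) ≤ v.c) := by
  rw [swin_binW0] at h
  generalize nx v.k1 = n1 at h ⊢
  generalize nx v.k2 = n2 at h ⊢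
  obtain ⟨h1, h2⟩ := swin_aux _ _ (envP v.pp om (2 * n1 + 1 - g1) (min (2 * n2 + 1 - g0) (2 * v.k2))) _ _ h (by rw [swin_mn]; rfl)
  exact ⟨h1, fun hb => h2 (Nat.ble_eq.symm.mp hb)⟩

theorem swin_binL (v : Wn) (om g0 g1 : ℕ) (h : binL v om g0 g1 = true) :
    envP v.pp om g0 g1 + envN v.pn om (2 * v.k2) (2 * nx v.k1 + 1 - g1) (2 * nx v.k2 + 1 - g0)
      ≤ v.c := by
  unfold binL at h
  generalize nx v.k1 = n1 at h ⊢
  generalize nx v.k2 = n2 at h ⊢
  simpa only [Nat.ble_eq, Nat.add_eq, Nat.mul_eq, Nat.sub_eq, Nat.succ_eq_add_one] using h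

theorem swin_winW (AR NAf BF NBf c : ℕ) (hA : Rev IsN AR NAf c) (hc : c ≤ 524287)
    (hB : Fwd IsN BF NBf) (v : Wn) (h : winW AR NAf BF NBf v = true) (k : ℕ) (h1 : v.k1 ≤ k)
    (h2 : k < v.k2) : partW k ≤ v.c := by
  classical
  unfold winW at h
  simp only [band_iff, Nat.ble_eq, Nat.mul_eq, Nat.succ_eq_add_one] at h
  obtain ⟨a1, a2, a3, a4⟩ := h
  obtain ⟨hk, b1, b2, i, hi, b3, b4⟩ := swin_geoOK _ _ k a1 h1 h2
  obtain ⟨g1, g2, g3, g4, g5⟩ := swin_geo k hk
  obtain ⟨c1, c2⟩ := chkP_sound IsN IsN AR NAf BF NBf (omOf v.k2) (2 * v.k2) (4 * v.k2) v.pn v.pp c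
    hA hc hB a2 (Nat.succ_pos _) a4
  have a5 : binW v (omOf v.k2) (i * omOf v.k2 + 1) ((i + 1) * omOf v.k2) = true :=
    swin_allN _ _ a3 i hi
  generalize i * omOf v.k2 + 1 = g0 at a5 b3
  generalize (i + 1) * omOf v.k2 = g1' at a5 b4
  obtain ⟨a6, a7⟩ := swin_binW _ _ _ _ a5
  generalize nx v.k1 = n1 at a7 b1
  generalize nx v.k2 = n2 at a7 b2
  have t1 := swin_envN IsN IsN _ _ _ _ g0 g1' (gz k) c1 g5 b3 b4
  have t2 := swin_envP IsN IsN _ _ _ _ (4 * v.k1 - 1 - g1') (4 * v.k2 - g0) (4 * k - 1 - gz k) c2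
    (by omega) (by omega) (by omega)
  have s1 : ((range (2 * k + 1)).filter (fun r => IsN r ∧ gz k ≤ r ∧ IsN (r - gz k))).card
      ≤ cneg IsN IsN (2 * v.k2) (4 * v.k2) (gz k) := by
    unfold cneg
    refine card_le_card fun r hr => ?_
    simp only [mem_filter, mem_range] at hr ⊢
    exact ⟨by omega, hr.2.1, hr.2.2.1, by omega, hr.2.2.2⟩
  have s2 : ((range (2 * k + 1)).filter
      (fun r => IsN r ∧ r < gz k ∧ IsN (r + (4 * k - 1 - gz k)))).card
      ≤ cpos IsN IsN (2 * v.k2) (4 * v.k2) (4 * k - 1 - gz k) := by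
    unfold cpos
    refine card_le_card fun r hr => ?_
    simp only [mem_filter, mem_range] at hr ⊢
    exact ⟨by omega, hr.2.1, by omega, hr.2.2.2⟩
  have hh : hz k = 2 * mz k + 1 - gz k := rfl
  unfold partW
  by_cases hb : hz k ≤ 2 * k
  · have t3 := swin_envP IsN IsN _ _ _ _ (2 * n1 + 1 - g1') (min (2 * n2 + 1 - g0) (2 * v.k2))
      (hz k) c2 (by omega) (by omega) (le_min (by omega) (by omega))
    have s3 : ((range (2 * k + 1)).filter (fun r => IsN r ∧ hz k ≤ r ∧ IsN (r + hz k))).card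
        ≤ cpos IsN IsN (2 * v.k2) (4 * v.k2) (hz k) := by
      unfold cpos
      refine card_le_card fun r hr => ?_
      simp only [mem_filter, mem_range] at hr ⊢
      exact ⟨by omega, hr.2.1, by omega, hr.2.2.2⟩
    exact (Nat.add_le_add (Nat.add_le_add (s1.trans t1) (s2.trans t2)) (s3.trans t3)).trans
      (a7 (by omega))
  · have s3 : ((range (2 * k + 1)).filter (fun r => IsN r ∧ hz k ≤ r ∧ IsN (r + hz k))).card
        = 0 := by
      rw [card_eq_zero, filter_eq_empty_iff]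
      intro r hr hb
      have := mem_range.1 hr
      omega
    rw [s3, add_zero]
    exact (Nat.add_le_add (s1.trans t1) (s2.trans t2)).trans a6

theorem swin_winL (AR NAf BF NBf c : ℕ) (hA : Rev IsN AR NAf c) (hc : c ≤ 524287)
    (hB : Fwd IsP BF NBf) (v : Wn) (h : winL AR NAf BF NBf v = true) (k : ℕ) (h1 : v.k1 ≤ k)
    (h2 : k < v.k2) : partL k ≤ v.c := by
  classical
  unfold winL at h
  simp only [band_iff, Nat.ble_eq, Nat.add_eq, Nat.mul_eq, Nat.succ_eq_add_one] at h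
  obtain ⟨a1, a2, a3, a4⟩ := h
  obtain ⟨hk, b1, b2, i, hi, b3, b4⟩ := swin_geoOK _ _ k a1 h1 h2
  obtain ⟨g1, g2, g3, g4, g5⟩ := swin_geo k hk
  obtain ⟨c1, c2⟩ := chkP_sound IsN IsP AR NAf BF NBf (omOf v.k2) (2 * v.k2) (2 * nx v.k2 + 3)
    v.pn v.pp c hA hc hB a2 (Nat.succ_pos _) a4
  have a5 : binL v (omOf v.k2) (i * omOf v.k2 + 1) ((i + 1) * omOf v.k2) = true :=
    swin_allN _ _ a3 i hi
  generalize i * omOf v.k2 + 1 = g0 at a5 b3
  generalize (i + 1) * omOf v.k2 = g1' at a5 b4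
  have a6 := swin_binL _ _ _ _ a5
  have hh : hz k = 2 * mz k + 1 - gz k := rfl
  have t1 := swin_envP IsN IsP _ _ _ _ g0 g1' (gz k) c2 g5 b3 b4
  have t2 := swin_envN IsN IsP _ _ _ _ (2 * nx v.k1 + 1 - g1') (2 * nx v.k2 + 1 - g0) (hz k) c1
    (by omega) (by omega) (by omega)
  have s1 : ((range (2 * k + 1)).filter
      (fun r => IsN r ∧ r + gz k ≤ 2 * mz k ∧ IsP (r + gz k))).card
      ≤ cpos IsN IsP (2 * v.k2) (2 * nx v.k2 + 3) (gz k) := by
    unfold cpos
    refine card_le_card fun r hr => ?_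
    simp only [mem_filter, mem_range] at hr ⊢
    exact ⟨by omega, hr.2.1, by omega, hr.2.2.2⟩
  have s2 : ((range (2 * k + 1)).filter (fun r => IsN r ∧ hz k ≤ r ∧ IsP (r - hz k))).card
      ≤ cneg IsN IsP (2 * v.k2) (2 * nx v.k2 + 3) (hz k) := by
    unfold cneg
    refine card_le_card fun r hr => ?_
    simp only [mem_filter, mem_range] at hr ⊢
    exact ⟨by omega, hr.2.1, hr.2.2.1, by omega, hr.2.2.2⟩
  refine le_trans ?_ a6
  unfold partL
  exact Nat.add_le_add (s1.trans t1) (s2.trans t2)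

theorem swin_repl (s C k' : ℕ) (rest : List (ℕ × ℕ)) (n : ℕ) : ∀ a : ℕ,
    (∀ j, a ≤ j → j < a + n * s → ell j ≤ C) → IncTo (a + n * s) rest k' →
    IncTo a (repl n (s, s * C) rest) k' := by
  induction n with
  | zero => intro a _ h; rw [zero_mul, add_zero] at h; exact h
  | succ n ih =>
    intro a h1 h2
    have e : a + (n + 1) * s = a + s + n * s := by ring
    rw [e] at h1 h2
    refine ⟨?_, ih (a + s) (fun j k1 k2 => h1 j (by omega) k2) h2⟩
    have := sum_le_card_nsmul (Ico a (a + s)) ell C (fun j hj => by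
      have := mem_Ico.1 hj
      exact h1 j this.1 (by omega))
    simpa using this

theorem ell_le_parts (k : ℕ) (hk : 0 < k) : ell k ≤ partW k + partL k := by
  classical
  obtain ⟨g1, g2, g3, g4, g5⟩ := swin_geo k hk
  have hh : hz k = 2 * mz k + 1 - gz k := rfl
  unfold partW partL ell
  refine le_trans ?_ (Nat.add_le_add ((card_union_le _ _).trans
    (Nat.add_le_add_right (card_union_le _ _) _)) (card_union_le _ _))
  refine le_trans (card_le_card fun r hr => ?_) (card_union_le _ _)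
  simp only [mem_filter, mem_range, mem_union] at hr ⊢
  obtain ⟨hr, hP⟩ := hr
  obtain ⟨n1, n2⟩ := isP_block k r hk (by omega) hP
  by_cases hc : r + gz k ≤ 2 * mz k
  · rw [g1, add_assoc, add_comm (gz k)] at n2
    rcases isN_block _ _ hc n2 with p | p
    · exact Or.inr (Or.inl ⟨hr, n1, hc, p⟩)
    · by_cases hg : gz k ≤ r
      · have e : 2 * mz k ^ 2 + (r + gz k) = (2 * k) ^ 2 + (r - gz k) := by
          have : (2 * k) ^ 2 = 2 * (2 * k ^ 2) := by ring
          omega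
        rw [e] at p
        exact Or.inl (Or.inl (Or.inl ⟨hr, n1, hg, (isP_block _ _ (by omega) (by omega) p).1⟩))
      · have e : 2 * mz k ^ 2 + (r + gz k) = (2 * k - 1) ^ 2 + (r + (4 * k - 1 - gz k)) := by
          have : (2 * k - 1) ^ 2 + 4 * k = 2 * (2 * k ^ 2) + 1 := by
            obtain ⟨j, rfl⟩ : ∃ j, k = j + 1 := ⟨k - 1, by omega⟩
            rw [show 2 * (j + 1) - 1 = 2 * j + 1 by omega]
            ring
          omega
        rw [e] at p
        exact Or.inl (Or.inl (Or.inr ⟨hr, n1, by omega,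
          (isP_block _ _ (by omega) (by omega) p).1⟩))
  · have e0 : (mz k + 1) ^ 2 = mz k ^ 2 + 2 * mz k + 1 := by ring
    have e : 2 * k ^ 2 + r = (mz k + 1) ^ 2 + (r - hz k) := by omega
    rw [e] at n2
    rcases isN_block _ _ (by omega) n2 with p | p
    · exact Or.inr (Or.inr ⟨hr, n1, by omega, p⟩)
    · have e : 2 * (mz k + 1) ^ 2 + (r - hz k) = (2 * k) ^ 2 + (r + hz k) := by
        have : (2 * k) ^ 2 = 2 * (2 * k ^ 2) := by ring
        omega
      rw [e] at p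
      exact Or.inl (Or.inr ⟨hr, n1, by omega, (isP_block _ _ (by omega) (by omega) p).1⟩)

theorem modW_sound (tl tw : Tr) (sl sw J0 JA JB : ℕ) (l : List Wn) (hl : TLok tl sl)
    (hw : TWok tw sw) (h : modW tl tw sl sw J0 JA JB l = true) : UB partW l := by
  unfold modW at h
  simp only [band_iff, Nat.ble_eq] at h
  obtain ⟨a1, a2, a3, a4, a5, a6, a7⟩ := h
  intro v hv k h1 h2
  exact swin_winW _ _ _ _ _ (spWR_sound tw sw JA _ (sqr J0) _ hw a2 (spLR_sound tl sl J0 hl a1) a4)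
    a6 (spW_sound tw sw JB _ (sqr J0) hw a3 (spL_sound tl sl J0 hl a1) a5) v
    (swin_allL _ _ a7 v hv) k h1 h2

theorem modL_sound (tl tw : Tr) (sl sw J0 JA JB : ℕ) (l : List Wn) (hl : TLok tl sl)
    (hw : TWok tw sw) (h : modL tl tw sl sw J0 JA JB l = true) : UB partL l := by
  unfold modL at h
  simp only [band_iff, Nat.ble_eq] at h
  obtain ⟨a1, a2, a3, a4, a6, a7⟩ := h
  intro v hv k h1 h2
  exact swin_winL _ _ _ _ _ (spWR_sound tw sw JA _ (sqr J0) _ hw a2 (spLR_sound tl sl J0 hl a1) a4)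
    a6 (spL_sound tl sl JB hl a3) v (swin_allL _ _ a7 v hv) k h1 h2

theorem ub_append (f : ℕ → ℕ) (l m : List Wn) (h1 : UB f l) (h2 : UB f m) : UB f (l ++ m) := by
  intro v hv
  rcases List.mem_append.1 hv with h | h
  · exact h1 v h
  · exact h2 v h

theorem incs2_sound (lW lL : List Wn) (k : ℕ) (hk : 0 < k) (hW : UB partW lW)
    (hL : UB partL lL) : ∃ k', IncTo k (incs2 lW lL k) k' := by
  induction lW generalizing lL k with
  | nil => exact ⟨k, rfl⟩
  | cons v lW ih =>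
    cases lL with
    | nil => exact ⟨k, rfl⟩
    | cons u t =>
      show ∃ k', IncTo k (inc2 v u k ((v.k2 - k) / 32) (incs2 lW t v.k2)) k'
      generalize (v.k2 - k) / 32 = s
      unfold inc2
      cases hb : band (Nat.beq v.k1 k) (band (Nat.beq u.k1 k) (band (Nat.beq u.k2 v.k2)
        (Nat.beq (Nat.add k (Nat.mul 32 s)) v.k2)))
      · exact ⟨k, rfl⟩
      · simp only [band_iff, Nat.beq_eq] at hb
        obtain ⟨b1, b2, b3, b4⟩ := hb
        have b4' : k + 32 * s = v.k2 := b4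
        obtain ⟨k', hk'⟩ := ih t v.k2 (by omega) (fun w hw => hW w (List.mem_cons_of_mem _ hw))
          (fun w hw => hL w (List.mem_cons_of_mem _ hw))
        refine ⟨k', swin_repl s (v.c + u.c) k' _ 32 k (fun j j1 j2 => ?_) (b4' ▸ hk')⟩
        exact (ell_le_parts j (by omega)).trans (Nat.add_le_add
          (hW v List.mem_cons_self j (by omega) (by omega))
          (hL u List.mem_cons_self j (by omega) (by omega)))

end Pool.Agent.MP_a001a6_co

end

-- part MP_a001a6_co.SWT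
section

/-! Soundness of the integer bound for one window. -/

namespace Pool.Agent.MP_a001a6_co

open Finset

theorem swt_le_div (a b : ℕ) (hb : 0 < b) : (a : ℝ) / b ≤ ((a / b : ℕ) : ℝ) + 1 := by
  have h : a < b * (a / b + 1) := Nat.lt_mul_div_succ a hb
  have hb' : (0 : ℝ) < b := by exact_mod_cast hb
  rw [div_le_iff₀ hb', mul_comm]
  exact_mod_cast h.le

theorem swt_sqC (a b s : ℕ) : a * b ≤ sqC a b s ^ 2 := by
  unfold sqC
  cases h : Nat.ble (Nat.mul a b) (sqr s)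
  · show a * b ≤ (a + b) ^ 2
    nlinarith [Nat.zero_le (a * b), Nat.zero_le (a * a), Nat.zero_le (b * b)]
  · show a * b ≤ s ^ 2
    rw [pow_two]
    exact Nat.le_of_ble_eq_true h

theorem swt_sqU (a b : ℕ) : (a : ℝ) * b ≤ (sqU a b : ℝ) ^ 2 := by
  have := swt_sqC a b (Nat.succ (newton (Nat.mul a b) (Nat.succ (Nat.div (Nat.add a b) 2)) 10))
  exact_mod_cast this

theorem swt_sqrt (a b : ℕ) : √((a : ℝ) * b) ≤ sqU a b :=
  Real.sqrt_le_iff.2 ⟨Nat.cast_nonneg _, swt_sqU a b⟩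

theorem swt_sqrt2 {u v : ℝ} (a b : ℕ) (hu : u ≤ a) (hv : v ≤ b) : √u * √v ≤ sqU a b := by
  refine le_trans ?_ (swt_sqrt a b)
  rw [Real.sqrt_mul (Nat.cast_nonneg a)]
  gcongr

theorem swt_mx_l (a b : ℕ) : a ≤ mx a b := by
  unfold mx
  cases h : Nat.ble a b
  · exact le_rfl
  · exact Nat.le_of_ble_eq_true h

theorem swt_mx_r (a b : ℕ) : b ≤ mx a b := by
  unfold mx
  cases h : Nat.ble a b
  · exact (Nat.lt_of_not_le fun h' => by rw [Nat.ble_eq_true_of_le h'] at h; cases h).le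
  · exact le_rfl

theorem swt_s1 : (141421356 / 100000000 : ℝ) ≤ √2 := Real.le_sqrt_of_sq_le (by norm_num)

theorem swt_s2 : √2 ≤ (141421357 / 100000000 : ℝ) :=
  Real.sqrt_le_iff.2 ⟨by norm_num, by norm_num⟩

theorem swt_inv : (√2 : ℝ)⁻¹ = √2 / 2 := by
  have hs : (√2 : ℝ) ^ 2 = 2 := Real.sq_sqrt (by norm_num)
  field_simp
  exact hs.symm

theorem swt_akR (Z : Zn) : akR Z =
    (((Z.pp : ℝ) * Z.pp + 2 * (Z.qq * Z.qq)) * (√2 / 4) + Z.pp * Z.qq) * ((Z.b : ℝ) / 10) := by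
  have hs : (√2 : ℝ) ^ 2 = 2 := Real.sq_sqrt (by norm_num)
  unfold akR
  rw [div_eq_iff (by positivity)]
  linear_combination
    (((Z.qq : ℝ) ^ 2 - ((Z.pp : ℝ) ^ 2 + 2 * Z.qq ^ 2) / 2) * (Z.b / 10)) * hs

/-- the real parameter X -/
noncomputable def swtX (Z : Zn) : ℝ := ((Z.pp : ℝ) + √2 * Z.qq) * ((Z.b : ℝ) / 10) / √2

theorem swt_X (Z : Zn) : swtX Z = ((Z.pp : ℝ) * (√2 / 2) + Z.qq) * ((Z.b : ℝ) / 10) := by
  have hs : (√2 : ℝ) ^ 2 = 2 := Real.sq_sqrt (by norm_num)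
  unfold swtX
  rw [div_eq_iff (by positivity)]
  linear_combination (-(Z.pp : ℝ) / 2 * (Z.b / 10)) * hs

theorem akLo_le (Z : Zn) : (akLo Z : ℝ) ≤ akR Z := by
  have s1 := swt_s1
  refine Nat.cast_div_le.trans ?_
  rw [swt_akR]
  push_cast
  calc _ = (((Z.pp : ℝ) * Z.pp + 2 * (Z.qq * Z.qq)) * (35355339 / 100000000) + Z.pp * Z.qq)
        * ((Z.b : ℝ) / 10) := by ring
    _ ≤ _ := by gcongr (_ * ?_ + _) * _; linarith

theorem swt_akHi (Z : Zn) : akR Z ≤ (akHi Z : ℝ) := by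
  have s2 := swt_s2
  unfold akHi
  rw [Nat.cast_add, Nat.cast_one]
  refine le_trans ?_ (swt_le_div _ _ (by norm_num))
  rw [swt_akR]
  push_cast
  calc _ ≤ (((Z.pp : ℝ) * Z.pp + 2 * (Z.qq * Z.qq)) * (35355340 / 100000000) + Z.pp * Z.qq)
        * ((Z.b : ℝ) / 10) := by gcongr (_ * ?_ + _) * _; linarith
    _ = _ := by ring

theorem swt_xLo (Z : Zn) : (xLo Z : ℝ) ≤ swtX Z := by
  have s1 := swt_s1
  refine Nat.cast_div_le.trans ?_
  rw [swt_X]
  push_cast
  calc _ = ((Z.pp : ℝ) * (70710678 / 100000000) + Z.qq) * ((Z.b : ℝ) / 10) := by ring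
    _ ≤ _ := by gcongr (_ * ?_ + _) * _; linarith

theorem swt_xHi (Z : Zn) : swtX Z ≤ (xHi Z : ℝ) := by
  have s2 := swt_s2
  unfold xHi
  rw [Nat.cast_add, Nat.cast_one]
  refine le_trans ?_ (swt_le_div _ _ (by norm_num))
  rw [swt_X]
  push_cast
  calc _ ≤ ((Z.pp : ℝ) * (70710679 / 100000000) + Z.qq) * ((Z.b : ℝ) / 10) := by
        gcongr (_ * ?_ + _) * _; linarith
    _ = _ := by ring

theorem swt_g (Z : Zn) (z : ℕ) (hb : 0 < Z.b) (ha : 0 < akLo Z) :
    (√2 * (9143 / 10000) / ((Z.b : ℝ) / 10) + 343 / 1000) * (√2 * z / akR Z + 343 / 1000)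
      ≤ ((g4 Z z : ℝ) / 10000) ^ 2 := by
  have s2 := swt_s2
  have hb' : (0 : ℝ) < Z.b := by exact_mod_cast hb
  have ha' : (0 : ℝ) < akLo Z := by exact_mod_cast ha
  have hA := akLo_le Z
  have hA0 : 0 < akR Z := ha'.trans_le hA
  have h1 := swt_le_div 129310 Z.b hb
  have h2 := swt_le_div (14143 * z) (akLo Z) ha
  have h3 := swt_sqU (129310 / Z.b + 3431) (14143 * z / akLo Z + 3431)
  have h4 : √2 * (9143 / 10000) / ((Z.b : ℝ) / 10) ≤ ((129310 : ℕ) : ℝ) / Z.b / 10000 := by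
    rw [show √2 * (9143 / 10000) / ((Z.b : ℝ) / 10) = √2 * 91430 / Z.b / 10000 by field_simp; norm_num]
    gcongr
    push_cast
    linarith
  have h5 : √2 * z / akR Z ≤ ((14143 * z : ℕ) : ℝ) / akLo Z / 10000 := by
    push_cast
    rw [show (14143 * z : ℝ) / akLo Z / 10000 = 14143 / 10000 * z / akLo Z by ring]
    gcongr
    linarith
  rw [div_pow, g4]
  refine le_trans ?_ (div_le_div_of_nonneg_right h3 (by norm_num))
  rw [Nat.cast_add, Nat.cast_add]
  generalize ((129310 / Z.b : ℕ) : ℝ) = u at *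
  generalize ((14143 * z / akLo Z : ℕ) : ℝ) = v at *
  calc _ ≤ ((u + 3431) / 10000) * ((v + 3431) / 10000) := by
        refine mul_le_mul (by linarith) (by linarith) (by positivity) ?_
        have : 0 ≤ ((129310 : ℕ) : ℝ) / Z.b := by positivity
        linarith
    _ = _ := by push_cast; ring

theorem swt_b1 (Z : Zn) (hq : 0 < Z.q) (hX : 0 ≤ swtX Z) :
    (swtX Z + Z.q) * (swtX Z + √2 * Z.q) / (√2 * Z.q) ≤ (e1 Z : ℝ) := by
  have s2 := swt_s2
  have hs : (√2 : ℝ) ^ 2 = 2 := Real.sq_sqrt (by norm_num)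
  have hq' : (0 : ℝ) < Z.q := by exact_mod_cast hq
  have hH := swt_xHi Z
  unfold e1
  rw [Nat.cast_add, Nat.cast_one]
  refine le_trans ?_ (swt_le_div _ _ (by positivity))
  push_cast
  generalize swtX Z = X at *
  calc _ = (X + Z.q) * (√2 / 2 * X + Z.q) / Z.q := by
        rw [div_eq_div_iff (by positivity) (by positivity)]
        linear_combination (-(X + Z.q) * X * Z.q / 2) * hs
    _ ≤ ((xHi Z : ℝ) + Z.q) * (7072 / 10000 * xHi Z + Z.q) / Z.q := by
        gcongr (?_ + _) * (?_ * ?_ + _) / _; linarith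
    _ = _ := by field_simp

theorem swt_b2 (Z : Zn) : 407 / 100 * swtX Z ≤ (e2 Z : ℝ) := by
  have hH := swt_xHi Z
  unfold e2
  rw [Nat.cast_add, Nat.cast_one]
  refine le_trans ?_ (swt_le_div _ _ (by norm_num))
  push_cast
  linarith

theorem swt_b3 (Z : Zn) (z : ℕ) (hx : 0 < xLo Z) :
    √2 * ((g4 Z z : ℝ) / 10000 * swtX Z) * (1 + √2 * Z.q / swtX Z) * (1 + 2 * Z.q / swtX Z)
      ≤ (e3 Z z : ℝ) := by
  have s2 := swt_s2
  have hx' : (0 : ℝ) < xLo Z := by exact_mod_cast hx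
  have hH := swt_xHi Z
  have hL := swt_xLo Z
  have hX : 0 < swtX Z := hx'.trans_le hL
  unfold e3
  rw [Nat.cast_add, Nat.cast_one]
  refine le_trans ?_ (swt_le_div _ _ (by positivity))
  push_cast
  generalize swtX Z = X at *
  calc _ = √2 * ((g4 Z z : ℝ) / 10000) * (X + √2 * Z.q) * (X + 2 * Z.q) / X := by field_simp
    _ ≤ 14143 / 10000 * ((g4 Z z : ℝ) / 10000) * (xHi Z + 14143 / 10000 * Z.q) * (xHi Z + 2 * Z.q)
        / xLo Z := by gcongr <;> linarith
    _ = _ := by field_simp; ring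

theorem swt_rho (Z : Zn) (z : ℕ) (hz : 0 < z) :
    akR Z * (1 + ((Z.y : ℝ) / 1000) ^ 2 / 2) / (2 * √2 * z) ≤ (rhoN Z : ℝ) / z := by
  have s2 := swt_s2
  have hH := swt_akHi Z
  have hz' : (0 : ℝ) < z := by exact_mod_cast hz
  rw [← div_div]
  refine div_le_div_of_nonneg_right ?_ hz'.le
  unfold rhoN
  rw [Nat.cast_add, Nat.cast_one]
  refine le_trans ?_ (swt_le_div _ _ (by norm_num))
  push_cast
  calc _ = akR Z * (1 + ((Z.y : ℝ) / 1000) ^ 2 / 2) * (√2 / 4) := by
        rw [div_eq_mul_inv, mul_inv, swt_inv]; ring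
    _ ≤ (akHi Z : ℝ) * (1 + ((Z.y : ℝ) / 1000) ^ 2 / 2) * (35355340 / 100000000) := by
        gcongr ?_ * _ * ?_; linarith
    _ = _ := by ring

theorem swt_exp (Z : Zn) (z : ℕ) (hA : 0 < akR Z) :
    Real.exp (-Real.pi * ((z : ℝ) / akR Z) ^ 2 *
      (((Z.y : ℝ) / 1000) ^ 2 / (1 + ((Z.y : ℝ) / 1000) ^ 2))) ≤ ((2 : ℝ) ^ lg Z z)⁻¹ := by
  have hH := swt_akHi Z
  have hH0 : (0 : ℝ) < akHi Z := hA.trans_le hH
  have h1 : (lg Z z : ℝ) ≤ _ := Nat.cast_div_le
  push_cast at h1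
  have h2 : (lg Z z : ℝ) * Real.log 2 ≤ Real.pi * ((z : ℝ) / akR Z) ^ 2 *
      (((Z.y : ℝ) / 1000) ^ 2 / (1 + ((Z.y : ℝ) / 1000) ^ 2)) := by
    have l2 := Real.log_two_lt_d9
    have l0 : 0 ≤ Real.log 2 := Real.log_nonneg (by norm_num)
    have p3 := Real.pi_gt_d2
    calc _ ≤ 31400 * ((z : ℝ) * z) * (Z.y * Z.y)
          / (6932 * ((akHi Z : ℝ) * akHi Z) * (1000000 + Z.y * Z.y)) * (6932 / 10000) := by
          gcongr; linarith
      _ = 314 / 100 * ((z : ℝ) / akHi Z) ^ 2 *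
          (((Z.y : ℝ) / 1000) ^ 2 / (1 + ((Z.y : ℝ) / 1000) ^ 2)) := by field_simp; ring
      _ ≤ _ := by gcongr; linarith
  calc _ ≤ Real.exp (-((lg Z z : ℝ) * Real.log 2)) := by
        rw [Real.exp_le_exp]; linarith
    _ = _ := by rw [Real.exp_neg, Real.exp_nat_mul, Real.exp_log (by norm_num)]

theorem swt_E (Z : Zn) (z : ℕ) (hA : 0 < akR Z) (hX : 0 ≤ swtX Z) :
    ((mx (mx (e1 Z) (e2 Z)) (e3 Z z) : ℕ) : ℝ) + swtX Z ^ 2 / √2 *
      Real.exp (-Real.pi * ((z : ℝ) / akR Z) ^ 2 *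
      (((Z.y : ℝ) / 1000) ^ 2 / (1 + ((Z.y : ℝ) / 1000) ^ 2))) ≤ (eE Z z : ℝ) := by
  have s2 := swt_s2
  have hH := swt_xHi Z
  have h1 := swt_exp Z z hA
  have e : Nat.shiftLeft 10000 (lg Z z) = 10000 * 2 ^ lg Z z := Nat.shiftLeft_eq _ _
  unfold eE
  rw [Nat.cast_add, Nat.cast_add, Nat.cast_one, add_assoc, e]
  refine add_le_add le_rfl (le_trans ?_ (swt_le_div _ _ (by positivity)))
  push_cast
  calc _ ≤ swtX Z ^ 2 / √2 * ((2 : ℝ) ^ lg Z z)⁻¹ := by gcongr
    _ = √2 / 2 * swtX Z ^ 2 * ((2 : ℝ) ^ lg Z z)⁻¹ := by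
        rw [div_eq_mul_inv, swt_inv]; ring
    _ ≤ 7072 / 10000 * (xHi Z : ℝ) ^ 2 * ((2 : ℝ) ^ lg Z z)⁻¹ := by
        gcongr ?_ * ?_ ^ 2 * _; linarith
    _ = _ := by field_simp

theorem swt_pk {s : ℝ} (a : ℕ) (h0 : 0 ≤ s) (h1 : s ≤ 1) (ha : 10000 * s ≤ a) :
    Real.exp s ≤ (pkOf a : ℝ) / 10000 := by
  have h := Real.exp_bound' h0 h1 (n := 3) (by norm_num)
  simp only [Finset.sum_range_succ, Finset.range_zero, Finset.sum_empty, Nat.factorial] at h
  norm_num at h
  have h2 := swt_le_div (a * a) 20000 (by norm_num)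
  have h3 := swt_le_div (a * a * a) 400000000 (by norm_num)
  unfold pkOf
  push_cast at h2 h3
  rw [Nat.cast_add, Nat.cast_add, Nat.cast_add]
  generalize ((a * a / 20000 : ℕ) : ℝ) = u at *
  generalize ((a * a * a / 400000000 : ℕ) : ℝ) = v at *
  have h4 : (10000 * s) ^ 2 ≤ (a : ℝ) ^ 2 := by gcongr
  have h5 : (10000 * s) ^ 3 ≤ (a : ℝ) ^ 3 := by gcongr
  have h6 : 0 ≤ s ^ 3 := by positivity
  push_cast
  nlinarith

theorem swt_pk' (b c : ℕ) (r : ℝ) (hb : 16 ≤ b) (hc : c ≤ 2560000)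
    (hr : 31416 * (r ^ 2 * 100) ≤ c) :
    Real.exp (Real.pi * (r / ((b : ℝ) / 10)) ^ 2) ≤ (pkOf (c / (b * b) + 1) : ℝ) / 10000 := by
  have hb' : (16 : ℝ) ≤ b := by exact_mod_cast hb
  have hc' : (c : ℝ) ≤ 2560000 := by exact_mod_cast hc
  have p4 := Real.pi_lt_d4
  have h1 : 10000 * (Real.pi * (r / ((b : ℝ) / 10)) ^ 2) ≤ (c : ℝ) / (b * b) := by
    calc _ = 10000 * Real.pi * (r ^ 2 * 100) / (b * b) := by field_simp; ring
      _ ≤ 31416 * (r ^ 2 * 100) / (b * b) := by gcongr; linarith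
      _ ≤ _ := by gcongr
  have h2 : (c : ℝ) / (b * b) ≤ 2560000 / (16 * 16) := by gcongr
  have h3 := swt_le_div c (b * b) (by positivity)
  refine swt_pk _ (by positivity) (by linarith) ?_
  rw [Nat.cast_add, Nat.cast_one]
  push_cast at h3
  linarith

theorem swt_tw (Z : Zn) (z x W2 W4 P3 : ℕ) (hz : 0 < z) :
    Tw ((rhoN Z : ℝ) / z) (eE Z z) (dl Z) ((pk1N Z : ℝ) / 10000) ((pk2N Z : ℝ) / 10000) x W2 W4 P3
      ≤ (winT Z z x W2 W4 P3 : ℝ) := by
  have hz' : (0 : ℝ) < z := by exact_mod_cast hz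
  have s7 : √7 ≤ (2646 / 1000 : ℝ) := Real.sqrt_le_iff.2 ⟨by norm_num, by norm_num⟩
  have d1 := swt_le_div (589 * (2 * x + 1)) 10000 (by norm_num)
  have d2 := swt_le_div (166687 * x) 1000000 (by norm_num)
  have d3 := swt_le_div (589 * (4 * x + 1)) 10000 (by norm_num)
  have d4 := swt_le_div (589 * (2 * x + 4)) 10000 (by norm_num)
  have a1 : √((lam * (2 * x + 1) + dl Z) * W2) * √((lam * (283 / 100 * x) + dl Z) * P3)
      ≤ sqU ((589 * (2 * x + 1) / 10000 + 1 + dl Z) * W2)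
        ((166687 * x / 1000000 + 1 + dl Z) * P3) := by
    refine swt_sqrt2 _ _ ?_ ?_
    · rw [Nat.cast_mul, Nat.cast_add, Nat.cast_add, Nat.cast_one]
      push_cast at d1
      gcongr
      unfold lam
      linarith
    · rw [Nat.cast_mul, Nat.cast_add, Nat.cast_add, Nat.cast_one]
      push_cast at d2
      gcongr
      unfold lam
      linarith
  have a2 : √((lam * (4 * x + 1) + 2 * dl Z) * W4) * √((lam * (2 * x + 4) + 4 * dl Z) * W2)
      ≤ sqU ((589 * (4 * x + 1) / 10000 + 1 + 2 * dl Z) * W4)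
        ((589 * (2 * x + 4) / 10000 + 1 + 4 * dl Z) * W2) := by
    refine swt_sqrt2 _ _ ?_ ?_
    · rw [Nat.cast_mul, Nat.cast_add, Nat.cast_add, Nat.cast_one, Nat.cast_mul 2, Nat.cast_ofNat]
      push_cast at d3
      gcongr
      unfold lam
      linarith
    · rw [Nat.cast_mul, Nat.cast_add, Nat.cast_add, Nat.cast_one, Nat.cast_mul 4, Nat.cast_ofNat]
      push_cast at d4
      gcongr
      unfold lam
      linarith
  have a3 := swt_sqrt W2 P3
  have a4 := swt_sqrt W2 W4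
  unfold winT
  rw [Nat.cast_add, Nat.cast_one]
  refine le_trans ?_ (swt_le_div _ _ (by positivity))
  unfold Tw
  generalize sqU ((589 * (2 * x + 1) / 10000 + 1 + dl Z) * W2)
    ((166687 * x / 1000000 + 1 + dl Z) * P3) = S1 at *
  generalize sqU ((589 * (4 * x + 1) / 10000 + 1 + 2 * dl Z) * W4)
    ((589 * (2 * x + 4) / 10000 + 1 + 4 * dl Z) * W2) = S2 at *
  generalize sqU W2 P3 = S3 at *
  generalize sqU W2 W4 = S4 at *
  have hsig := window_sig
  calc _ ≤ (pk1N Z : ℝ) / 10000 * ((rhoN Z : ℝ) / z * (sig * W2 * P3 + S1) + eE Z z * S3)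
        + (pk2N Z : ℝ) / 10000 * ((rhoN Z : ℝ) / z * (sig * W2 * W4 + S2)
          + 2646 / 1000 * eE Z z * S4) := by gcongr
    _ = _ := by
        unfold sig
        push_cast
        field_simp
        ring

theorem winT_sound (Z : Zn) (z lo x W2 W4 P3 : ℕ) (hZ : znOK Z = true) (hw : winOK lo x = true)
    (hz : 0 < z) (h2 : cN (2 * x + 1) ≤ W2) (h4 : cN (4 * x + 1) ≤ W4)
    (h3 : cP (283 * x / 100) ≤ P3) :
    ∑ k ∈ Icc lo x, (ell k : ℝ) * gw z (akR Z) k ≤ (winT Z z x W2 W4 P3 : ℝ) := by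
  simp only [znOK, winOK, band_iff, Nat.ble_eq] at hZ hw
  obtain ⟨hp, hb, hq, hx, hy0, hy1, ha⟩ := hZ
  obtain ⟨w1, w2, w3⟩ := hw
  have hpell : (Z.pp : ℤ) ^ 2 - 2 * (Z.qq : ℤ) ^ 2 = 1 ∨ (Z.pp : ℤ) ^ 2 - 2 * (Z.qq : ℤ) ^ 2 = -1 := by
    cases h : Nat.beq (Z.pp * Z.pp) (2 * (Z.qq * Z.qq) + 1)
    · rw [h] at hp
      have h' : Z.pp * Z.pp + 1 = 2 * (Z.qq * Z.qq) := Nat.eq_of_beq_eq_true hp
      right
      zify at h'
      linear_combination h'
    · have h' := Nat.eq_of_beq_eq_true h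
      left
      zify at h'
      linear_combination h'
  have hA : 0 < akR Z := by
    have h1 : (10 : ℝ) ≤ akLo Z := by exact_mod_cast ha
    have := akLo_le Z
    linarith
  have hQX : 3 * (Z.q : ℝ) ≤ swtX Z := by
    have h1 : 3 * (Z.q : ℝ) ≤ xLo Z := by exact_mod_cast hx
    exact h1.trans (swt_xLo Z)
  have hq' : (77 : ℝ) ≤ Z.q := by exact_mod_cast hq
  have hX : 0 < swtX Z := by linarith
  have hB : 0 < (Z.b : ℝ) / 10 := by
    have : (16 : ℝ) ≤ Z.b := by exact_mod_cast hb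
    linarith
  have hτ : 0 < (Z.pp : ℝ) + √2 * Z.qq := by
    refine lt_of_le_of_ne (by positivity) fun h => ?_
    rw [swtX, ← h] at hX
    simp at hX
  have hy0' : (1 : ℝ) ≤ Z.y := by exact_mod_cast hy0
  have hy1' : (Z.y : ℝ) ≤ 999 := by exact_mod_cast hy1
  have m1 : (e1 Z : ℝ) ≤ (mx (mx (e1 Z) (e2 Z)) (e3 Z z) : ℕ) := by
    exact_mod_cast (swt_mx_l _ _).trans (swt_mx_l _ _)
  have m2 : (e2 Z : ℝ) ≤ (mx (mx (e1 Z) (e2 Z)) (e3 Z z) : ℕ) := by
    exact_mod_cast (swt_mx_r _ _).trans (swt_mx_l _ _)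
  have m3 : (e3 Z z : ℝ) ≤ (mx (mx (e1 Z) (e2 Z)) (e3 Z z) : ℕ) := by
    exact_mod_cast swt_mx_r _ _
  have hK : Kern z (akR Z) ((Z.b : ℝ) / 10) ((rhoN Z : ℝ) / z) (eE Z z) (dl Z) :=
    kern_of Z.pp Z.qq hpell _ _ _ (swtX Z) ((Z.y : ℝ) / 1000) ((g4 Z z : ℝ) / 10000)
      ((mx (mx (e1 Z) (e2 Z)) (e3 Z z) : ℕ) : ℝ) _ _ _ Z.q (by exact_mod_cast hτ) hB
      (by exact_mod_cast hz) (by simp [akR]) (by simp [swtX]) hq (by nlinarith) (by linarith)
      (by linarith) (by positivity) (swt_g Z z (by omega) (by omega))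
      ((swt_b1 Z (by omega) hX.le).trans m1) ((swt_b2 Z).trans m2)
      ((swt_b3 Z z (by omega)).trans m3) (swt_rho Z z hz) (swt_E Z z hA hX.le)
      (by unfold dl; push_cast; nlinarith)
  refine (window hK hA hB (by positivity) (by positivity) (by positivity) lo x w1 w2 ?_ W2 W4 P3
    ((pk1N Z : ℝ) / 10000) ((pk2N Z : ℝ) / 10000) (by exact_mod_cast h2) (by exact_mod_cast h4)
    (by exact_mod_cast h3) (swt_pk' Z.b 2289100 _ hb (by norm_num) (by norm_num))
    (swt_pk' Z.b 1144600 _ hb (by norm_num) (by norm_num))).trans (swt_tw Z z x W2 W4 P3 hz)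
  have w4 : ((20000 * (x / 2 + 1) + 25000 : ℕ) : ℝ) ≤ ((11715 * lo : ℕ) : ℝ) := by exact_mod_cast w3
  rw [Nat.cast_add, Nat.cast_mul, Nat.cast_mul] at w4
  rw [Nat.cast_mul]
  generalize ((x / 2 + 1 : ℕ) : ℝ) = u at *
  push_cast at w4 ⊢
  linarith

end Pool.Agent.MP_a001a6_co

end

-- part MP_a001a6_co.SFin
section

/-
HINTS.  Programs are in Comp3.lean.  force x f = f x and forceL l f = f l by cases.  adv tab y is a suffix of tab, so TabOK is kept; f y ≤ look tab y for monotone f with f y ≤ y (cP, cN).  mx = max.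
chkCum: induction on tab with invariant cP (k^2) ≤ C and IncTo k incs k' (cP_sq_add); start cP 1 ≤ 1.
chkN: invariant ∑_{j<k} cP (2j+1) ≤ U (for j < e.1, cP (2j+1) ≤ cP (2 e.1); if e.1 < k use monotonicity of the sum), then cN_sq_le.
densChk: invariant DensTo k ∧ cP (k^2) ≤ C; at the end the continuation is true at some (k, C) with the invariant.
chain: call a continuation cont : St good if for all z hi a9 acc p2 p4 p3 and Ak with 0 < Ak, a9 ≤ 9/10 Ak, Inv z0 z hi Ak acc, z0 ≤ z, DensTo z, TabOK cN p2, TabOK cN p4, TabOK cP p3, cont … = true implies DensTo (10^12).  stepW preserves goodness (given znOK, cP (z0^2) ≤ base): inv_step with z' = z+st, lo' = z, hi' = x, Ak' = akR Z, T from winT_sound; inv_out and cP_sq_add give 1058 cP (z'^2) ≤ 1058 base + 1000 acc', hence DensTo z'.  Initial state: Inv z0 z0 z0 3 (2 z0+1) since ell k ≤ 2k+1 and gw ≤ 1.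
-/

namespace Pool.Agent.MP_a001a6_co

open Finset

theorem sfin_force (x : ℕ) (f : ℕ → Bool) : force x f = f x := by
  cases x <;> rfl

theorem sfin_forceL (l : List (ℕ × ℕ)) (f : List (ℕ × ℕ) → Bool) : forceL l f = f l := by
  cases l <;> rfl

theorem sfin_cN_le (y : ℕ) : cN y ≤ y := by
  classical
  unfold cN
  exact (card_filter_le _ _).trans (card_range y).le

theorem sfin_ell_le (k : ℕ) : ell k ≤ 2 * k + 1 := by
  classical
  unfold ell
  exact (card_filter_le _ _).trans (card_range _).le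

theorem sfin_tab_tail {f : ℕ → ℕ} {e : ℕ × ℕ} {t : List (ℕ × ℕ)} (h : TabOK f (e :: t)) :
    TabOK f t := fun a ha => h a (List.mem_cons_of_mem _ ha)

theorem sfin_adv {f : ℕ → ℕ} (y : ℕ) : ∀ tab : List (ℕ × ℕ), TabOK f tab → TabOK f (adv tab y)
  | [], h => h
  | e :: t, h => by
    have ih := sfin_adv y t (sfin_tab_tail h)
    have e1 : adv (e :: t) y = Bool.rec (motive := fun _ => List (ℕ × ℕ)) (adv t y) (e :: t)
        (Nat.ble y (sqr e.1)) := rfl
    rw [e1]
    cases Nat.ble y (sqr e.1)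
    · exact ih
    · exact h

theorem sfin_look {f : ℕ → ℕ} (hm : ∀ a b, a ≤ b → f a ≤ f b) (hle : ∀ y, f y ≤ y) (y : ℕ) :
    ∀ tab : List (ℕ × ℕ), TabOK f tab → f y ≤ look tab y
  | [], _ => hle y
  | e :: t, h => by
    have e1 : look (e :: t) y = Bool.rec (motive := fun _ => ℕ) y e.2 (Nat.ble y (sqr e.1)) := rfl
    rw [e1]
    cases hb : Nat.ble y (sqr e.1)
    · exact hle y
    · have h1 : y ≤ e.1 ^ 2 := by
        rw [pow_two]
        exact Nat.le_of_ble_eq_true hb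
      exact (hm _ _ h1).trans (h e List.mem_cons_self)

theorem sfin_lookP (y : ℕ) (tab : List (ℕ × ℕ)) (h : TabOK cP tab) : cP y ≤ look tab y :=
  sfin_look (fun _ _ => cP_mono) cP_le y tab h

theorem sfin_lookN (y : ℕ) (tab : List (ℕ × ℕ)) (h : TabOK cN tab) : cN y ≤ look tab y :=
  sfin_look (fun _ _ => cN_mono) sfin_cN_le y tab h

theorem sfin_mx (a b : ℕ) : mx a b = max a b := by
  unfold mx
  cases hb : Nat.ble a b
  · have h : ¬ a ≤ b := fun h => by
      rw [Nat.ble_eq_true_of_le h] at hb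
      exact Bool.noConfusion hb
    exact (max_eq_left (not_le.1 h).le).symm
  · exact (max_eq_right (Nat.le_of_ble_eq_true hb)).symm

theorem sfin_cum (k' : ℕ) : ∀ (tab incs : List (ℕ × ℕ)) (k C : ℕ), cP (k ^ 2) ≤ C →
    IncTo k incs k' → chkCum tab incs k C = true → TabOK cP tab
  | [], _, _, _, _, _, _ => fun _ h => absurd h List.not_mem_nil
  | _ :: _, [], _, _, _, _, h => Bool.noConfusion h
  | e :: t, i :: l, k, C, hC, hi, h => by
    have e1 : chkCum (e :: t) (i :: l) k C = band (Nat.beq e.1 (Nat.add k i.1))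
        (band (Nat.ble (Nat.add C i.2) e.2) (chkCum t l e.1 e.2)) := rfl
    rw [e1, band_iff, band_iff] at h
    obtain ⟨h1, h2, h3⟩ := h
    have h1' : e.1 = k + i.1 := Nat.eq_of_beq_eq_true h1
    have h2' : C + i.2 ≤ e.2 := Nat.le_of_ble_eq_true h2
    obtain ⟨hi1, hi2⟩ := hi
    have he : cP (e.1 ^ 2) ≤ e.2 := by
      rw [h1', cP_sq_add k (k + i.1) (Nat.le_add_right _ _)]
      omega
    have ih := sfin_cum k' t l e.1 e.2 he (h1' ▸ hi2) h3
    intro a ha
    rcases List.mem_cons.1 ha with rfl | ha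
    · exact he
    · exact ih a ha

theorem sfin_sum (k m U L : ℕ) (hU : ∑ j ∈ range k, cP (2 * j + 1) ≤ U) (hL : cP (2 * m) ≤ L) :
    ∑ j ∈ range m, cP (2 * j + 1) ≤ U + (m - k) * L := by
  rcases le_total m k with h | h
  · exact ((sum_le_sum_of_subset (range_subset_range.2 h)).trans hU).trans (Nat.le_add_right _ _)
  · rw [← sum_range_add_sum_Ico _ h]
    refine Nat.add_le_add hU ?_
    have h1 : ∑ j ∈ Ico k m, cP (2 * j + 1) ≤ (Ico k m).card • L :=
      sum_le_card_nsmul _ _ _ fun j hj => by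
        have := (mem_Ico.1 hj).2
        exact (cP_mono (by omega)).trans hL
    rwa [Nat.card_Ico, smul_eq_mul] at h1

theorem sfin_chkN : ∀ (tab : List (ℕ × ℕ)) (k U : ℕ) (p1 p2 : List (ℕ × ℕ)),
    ∑ j ∈ range k, cP (2 * j + 1) ≤ U → TabOK cP p1 → TabOK cP p2 →
    chkN tab k U p1 p2 = true → TabOK cN tab
  | [], _, _, _, _, _, _, _, _ => fun _ h => absurd h List.not_mem_nil
  | e :: t, k, U, p1, p2, hU, h1, h2, h => by
    have e1 : chkN (e :: t) k U p1 p2 =
      forceL (adv p1 (Nat.mul 2 e.1)) fun q1 =>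
      forceL (adv p2 (Nat.mul 2 (sqr e.1))) fun q2 =>
      force (Nat.add U (Nat.mul (Nat.sub e.1 k) (look q1 (Nat.mul 2 e.1)))) fun V =>
      band (Nat.ble (Nat.add V (look q2 (Nat.mul 2 (sqr e.1)))) e.2) (chkN t e.1 V q1 q2) := rfl
    rw [e1, sfin_forceL, sfin_forceL, sfin_force, band_iff] at h
    obtain ⟨h3, h4⟩ := h
    have a1 := sfin_adv (Nat.mul 2 e.1) p1 h1
    have a2 := sfin_adv (Nat.mul 2 (sqr e.1)) p2 h2
    have b1 := sfin_lookP (Nat.mul 2 e.1) _ a1
    have b2 := sfin_lookP (Nat.mul 2 (sqr e.1)) _ a2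
    have c1 := sfin_sum k e.1 U _ hU b1
    have ih := sfin_chkN t e.1 _ _ _ c1 a1 a2 h4
    have he : cN (e.1 ^ 2) ≤ e.2 := by
      refine (cN_sq_le e.1).trans (le_trans ?_ (Nat.le_of_ble_eq_true h3))
      refine Nat.add_le_add c1 ?_
      rw [pow_two]
      exact b2
    intro a ha
    rcases List.mem_cons.1 ha with rfl | ha
    · exact he
    · exact ih a ha

theorem sfin_dens (cont : ℕ → ℕ → Bool) : ∀ (tab : List (ℕ × ℕ)) (k C : ℕ), TabOK cP tab →
    DensTo k → cP (k ^ 2) ≤ C → densChk cont tab k C = true →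
    ∃ k C, DensTo k ∧ cP (k ^ 2) ≤ C ∧ cont k C = true
  | [], k, C, _, hd, hC, h => ⟨k, C, hd, hC, h⟩
  | e :: t, k, C, ht, hd, _, h => by
    have e1 : densChk cont (e :: t) k C = band (Bool.rec (motive := fun _ => Bool)
          (Nat.ble (Nat.mul 10000 e.2) (Nat.mul 115 (mx (sqr k) 30276))) true (Nat.ble e.1 173))
        (densChk cont t e.1 e.2) := rfl
    rw [e1, band_iff] at h
    obtain ⟨h1, h2⟩ := h
    have he : cP (e.1 ^ 2) ≤ e.2 := ht e List.mem_cons_self
    refine sfin_dens cont t e.1 e.2 (sfin_tab_tail ht) ?_ he h2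
    intro y hy1 hy2
    cases hb : Nat.ble e.1 173
    · rw [hb] at h1
      have h3 : 10000 * e.2 ≤ 115 * mx (sqr k) 30276 := Nat.le_of_ble_eq_true h1
      rw [sfin_mx] at h3
      rcases le_total y (k ^ 2) with h4 | h4
      · exact hd y hy1 h4
      · have h5 : max (sqr k) 30276 ≤ y := max_le (by rw [pow_two] at h4; exact h4) hy1
        have h6 := (cP_mono hy2).trans he
        omega
    · have h3 : e.1 ≤ 173 := Nat.le_of_ble_eq_true hb
      have h4 : e.1 ^ 2 ≤ 173 ^ 2 := Nat.pow_le_pow_left h3 2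
      omega

/-- a continuation is good if its success from a valid state gives the density bound -/
def sfinGood (z0 : ℕ) (cont : St) : Prop :=
  ∀ (z hi a9 acc : ℕ) (p2 p4 p3 : List (ℕ × ℕ)) (Ak : ℝ), 0 < Ak → (a9 : ℝ) ≤ 9 / 10 * Ak →
    Inv z0 z hi Ak acc → z0 ≤ z → DensTo z → TabOK cN p2 → TabOK cN p4 → TabOK cP p3 →
    cont z hi a9 acc p2 p4 p3 = true → DensTo 1000000000000

theorem sfin_zn (Z : Zn) (hZ : znOK Z = true) : 10 ≤ akLo Z := by
  unfold znOK at hZ
  simp only [band_iff] at hZ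
  exact Nat.le_of_ble_eq_true hZ.2.2.2.2.2.2

theorem sfin_win (lo x : ℕ) (h : winOK lo x = true) : 2000 ≤ lo := by
  unfold winOK at h
  rw [band_iff] at h
  exact Nat.le_of_ble_eq_true h.1

theorem sfin_step (z0 base : ℕ) (hb : cP (z0 ^ 2) ≤ base) (Z : Zn) (hZ : znOK Z = true)
    (cont : St) (hc : sfinGood z0 cont) : sfinGood z0 (stepW Z base cont) := by
  intro z hi a9 acc p2 p4 p3 Ak hA ha9 hI h0 hd t2 t4 t3 h
  unfold stepW at h
  rw [sfin_force, sfin_force, sfin_forceL, sfin_forceL, sfin_forceL, sfin_force, band_iff, band_iff,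
    band_iff, band_iff, band_iff] at h
  obtain ⟨h1, h2, h3, h4, h5, h6⟩ := h
  have h1' := Nat.le_of_ble_eq_true h1
  have h2' := Nat.le_of_ble_eq_true h2
  have h3' := Nat.le_of_ble_eq_true h3
  have h5' := Nat.le_of_ble_eq_true h5
  have a2 := sfin_adv (2 * (z + Z.st + Z.hs) + 1) p2 t2
  have a4 := sfin_adv (4 * (z + Z.st + Z.hs) + 1) p4 t4
  have a3 := sfin_adv (283 * (z + Z.st + Z.hs) / 100) p3 t3
  have hz := sfin_win _ _ h4
  have hT := winT_sound Z (z + Z.st) z (z + Z.st + Z.hs) _ _ _ hZ h4 (by omega)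
    (sfin_lookN _ _ a2) (sfin_lookN _ _ a4) (sfin_lookP _ _ a3)
  clear h1 h2 h3 h4 h5
  generalize winT Z (z + Z.st) (z + Z.st + Z.hs) _ _ _ = T at hT h5' h6
  have hlo := akLo_le Z
  have h10 : (10 : ℝ) ≤ akLo Z := by exact_mod_cast sfin_zn Z hZ
  have hA' : 0 < akR Z := by linarith
  have hdiv : ((9 * akLo Z / 10 : ℕ) : ℝ) ≤ 9 / 10 * akR Z := by
    have h7 : ((9 * akLo Z / 10 : ℕ) : ℝ) ≤ ((9 * akLo Z : ℕ) : ℝ) / ((10 : ℕ) : ℝ) :=
      Nat.cast_div_le
    push_cast at h7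
    linarith
  have hst : ((z + Z.st : ℕ) : ℝ) - z + 2 = ((Z.st + 2 : ℕ) : ℝ) := by
    push_cast
    ring
  have hI' := inv_step z0 z hi (z + Z.st) z (z + Z.st + Z.hs) Ak (akR Z) acc T hI h0
    (Nat.le_add_right _ _) h1' le_rfl (Nat.le_add_right _ _) hA hA'
    (by rw [hst]; exact (Nat.cast_le.2 h2').trans ha9)
    (by rw [hst]; exact (Nat.cast_le.2 h3').trans hdiv) hT
  rw [← Nat.cast_add] at hI'
  have h0' : z0 ≤ z + Z.st := h0.trans (Nat.le_add_right _ _)
  refine hc _ _ _ _ _ _ _ (akR Z) hA' hdiv hI' h0' ?_ a2 a4 a3 h6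
  intro y hy1 hy2
  rcases le_total y (z ^ 2) with h8 | h8
  · exact hd y hy1 h8
  · have h9 := inv_out _ _ _ _ _ hI'
    rw [← Nat.cast_sum] at h9
    have h11 : 1058 * ∑ k ∈ Ico z0 (z + Z.st), ell k ≤ 1000 * (acc + T) := by
      have h12 : ((1058 * ∑ k ∈ Ico z0 (z + Z.st), ell k : ℕ) : ℝ) ≤
          ((1000 * (acc + T) : ℕ) : ℝ) := by
        rw [Nat.cast_mul, Nat.cast_mul]
        push_cast at h9 ⊢
        linarith
      exact_mod_cast h12
    have h13 := cP_mono hy2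
    rw [cP_sq_add z0 (z + Z.st) h0'] at h13
    rw [pow_two] at h8
    generalize ∑ k ∈ Ico z0 (z + Z.st), ell k = S at h11 h13
    generalize z * z = zz at h8 h5'
    omega

theorem sfin_zone (z0 base : ℕ) (hb : cP (z0 ^ 2) ≤ base) (Z : Zn) (cont : St)
    (hc : sfinGood z0 cont) : sfinGood z0 (zoneRun Z base cont) := by
  intro z hi a9 acc p2 p4 p3 Ak hA ha9 hI h0 hd t2 t4 t3 h
  unfold zoneRun at h
  rw [band_iff] at h
  obtain ⟨hZ, h⟩ := h
  have key : ∀ n : ℕ, sfinGood z0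
      (Nat.rec (motive := fun _ => St) cont (fun _ ih => stepW Z base ih) n) := by
    intro n
    induction n with
    | zero => exact hc
    | succ n ih => exact sfin_step z0 base hb Z hZ _ ih
  exact key Z.n z hi a9 acc p2 p4 p3 Ak hA ha9 hI h0 hd t2 t4 t3 h

theorem sfin_chain (z0 base : ℕ) (hb : cP (z0 ^ 2) ≤ base) :
    ∀ zs : List Zn, sfinGood z0 (chain zs base)
  | [] => by
    intro z hi a9 acc p2 p4 p3 Ak _ _ _ _ hd _ _ _ h
    have e1 : chain [] base z hi a9 acc p2 p4 p3 = Nat.ble 1000000000000 z := rfl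
    rw [e1] at h
    have h1 : 1000000000000 ≤ z := Nat.le_of_ble_eq_true h
    exact fun y hy1 hy2 => hd y hy1 (hy2.trans (Nat.pow_le_pow_left h1 2))
  | Z :: zs => sfin_zone z0 base hb Z _ (sfin_chain z0 base hb zs)

theorem sfin_init (z0 : ℕ) : Inv z0 z0 z0 3 ((2 * z0 + 1 : ℕ) : ℝ) := by
  unfold Inv
  rw [Ico_self, sum_empty, mul_zero, zero_add, Icc_self, sum_singleton]
  have h1 : (ell z0 : ℝ) ≤ ((2 * z0 + 1 : ℕ) : ℝ) := Nat.cast_le.2 (sfin_ell_le z0)
  have h2 : gw z0 3 z0 ≤ 1 := by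
    unfold gw
    rw [Real.exp_le_one_iff, neg_mul, neg_nonpos]
    have := Real.pi_pos
    positivity
  exact (mul_le_of_le_one_right (Nat.cast_nonneg _) h2).trans h1

theorem finChk_sound (incs tP tN : List (ℕ × ℕ)) (zs : List Zn) (k' : ℕ) (hi : IncTo 1 incs k')
    (h : finChk incs tP tN zs = true) :
    ∀ y : ℕ, 30276 ≤ y → y ≤ 10 ^ 24 → (cP y : ℝ) ≤ 115 / 10000 * y := by
  unfold finChk at h
  rw [band_iff, band_iff] at h
  obtain ⟨h1, h2, h3⟩ := h
  have hP : TabOK cP tP := sfin_cum k' tP incs 1 1 (cP_le _) hi h1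
  have hN : TabOK cN tN := sfin_chkN tN 0 0 tP tP (by simp) hP hP h2
  have hd1 : DensTo 1 := fun y hy1 hy2 => by omega
  obtain ⟨z0, base, hd, hb, h4⟩ := sfin_dens _ tP 1 1 hP hd1 (cP_le _) h3
  have h5 := sfin_chain z0 base hb zs z0 z0 2 (2 * z0 + 1) tN tN tP 3 (by norm_num) (by norm_num)
    (sfin_init z0) le_rfl hd hN hN hP h4
  intro y hy1 hy2
  have h6 := h5 y hy1 (hy2.trans (by norm_num))
  have h7 : ((10000 * cP y : ℕ) : ℝ) ≤ ((115 * y : ℕ) : ℝ) := Nat.cast_le.2 h6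
  push_cast at h7
  linarith

end Pool.Agent.MP_a001a6_co

end
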