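import Pool.Agent.MP_a001a6_co.Mg.Final
import Pool.Agent.MP_a001a6_co.Mg.SFin
import Pool.Agent.MP_a001a6_co.RFin

/-! The computed bound on the initial range. -/

namespace Pool.Agent.MP_a001a6_co

noncomputable def subW (u v : Wn) : Bool :=
  band (Nat.ble v.k1 u.k1) (band (Nat.ble u.k2 v.k2) (Nat.ble v.c u.c))

noncomputable def refOK (l m : List Wn) : Bool := m.all fun u => l.any fun v => subW u v

theorem ub_ref (f : ℕ → ℕ) (l m : List Wn) (h : UB f l) (hr : refOK l m = true) : UB f m := by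
  intro u hu k h1 h2
  obtain ⟨v, hv, hs⟩ := List.any_eq_true.1 (List.all_eq_true.1 hr u hu)
  simp only [subW, band_iff, Nat.ble_eq] at hs
  exact (h v hv k (hs.1.trans h1) (h2.trans_le hs.2.1)).trans hs.2.2

theorem ref_chk : refOK (lA ++ lB) lC = true := by decide +kernel

theorem ub_W : UB partW (wA ++ (wB ++ wC)) := by
  have hl := tl_sound base_chk _ _ _ _ tl_chk
  have hw := tw_sound base_chk _ _ _ _ tw_chk
  exact ub_append _ _ _ (modW_sound _ _ _ _ _ _ _ _ hl hw wA_chk)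
    (ub_append _ _ _ (modW_sound _ _ _ _ _ _ _ _ hl hw wB_chk)
      (modW_sound _ _ _ _ _ _ _ _ hl hw wC_chk))

theorem ub_L : UB partL lC := by
  have hl := tl_sound base_chk _ _ _ _ tl_chk
  have hw := tw_sound base_chk _ _ _ _ tw_chk
  exact ub_ref _ _ _ (ub_append _ _ _ (modL_sound _ _ _ _ _ _ _ _ hl hw lA_chk)
    (modL_sound _ _ _ _ _ _ _ _ hl hw lB_chk)) ref_chk

theorem incs_ok : ∃ k', IncTo 1 incs k' := by
  obtain ⟨k', hk'⟩ := incs2_sound _ _ 32768 (by norm_num) ub_W ub_L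
  have h0 := m1_sound base_chk 3 0 255 1 1 256 a0 (by norm_num) (by norm_num) (by norm_num)
    (by norm_num) m1_0
  have h1 := m1_sound base_chk 3 2 64 256 4 512 a1 (by norm_num) (by norm_num) (by norm_num)
    (by norm_num) m1_1
  have h2 := m1_sound base_chk 3 3 64 512 8 1024 a2 (by norm_num) (by norm_num) (by norm_num)
    (by norm_num) m1_2
  have h3 := m1_sound base_chk 3 4 64 1024 16 2048 a3 (by norm_num) (by norm_num) (by norm_num)
    (by norm_num) m1_3
  have h4 := m1_sound base_chk 3 5 64 2048 32 4096 a4 (by norm_num) (by norm_num) (by norm_num)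
    (by norm_num) m1_4
  have h5 := m1_sound base_chk 3 6 64 4096 64 8192 a5 (by norm_num) (by norm_num) (by norm_num)
    (by norm_num) m1_5
  have h6 := m1_sound base_chk 2 7 64 8192 128 16384 a6 (by norm_num) (by norm_num) (by norm_num)
    (by norm_num) m1_6
  have h7 := m1_sound base_chk 1 8 64 16384 256 32768 a7 (by norm_num) (by norm_num) (by norm_num)
    (by norm_num) m1_7
  exact ⟨k', incTo_app _ _ _ _ _ h0 (incTo_app _ _ _ _ _ h1 (incTo_app _ _ _ _ _ h2
    (incTo_app _ _ _ _ _ h3 (incTo_app _ _ _ _ _ h4 (incTo_app _ _ _ _ _ h5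
    (incTo_app _ _ _ _ _ h6 (incTo_app _ _ _ _ _ h7 hk')))))))⟩

theorem base_bound (y : ℕ) (h1 : 30276 ≤ y) (h2 : y ≤ 10 ^ 24) : (cP y : ℝ) ≤ 115 / 10000 * y := by
  obtain ⟨k', hk'⟩ := incs_ok
  exact finChk_sound incs tP tN zs k' hk' fin_chk y h1 h2

end Pool.Agent.MP_a001a6_co
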